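import Mathlib
import Pool.Agent.FTfinal.FT934_Ends
set_option autoImplicit false
open MeasureTheory intervalIntegral Set
namespace FT722
noncomputable section

/-- ends of horizontal chords exist -/
theorem chord_compact {a : ℝ} {U : ℝ → ℝ} (h : Body a U) (y : ℝ) :
    IsCompact {s : ℝ | (s, y) ∈ KU a U} := by
  have e : {s : ℝ | (s, y) ∈ KU a U} =
      (Icc (-a) a ∩ (fun s => U (-s)) ⁻¹' (Ici (-y))) ∩ (Icc (-a) a ∩ U ⁻¹' (Ici y)) := by
    ext s
    simp only [Set.mem_ofPred_eq, mem_KU_iff, mem_inter_iff, mem_preimage, mem_Ici]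
    constructor
    · rintro ⟨h1, h2, h3⟩
      exact ⟨⟨h1, by linarith⟩, ⟨h1, h3⟩⟩
    · rintro ⟨⟨h1, h2⟩, ⟨_, h3⟩⟩
      exact ⟨h1, by linarith, h3⟩
  rw [e]
  apply IsCompact.inter
  · exact isCompact_Icc.of_isClosed_subset
      ((cont_neg h).preimage_isClosed_of_isClosed isClosed_Icc isClosed_Ici) inter_subset_left
  · exact isCompact_Icc.of_isClosed_subset
      (h.cont.preimage_isClosed_of_isClosed isClosed_Icc isClosed_Ici) inter_subset_left

theorem exists_left {a : ℝ} {U : ℝ → ℝ} (h : Body a U) {z : ℝ × ℝ} (hz : z ∈ KU a U) :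
    ∃ x, x ≤ z.1 ∧ (x, z.2) ∈ KU a U ∧ ∀ s < x, (s, z.2) ∉ KU a U := by
  obtain ⟨x, hx⟩ := (chord_compact h z.2).exists_isLeast ⟨z.1, hz⟩
  exact ⟨x, hx.2 hz, hx.1, fun s hs hm => absurd (hx.2 hm) (not_le.mpr hs)⟩

theorem exists_right {a : ℝ} {U : ℝ → ℝ} (h : Body a U) {z : ℝ × ℝ} (hz : z ∈ KU a U) :
    ∃ x, z.1 ≤ x ∧ (x, z.2) ∈ KU a U ∧ ∀ s, x < s → (s, z.2) ∉ KU a U := by
  obtain ⟨x, hx⟩ := (chord_compact h z.2).exists_isGreatest ⟨z.1, hz⟩
  exact ⟨x, hx.2 hz, hx.1, fun s hs hm => absurd (hx.2 hm) (not_le.mpr hs)⟩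

theorem zero_mem {a : ℝ} {U : ℝ → ℝ} (h : Body a U) : (0 : ℝ × ℝ) ∈ KU a U := by
  obtain ⟨r, hr, hK⟩ := h.int
  exact hK 0 (by simp; exact hr.le) (by simp; exact hr.le)

/-- `t • z ∈ K` for `|t| ≤ 1` -/
theorem smul_mem_KU {a : ℝ} {U : ℝ → ℝ} (h : Body a U) {z : ℝ × ℝ} (hz : z ∈ KU a U) {t : ℝ}
    (ht : |t| ≤ 1) : t • z ∈ KU a U := by
  rw [abs_le] at ht
  have := (KU_convex h) hz (KU_neg hz) (show (0:ℝ) ≤ (1 + t) / 2 by linarith)
    (show (0:ℝ) ≤ (1 - t) / 2 by linarith) (by ring)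
  convert this using 1
  rw [smul_neg, ← sub_eq_add_neg, ← sub_smul]
  congr 1
  ring

/-- sign -/
theorem ends_sign {a : ℝ} {U : ℝ → ℝ} (h : Body a U) {z z' : ℝ × ℝ}
    (hz : z ∈ KU a U) (hz' : z' ∈ KU a U)
    (hl : ∀ s < z.1, (s, z.2) ∉ KU a U) (hr : ∀ s, z'.1 < s → (s, z'.2) ∉ KU a U)
    (hy : 0 ≤ z.2 + z'.2) : 0 ≤ cr z' z := by
  unfold cr
  rcases le_total z'.2 z.2 with h1 | h1
  · -- z.2 is the bigger one
    rcases (show 0 ≤ z.2 by linarith).eq_or_lt with h0 | h0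
    · have h2 : z'.2 = 0 := by linarith
      rw [← h0, h2]; simp
    · have ht : |z'.2 / z.2| ≤ 1 := by
        rw [abs_div, abs_of_pos h0, div_le_one h0, abs_le]
        constructor <;> linarith
      have hm := smul_mem_KU h hz ht
      have e2 : (z'.2 / z.2) • z = ((z'.2 / z.2) * z.1, z'.2) := by
        ext
        · simp
        · simp; field_simp
      rw [e2] at hm
      have h3 : (z'.2 / z.2) * z.1 ≤ z'.1 := by
        by_contra hcon
        push Not at hcon
        exact hr _ hcon hm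
      have h4 := mul_le_mul_of_nonneg_right h3 h0.le
      have h5 : (z'.2 / z.2) * z.1 * z.2 = z'.2 * z.1 := by field_simp
      linarith
  · rcases (show 0 ≤ z'.2 by linarith).eq_or_lt with h0 | h0
    · have h2 : z.2 = 0 := by linarith
      rw [← h0, h2]; simp
    · have ht : |z.2 / z'.2| ≤ 1 := by
        rw [abs_div, abs_of_pos h0, div_le_one h0, abs_le]
        constructor <;> linarith
      have hm := smul_mem_KU h hz' ht
      have e2 : (z.2 / z'.2) • z' = ((z.2 / z'.2) * z'.1, z.2) := by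
        ext
        · simp
        · simp; field_simp
      rw [e2] at hm
      have h3 : z.1 ≤ (z.2 / z'.2) * z'.1 := by
        by_contra hcon
        push Not at hcon
        exact hl _ hcon hm
      have h4 := mul_le_mul_of_nonneg_right h3 h0.le
      have h5 : (z.2 / z'.2) * z'.1 * z'.2 = z.2 * z'.1 := by field_simp
      linarith

/-! mirror -/
theorem mem_mirror {a : ℝ} {U : ℝ → ℝ} {p : ℝ × ℝ} :
    p ∈ KU a (fun s => U (-s)) ↔ (-p.1, p.2) ∈ KU a U := by
  unfold KU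
  simp only [Set.mem_ofPred_eq, abs_neg, neg_neg]

theorem Body.mirror {a : ℝ} {U : ℝ → ℝ} (h : Body a U) : Body a (fun s => U (-s)) where
  pos := h.pos
  conc := by
    refine ⟨convex_Icc _ _, ?_⟩
    intro x hx y hy s t hs ht hst
    have := h.conc.2 (neg_mem_Icc hx) (neg_mem_Icc hy) hs ht hst
    simp only [smul_eq_mul] at this ⊢
    have e : s * -x + t * -y = -(s * x + t * y) := by ring
    rwa [e] at this
  cont := cont_neg h
  nn := by
    intro x hx
    have := h.nn x hx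
    simp only [neg_neg]; linarith
  int := by
    obtain ⟨r, hr, hK⟩ := h.int
    refine ⟨r, hr, fun p h1 h2 => ?_⟩
    rw [mem_mirror]
    exact hK _ (by simpa using h1) (by simpa using h2)

theorem Phi_mirror {a : ℝ} {U : ℝ → ℝ} (z : ℝ × ℝ) :
    Phi a (fun s => U (-s)) (-z.1, z.2) 0 = -Phi a U z 0 := by
  have hc : ∀ s, cl (fun s => U (-s)) (-z.1, z.2) 0 s = cl U z 0 (-s) := by
    intro s
    simp [cl]
  have e1 : ∫ s in (-z.1)..a, cl (fun s => U (-s)) (-z.1, z.2) 0 s = ∫ s in (-a)..z.1, cl U z 0 s := by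
    have := intervalIntegral.integral_comp_neg (a := -z.1) (b := a) (fun s => cl U z 0 s)
    rw [neg_neg] at this
    rw [← this]
    exact intervalIntegral.integral_congr (fun s _ => hc s)
  have e2 : ∫ s in (-a)..(-z.1), cl (fun s => U (-s)) (-z.1, z.2) 0 s = ∫ s in z.1..a, cl U z 0 s := by
    have := intervalIntegral.integral_comp_neg (a := -a) (b := -z.1) (fun s => cl U z 0 s)
    rw [neg_neg, neg_neg] at this
    rw [← this]
    exact intervalIntegral.integral_congr (fun s _ => hc s)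
  unfold Phi
  simp only
  rw [e1, e2]
  ring

/-- both orders of heights -/
theorem ends_ineq' {a : ℝ} {U : ℝ → ℝ} (h : Body a U) {z z' : ℝ × ℝ}
    (hz : z ∈ KU a U) (hz' : z' ∈ KU a U)
    (hl : ∀ s < z.1, (s, z.2) ∉ KU a U) (hr : ∀ s, z'.1 < s → (s, z'.2) ∉ KU a U)
    (hcr : 0 ≤ cr z' z) :
    Phi a U z 0 - Phi a U z' 0 ≤ cr z' z := by
  rcases le_total z'.2 z.2 with hy | hy
  · exact ends_ineq h hz hz' hl hr hy hcr
  · have h1 : ((-z'.1, z'.2) : ℝ × ℝ) ∈ KU a (fun s => U (-s)) := by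
      rw [mem_mirror]; simpa using hz'
    have h2 : ((-z.1, z.2) : ℝ × ℝ) ∈ KU a (fun s => U (-s)) := by
      rw [mem_mirror]; simpa using hz
    have h3 : cr (-z.1, z.2) (-z'.1, z'.2) = cr z' z := by
      unfold cr; ring
    have := ends_ineq h.mirror h1 h2
      (by
        intro s hs hm
        rw [mem_mirror] at hm
        simp only at hm hs
        exact hr (-s) (by linarith) hm)
      (by
        intro s hs hm
        rw [mem_mirror] at hm
        simp only at hm hs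
        exact hl (-s) (by linarith) hm)
      (by simpa using hy) (by rw [h3]; exact hcr)
    rw [Phi_mirror, Phi_mirror, h3] at this
    linarith

theorem Q0_pos {a : ℝ} {U : ℝ → ℝ} (h : Body a U) {m : ℝ}
    (hm : ∀ p ∈ KU a U, ∀ q ∈ KU a U, cr p q ≤ m) {z z' : ℝ × ℝ}
    (hz : z ∈ KU a U) (hz' : z' ∈ KU a U) (hy : 0 ≤ z.2 + z'.2) :
    cr z' z + Phi a U z 0 - Phi a U z' 0 ≤ 2 * m := by
  obtain ⟨x, hx, hxm, hxl⟩ := exists_left h hz
  obtain ⟨x', hx', hxm', hxr⟩ := exists_right h hz'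
  have s1 := ends_sign h hxm hxm' hxl hxr hy
  have s2 := ends_ineq' h hxm hxm' hxl hxr s1
  have s3 := hm _ hxm' _ hxm
  have l1 := Phi_line h (μ := 0) hz hxm (by simp)
  have l2 := Phi_line h (μ := 0) hz' hxm' (by simp)
  unfold cr at *
  simp only at *
  nlinarith [mul_nonneg (sub_nonneg.mpr hx) hy, mul_nonneg (sub_nonneg.mpr hx') hy]

theorem Q0 {a : ℝ} {U : ℝ → ℝ} (h : Body a U) {m : ℝ}
    (hm : ∀ p ∈ KU a U, ∀ q ∈ KU a U, cr p q ≤ m) {z z' : ℝ × ℝ}
    (hz : z ∈ KU a U) (hz' : z' ∈ KU a U) :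
    cr z' z + Phi a U z 0 - Phi a U z' 0 ≤ 2 * m := by
  rcases le_total 0 (z.2 + z'.2) with hy | hy
  · exact Q0_pos h hm hz hz' hy
  · have := Q0_pos h hm (KU_neg hz) (KU_neg hz') (by simp only [Prod.snd_neg]; linarith)
    rw [Phi_even h hz, Phi_even h hz'] at this
    have e : cr (-z') (-z) = cr z' z := by unfold cr; simp
    rwa [e] at this

/-! shear -/
theorem mem_shear {a : ℝ} {U : ℝ → ℝ} {μ : ℝ} {p : ℝ × ℝ} :
    p ∈ KU a (fun s => U s - μ * s) ↔ (p.1, p.2 + μ * p.1) ∈ KU a U := by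
  unfold KU
  simp only [Set.mem_ofPred_eq]
  constructor
  · rintro ⟨h1, h2, h3⟩
    exact ⟨h1, by linarith, by linarith⟩
  · rintro ⟨h1, h2, h3⟩
    exact ⟨h1, by linarith, by linarith⟩

theorem Body.shear {a : ℝ} {U : ℝ → ℝ} (h : Body a U) (μ : ℝ) : Body a (fun s => U s - μ * s) where
  pos := h.pos
  conc := by
    refine ⟨convex_Icc _ _, ?_⟩
    intro x hx y hy s t hs ht hst
    have := h.conc.2 hx hy hs ht hst
    simp only [smul_eq_mul] at this ⊢
    nlinarith
  cont := h.cont.sub (by fun_prop)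
  nn := by
    intro x hx
    have := h.nn x hx
    linarith
  int := by
    obtain ⟨r, hr, hK⟩ := h.int
    refine ⟨r / (1 + |μ|), by positivity, fun p h1 h2 => ?_⟩
    rw [mem_shear]
    have hpos : 0 < 1 + |μ| := by positivity
    have h3 : r / (1 + |μ|) ≤ r := by
      apply div_le_self hr.le
      linarith [abs_nonneg μ]
    refine hK _ (by simpa using h1.trans h3) ?_
    simp only
    calc |p.2 + μ * p.1| ≤ |p.2| + |μ * p.1| := abs_add_le _ _
      _ = |p.2| + |μ| * |p.1| := by rw [abs_mul]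
      _ ≤ r / (1 + |μ|) + |μ| * (r / (1 + |μ|)) := by
          have := mul_le_mul_of_nonneg_left h1 (abs_nonneg μ)
          linarith
      _ = r := by field_simp

theorem Phi_shear {a : ℝ} {U : ℝ → ℝ} (h : Body a U) {z : ℝ × ℝ} (hz : z ∈ KU a U) (μ : ℝ) :
    Phi a (fun s => U s - μ * s) (z.1, z.2 - μ * z.1) 0 = Phi a U z μ - μ * a ^ 2 := by
  have hc : ∀ s, cl (fun s => U s - μ * s) (z.1, z.2 - μ * z.1) 0 s = cl U z μ s - μ * s := by
    intro s
    simp only [cl]
    rw [← max_sub_sub_right, ← min_sub_sub_right]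
    congr 1
    · ring
    · congr 1
      ring
  have i1 : ∀ p ∈ Icc (-a) a, ∀ q ∈ Icc (-a) a,
      ∫ s in p..q, cl (fun s => U s - μ * s) (z.1, z.2 - μ * z.1) 0 s
        = (∫ s in p..q, cl U z μ s) - μ * ((q ^ 2 - p ^ 2) / 2) := by
    intro p hp q hq
    rw [intervalIntegral.integral_congr (fun s _ => hc s),
      intervalIntegral.integral_sub (cl_ii h z μ hp hq) (by
        apply Continuous.intervalIntegrable; fun_prop)]
    rw [intervalIntegral.integral_const_mul, integral_id]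
  unfold Phi
  simp only
  rw [i1 _ (KU_Icc hz) _ (mem_a h), i1 _ (mem_na h) _ (KU_Icc hz)]
  ring

theorem Q_lemma {a : ℝ} {U : ℝ → ℝ} (h : Body a U) {m : ℝ}
    (hm : ∀ p ∈ KU a U, ∀ q ∈ KU a U, cr p q ≤ m) {z z' : ℝ × ℝ} (μ : ℝ)
    (hz : z ∈ KU a U) (hz' : z' ∈ KU a U) :
    cr z' z + Phi a U z μ - Phi a U z' μ ≤ 2 * m := by
  have hm' : ∀ p ∈ KU a (fun s => U s - μ * s), ∀ q ∈ KU a (fun s => U s - μ * s), cr p q ≤ m := by
    intro p hp q hq
    rw [mem_shear] at hp hq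
    have := hm _ hp _ hq
    unfold cr at *
    simp only at this
    linarith
  have h1 : ((z.1, z.2 - μ * z.1) : ℝ × ℝ) ∈ KU a (fun s => U s - μ * s) := by
    rw [mem_shear]; simpa using hz
  have h2 : ((z'.1, z'.2 - μ * z'.1) : ℝ × ℝ) ∈ KU a (fun s => U s - μ * s) := by
    rw [mem_shear]; simpa using hz'
  have := Q0 (h.shear μ) hm' h1 h2
  rw [Phi_shear h hz, Phi_shear h hz'] at this
  unfold cr at *
  simp only at this
  linarith

end
end FT722
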