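import Mathlib
import Pool.Agent.FTfinal.FT934_Chain
set_option autoImplicit false
open MeasureTheory intervalIntegral Set
namespace FT722
noncomputable section

section pieces
variable {a : ℝ} {U : ℝ → ℝ} {f : ℝ → ℝ} {x x' : ℝ} {c : ℝ × ℝ}

theorem shift_cont (hfc : ContinuousOn f (Icc x x')) (c : ℝ × ℝ) :
    ContinuousOn (fun s => f (s + c.1) - c.2) (Icc (x - c.1) (x' - c.1)) := by
  apply ContinuousOn.sub _ continuousOn_const
  apply hfc.comp (by fun_prop)
  intro s hs
  exact ⟨by linarith [hs.1], by linarith [hs.2]⟩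

theorem shift_mem (hK : ∀ s ∈ Icc x x', ((s, f s) : ℝ × ℝ) - c ∈ KU a U) :
    ∀ s ∈ Icc (x - c.1) (x' - c.1), (s, f (s + c.1) - c.2) ∈ KU a U := by
  intro s hs
  have := hK (s + c.1) ⟨by linarith [hs.1], by linarith [hs.2]⟩
  have e : ((s + c.1, f (s + c.1)) : ℝ × ℝ) - c = (s, f (s + c.1) - c.2) := by
    ext <;> simp
  rwa [e] at this

theorem sub_eq' (x y : ℝ) (c : ℝ × ℝ) : ((x, y) : ℝ × ℝ) - c = (x - c.1, y - c.2) := by
  ext <;> simp

theorem piece_fin (h : Body a U) (hx : x < x') (hfc : ContinuousOn f (Icc x x'))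
    (hK : ∀ s ∈ Icc x x', ((s, f s) : ℝ × ℝ) - c ∈ KU a U) {μ μ' : ℝ}
    (hμ : ∀ s ∈ Icc x x', f s ≤ f x + μ * (s - x))
    (hμ' : ∀ s ∈ Icc x x', f s ≤ f x' + μ' * (s - x')) :
    2 * (∫ s in x..x', f s) + x * f x - x' * f x' + Phi a U ((x', f x') - c) μ' + cr c (x', f x')
      ≤ Phi a U ((x, f x) - c) μ + cr c (x, f x) := by
  have hmm : μ' ≤ μ := by
    have h1 := hμ x' ⟨hx.le, le_refl _⟩
    have h2 := hμ' x ⟨le_refl _, hx.le⟩
    have h3 : 0 < x' - x := by linarith
    by_contra hcon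
    push Not at hcon
    have := mul_lt_mul_of_pos_right hcon h3
    linarith
  apply piece_global hx.le hfc
  have := Phi_curve h (f := fun s => f (s + c.1) - c.2) (x := x - c.1) (x' := x' - c.1)
    (μ := μ) (μ' := μ') (by linarith) (shift_cont hfc c) (shift_mem hK)
    (by
      intro s hs
      have := hμ (s + c.1) ⟨by linarith [hs.1], by linarith [hs.2]⟩
      simp only [sub_add_cancel]
      linarith)
    (by
      intro s hs
      have := hμ' (s + c.1) ⟨by linarith [hs.1], by linarith [hs.2]⟩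
      simp only [sub_add_cancel]
      linarith) hmm
  simp only [sub_add_cancel] at this
  rw [sub_eq', sub_eq']
  exact this

theorem piece_max (h : Body a U) (hx : x ≤ x') (hfc : ContinuousOn f (Icc x x'))
    (hK : ∀ s ∈ Icc x x', ((s, f s) : ℝ × ℝ) - c ∈ KU a U) {μ' : ℝ}
    (hμ' : ∀ s ∈ Icc x x', f s ≤ f x' + μ' * (s - x')) :
    2 * (∫ s in x..x', f s) + x * f x - x' * f x' + Phi a U ((x', f x') - c) μ' + cr c (x', f x')
      ≤ Phmax a U ((x, f x) - c) + cr c (x, f x) := by
  apply piece_global hx hfc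
  have := curve_max h (f := fun s => f (s + c.1) - c.2) (x := x - c.1) (x' := x' - c.1)
    (μ' := μ') (by linarith) (shift_cont hfc c) (shift_mem hK)
    (by
      intro s hs
      have := hμ' (s + c.1) ⟨by linarith [hs.1], by linarith [hs.2]⟩
      simp only [sub_add_cancel]
      linarith)
  simp only [sub_add_cancel] at this
  rw [sub_eq', sub_eq']
  exact this

theorem piece_min (h : Body a U) (hx : x ≤ x') (hfc : ContinuousOn f (Icc x x'))
    (hK : ∀ s ∈ Icc x x', ((s, f s) : ℝ × ℝ) - c ∈ KU a U) {μ : ℝ}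
    (hμ : ∀ s ∈ Icc x x', f s ≤ f x + μ * (s - x)) :
    2 * (∫ s in x..x', f s) + x * f x - x' * f x' + Phmin a U ((x', f x') - c) + cr c (x', f x')
      ≤ Phi a U ((x, f x) - c) μ + cr c (x, f x) := by
  apply piece_global hx hfc
  have := curve_min h (f := fun s => f (s + c.1) - c.2) (x := x - c.1) (x' := x' - c.1)
    (μ := μ) (by linarith) (shift_cont hfc c) (shift_mem hK)
    (by
      intro s hs
      have := hμ (s + c.1) ⟨by linarith [hs.1], by linarith [hs.2]⟩
      simp only [sub_add_cancel]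
      linarith)
  simp only [sub_add_cancel] at this
  rw [sub_eq', sub_eq']
  exact this

theorem piece_max_min (h : Body a U) (hx : x ≤ x') (hfc : ContinuousOn f (Icc x x'))
    (hK : ∀ s ∈ Icc x x', ((s, f s) : ℝ × ℝ) - c ∈ KU a U) :
    2 * (∫ s in x..x', f s) + x * f x - x' * f x' + Phmin a U ((x', f x') - c) + cr c (x', f x')
      ≤ Phmax a U ((x, f x) - c) + cr c (x, f x) := by
  apply piece_global hx hfc
  have := curve_max_min h (f := fun s => f (s + c.1) - c.2) (x := x - c.1) (x' := x' - c.1)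
    (by linarith) (shift_cont hfc c) (shift_mem hK)
  simp only [sub_add_cancel] at this
  rw [sub_eq', sub_eq']
  exact this

end pieces

section top
variable {ι : Type} [DecidableEq ι] {a : ℝ} {U : ℝ → ℝ} {m : ℝ}

/-- cost of a possible jump -/
theorem jump' (h : Body a U) (hm : ∀ p ∈ KU a U, ∀ q ∈ KU a U, cr p q ≤ m) (μ : ℝ)
    (c : ι → ℝ × ℝ) {i i' : ι} {w : ℝ × ℝ} (hz : w - c i ∈ KU a U) (hz' : w - c i' ∈ KU a U) :
    Phi a U (w - c i) μ + cr (c i) w ≤ Phi a U (w - c i') μ + cr (c i') w + cr (c i) (c i') +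
      2 * m * (if i' ≠ i then 1 else 0) := by
  split_ifs with hi
  · have := jump h hm μ hz hz'
    linarith
  · push Not at hi
    subst hi
    have : cr (c i') (c i') = 0 := by unfold cr; ring
    rw [this]; simp

theorem x_mono {x : ℕ → ℝ} {N : ℕ} (hx : ∀ j < N, x j < x (j + 1)) :
    ∀ j ≤ N, ∀ i ≤ j, x i ≤ x j := by
  intro j
  induction j with
  | zero => intro _ i hi; rw [Nat.le_zero.mp hi]
  | succ j ih =>
    intro hj i hi
    rcases Nat.lt_or_ge i (j + 1) with h1 | h1
    · exact (ih (by omega) i (by omega)).trans (hx j (by omega)).le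
    · have : i = j + 1 := by omega
      rw [this]

theorem top_aux (h : Body a U) (hm : ∀ p ∈ KU a U, ∀ q ∈ KU a U, cr p q ≤ m)
    (c : ι → ℝ × ℝ) (t : ℕ → ι) (x : ℕ → ℝ) (N : ℕ) (f : ℝ → ℝ)
    (hx : ∀ j < N, x j < x (j + 1)) (hf : ConcaveOn ℝ (Icc (x 0) (x N)) f)
    (hfc : ContinuousOn f (Icc (x 0) (x N)))
    (hK : ∀ j < N, ∀ s ∈ Icc (x j) (x (j + 1)), ((s, f s) : ℝ × ℝ) - c (t j) ∈ KU a U) :
    ∀ k, k + 1 < N → ∀ μ : ℝ,
      (∀ s ∈ Icc (x 0) (x N), f s ≤ f (x (k + 1)) + μ * (s - x (k + 1))) →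
      2 * (∫ s in (x 0)..(x (k + 1)), f s) + x 0 * f (x 0) - x (k + 1) * f (x (k + 1)) +
        Phi a U ((x (k + 1), f (x (k + 1))) - c (t k)) μ + cr (c (t k)) (x (k + 1), f (x (k + 1)))
      ≤ Phmax a U ((x 0, f (x 0)) - c (t 0)) + cr (c (t 0)) (x 0, f (x 0)) +
        (∑ j ∈ Finset.range k, cr (c (t (j + 1))) (c (t j))) +
        2 * m * (((Finset.range k).filter (fun j => t j ≠ t (j + 1))).card : ℝ) := by
  have hmono := x_mono hx
  have hsub : ∀ j < N, Icc (x j) (x (j + 1)) ⊆ Icc (x 0) (x N) := by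
    intro j hj
    apply Icc_subset_Icc (hmono j (by omega) 0 (by omega)) (hmono N le_rfl (j + 1) (by omega))
  have hint : ∀ i j, i ≤ j → j ≤ N → IntervalIntegrable f volume (x i) (x j) := by
    intro i j hij hj
    apply ContinuousOn.intervalIntegrable
    rw [uIcc_of_le (hmono j hj i hij)]
    exact hfc.mono (Icc_subset_Icc (hmono i (by omega) 0 (by omega)) (hmono N le_rfl j hj))
  intro k
  induction k with
  | zero =>
    intro hk μ hμ
    have := piece_max h (hx 0 (by omega)).le (hfc.mono (hsub 0 (by omega))) (hK 0 (by omega))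
      (fun s hs => hμ s (hsub 0 (by omega) hs))
    simp only [Finset.range_zero, Finset.sum_empty, Finset.filter_empty, Finset.card_empty]
    simpa using this
  | succ k ih =>
    intro hk μ hμ
    obtain ⟨ν, hν⟩ := exists_supergrad (x := x (k + 1)) hf
      (lt_of_lt_of_le (hx 0 (by omega)) (hmono (k + 1) (by omega) 1 (by omega)))
      (lt_of_lt_of_le (hx (k + 1) (by omega)) (hmono N le_rfl (k + 2) (by omega)))
    have h1 := ih (by omega) ν hν
    have h2 := piece_fin (c := c (t (k + 1))) h (hx (k + 1) (by omega)) (hfc.mono (hsub (k + 1) (by omega)))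
      (hK (k + 1) (by omega)) (μ := ν) (μ' := μ) (fun s hs => hν s (hsub (k + 1) (by omega) hs))
      (fun s hs => hμ s (hsub (k + 1) (by omega) hs))
    have h3 := jump' h hm ν c (i := t (k + 1)) (i' := t k) (w := (x (k + 1), f (x (k + 1))))
      (hK (k + 1) (by omega) _ ⟨le_rfl, (hx (k + 1) (by omega)).le⟩)
      (hK k (by omega) _ ⟨(hx k (by omega)).le, le_rfl⟩)
    have e1 : (∫ s in (x 0)..(x (k + 1 + 1)), f s) =
        (∫ s in (x 0)..(x (k + 1)), f s) + ∫ s in (x (k + 1))..(x (k + 1 + 1)), f s :=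
      (intervalIntegral.integral_add_adjacent_intervals (hint 0 (k + 1) (by omega) (by omega))
        (hint (k + 1) (k + 1 + 1) (by omega) (by omega))).symm
    have e2 : (((Finset.range (k + 1)).filter (fun j => t j ≠ t (j + 1))).card : ℝ) =
        (((Finset.range k).filter (fun j => t j ≠ t (j + 1))).card : ℝ) +
          (if t k ≠ t (k + 1) then 1 else 0) := by
      rw [Finset.range_add_one, Finset.filter_insert]
      split_ifs with hi
      · rw [Finset.card_insert_of_notMem (by simp)]; push_cast; ring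
      · simp
    rw [e1, e2, Finset.sum_range_succ]
    linarith

/-- the whole top chain -/
theorem top_chain (h : Body a U) (hm : ∀ p ∈ KU a U, ∀ q ∈ KU a U, cr p q ≤ m)
    (c : ι → ℝ × ℝ) (t : ℕ → ι) (x : ℕ → ℝ) (n : ℕ) (f : ℝ → ℝ)
    (hx : ∀ j < n + 1, x j < x (j + 1)) (hf : ConcaveOn ℝ (Icc (x 0) (x (n + 1))) f)
    (hfc : ContinuousOn f (Icc (x 0) (x (n + 1))))
    (hK : ∀ j < n + 1, ∀ s ∈ Icc (x j) (x (j + 1)), ((s, f s) : ℝ × ℝ) - c (t j) ∈ KU a U) :
      2 * (∫ s in (x 0)..(x (n + 1)), f s) + x 0 * f (x 0) - x (n + 1) * f (x (n + 1)) +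
        Phmin a U ((x (n + 1), f (x (n + 1))) - c (t n)) + cr (c (t n)) (x (n + 1), f (x (n + 1)))
      ≤ Phmax a U ((x 0, f (x 0)) - c (t 0)) + cr (c (t 0)) (x 0, f (x 0)) +
        (∑ j ∈ Finset.range n, cr (c (t (j + 1))) (c (t j))) +
        2 * m * (((Finset.range n).filter (fun j => t j ≠ t (j + 1))).card : ℝ) := by
  have hmono := x_mono hx
  have hsub : ∀ j < n + 1, Icc (x j) (x (j + 1)) ⊆ Icc (x 0) (x (n + 1)) := by
    intro j hj
    apply Icc_subset_Icc (hmono j (by omega) 0 (by omega)) (hmono (n + 1) le_rfl (j + 1) (by omega))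
  have hint : ∀ i j, i ≤ j → j ≤ n + 1 → IntervalIntegrable f volume (x i) (x j) := by
    intro i j hij hj
    apply ContinuousOn.intervalIntegrable
    rw [uIcc_of_le (hmono j hj i hij)]
    exact hfc.mono (Icc_subset_Icc (hmono i (by omega) 0 (by omega)) (hmono (n + 1) le_rfl j hj))
  cases n with
  | zero =>
    have := piece_max_min h (hx 0 (by omega)).le (hfc.mono (hsub 0 (by omega))) (hK 0 (by omega))
    simp only [Finset.range_zero, Finset.sum_empty, Finset.filter_empty, Finset.card_empty]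
    simpa using this
  | succ k =>
    obtain ⟨ν, hν⟩ := exists_supergrad (x := x (k + 1)) hf
      (lt_of_lt_of_le (hx 0 (by omega)) (hmono (k + 1) (by omega) 1 (by omega)))
      (hx (k + 1) (by omega))
    have h1 := top_aux h hm c t x (k + 1 + 1) f hx hf hfc hK k (by omega) ν hν
    have h2 := piece_min (c := c (t (k + 1))) h (hx (k + 1) (by omega)).le (hfc.mono (hsub (k + 1) (by omega)))
      (hK (k + 1) (by omega)) (μ := ν) (fun s hs => hν s (hsub (k + 1) (by omega) hs))
    have h3 := jump' h hm ν c (i := t (k + 1)) (i' := t k) (w := (x (k + 1), f (x (k + 1))))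
      (hK (k + 1) (by omega) _ ⟨le_rfl, (hx (k + 1) (by omega)).le⟩)
      (hK k (by omega) _ ⟨(hx k (by omega)).le, le_rfl⟩)
    have e1 : (∫ s in (x 0)..(x (k + 1 + 1)), f s) =
        (∫ s in (x 0)..(x (k + 1)), f s) + ∫ s in (x (k + 1))..(x (k + 1 + 1)), f s :=
      (intervalIntegral.integral_add_adjacent_intervals (hint 0 (k + 1) (by omega) (by omega))
        (hint (k + 1) (k + 1 + 1) (by omega) (by omega))).symm
    have e2 : (((Finset.range (k + 1)).filter (fun j => t j ≠ t (j + 1))).card : ℝ) =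
        (((Finset.range k).filter (fun j => t j ≠ t (j + 1))).card : ℝ) +
          (if t k ≠ t (k + 1) then 1 else 0) := by
      rw [Finset.range_add_one, Finset.filter_insert]
      split_ifs with hi
      · rw [Finset.card_insert_of_notMem (by simp)]; push_cast; ring
      · simp
    rw [e1, e2, Finset.sum_range_succ]
    linarith

end top
end
end FT722
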