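import Mathlib
import Pool.Agent.FTfinal.FT934_Top
set_option autoImplicit false
open MeasureTheory intervalIntegral Set
namespace FT722
noncomputable section

/-- sum of cross products along a path of centres -/
def pth {ι : Type} (c : ι → ℝ × ℝ) : List ι → ℝ
  | [] => 0
  | [_] => 0
  | a :: b :: l => cr (c a) (c b) + pth c (b :: l)

/-- top and bottom, at abscissa `s`, of the translate (with centre `c`) of the symmetric body
`{(x,y) : |x| ≤ a, -U (-x) ≤ y ≤ U x}` -/
def hi (U : ℝ → ℝ) (c : ℝ × ℝ) (s : ℝ) : ℝ := c.2 + U (s - c.1)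
def lo (U : ℝ → ℝ) (c : ℝ × ℝ) (s : ℝ) : ℝ := c.2 - U (c.1 - s)
def dom (a : ℝ) (c : ℝ × ℝ) (s : ℝ) : Prop := |s - c.1| ≤ a

/-- validity of a chain of translates at abscissa `s`: truncated intervals
`[max lo cm, min hi cp]` are weakly ordered, consecutive ones overlap, the first one starts at `cm`
and the last one ends at `cp`. -/
def Valid {k : ℕ} (a : ℝ) (U cm cp : ℝ → ℝ) (c : Fin k → ℝ × ℝ) (L : List (Fin k)) (s : ℝ) : Prop :=
  (∀ i ∈ L, dom a (c i) s ∧ lo U (c i) s ≤ cp s ∧ cm s ≤ hi U (c i) s ∧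
      lo U (c i) s ≤ hi U (c i) s) ∧
  L.IsChain (fun i j =>
    max (lo U (c i) s) (cm s) ≤ max (lo U (c j) s) (cm s) ∧
    min (hi U (c i) s) (cp s) ≤ min (hi U (c j) s) (cp s) ∧
    max (lo U (c j) s) (cm s) ≤ min (hi U (c i) s) (cp s)) ∧
  (∀ i ∈ L.head?, lo U (c i) s ≤ cm s) ∧ (∀ i ∈ L.getLast?, cp s ≤ hi U (c i) s)

theorem mem_cell {a : ℝ} {U : ℝ → ℝ} {c : ℝ × ℝ} {s y : ℝ} (hd : dom a c s) (h1 : lo U c s ≤ y)
    (h2 : y ≤ hi U c s) : ((s, y) : ℝ × ℝ) - c ∈ KU a U := by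
  rw [sub_eq']
  refine ⟨hd, ?_, ?_⟩
  · simp only
    unfold lo at h1
    have : -(s - c.1) = c.1 - s := by ring
    rw [this]; linarith
  · simp only
    unfold hi at h2
    linarith

/-- the list lemma for a vertical edge -/
theorem edge_list {ι : Type} (c : ι → ℝ × ℝ) (G : ι → ℝ) (m σ : ℝ) (R : ι → ι → Prop)
    (P : ι → Prop)
    (hR : ∀ i i', P i → P i' → R i i' → G i' - G i ≤ 2 * m + σ * cr (c i) (c i')) :
    ∀ L : List ι, (∀ i ∈ L, P i) → L.IsChain R → ∀ i ∈ L.head?, ∀ l ∈ L.getLast?,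
      G l - G i ≤ 2 * m * ((L.length : ℝ) - 1) + σ * pth c L := by
  intro L
  induction L with
  | nil => intro _ _ i hi; simp at hi
  | cons x L ih =>
    intro hP hch i hi l hl
    simp only [List.head?_cons, Option.mem_def, Option.some.injEq] at hi
    subst hi
    cases L with
    | nil =>
      simp only [List.getLast?_singleton, Option.mem_def, Option.some.injEq] at hl
      subst hl
      simp [pth]
    | cons y L =>
      have h1 := ih (fun j hj => hP j (List.mem_cons_of_mem _ hj)) (by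
        rw [List.isChain_cons_cons] at hch; exact hch.2) y (by simp) l (by
          rw [List.getLast?_cons_cons] at hl; exact hl)
      have h2 := hR x y (hP x (by simp)) (hP y (by simp)) (by
        rw [List.isChain_cons_cons] at hch; exact hch.1)
      simp only [pth, List.length_cons, Nat.cast_add, Nat.cast_one] at h1 ⊢
      linarith

section
variable {a : ℝ} {U : ℝ → ℝ} {m : ℝ}

theorem Phmax_vert (z : ℝ × ℝ) (y : ℝ) : Phmax a U (z.1, y) - Phmax a U z = z.1 * (y - z.2) := by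
  unfold Phmax; simp only; ring

theorem Phmin_vert (z : ℝ × ℝ) (y : ℝ) : Phmin a U (z.1, y) - Phmin a U z = z.1 * (y - z.2) := by
  unfold Phmin; simp only; ring

/-- value attached to a cell on the left vertical edge (independent of the height) -/
def Gmax (a : ℝ) (U : ℝ → ℝ) (s : ℝ) (c : ℝ × ℝ) : ℝ := Phmax a U ((s, 0) - c) + cr c (s, 0)
def Gmin (a : ℝ) (U : ℝ → ℝ) (s : ℝ) (c : ℝ × ℝ) : ℝ := Phmin a U ((s, 0) - c) + cr c (s, 0)

theorem Gmax_eq (s y : ℝ) (c : ℝ × ℝ) :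
    Gmax a U s c = Phmax a U ((s, y) - c) + cr c (s, y) - s * y := by
  unfold Gmax
  have := Phmax_vert (a := a) (U := U) ((s, 0) - c) (y - c.2)
  have e : ((((s, 0) : ℝ × ℝ) - c).1, y - c.2) = ((s, y) : ℝ × ℝ) - c := by
    ext <;> simp
  rw [e] at this
  simp only [Prod.fst_sub, Prod.snd_sub] at this
  unfold cr
  simp only
  linarith

theorem Gmin_eq (s y : ℝ) (c : ℝ × ℝ) :
    Gmin a U s c = Phmin a U ((s, y) - c) + cr c (s, y) - s * y := by
  unfold Gmin
  have := Phmin_vert (a := a) (U := U) ((s, 0) - c) (y - c.2)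
  have e : ((((s, 0) : ℝ × ℝ) - c).1, y - c.2) = ((s, y) : ℝ × ℝ) - c := by
    ext <;> simp
  rw [e] at this
  simp only [Prod.fst_sub, Prod.snd_sub] at this
  unfold cr
  simp only
  linarith

/-- bottom chain: reflection of the top chain -/
theorem bottom_chain {ι : Type} [DecidableEq ι] (h : Body a U)
    (hm : ∀ p ∈ KU a U, ∀ q ∈ KU a U, cr p q ≤ m)
    (c : ι → ℝ × ℝ) (t : ℕ → ι) (x : ℕ → ℝ) (n : ℕ) (f : ℝ → ℝ)
    (hx : ∀ j < n + 1, x j < x (j + 1)) (hf : ConvexOn ℝ (Icc (x 0) (x (n + 1))) f)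
    (hfc : ContinuousOn f (Icc (x 0) (x (n + 1))))
    (hK : ∀ j < n + 1, ∀ s ∈ Icc (x j) (x (j + 1)), ((s, f s) : ℝ × ℝ) - c (t j) ∈ KU a U) :
      -2 * (∫ s in (x 0)..(x (n + 1)), f s) - x 0 * f (x 0) + x (n + 1) * f (x (n + 1)) +
        Phmin a U ((x 0, f (x 0)) - c (t 0)) + cr (c (t 0)) (x 0, f (x 0))
      ≤ Phmax a U ((x (n + 1), f (x (n + 1))) - c (t n)) + cr (c (t n)) (x (n + 1), f (x (n + 1))) +
        (∑ j ∈ Finset.range n, cr (c (t j)) (c (t (j + 1)))) +
        2 * m * (((Finset.range n).filter (fun j => t j ≠ t (j + 1))).card : ℝ) := by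
  have hmono := x_mono hx
  have key := top_chain (ι := ι) h hm (fun i => -c i) (fun j => t (n - j)) (fun j => -x (n + 1 - j)) n
    (fun s => -f (-s))
    (by
      intro j hj
      have := hx (n - j) (by omega)
      have e : n + 1 - j = n - j + 1 := by omega
      have e2 : n + 1 - (j + 1) = n - j := by omega
      rw [e, e2]
      linarith)
    (by
      simp only [Nat.sub_zero, Nat.sub_self]
      refine ⟨convex_Icc _ _, ?_⟩
      intro s hs s' hs' u v hu hv huv
      have := hf.2 (x := -s) (y := -s') ⟨by linarith [hs.2], by linarith [hs.1]⟩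
        ⟨by linarith [hs'.2], by linarith [hs'.1]⟩ hu hv huv
      simp only [smul_eq_mul] at this ⊢
      have e : u * -s + v * -s' = -(u * s + v * s') := by ring
      rw [e] at this
      linarith)
    (by
      simp only [Nat.sub_zero, Nat.sub_self]
      apply ContinuousOn.neg
      apply hfc.comp continuous_neg.continuousOn
      intro s hs
      exact ⟨by linarith [hs.2], by linarith [hs.1]⟩)
    (by
      intro j hj s hs
      have e : n + 1 - j = n - j + 1 := by omega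
      have e2 : n + 1 - (j + 1) = n - j := by omega
      rw [e, e2] at hs
      have := KU_neg (hK (n - j) (by omega) (-s) ⟨by linarith [hs.2], by linarith [hs.1]⟩)
      convert this using 1
      ext <;> simp <;> ring)
  simp only [Nat.sub_zero, Nat.sub_self, neg_neg] at key
  have e1 : (∫ s in (-x (n + 1))..(-x 0), -f (-s)) = -∫ s in (x 0)..(x (n + 1)), f s := by
    rw [intervalIntegral.integral_neg, intervalIntegral.integral_comp_neg]
    simp
  have e2 : Phmin a U ((-x 0, -f (x 0)) - -c (t 0)) = Phmin a U ((x 0, f (x 0)) - c (t 0)) := by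
    rw [← Phmin_even h (hK 0 (by omega) _ ⟨le_rfl, (hx 0 (by omega)).le⟩)]
    congr 1
    ext <;> simp <;> ring
  have e3 : Phmax a U ((-x (n + 1), -f (x (n + 1))) - -c (t n)) =
      Phmax a U ((x (n + 1), f (x (n + 1))) - c (t n)) := by
    have hz := hK n (by omega) _ ⟨(hx n (by omega)).le, le_rfl⟩
    have h1 := Phmax_sub h hz
    have h2 := Phmax_sub h (KU_neg hz)
    have h3 := Phmin_even h hz
    have e4 : ((-x (n + 1), -f (x (n + 1))) : ℝ × ℝ) - -c (t n) = -(((x (n + 1), f (x (n + 1))) : ℝ × ℝ) - c (t n)) := by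
      ext <;> simp <;> ring
    rw [e4]
    linarith
  have e4 : cr (-c (t 0)) (-x 0, -f (x 0)) = cr (c (t 0)) (x 0, f (x 0)) := by
    unfold cr; simp
  have e5 : cr (-c (t n)) (-x (n + 1), -f (x (n + 1))) = cr (c (t n)) (x (n + 1), f (x (n + 1))) := by
    unfold cr; simp
  have e6 : (∑ j ∈ Finset.range n, cr (-c (t (n - (j + 1)))) (-c (t (n - j)))) =
      ∑ j ∈ Finset.range n, cr (c (t j)) (c (t (j + 1))) := by
    rw [← Finset.sum_range_reflect]
    apply Finset.sum_congr rfl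
    intro j hj
    rw [Finset.mem_range] at hj
    have g1 : n - (n - 1 - j + 1) = j := by omega
    have g2 : n - (n - 1 - j) = j + 1 := by omega
    rw [g1, g2]
    unfold cr; simp
  have e7 : ((Finset.range n).filter (fun j => t (n - j) ≠ t (n - (j + 1)))).card =
      ((Finset.range n).filter (fun j => t j ≠ t (j + 1))).card := by
    rw [Finset.card_filter, Finset.card_filter, ← Finset.sum_range_reflect]
    apply Finset.sum_congr rfl
    intro j hj
    rw [Finset.mem_range] at hj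
    have g1 : n - (n - 1 - j + 1) = j := by omega
    have g2 : n - (n - 1 - j) = j + 1 := by omega
    rw [g1, g2]
    simp only [ne_comm]
  rw [e1, e2, e3, e4, e5, e6, e7] at key
  linarith

end

/-- **coarse bound** -/
theorem CB {k : ℕ} {a : ℝ} {U cm cp : ℝ → ℝ} {c : Fin k → ℝ × ℝ} {m : ℝ} (h : Body a U)
    (hm : ∀ p ∈ KU a U, ∀ q ∈ KU a U, cr p q ≤ m) {s0 s1 : ℝ}
    (hcm : ConvexOn ℝ (Icc s0 s1) cm) (hcmc : ContinuousOn cm (Icc s0 s1))
    (hcp : ConcaveOn ℝ (Icc s0 s1) cp) (hcpc : ContinuousOn cp (Icc s0 s1))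
    (hle : ∀ s ∈ Icc s0 s1, cm s ≤ cp s)
    {N : ℕ} (hN : 1 ≤ N) (x : ℕ → ℝ) (hx0 : x 0 = s0) (hxN : x N = s1)
    (hx : ∀ j < N, x j < x (j + 1)) (L : ℕ → List (Fin k))
    (hV : ∀ j < N, ∀ s ∈ Icc (x j) (x (j + 1)), Valid a U cm cp c (L j) s)
    (bo tp : ℕ → Fin k) (hbo : ∀ j < N, bo j ∈ (L j).head?) (hto : ∀ j < N, tp j ∈ (L j).getLast?) :
    2 * (∫ s in s0..s1, (cp s - cm s)) ≤ pth c (L (N - 1)) - pth c (L 0) +
      (∑ j ∈ Finset.range (N - 1),
        (cr (c (bo j)) (c (bo (j + 1))) + cr (c (tp (j + 1))) (c (tp j)))) +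
      2 * (2 * ∫ s in (-a)..a, U s) +
      2 * m * ((((Finset.range (N - 1)).filter (fun j => bo j ≠ bo (j + 1))).card : ℝ) +
        (((Finset.range (N - 1)).filter (fun j => tp j ≠ tp (j + 1))).card : ℝ) +
        (((L 0).length : ℝ) - 1) + (((L (N - 1)).length : ℝ) - 1)) := by
  obtain ⟨n, rfl⟩ : ∃ n, N = n + 1 := ⟨N - 1, by omega⟩
  simp only [Nat.add_sub_cancel]
  subst hx0
  subst hxN
  have hmono := x_mono hx
  have h01 : x 0 ≤ x (n + 1) := hmono _ le_rfl 0 (by omega)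
  have hsub : ∀ j < n + 1, Icc (x j) (x (j + 1)) ⊆ Icc (x 0) (x (n + 1)) := by
    intro j hj
    apply Icc_subset_Icc (hmono j (by omega) 0 (by omega)) (hmono (n + 1) le_rfl (j + 1) (by omega))
  have hKt : ∀ j < n + 1, ∀ s ∈ Icc (x j) (x (j + 1)), ((s, cp s) : ℝ × ℝ) - c (tp j) ∈ KU a U := by
    intro j hj s hs
    obtain ⟨v1, v2, v3, v4⟩ := hV j hj s hs
    obtain ⟨d1, d2, d3, d4⟩ := v1 (tp j) (List.mem_of_getLast? (hto j hj))
    exact mem_cell d1 d2 (v4 _ (hto j hj))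
  have hKb : ∀ j < n + 1, ∀ s ∈ Icc (x j) (x (j + 1)), ((s, cm s) : ℝ × ℝ) - c (bo j) ∈ KU a U := by
    intro j hj s hs
    obtain ⟨v1, v2, v3, v4⟩ := hV j hj s hs
    obtain ⟨d1, d2, d3, d4⟩ := v1 (bo j) (List.mem_of_head? (hbo j hj))
    exact mem_cell d1 (v3 _ (hbo j hj)) d3
  have T := top_chain h hm c tp x n cp hx hcp hcpc hKt
  have B := bottom_chain h hm c bo x n cm hx hcm hcmc hKb
  -- left vertical edge
  have edge : ∀ s ∈ Icc (x 0) (x (n + 1)), ∀ l : List (Fin k), Valid a U cm cp c l s →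
      ∀ i ∈ l, ∀ j ∈ l, (max (lo U (c i) s) (cm s) ≤ max (lo U (c j) s) (cm s) ∧
    min (hi U (c i) s) (cp s) ≤ min (hi U (c j) s) (cp s) ∧
    max (lo U (c j) s) (cm s) ≤ min (hi U (c i) s) (cp s)) →
      ((s, max (lo U (c j) s) (cm s)) : ℝ × ℝ) - c i ∈ KU a U ∧
      ((s, max (lo U (c j) s) (cm s)) : ℝ × ℝ) - c j ∈ KU a U := by
    intro s hs l hl i hi' j hj' hR
    obtain ⟨r1, r2, r3⟩ := hR
    obtain ⟨d1, d2, d3, d4⟩ := hl.1 i hi'
    obtain ⟨e1, e2, e3, e4⟩ := hl.1 j hj'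
    constructor
    · exact mem_cell d1 ((le_max_left _ _).trans r1) (r3.trans (min_le_left _ _))
    · exact mem_cell e1 (le_max_left _ _) (max_le e4 e3)
  have hV0 := hV 0 (by omega) (x 0) ⟨le_rfl, (hx 0 (by omega)).le⟩
  have hVn := hV n (by omega) (x (n + 1)) ⟨(hx n (by omega)).le, le_rfl⟩
  have E0 := edge_list c (fun i => Gmax a U (x 0) (c i)) m (-1) _ (fun i => i ∈ L 0)
    (by
      intro i i' hi hi' hR
      obtain ⟨w1, w2⟩ := edge (x 0) ⟨le_rfl, h01⟩ (L 0) hV0 i hi i' hi' hR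
      rw [Gmax_eq (x 0) (max (lo U (c i') (x 0)) (cm (x 0))) (c i'),
        Gmax_eq (x 0) (max (lo U (c i') (x 0)) (cm (x 0))) (c i)]
      have := jump_max h hm w2 w1
      have e : cr (c i') (c i) = -1 * cr (c i) (c i') := by unfold cr; ring
      linarith) (L 0) (fun i hi => hi) hV0.2.1 (bo 0) (hbo 0 (by omega)) (tp 0) (hto 0 (by omega))
  have E1 := edge_list c (fun i => -Gmin a U (x (n + 1)) (c i)) m 1 _ (fun i => i ∈ L n)
    (by
      intro i i' hi hi' hR
      obtain ⟨w1, w2⟩ := edge (x (n + 1)) ⟨h01, le_rfl⟩ (L n) hVn i hi i' hi' hR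
      rw [Gmin_eq (x (n + 1)) (max (lo U (c i') (x (n + 1))) (cm (x (n + 1)))) (c i'),
        Gmin_eq (x (n + 1)) (max (lo U (c i') (x (n + 1))) (cm (x (n + 1)))) (c i)]
      have := jump_min h hm w1 w2
      linarith) (L n) (fun i hi => hi) hVn.2.1 (bo n) (hbo n (by omega)) (tp n) (hto n (by omega))
  rw [Gmax_eq (x 0) (cp (x 0)) (c (tp 0)), Gmax_eq (x 0) (cm (x 0)) (c (bo 0))] at E0
  rw [Gmin_eq (x (n + 1)) (cp (x (n + 1))) (c (tp n)),
    Gmin_eq (x (n + 1)) (cm (x (n + 1))) (c (bo n))] at E1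
  have V1 := Phmax_sub h (hKb 0 (by omega) _ ⟨le_rfl, (hx 0 (by omega)).le⟩)
  have V2 := Phmax_sub h (hKb n (by omega) _ ⟨(hx n (by omega)).le, le_rfl⟩)
  have hVol : (∫ s in (-a)..a, (U s + U (-s))) = 2 * ∫ s in (-a)..a, U s := by
    rw [intervalIntegral.integral_add (U_ii h (mem_na h) (mem_a h))
      (ii_of_cont (cont_neg h) (mem_na h) (mem_a h)), intervalIntegral.integral_comp_neg, neg_neg]
    ring
  rw [hVol] at V1 V2
  have hint : (∫ s in (x 0)..(x (n + 1)), (cp s - cm s)) =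
      (∫ s in (x 0)..(x (n + 1)), cp s) - ∫ s in (x 0)..(x (n + 1)), cm s := by
    apply intervalIntegral.integral_sub
    · apply ContinuousOn.intervalIntegrable; rw [uIcc_of_le h01]; exact hcpc
    · apply ContinuousOn.intervalIntegrable; rw [uIcc_of_le h01]; exact hcmc
  rw [hint, Finset.sum_add_distrib]
  linarith

end
end FT722
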