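import Mathlib
import Pool.Agent.FTfinal.FT179_Vol
set_option autoImplicit false
open MeasureTheory intervalIntegral Set
namespace FT722
noncomputable section

/-- points of `K` strictly beyond the line `p q` (not containing the centre) -/
def beyond (a : ℝ) (U : ℝ → ℝ) (p q : ℝ × ℝ) : Set (ℝ × ℝ) :=
  {w | w ∈ KU a U ∧ cr p q < cr w q + cr p w}

theorem cap_le {a : ℝ} {U : ℝ → ℝ} (h : Body a U) {hh : ℝ}
    (hhex : ∀ p ∈ KU a U, ∀ q ∈ KU a U, ∀ r ∈ KU a U, cr p q + cr q r + cr p r ≤ hh)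
    {p q : ℝ × ℝ} (hp : p ∈ KU a U) (hq : q ∈ KU a U) (hpi : p ∉ interior (KU a U))
    (hqi : q ∉ interior (KU a U)) (hD : 0 < cr p q) :
    volume (beyond a U p q) ≤ ENNReal.ofReal (hh - 2 * cr p q) := by
  set D := cr p q with hDdef
  have hsub : beyond a U p q ⊆ {w : ℝ × ℝ | (D ≤ (q.2 - p.2) * w.1 + (p.1 - q.1) * w.2 ∧
      (q.2 - p.2) * w.1 + (p.1 - q.1) * w.2 ≤ hh - D) ∧
      (-D ≤ (q.2 + p.2) * w.1 + (-(q.1 + p.1)) * w.2 ∧
        (q.2 + p.2) * w.1 + (-(q.1 + p.1)) * w.2 ≤ D)} := by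
    intro w hw
    obtain ⟨hwK, hw⟩ := hw
    have hex := hhex p hp w hwK q hq
    have e1 : (q.2 - p.2) * w.1 + (p.1 - q.1) * w.2 = cr w q + cr p w := by unfold cr; ring
    have e2 : (q.2 + p.2) * w.1 + (-(q.1 + p.1)) * w.2 = cr w q - cr p w := by unfold cr; ring
    have a1 : w.1 = (cr w q / D) * p.1 + (cr p w / D) * q.1 := by
      rw [div_mul_eq_mul_div, div_mul_eq_mul_div, ← add_div, eq_div_iff hD.ne', hDdef]
      unfold cr; ring
    have a2 : w.2 = (cr w q / D) * p.2 + (cr p w / D) * q.2 := by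
      rw [div_mul_eq_mul_div, div_mul_eq_mul_div, ← add_div, eq_div_iff hD.ne', hDdef]
      unfold cr; ring
    have c1 := KU_coef h hq hwK hpi a1 a2
    have c2 := KU_coef h hp hwK hqi (by rw [add_comm]; exact a1) (by rw [add_comm]; exact a2)
    set α := cr w q / D with hα
    set β := cr p w / D with hβ
    have b1 : cr w q = α * D := by rw [hα]; field_simp
    have b2 : cr p w = β * D := by rw [hβ]; field_simp
    have s1 : 1 < α + β := by
      have : D * 1 < D * (α + β) := by rw [b1, b2] at hw; linarith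
      exact lt_of_mul_lt_mul_left this hD.le
    have s2 : α ≤ 1 + β := by
      rcases abs_cases β with ⟨h1, _⟩ | ⟨h1, h2⟩
      · rw [h1] at c1; exact c1
      · rw [h1] at c1; linarith
    have s3 : β ≤ 1 + α := by
      rcases abs_cases α with ⟨h1, _⟩ | ⟨h1, h2⟩
      · rw [h1] at c2; exact c2
      · rw [h1] at c2; linarith
    simp only [Set.mem_ofPred_eq]
    rw [e1, e2]
    refine ⟨⟨hw.le, by linarith⟩, ?_, ?_⟩
    · rw [b1, b2]; nlinarith
    · rw [b1, b2]; nlinarith
  by_cases hpos : hh - 2 * D < 0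
  · -- empty
    have : beyond a U p q = ∅ := by
      rw [Set.eq_empty_iff_forall_notMem]
      rintro w ⟨hwK, hw⟩
      have hex := hhex p hp w hwK q hq
      linarith
    rw [this, measure_empty]
    exact bot_le
  · push Not at hpos
    refine (measure_mono hsub).trans ?_
    have hdet : (q.2 - p.2) * (-(q.1 + p.1)) - (p.1 - q.1) * (q.2 + p.2) = -(2 * D) := by
      rw [hDdef]; unfold cr; ring
    rw [strip_vol (by rw [hdet]; linarith) (by linarith) (by linarith), hdet, abs_neg,
      abs_of_pos (by linarith)]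
    apply ENNReal.ofReal_le_ofReal
    apply le_of_eq
    field_simp
    ring

/-- the volume of the body as an integral -/
theorem vol_body_le {a : ℝ} {U : ℝ → ℝ} (h : Body a U) :
    ENNReal.ofReal (∫ s in (-a)..a, (U s + U (-s))) ≤ volume (KU a U) := by
  have := le_vol (a := a) (f := fun s => -U (-s)) (g := U) (by linarith [h.pos])
    (cont_neg h).neg h.cont (fun s hs => lo_le_up h hs) (E := KU a U)
    (by
      intro s hs t h1 h2
      rw [mem_KU_iff]
      exact ⟨hs, h1.le, h2.le⟩)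
  simpa using this

theorem beyond_neg {a : ℝ} {U : ℝ → ℝ} (p q : ℝ × ℝ) :
    volume (beyond a U (-p) (-q)) = volume (beyond a U p q) := by
  have : beyond a U (-p) (-q) = Neg.neg ⁻¹' beyond a U p q := by
    ext w
    simp only [beyond, mem_preimage, Set.mem_ofPred_eq]
    constructor
    · rintro ⟨h1, h2⟩
      refine ⟨KU_neg h1, ?_⟩
      unfold cr at *
      simp only [Prod.fst_neg, Prod.snd_neg] at *
      linarith
    · rintro ⟨h1, h2⟩
      refine ⟨by simpa using KU_neg h1, ?_⟩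
      unfold cr at *
      simp only [Prod.fst_neg, Prod.snd_neg] at *
      linarith
  rw [this, Measure.measure_preimage_neg]

/-- `V ≤ 2h - 2D + 2c` -/
theorem body_cover {a : ℝ} {U : ℝ → ℝ} (h : Body a U) {hh : ℝ}
    (hhex : ∀ p ∈ KU a U, ∀ q ∈ KU a U, ∀ r ∈ KU a U, cr p q + cr q r + cr p r ≤ hh)
    {p q : ℝ × ℝ} (hp : p ∈ KU a U) (hq : q ∈ KU a U) (hpi : p ∉ interior (KU a U))
    (hqi : q ∉ interior (KU a U)) (hD : 0 < cr p q) {c : ℝ} (hc0 : 0 ≤ c)
    (hc : volume (beyond a U p q) ≤ ENNReal.ofReal c) :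
    (∫ s in (-a)..a, (U s + U (-s))) ≤ 2 * hh - 2 * cr p q + 2 * c := by
  have hnp := KU_neg hp
  have hnpi : -p ∉ interior (KU a U) := by
    intro hi
    apply hpi
    have : -p ∈ interior (KU a U) → p ∈ interior (KU a U) := by
      intro hi
      obtain ⟨t, ht1, ht2, ht3⟩ := mem_interior.1 hi
      refine mem_interior.2 ⟨Neg.neg ⁻¹' t, ?_, ht2.preimage continuous_neg, by simpa using ht3⟩
      intro w hw
      have := KU_neg (ht1 hw)
      simpa using this
    exact this hi
  have hcr2 : cr q (-p) = cr p q := by unfold cr; simp only [Prod.fst_neg, Prod.snd_neg]; ring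
  have k1 := cap_le h hhex hq hnp hqi hnpi (by rw [hcr2]; exact hD)
  rw [hcr2] at k1
  set D := cr p q with hDdef
  have hh0 : 0 ≤ hh - 2 * D := by
    have := hhex p hp p hp q hq
    have e : cr p p = 0 := by unfold cr; ring
    rw [e] at this
    linarith
  have cover : KU a U ⊆ ((({w : ℝ × ℝ | (-D ≤ (q.2 - p.2) * w.1 + (p.1 - q.1) * w.2 ∧
      (q.2 - p.2) * w.1 + (p.1 - q.1) * w.2 ≤ D) ∧
      (-D ≤ (-p.2 - q.2) * w.1 + (q.1 + p.1) * w.2 ∧
        (-p.2 - q.2) * w.1 + (q.1 + p.1) * w.2 ≤ D)} ∪ beyond a U p q) ∪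
        beyond a U (-p) (-q)) ∪ beyond a U q (-p)) ∪ beyond a U (-q) (-(-p)) := by
    intro w hw
    have e1 : (q.2 - p.2) * w.1 + (p.1 - q.1) * w.2 = cr w q + cr p w := by unfold cr; ring
    have e2 : (-p.2 - q.2) * w.1 + (q.1 + p.1) * w.2 = cr w (-p) + cr q w := by
      unfold cr; simp only [Prod.fst_neg, Prod.snd_neg]; ring
    have n1 : cr w (-q) + cr (-p) w = -(cr w q + cr p w) := by
      unfold cr; simp only [Prod.fst_neg, Prod.snd_neg]; ring
    have n2 : cr w (-(-p)) + cr (-q) w = -(cr w (-p) + cr q w) := by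
      unfold cr; simp only [Prod.fst_neg, Prod.snd_neg]; ring
    have d1 : cr (-p) (-q) = D := by rw [hDdef]; unfold cr; simp only [Prod.fst_neg, Prod.snd_neg]; ring
    have d2 : cr (-q) (-(-p)) = D := by rw [hDdef]; unfold cr; simp only [Prod.fst_neg, Prod.snd_neg]; ring
    simp only [mem_union, beyond, Set.mem_ofPred_eq]
    rw [e1, e2, n1, n2, d1, d2, hcr2]
    by_cases g1 : D < cr w q + cr p w
    · left; left; left; right; exact ⟨hw, g1⟩
    by_cases g2 : D < -(cr w q + cr p w)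
    · left; left; right; exact ⟨hw, g2⟩
    by_cases g3 : D < cr w (-p) + cr q w
    · left; right; exact ⟨hw, g3⟩
    by_cases g4 : D < -(cr w (-p) + cr q w)
    · right; exact ⟨hw, g4⟩
    left; left; left; left
    push Not at g1 g2 g3 g4
    exact ⟨⟨by linarith, g1⟩, by linarith, g3⟩
  have hdet : (q.2 - p.2) * (q.1 + p.1) - (p.1 - q.1) * (-p.2 - q.2) = 2 * D := by
    rw [hDdef]; unfold cr; ring
  have hpar := strip_vol (a := q.2 - p.2) (b := p.1 - q.1) (c := -p.2 - q.2) (d := q.1 + p.1)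
    (x0 := -D) (x1 := D) (y0 := -D) (y1 := D) (by rw [hdet]; linarith) (by linarith) (by linarith)
  rw [hdet, abs_of_pos (by linarith)] at hpar
  have hpar2 : (D - -D) * (D - -D) / (2 * D) = 2 * D := by field_simp; ring
  rw [hpar2] at hpar
  have hfin : volume (KU a U) ≤ ENNReal.ofReal (2 * hh - 2 * D + 2 * c) := by
    refine (measure_mono cover).trans ?_
    refine (measure_union_le _ _).trans ?_
    refine (add_le_add (measure_union_le _ _) le_rfl).trans ?_
    refine (add_le_add (add_le_add (measure_union_le _ _) le_rfl) le_rfl).trans ?_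
    refine (add_le_add (add_le_add (add_le_add (measure_union_le _ _) le_rfl) le_rfl) le_rfl).trans ?_
    rw [hpar, beyond_neg, beyond_neg]
    have e : ENNReal.ofReal (2 * hh - 2 * D + 2 * c) = ENNReal.ofReal (2 * D) + ENNReal.ofReal c +
        ENNReal.ofReal c + ENNReal.ofReal (hh - 2 * D) + ENNReal.ofReal (hh - 2 * D) := by
      rw [← ENNReal.ofReal_add (by linarith) hc0, ← ENNReal.ofReal_add (by linarith) hc0,
        ← ENNReal.ofReal_add (by linarith) hh0, ← ENNReal.ofReal_add (by linarith) hh0]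
      congr 1
      ring
    rw [e]
    gcongr
  have h1 := (vol_body_le h).trans hfin
  rwa [ENNReal.ofReal_le_ofReal_iff (by linarith)] at h1

end
end FT722
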