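import Mathlib
import Pool.Agent.FTfinal.FT179_J
set_option autoImplicit false
open MeasureTheory intervalIntegral Set
namespace FT722
noncomputable section

theorem kA_nonneg {a : ℝ} {U : ℝ → ℝ} (h : Body a U) (z : ℝ × ℝ) (μ : ℝ) : 0 ≤ kA a U z μ := by
  apply intervalIntegral.integral_nonneg (by linarith [h.pos])
  intro s hs
  linarith [cl_hi' h z μ hs]

theorem kA_eq {a : ℝ} {U : ℝ → ℝ} (h : Body a U) (z : ℝ × ℝ) (μ : ℝ) :
    kA a U z μ = (∫ s in (-a)..a, U s) - ∫ s in (-a)..a, cl U z μ s :=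
  intervalIntegral.integral_sub (ii_of_cont h.cont (mem_na h) (mem_a h))
      (cl_ii h _ _ (mem_na h) (mem_a h))

theorem neg_int {a : ℝ} (f : ℝ → ℝ) : (∫ s in (-a)..a, f (-s)) = ∫ s in (-a)..a, f s := by
  have := intervalIntegral.integral_comp_neg (a := -a) (b := a) f
  rw [neg_neg] at this
  exact this

theorem Vol_eq {a : ℝ} {U : ℝ → ℝ} (h : Body a U) : Vol a U = 2 * ∫ s in (-a)..a, U s := by
  unfold Vol
  rw [intervalIntegral.integral_add (ii_of_cont h.cont (mem_na h) (mem_a h))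
    (ii_of_cont (cont_neg h) (mem_na h) (mem_a h)), neg_int U]
  ring

theorem kA_neg {a : ℝ} {U : ℝ → ℝ} (h : Body a U) (z : ℝ × ℝ) (μ : ℝ) :
    kA a U (-z) μ = Vol a U - kA a U z μ := by
  rw [kA_eq h, kA_eq h, Vol_eq h]
  have e : (∫ s in (-a)..a, cl U (-z) μ s) = -∫ s in (-a)..a, cl U z μ s := by
    rw [← neg_int (fun s => cl U z μ s), ← intervalIntegral.integral_neg]
    apply intervalIntegral.integral_congr
    intro s hs
    rw [uIcc_of_le (by linarith [h.pos])] at hs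
    have := cl_neg' h z μ (neg_mem_Icc hs)
    rw [neg_neg] at this
    exact this
  rw [e]; ring

theorem kA_le_Vol {a : ℝ} {U : ℝ → ℝ} (h : Body a U) (z : ℝ × ℝ) (μ : ℝ) : kA a U z μ ≤ Vol a U := by
  have := kA_nonneg h (-z) μ
  rw [kA_neg h] at this
  linarith

theorem Vol_nonneg {a : ℝ} {U : ℝ → ℝ} (h : Body a U) : 0 ≤ Vol a U :=
  (kA_nonneg h 0 0).trans (kA_le_Vol h 0 0)

theorem kf_neg {a : ℝ} {U : ℝ → ℝ} (h : Body a U) (z : ℝ × ℝ) (μ : ℝ) :
    kf a U (-z) μ = kf a U z μ := by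
  unfold kf
  rw [kA_neg h, min_comm]
  congr 1
  ring

theorem kf_nonneg {a : ℝ} {U : ℝ → ℝ} (h : Body a U) (z : ℝ × ℝ) (μ : ℝ) : 0 ≤ kf a U z μ :=
  le_min (kA_nonneg h z μ) (by linarith [kA_le_Vol h z μ])

theorem kf_le_kA (a : ℝ) (U : ℝ → ℝ) (z : ℝ × ℝ) (μ : ℝ) : kf a U z μ ≤ kA a U z μ := min_le_left _ _

theorem kf_le_half (a : ℝ) (U : ℝ → ℝ) (z : ℝ × ℝ) (μ : ℝ) : kf a U z μ ≤ Vol a U / 2 := by
  have h1 : kf a U z μ ≤ kA a U z μ := min_le_left _ _
  have h2 : kf a U z μ ≤ Vol a U - kA a U z μ := min_le_right _ _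
  linarith

theorem cl_line {U : ℝ → ℝ} {z z' : ℝ × ℝ} {μ : ℝ} (hl : z'.2 - z.2 = μ * (z'.1 - z.1)) :
    cl U z' μ = cl U z μ := by
  funext s
  unfold cl
  congr 2
  linarith [hl, mul_sub μ (z'.1) (z.1), mul_sub μ s z.1, mul_sub μ s z'.1]

theorem kA_line {a : ℝ} {U : ℝ → ℝ} {z z' : ℝ × ℝ} {μ : ℝ} (hl : z'.2 - z.2 = μ * (z'.1 - z.1)) :
    kA a U z' μ = kA a U z μ := by
  unfold kA
  rw [cl_line hl]

theorem kf_line {a : ℝ} {U : ℝ → ℝ} {z z' : ℝ × ℝ} {μ : ℝ} (hl : z'.2 - z.2 = μ * (z'.1 - z.1)) :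
    kf a U z' μ = kf a U z μ := by
  unfold kf
  rw [kA_line hl]

theorem kA_anti {a : ℝ} {U : ℝ → ℝ} (h : Body a U) {z z' : ℝ × ℝ} {μ : ℝ}
    (hl : z.2 - μ * z.1 ≤ z'.2 - μ * z'.1) :
    kA a U z' μ ≤ kA a U z μ := by
  rw [kA_eq h, kA_eq h]
  have : (∫ s in (-a)..a, cl U z μ s) ≤ ∫ s in (-a)..a, cl U z' μ s := by
    apply intervalIntegral.integral_mono_on (by linarith [h.pos]) (cl_ii h _ _ (mem_na h) (mem_a h))
      (cl_ii h _ _ (mem_na h) (mem_a h))
    intro s _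
    exact max_le_max le_rfl (min_le_min le_rfl (by linarith))
  linarith

/-- upper half: `kf = kA` -/
theorem kf_eq_kA {a : ℝ} {U : ℝ → ℝ} (h : Body a U) {z : ℝ × ℝ} {μ : ℝ}
    (hl : 0 ≤ z.2 - μ * z.1) : kf a U z μ = kA a U z μ := by
  have := kA_anti h (z := -z) (z' := z) (μ := μ) (by simp only [Prod.snd_neg, Prod.fst_neg]; linarith)
  rw [kA_neg h] at this
  exact min_eq_left (by linarith)

theorem kf_eq_kA' {a : ℝ} {U : ℝ → ℝ} (h : Body a U) {z : ℝ × ℝ} {μ : ℝ}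
    (hl : z.2 - μ * z.1 ≤ 0) : kf a U z μ = Vol a U - kA a U z μ := by
  rw [← kf_neg h, ← kA_neg h]
  exact kf_eq_kA h (by simp only [Prod.snd_neg, Prod.fst_neg]; linarith)

theorem left_not_int {a : ℝ} {U : ℝ → ℝ} {z : ℝ × ℝ} (hl : ∀ s < z.1, (s, z.2) ∉ KU a U) :
    z ∉ interior (KU a U) := by
  intro hi
  obtain ⟨ε, hε, hm⟩ := interior_shift hi (-1, 0)
  apply hl (z.1 - ε) (by linarith)
  convert hm using 1
  ext <;> simp <;> ring

theorem right_not_int {a : ℝ} {U : ℝ → ℝ} {z : ℝ × ℝ} (hr : ∀ s, z.1 < s → (s, z.2) ∉ KU a U) :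
    z ∉ interior (KU a U) := by
  intro hi
  obtain ⟨ε, hε, hm⟩ := interior_shift hi (1, 0)
  apply hr (z.1 + ε) (by linarith)
  convert hm using 1
  ext <;> simp

theorem hh_nonneg {a : ℝ} {U : ℝ → ℝ} (h : Body a U) {hh : ℝ}
    (hhex : ∀ p ∈ KU a U, ∀ q ∈ KU a U, ∀ r ∈ KU a U, cr p q + cr q r + cr p r ≤ hh) : 0 ≤ hh := by
  have := hhex 0 (zero_mem h) 0 (zero_mem h) 0 (zero_mem h)
  unfold cr at this
  simpa using this

/-- the strong form for ends: `Q0 = 2D + 2c - σ` with bounds on `c` -/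
theorem ends_strong {a : ℝ} {U : ℝ → ℝ} (h : Body a U) {hh : ℝ}
    (hhex : ∀ p ∈ KU a U, ∀ q ∈ KU a U, ∀ r ∈ KU a U, cr p q + cr q r + cr p r ≤ hh)
    (hV : Vol a U ≤ 2 * hh) {z z' : ℝ × ℝ}
    (hz : z ∈ KU a U) (hz' : z' ∈ KU a U) (hy : 0 ≤ z.2 + z'.2) :
    ∃ D c : ℝ, 0 ≤ D ∧ 0 ≤ c ∧ cr z' z + Phi a U z 0 - Phi a U z' 0 ≤
        2 * D + 2 * c - kA a U z 0 - kA a U z' 0 ∧ 2 * c ≤ kA a U z 0 + kA a U z' 0 ∧
        2 * D + c ≤ hh ∧ Vol a U ≤ 2 * hh - 2 * D + 2 * c := by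
  obtain ⟨x, hx, hxm, hxl⟩ := exists_left h hz
  obtain ⟨x', hx', hxm', hxr⟩ := exists_right h hz'
  have s1 := ends_sign h hxm hxm' hxl hxr hy
  have s2 := ends_ineq' h hxm hxm' hxl hxr s1
  have l1 := Phi_line h (μ := 0) hz hxm (by simp)
  have l2 := Phi_line h (μ := 0) hz' hxm' (by simp)
  have k1 : kA a U (x, z.2) 0 = kA a U z 0 := kA_line (by simp)
  have k2 : kA a U (x', z'.2) 0 = kA a U z' 0 := kA_line (by simp)
  have n1 := kA_nonneg h z 0
  have n2 := kA_nonneg h z' 0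
  have hQ : cr z' z + Phi a U z 0 - Phi a U z' 0 ≤ cr (x', z'.2) (x, z.2) +
      Phi a U (x, z.2) 0 - Phi a U (x', z'.2) 0 := by
    unfold cr at *
    simp only at *
    nlinarith [mul_nonneg (sub_nonneg.mpr hx) hy, mul_nonneg (sub_nonneg.mpr hx') hy]
  have hh0 := hh_nonneg h hhex
  rcases s1.eq_or_lt with hD | hD
  · refine ⟨0, (kA a U z 0 + kA a U z' 0) / 2, le_rfl, by linarith, by linarith, by linarith, ?_, ?_⟩
    · have := kA_le_Vol h z 0
      have := kA_le_Vol h z' 0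
      have e1 : kA a U z 0 + kA a U z' 0 ≤ Vol a U := by
        -- heights sum to nonneg
        have := kA_anti h (z := -z') (z' := z) (μ := 0) (by simp only [Prod.snd_neg]; linarith)
        rw [kA_neg h] at this
        linarith
      linarith
    · linarith
  · obtain ⟨c, hc0, hc1, hc2⟩ := ends_id h hxm hxm' hxl hxr hD
    have C1 := cap_le h hhex hxm' hxm (right_not_int hxr) (left_not_int hxl) hD
    have C2 := body_cover h hhex hxm' hxm (right_not_int hxr) (left_not_int hxl) hD hc0 hc1.le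
    rw [hc1] at C1
    have hh1 : 0 ≤ hh - 2 * cr (x', z'.2) (x, z.2) := by
      have := hhex _ hxm' _ hxm' _ hxm
      have e : cr (x', z'.2) (x', z'.2) = 0 := by unfold cr; ring
      rw [e] at this
      linarith
    rw [ENNReal.ofReal_le_ofReal_iff hh1] at C1
    rw [k1, k2] at hc2
    refine ⟨cr (x', z'.2) (x, z.2), c, hD.le, hc0, by linarith, by linarith, by linarith, ?_⟩
    exact C2

theorem J1_pos {a : ℝ} {U : ℝ → ℝ} (h : Body a U) {hh : ℝ}
    (hhex : ∀ p ∈ KU a U, ∀ q ∈ KU a U, ∀ r ∈ KU a U, cr p q + cr q r + cr p r ≤ hh)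
    (hV : Vol a U ≤ 2 * hh) {z z' : ℝ × ℝ}
    (hz : z ∈ KU a U) (hz' : z' ∈ KU a U) (hy : 0 ≤ z.2 + z'.2) :
    cr z' z + Phi a U z 0 - Phi a U z' 0 + (kf a U z 0 + kf a U z' 0) / 2 ≤ hh := by
  obtain ⟨D, c, hD, hc, h1, h2, h3, h4⟩ := ends_strong h hhex hV hz hz' hy
  have f1 := kf_le_kA a U z 0
  have f2 := kf_le_kA a U z' 0
  linarith

theorem J1_zero {a : ℝ} {U : ℝ → ℝ} (h : Body a U) {hh : ℝ}
    (hhex : ∀ p ∈ KU a U, ∀ q ∈ KU a U, ∀ r ∈ KU a U, cr p q + cr q r + cr p r ≤ hh)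
    (hV : Vol a U ≤ 2 * hh) {z z' : ℝ × ℝ}
    (hz : z ∈ KU a U) (hz' : z' ∈ KU a U) :
    cr z' z + Phi a U z 0 - Phi a U z' 0 + (kf a U z 0 + kf a U z' 0) / 2 ≤ hh := by
  rcases le_total 0 (z.2 + z'.2) with hy | hy
  · exact J1_pos h hhex hV hz hz' hy
  · have := J1_pos h hhex hV (KU_neg hz) (KU_neg hz') (by simp only [Prod.snd_neg]; linarith)
    rw [Phi_even h hz, Phi_even h hz', kf_neg h, kf_neg h] at this
    have e : cr (-z') (-z) = cr z' z := by unfold cr; simp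
    rwa [e] at this

/-- monotonicity of `Phi + kA` -/
theorem Phi_kA_mono {a : ℝ} {U : ℝ → ℝ} (h : Body a U) {z w : ℝ × ℝ}
    (hz : z ∈ KU a U) (hw : w ∈ KU a U) (hy : w.2 ≤ z.2) :
    Phi a U z 0 + kA a U z 0 - (Phi a U w 0 + kA a U w 0) ≤ cr w z := by
  obtain ⟨x, y⟩ := z
  obtain ⟨x', y'⟩ := w
  simp only at hy
  have hxI : x ∈ Icc (-a) a := KU_Icc hz
  have hxI' : x' ∈ Icc (-a) a := KU_Icc hw
  have s1 : (∫ s in (-a)..a, cl U (x, y) 0 s) = (∫ s in (-a)..x, cl U (x, y) 0 s) + ∫ s in x..a, cl U (x, y) 0 s :=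
    (intervalIntegral.integral_add_adjacent_intervals (cl_ii h _ _ (mem_na h) hxI)
      (cl_ii h _ _ hxI (mem_a h))).symm
  have s2 : (∫ s in (-a)..a, cl U (x', y') 0 s) = (∫ s in (-a)..x', cl U (x', y') 0 s) + ∫ s in x'..a, cl U (x', y') 0 s :=
    (intervalIntegral.integral_add_adjacent_intervals (cl_ii h _ _ (mem_na h) hxI')
      (cl_ii h _ _ hxI' (mem_a h))).symm
  -- main claim
  have claim : (x - x') * (y + y') / 2 ≤ (∫ s in (-a)..x, cl U (x, y) 0 s) -
      ∫ s in (-a)..x', cl U (x', y') 0 s := by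
    have hmono : ∀ s, cl U (x', y') 0 s ≤ cl U (x, y) 0 s := by
      intro s
      rw [cl_zero, cl_zero]
      exact max_le_max le_rfl (min_le_min le_rfl hy)
    rcases le_total x' x with hxx | hxx
    · have t1 : (∫ s in (-a)..x, cl U (x, y) 0 s) = (∫ s in (-a)..x', cl U (x, y) 0 s) +
          ∫ s in x'..x, cl U (x, y) 0 s :=
        (intervalIntegral.integral_add_adjacent_intervals (cl_ii h _ _ (mem_na h) hxI')
          (cl_ii h _ _ hxI' hxI)).symm
      have t2 : (∫ s in (-a)..x', cl U (x', y') 0 s) ≤ ∫ s in (-a)..x', cl U (x, y) 0 s := by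
        apply intervalIntegral.integral_mono_on hxI'.1 (cl_ii h _ _ (mem_na h) hxI')
          (cl_ii h _ _ (mem_na h) hxI')
        intro s _
        exact hmono s
      have t3 : (x - x') * (y + y') / 2 ≤ ∫ s in x'..x, cl U (x, y) 0 s := by
        rcases hxx.eq_or_lt with h0 | h0
        · rw [h0]; simp
        set ν := (y - y') / (x - x') with hν
        have hd : 0 < x - x' := by linarith
        have hνd : ν * (x - x') = y - y' := by rw [hν]; field_simp
        have hν0 : 0 ≤ ν := by rw [hν]; exact div_nonneg (by linarith) hd.le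
        have e1 := integral_affine y' ν x' x' x
        have e2 : (x - x') * y' + ν * ((x ^ 2 - x' ^ 2) / 2 - x' * (x - x')) = (x - x') * (y + y') / 2 := by
          have : (x - x') * y' + ν * ((x ^ 2 - x' ^ 2) / 2 - x' * (x - x'))
            = (x - x') * y' + (ν * (x - x')) * (x - x') / 2 := by ring
          rw [this, hνd]; ring
        rw [e2] at e1
        rw [← e1]
        apply intervalIntegral.integral_mono_on hxx
          (by apply Continuous.intervalIntegrable; fun_prop) (cl_ii h _ _ hxI' hxI)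
        intro s hs
        have hm := line_mem h hw hz (μ := ν) (by simp only; rw [hνd]) (s := s)
          (by simp only; rw [uIcc_of_le hxx]; exact hs)
        simp only at hm
        have hm' := mem_KU_iff.1 hm
        rw [cl_zero]
        refine le_max_of_le_right (le_min hm'.2.2 ?_)
        simp only
        have : y' + ν * (s - x') ≤ y' + ν * (x - x') := by nlinarith [hs.2]
        rw [hνd] at this
        linarith
      linarith
    · have t1 : (∫ s in (-a)..x', cl U (x', y') 0 s) = (∫ s in (-a)..x, cl U (x', y') 0 s) +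
          ∫ s in x..x', cl U (x', y') 0 s :=
        (intervalIntegral.integral_add_adjacent_intervals (cl_ii h _ _ (mem_na h) hxI)
          (cl_ii h _ _ hxI hxI')).symm
      have t2 : (∫ s in (-a)..x, cl U (x', y') 0 s) ≤ ∫ s in (-a)..x, cl U (x, y) 0 s := by
        apply intervalIntegral.integral_mono_on hxI.1 (cl_ii h _ _ (mem_na h) hxI)
          (cl_ii h _ _ (mem_na h) hxI)
        intro s _
        exact hmono s
      have t3 : (∫ s in x..x', cl U (x', y') 0 s) ≤ (x' - x) * (y + y') / 2 := by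
        rcases hxx.eq_or_lt with h0 | h0
        · rw [h0]; simp
        set ν := (y' - y) / (x' - x) with hν
        have hd : 0 < x' - x := by linarith
        have hνd : ν * (x' - x) = y' - y := by rw [hν]; field_simp
        have hν0 : ν ≤ 0 := by rw [hν]; exact div_nonpos_of_nonpos_of_nonneg (by linarith) hd.le
        have e1 := integral_affine y ν x x x'
        have e2 : (x' - x) * y + ν * ((x' ^ 2 - x ^ 2) / 2 - x * (x' - x)) = (x' - x) * (y + y') / 2 := by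
          have : (x' - x) * y + ν * ((x' ^ 2 - x ^ 2) / 2 - x * (x' - x))
            = (x' - x) * y + (ν * (x' - x)) * (x' - x) / 2 := by ring
          rw [this, hνd]; ring
        rw [e2] at e1
        rw [← e1]
        apply intervalIntegral.integral_mono_on hxx (cl_ii h _ _ hxI hxI')
          (by apply Continuous.intervalIntegrable; fun_prop)
        intro s hs
        have hm := line_mem h hz hw (μ := ν) (by simp only; rw [hνd]) (s := s)
          (by simp only; rw [uIcc_of_le hxx]; exact hs)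
        simp only at hm
        have hm' := mem_KU_iff.1 hm
        rw [cl_zero]
        refine max_le hm'.2.1 ((min_le_right _ _).trans ?_)
        simp only
        have : y + ν * (x' - x) ≤ y + ν * (s - x) := by nlinarith [hs.2]
        rw [hνd] at this
        linarith
      linarith
  rw [kA_eq h, kA_eq h, s1, s2]
  unfold Phi cr
  simp only
  nlinarith

/-- monotonicity of `-Phi + kA` (mirror) -/
theorem Phi_kA_mono' {a : ℝ} {U : ℝ → ℝ} (h : Body a U) {z w : ℝ × ℝ}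
    (hz : z ∈ KU a U) (hw : w ∈ KU a U) (hy : w.2 ≤ z.2) :
    (kA a U z 0 - Phi a U z 0) - (kA a U w 0 - Phi a U w 0) ≤ cr z w := by
  have h1 : ((-z.1, z.2) : ℝ × ℝ) ∈ KU a (fun s => U (-s)) := by
    rw [mem_mirror]; simpa using hz
  have h2 : ((-w.1, w.2) : ℝ × ℝ) ∈ KU a (fun s => U (-s)) := by
    rw [mem_mirror]; simpa using hw
  have := Phi_kA_mono h.mirror h1 h2 (by simpa using hy)
  rw [Phi_mirror, Phi_mirror, kA_mirror, kA_mirror] at this
  unfold cr at *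
  simp only at this
  linarith

theorem J2_pos {a : ℝ} {U : ℝ → ℝ} (h : Body a U) {hh : ℝ}
    (hhex : ∀ p ∈ KU a U, ∀ q ∈ KU a U, ∀ r ∈ KU a U, cr p q + cr q r + cr p r ≤ hh)
    (hV : Vol a U ≤ 2 * hh) {z z' : ℝ × ℝ}
    (hz : z ∈ KU a U) (hz' : z' ∈ KU a U) (hy : 0 ≤ z.2 + z'.2) :
    cr z' z + Phi a U z 0 - Phi a U z' 0 - (kf a U z 0 + kf a U z' 0) ≤ 2 * hh - Vol a U := by
  by_cases h1 : 0 ≤ z.2
  · by_cases h2 : 0 ≤ z'.2
    · rw [kf_eq_kA h (by linarith), kf_eq_kA h (by linarith)]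
      obtain ⟨D, c, hD, hc, h1, h2, h3, h4⟩ := ends_strong h hhex hV hz hz' hy
      linarith
    · push Not at h2
      rw [kf_eq_kA h (by linarith : 0 ≤ z.2 - 0 * z.1), ← kf_neg h z' 0,
        kf_eq_kA h (by simp only [Prod.snd_neg, Prod.fst_neg]; linarith)]
      have := Phi_kA_mono h hz (KU_neg hz') (by simp only [Prod.snd_neg]; linarith)
      rw [Phi_even h hz'] at this
      have e : cr (-z') z = - cr z' z := by unfold cr; simp only [Prod.fst_neg, Prod.snd_neg]; ring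
      rw [e] at this
      have n1 := kA_nonneg h z 0
      linarith
  · push Not at h1
    rw [kf_eq_kA h (by linarith : 0 ≤ z'.2 - 0 * z'.1), ← kf_neg h z 0,
        kf_eq_kA h (by simp only [Prod.snd_neg, Prod.fst_neg]; linarith)]
    have := Phi_kA_mono' h hz' (KU_neg hz) (by simp only [Prod.snd_neg]; linarith)
    rw [Phi_even h hz] at this
    have e : cr z' (-z) = - cr z' z := by unfold cr; simp only [Prod.fst_neg, Prod.snd_neg]; ring
    rw [e] at this
    have n1 := kA_nonneg h z' 0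
    linarith

theorem J2_zero {a : ℝ} {U : ℝ → ℝ} (h : Body a U) {hh : ℝ}
    (hhex : ∀ p ∈ KU a U, ∀ q ∈ KU a U, ∀ r ∈ KU a U, cr p q + cr q r + cr p r ≤ hh)
    (hV : Vol a U ≤ 2 * hh) {z z' : ℝ × ℝ}
    (hz : z ∈ KU a U) (hz' : z' ∈ KU a U) :
    cr z' z + Phi a U z 0 - Phi a U z' 0 - (kf a U z 0 + kf a U z' 0) ≤ 2 * hh - Vol a U := by
  rcases le_total 0 (z.2 + z'.2) with hy | hy
  · exact J2_pos h hhex hV hz hz' hy
  · have := J2_pos h hhex hV (KU_neg hz) (KU_neg hz') (by simp only [Prod.snd_neg]; linarith)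
    rw [Phi_even h hz, Phi_even h hz', kf_neg h, kf_neg h] at this
    have e : cr (-z') (-z) = cr z' z := by unfold cr; simp
    rwa [e] at this

/-! shear -/
theorem kA_shear {a : ℝ} {U : ℝ → ℝ} (z : ℝ × ℝ) (μ : ℝ) :
    kA a (fun s => U s - μ * s) (z.1, z.2 - μ * z.1) 0 = kA a U z μ := by
  unfold kA
  apply intervalIntegral.integral_congr
  intro s _
  have : cl (fun s => U s - μ * s) (z.1, z.2 - μ * z.1) 0 s = cl U z μ s - μ * s := by
    simp only [cl]
    rw [← max_sub_sub_right, ← min_sub_sub_right]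
    congr 1
    · ring
    · congr 1
      ring
  simp only
  rw [this]; ring

theorem Vol_shear {a : ℝ} {U : ℝ → ℝ} (μ : ℝ) : Vol a (fun s => U s - μ * s) = Vol a U := by
  unfold Vol
  apply intervalIntegral.integral_congr
  intro s _
  simp only
  ring

theorem kf_shear {a : ℝ} {U : ℝ → ℝ} (z : ℝ × ℝ) (μ : ℝ) :
    kf a (fun s => U s - μ * s) (z.1, z.2 - μ * z.1) 0 = kf a U z μ := by
  unfold kf
  rw [kA_shear, Vol_shear]

theorem hex_shear {a : ℝ} {U : ℝ → ℝ} {hh : ℝ}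
    (hhex : ∀ p ∈ KU a U, ∀ q ∈ KU a U, ∀ r ∈ KU a U, cr p q + cr q r + cr p r ≤ hh) (μ : ℝ) :
    ∀ p ∈ KU a (fun s => U s - μ * s), ∀ q ∈ KU a (fun s => U s - μ * s),
      ∀ r ∈ KU a (fun s => U s - μ * s), cr p q + cr q r + cr p r ≤ hh := by
  intro p hp q hq r hr
  rw [mem_shear] at hp hq hr
  have := hhex _ hp _ hq _ hr
  unfold cr at *
  simp only at this
  linarith

/-- (J1): `Q + (kf z + kf z') / 2 ≤ h` -/
theorem J1 {a : ℝ} {U : ℝ → ℝ} (h : Body a U) {hh : ℝ}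
    (hhex : ∀ p ∈ KU a U, ∀ q ∈ KU a U, ∀ r ∈ KU a U, cr p q + cr q r + cr p r ≤ hh)
    (hV : Vol a U ≤ 2 * hh) (μ : ℝ) {z z' : ℝ × ℝ}
    (hz : z ∈ KU a U) (hz' : z' ∈ KU a U) :
    cr z' z + Phi a U z μ - Phi a U z' μ + (kf a U z μ + kf a U z' μ) / 2 ≤ hh := by
  have h1 : ((z.1, z.2 - μ * z.1) : ℝ × ℝ) ∈ KU a (fun s => U s - μ * s) := by
    rw [mem_shear]; simpa using hz
  have h2 : ((z'.1, z'.2 - μ * z'.1) : ℝ × ℝ) ∈ KU a (fun s => U s - μ * s) := by
    rw [mem_shear]; simpa using hz'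
  have := J1_zero (h.shear μ) (hex_shear hhex μ) (by rw [Vol_shear]; exact hV) h1 h2
  rw [Phi_shear h hz, Phi_shear h hz', kf_shear, kf_shear] at this
  unfold cr at *
  simp only at this
  linarith

/-- (J2): `Q - (kf z + kf z') ≤ 2 h - V` -/
theorem J2 {a : ℝ} {U : ℝ → ℝ} (h : Body a U) {hh : ℝ}
    (hhex : ∀ p ∈ KU a U, ∀ q ∈ KU a U, ∀ r ∈ KU a U, cr p q + cr q r + cr p r ≤ hh)
    (hV : Vol a U ≤ 2 * hh) (μ : ℝ) {z z' : ℝ × ℝ}
    (hz : z ∈ KU a U) (hz' : z' ∈ KU a U) :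
    cr z' z + Phi a U z μ - Phi a U z' μ - (kf a U z μ + kf a U z' μ) ≤ 2 * hh - Vol a U := by
  have h1 : ((z.1, z.2 - μ * z.1) : ℝ × ℝ) ∈ KU a (fun s => U s - μ * s) := by
    rw [mem_shear]; simpa using hz
  have h2 : ((z'.1, z'.2 - μ * z'.1) : ℝ × ℝ) ∈ KU a (fun s => U s - μ * s) := by
    rw [mem_shear]; simpa using hz'
  have := J2_zero (h.shear μ) (hex_shear hhex μ) (by rw [Vol_shear]; exact hV) h1 h2
  rw [Phi_shear h hz, Phi_shear h hz', kf_shear, kf_shear, Vol_shear] at this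
  unfold cr at *
  simp only at this
  linarith

end
end FT722
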