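import Mathlib
import Pool.Agent.FTfinal.FT179_J2
set_option autoImplicit false
open MeasureTheory intervalIntegral Set Filter Topology
namespace FT722
noncomputable section

/-- folded cap area of the vertical line through `z` -/
def kv (a : ℝ) (U : ℝ → ℝ) (z : ℝ × ℝ) : ℝ := min (kAR a U z) (Vol a U - kAR a U z)

theorem kAL_add_kAR {a : ℝ} {U : ℝ → ℝ} (h : Body a U) {z : ℝ × ℝ} (hz : z ∈ KU a U) :
    kAL a U z + kAR a U z = Vol a U := by
  unfold kAL kAR Vol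
  have hc : ContinuousOn (fun s => U s + U (-s)) (Icc (-a) a) := h.cont.add (cont_neg h)
  exact intervalIntegral.integral_add_adjacent_intervals (ii_of_cont hc (mem_na h) (KU_Icc hz))
    (ii_of_cont hc (KU_Icc hz) (mem_a h))

theorem cl_abs_le {a : ℝ} {U : ℝ → ℝ} (h : Body a U) (z : ℝ × ℝ) (μ : ℝ) {s : ℝ}
    (hs : s ∈ Icc (-a) a) : |cl U z μ s| ≤ |U s| + |U (-s)| := by
  have h1 := cl_lo' U z μ s
  have h2 := cl_hi' h z μ hs
  rw [abs_le]
  constructor
  · linarith [neg_abs_le (U (-s)), le_abs_self (U (-s)), abs_nonneg (U s)]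
  · linarith [le_abs_self (U s), abs_nonneg (U (-s))]

theorem cl_tend_lo {U : ℝ → ℝ} (z : ℝ × ℝ) {s : ℝ} (hs : z.1 < s) :
    Tendsto (fun μ => cl U z μ s) atBot (𝓝 (-U (-s))) := by
  apply tendsto_const_nhds.congr'
  filter_upwards [eventually_le_atBot ((-U (-s) - z.2) / (s - z.1))] with μ hμ
  rw [le_div_iff₀ (by linarith)] at hμ
  unfold cl
  rw [max_eq_left ((min_le_right _ _).trans (by linarith))]

theorem cl_tend_hi {a : ℝ} {U : ℝ → ℝ} (h : Body a U) (z : ℝ × ℝ) {s : ℝ} (hsI : s ∈ Icc (-a) a)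
    (hs : s < z.1) : Tendsto (fun μ => cl U z μ s) atBot (𝓝 (U s)) := by
  apply tendsto_const_nhds.congr'
  filter_upwards [eventually_le_atBot ((z.2 - U s) / (z.1 - s))] with μ hμ
  rw [le_div_iff₀ (by linarith)] at hμ
  unfold cl
  rw [min_eq_left (by linarith), max_eq_right (lo_le_up h hsI)]

theorem bound_ii {a : ℝ} {U : ℝ → ℝ} (h : Body a U) {p q : ℝ} (hp : p ∈ Icc (-a) a)
    (hq : q ∈ Icc (-a) a) : IntervalIntegrable (fun s => |U s| + |U (-s)|) volume p q :=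
  ii_of_cont (h.cont.abs.add (cont_neg h).abs) hp hq

theorem int_tend_lo {a : ℝ} {U : ℝ → ℝ} (h : Body a U) (z : ℝ × ℝ) (hz : z.1 ∈ Icc (-a) a) :
    Tendsto (fun μ => ∫ s in z.1..a, cl U z μ s) atBot (𝓝 (∫ s in z.1..a, -U (-s))) := by
  apply intervalIntegral.tendsto_integral_filter_of_dominated_convergence
    (fun s => |U s| + |U (-s)|)
  · exact Eventually.of_forall (fun μ => (cl_ii h z μ hz (mem_a h)).def'.aestronglyMeasurable)
  · refine Eventually.of_forall (fun μ => Eventually.of_forall (fun s hs => ?_))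
    rw [uIoc_of_le hz.2] at hs
    exact cl_abs_le h z μ ⟨by linarith [hs.1, hz.1], hs.2⟩
  · exact bound_ii h hz (mem_a h)
  · refine Eventually.of_forall (fun s hs => ?_)
    rw [uIoc_of_le hz.2] at hs
    exact cl_tend_lo z hs.1

theorem int_tend_hi {a : ℝ} {U : ℝ → ℝ} (h : Body a U) (z : ℝ × ℝ) (hz : z.1 ∈ Icc (-a) a) :
    Tendsto (fun μ => ∫ s in (-a)..z.1, cl U z μ s) atBot (𝓝 (∫ s in (-a)..z.1, U s)) := by
  apply intervalIntegral.tendsto_integral_filter_of_dominated_convergence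
    (fun s => |U s| + |U (-s)|)
  · exact Eventually.of_forall (fun μ => (cl_ii h z μ (mem_na h) hz).def'.aestronglyMeasurable)
  · refine Eventually.of_forall (fun μ => Eventually.of_forall (fun s hs => ?_))
    rw [uIoc_of_le hz.1] at hs
    exact cl_abs_le h z μ ⟨hs.1.le, by linarith [hs.2, hz.2]⟩
  · exact bound_ii h (mem_na h) hz
  · have hne : ∀ᵐ s ∂(volume : Measure ℝ), s ≠ z.1 := by
      simp [ae_iff, measure_singleton]
    filter_upwards [hne] with s hsne hs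
    rw [uIoc_of_le hz.1] at hs
    exact cl_tend_hi h z ⟨hs.1.le, by linarith [hs.2, hz.2]⟩ (lt_of_le_of_ne hs.2 hsne)

theorem Phi_tend {a : ℝ} {U : ℝ → ℝ} (h : Body a U) {z : ℝ × ℝ} (hz : z ∈ KU a U) :
    Tendsto (fun μ => Phi a U z μ) atBot (𝓝 (Phmin a U z)) := by
  have h1 := int_tend_lo h z (KU_Icc hz)
  have h2 := int_tend_hi h z (KU_Icc hz)
  exact (h1.const_add (z.1 * z.2)).sub h2

theorem kA_tend {a : ℝ} {U : ℝ → ℝ} (h : Body a U) {z : ℝ × ℝ} (hz : z ∈ KU a U) :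
    Tendsto (fun μ => kA a U z μ) atBot (𝓝 (kAR a U z)) := by
  have hI := KU_Icc hz
  have h1 := int_tend_lo h z hI
  have h2 := int_tend_hi h z hI
  have e1 : ∀ μ, kA a U z μ = (∫ s in (-a)..a, U s) - ((∫ s in (-a)..z.1, cl U z μ s) +
      ∫ s in z.1..a, cl U z μ s) := by
    intro μ
    rw [kA_eq h, intervalIntegral.integral_add_adjacent_intervals (cl_ii h _ _ (mem_na h) hI)
      (cl_ii h _ _ hI (mem_a h))]
  have e2 : kAR a U z = (∫ s in (-a)..a, U s) - ((∫ s in (-a)..z.1, U s) +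
      ∫ s in z.1..a, -U (-s)) := by
    unfold kAR
    rw [intervalIntegral.integral_add (ii_of_cont h.cont hI (mem_a h))
      (ii_of_cont (cont_neg h) hI (mem_a h)), intervalIntegral.integral_neg,
      ← intervalIntegral.integral_add_adjacent_intervals (ii_of_cont h.cont (mem_na h) hI)
      (ii_of_cont h.cont hI (mem_a h))]
    ring
  rw [e2]
  simp only [e1]
  exact (h2.add h1).const_sub _

theorem kf_tend {a : ℝ} {U : ℝ → ℝ} (h : Body a U) {z : ℝ × ℝ} (hz : z ∈ KU a U) :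
    Tendsto (fun μ => kf a U z μ) atBot (𝓝 (kv a U z)) := by
  have h1 := kA_tend h hz
  have h2 := (h1.const_sub (Vol a U))
  exact h1.min h2

theorem J1v {a : ℝ} {U : ℝ → ℝ} (h : Body a U) {hh : ℝ}
    (hhex : ∀ p ∈ KU a U, ∀ q ∈ KU a U, ∀ r ∈ KU a U, cr p q + cr q r + cr p r ≤ hh)
    (hV : Vol a U ≤ 2 * hh) {z z' : ℝ × ℝ}
    (hz : z ∈ KU a U) (hz' : z' ∈ KU a U) :
    cr z' z + Phmin a U z - Phmin a U z' + (kv a U z + kv a U z') / 2 ≤ hh := by
  apply le_of_tendsto (((Phi_tend h hz).const_add (cr z' z) |>.sub (Phi_tend h hz')).add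
    (((kf_tend h hz).add (kf_tend h hz')).div_const 2))
  exact Eventually.of_forall (fun μ => J1 h hhex hV μ hz hz')

theorem J2v {a : ℝ} {U : ℝ → ℝ} (h : Body a U) {hh : ℝ}
    (hhex : ∀ p ∈ KU a U, ∀ q ∈ KU a U, ∀ r ∈ KU a U, cr p q + cr q r + cr p r ≤ hh)
    (hV : Vol a U ≤ 2 * hh) {z z' : ℝ × ℝ}
    (hz : z ∈ KU a U) (hz' : z' ∈ KU a U) :
    cr z' z + Phmin a U z - Phmin a U z' - (kv a U z + kv a U z') ≤ 2 * hh - Vol a U := by
  apply le_of_tendsto (((Phi_tend h hz).const_add (cr z' z) |>.sub (Phi_tend h hz')).sub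
    (((kf_tend h hz).add (kf_tend h hz'))))
  exact Eventually.of_forall (fun μ => J2 h hhex hV μ hz hz')

theorem J1v_max {a : ℝ} {U : ℝ → ℝ} (h : Body a U) {hh : ℝ}
    (hhex : ∀ p ∈ KU a U, ∀ q ∈ KU a U, ∀ r ∈ KU a U, cr p q + cr q r + cr p r ≤ hh)
    (hV : Vol a U ≤ 2 * hh) {z z' : ℝ × ℝ}
    (hz : z ∈ KU a U) (hz' : z' ∈ KU a U) :
    cr z' z + Phmax a U z - Phmax a U z' + (kv a U z + kv a U z') / 2 ≤ hh := by
  have h1 := J1v h hhex hV hz hz'
  have h2 := Phmax_sub h hz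
  have h3 := Phmax_sub h hz'
  linarith

theorem J2v_max {a : ℝ} {U : ℝ → ℝ} (h : Body a U) {hh : ℝ}
    (hhex : ∀ p ∈ KU a U, ∀ q ∈ KU a U, ∀ r ∈ KU a U, cr p q + cr q r + cr p r ≤ hh)
    (hV : Vol a U ≤ 2 * hh) {z z' : ℝ × ℝ}
    (hz : z ∈ KU a U) (hz' : z' ∈ KU a U) :
    cr z' z + Phmax a U z - Phmax a U z' - (kv a U z + kv a U z') ≤ 2 * hh - Vol a U := by
  have h1 := J2v h hhex hV hz hz'
  have h2 := Phmax_sub h hz
  have h3 := Phmax_sub h hz'
  linarith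

end
end FT722
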