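import Mathlib
import Pool.Agent.FTfinal.FT934_CB
set_option autoImplicit false
open MeasureTheory Set
namespace FT722
noncomputable section

/-- open half-plane on the right-hand side of the directed line through `z` with direction `u` -/
def Hs (z u : ℝ × ℝ) : Set (ℝ × ℝ) := {p | cr u (p - z) < 0}

/-- area of the cap of `K` cut off by the directed line through `z` with direction `u` -/
def cap (K : Set (ℝ × ℝ)) (z u : ℝ × ℝ) : ℝ := (volume (K ∩ Hs z u)).toReal

/-- area of the part of `K` in the symmetric difference of the two half-planes -/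
def gam (K : Set (ℝ × ℝ)) (z u z' u' : ℝ × ℝ) : ℝ :=
  (volume (K ∩ symmDiff (Hs z u) (Hs z' u'))).toReal

/-- folded cap area (the smaller one of the two parts of `K`) -/
def capf (K : Set (ℝ × ℝ)) (z u : ℝ × ℝ) : ℝ := min (cap K z u) ((volume K).toReal - cap K z u)

/-- sum of the folded areas of the two caps at a notch at `v`, direction `u`, between the cells
with centres `o` (old) and `o'` (new) -/
def sig (K : Set (ℝ × ℝ)) (o o' v u : ℝ × ℝ) : ℝ := capf K (v - o) u + capf K (v - o') u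

/-- saving at a notch; `δ = V - h` -/
def kap (K : Set (ℝ × ℝ)) (δ : ℝ) (o o' v u : ℝ × ℝ) : ℝ :=
  max (sig K o o' v u / 2) (δ - sig K o o' v u)

/-- a station on the boundary of `C` (counterclockwise): the cell with centre `o` starts at the
point `v`, where `C` has the support direction `u = r (cos θ, sin θ)` -/
structure Stn where
  o : ℝ × ℝ
  v : ℝ × ℝ
  u : ℝ × ℝ
  θ : ℝ

/-- sum over cyclically consecutive pairs of a list -/
def cyc {α : Type} (f : α → α → ℝ) : List α → ℝ
  | [] => 0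
  | a :: l => go f a a l
where
  go {α : Type} (f : α → α → ℝ) (a0 : α) : α → List α → ℝ
    | a, [] => f a a0
    | a, b :: l => f a b + go f a0 b l

/-- what we know about the arc from station `s` to the next station `s'` -/
structure Arc (K C : Set (ℝ × ℝ)) (s s' : Stn) : Prop where
  vC : s.v ∈ C
  v1 : s.v - s.o ∈ K
  v2 : s'.v - s.o ∈ K
  sup : ∀ p ∈ C, 0 ≤ cr s.u (p - s.v)
  ang : ∃ r : ℝ, 0 < r ∧ s.u = (r * Real.cos s.θ, r * Real.sin s.θ)
  H : ∀ p ∈ C, cr (s'.v - s.v) (p - s.v) < 0 → p - s.o ∈ K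

/-- the list of stations coming from a sweep; `μ j`, `ν j` are slopes of support lines of `cm`, `cp`
at `x j`, `0 < j < N` -/
def stns {k : ℕ} (U cm cp : ℝ → ℝ) (c : Fin k → ℝ × ℝ) (N : ℕ) (x μ ν : ℕ → ℝ)
    (L : ℕ → List (Fin k)) (bo tp : ℕ → Fin k) : List Stn :=
  -- bottom
  (⟨c (bo 0), (x 0, cm (x 0)), (0, -1), -(Real.pi / 2)⟩ ::
    (List.range (N - 1)).map (fun j =>
      ⟨c (bo (j + 1)), (x (j + 1), cm (x (j + 1))), (1, μ (j + 1)), Real.arctan (μ (j + 1))⟩)) ++
  -- right edge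
  (⟨c (bo (N - 1)), (x N, cm (x N)), (0, 1), Real.pi / 2⟩ ::
    (L (N - 1)).tail.map (fun i =>
      ⟨c i, (x N, max (lo U (c i) (x N)) (cm (x N))), (0, 1), Real.pi / 2⟩)) ++
  -- top
  (⟨c (tp (N - 1)), (x N, cp (x N)), (0, 1), Real.pi / 2⟩ ::
    (List.range (N - 1)).reverse.map (fun j =>
      ⟨c (tp j), (x (j + 1), cp (x (j + 1))), (-1, -ν (j + 1)),
        Real.pi + Real.arctan (ν (j + 1))⟩)) ++
  -- left edge
  (⟨c (tp 0), (x 0, cp (x 0)), (0, -1), 3 * Real.pi / 2⟩ ::
    ((L 0).zip (L 0).tail).reverse.map (fun q =>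
      ⟨c q.1, (x 0, max (lo U (c q.2) (x 0)) (cm (x 0))), (0, -1), 3 * Real.pi / 2⟩))

end
end FT722
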