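import Mathlib
import Pool.Agent.FTfinal.FT722_Stn
set_option autoImplicit false
open MeasureTheory Set
namespace FT722
noncomputable section

/-- all cyclically consecutive pairs satisfy `R` -/
def cycAll {α : Type} (R : α → α → Prop) : List α → Prop
  | [] => True
  | a :: l => go R a a l
where
  go {α : Type} (R : α → α → Prop) (a0 : α) : α → List α → Prop
    | a, [] => R a a0
    | a, b :: l => R a b ∧ go R a0 b l

/-- area -/
def ar (S : Set (ℝ × ℝ)) : ℝ := (volume S).toReal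

/-- points of `C` strictly beyond the chord from `v` to `v'` -/
def bey (C : Set (ℝ × ℝ)) (v v' : ℝ × ℝ) : Set (ℝ × ℝ) := {p | p ∈ C ∧ cr (v' - v) (p - v) < 0}

/-- standing assumptions; `h` = (bound for the) maximal area of an inscribed symmetric hexagon -/
structure Hyp (K C : Set (ℝ × ℝ)) (h : ℝ) : Prop where
  Kc : IsCompact K
  Kconv : Convex ℝ K
  Ksym : ∀ p ∈ K, -p ∈ K
  Kint : (interior K).Nonempty
  Cc : IsCompact C
  Cconv : Convex ℝ C
  Cint : (interior C).Nonempty
  hpos : 0 < h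
  hex : ∀ p ∈ K, ∀ q ∈ K, ∀ r ∈ K, cr p q + cr q r + cr p r ≤ h

/-- one term of the saving `S` : notch at `s'` and arc from `s` to `s'` -/
def sv (K : Set (ℝ × ℝ)) (h : ℝ) (s s' : Stn) : ℝ :=
  kap K (ar K - h) s.o s'.o s'.v s'.u + gam K (s.v - s.o) s.u (s'.v - s.o) s'.u

/-- complete information about an arc, including the next station -/
structure Arc2 (K C : Set (ℝ × ℝ)) (s s' : Stn) : Prop where
  arc : Arc K C s s'
  vC' : s'.v ∈ C
  sup' : ∀ p ∈ C, 0 ≤ cr s'.u (p - s'.v)
  une : s.u ≠ 0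
  une' : s'.u ≠ 0

/-- angles are increasing and stay in one turn -/
def angs (l : List Stn) : Prop :=
  (l.map Stn.θ).Pairwise (· ≤ ·) ∧ ∀ s ∈ l, ∀ s' ∈ l, s'.θ ≤ s.θ + 2 * Real.pi

/-- the refined area inequality -/
def RI (K C : Set (ℝ × ℝ)) (h : ℝ) (l : List Stn) : Prop :=
  2 * ar C ≤ cyc (fun s s' => cr s.o s'.o) l + 2 * ar K +
    cyc (fun s s' => if s.o = s'.o then 0 else h - kap K (ar K - h) s.o s'.o s'.v s'.u) l -
    cyc (fun s s' => gam K (s.v - s.o) s.u (s'.v - s.o) s'.u) l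

end
end FT722
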