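import Mathlib
import Pool.Agent.FTfinal.FT722_Stn2
set_option autoImplicit false
open MeasureTheory Set
namespace FT722.MA56

noncomputable section

variable {K C : Set (ℝ × ℝ)} {h : ℝ}

theorem Hs_meas (z u : ℝ × ℝ) : MeasurableSet (Hs z u) := by
  have : IsOpen (Hs z u) := by
    unfold Hs cr
    exact isOpen_lt (by fun_prop) continuous_const
  exact this.measurableSet

theorem gam_ge (H : Hyp K C h) (z u z' u' : ℝ × ℝ) :
    |cap K z u - cap K z' u'| ≤ gam K z u z' u' := by
  have hK : MeasurableSet K := H.Kc.measurableSet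
  have hfin : ∀ A : Set (ℝ × ℝ), volume (K ∩ A) ≠ ⊤ := fun A =>
    ((measure_mono inter_subset_left).trans_lt H.Kc.measure_lt_top).ne
  have h1 := abs_measureReal_sub_le_measureReal_symmDiff' (μ := volume)
    (hK.inter (Hs_meas z u)).nullMeasurableSet (hK.inter (Hs_meas z' u')).nullMeasurableSet
    (hfin _) (hfin _)
  rw [← Set.inter_symmDiff_distrib_left] at h1
  exact h1

theorem bey_le (H : Hyp K C h) {s s' : Stn} (ha : Arc K C s s') :
    ar (bey C s.v s'.v) ≤ ar K := by
  have hsub : bey C s.v s'.v ⊆ (fun p => p + (-s.o)) ⁻¹' K := by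
    rintro p ⟨hp, hc⟩
    have := ha.H p hp hc
    rw [sub_eq_add_neg] at this
    exact this
  have h2 : volume ((fun p => p + (-s.o)) ⁻¹' K) = volume K := measure_preimage_add_right _ _ _
  unfold ar
  refine ENNReal.toReal_mono H.Kc.measure_lt_top.ne ?_
  rw [← h2]
  exact measure_mono hsub

theorem kap_ge (δ : ℝ) (o o' v u : ℝ × ℝ) : δ / 3 ≤ kap K δ o o' v u := by
  unfold kap
  have h1 := le_max_left (sig K o o' v u / 2) (δ - sig K o o' v u)
  have h2 := le_max_right (sig K o o' v u / 2) (δ - sig K o o' v u)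
  linarith

end

end FT722.MA56

namespace FT722
alias gam_ge := MA56.gam_ge
alias bey_le := MA56.bey_le
alias kap_ge := MA56.kap_ge
end FT722
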