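import Mathlib
import Pool.Agent.FTfinal.FT722_M_A56
set_option autoImplicit false
open MeasureTheory Set
namespace FT722
noncomputable section
variable {K C : Set (ℝ × ℝ)} {h : ℝ}

theorem cap_le_ar (H : Hyp K C h) (z u : ℝ × ℝ) : cap K z u ≤ ar K :=
  ENNReal.toReal_mono H.Kc.measure_lt_top.ne (measure_mono inter_subset_left)

theorem capf_nonneg (H : Hyp K C h) (z u : ℝ × ℝ) : 0 ≤ capf K z u := by
  have h1 := cap_le_ar H z u
  exact le_min ENNReal.toReal_nonneg (by unfold ar at h1; linarith)

theorem capf_le (z u : ℝ × ℝ) : capf K z u ≤ cap K z u := min_le_left _ _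

theorem gamf_ge (H : Hyp K C h) (z u z' u' : ℝ × ℝ) :
    |capf K z u - capf K z' u'| ≤ gam K z u z' u' := by
  refine le_trans ?_ (gam_ge H z u z' u')
  unfold capf
  have e : ∀ V x y : ℝ, |min x (V - x) - min y (V - y)| ≤ |x - y| := by
    intro V x y
    have h1 := abs_min_sub_min_le_max x (V - x) y (V - y)
    have h2 : |V - x - (V - y)| = |x - y| := by
      rw [show V - x - (V - y) = -(x - y) by ring, abs_neg]
    rw [h2, max_self] at h1
    exact h1
  exact e _ _ _

theorem kap_nonneg (H : Hyp K C h) (δ : ℝ) (o o' v u : ℝ × ℝ) : 0 ≤ kap K δ o o' v u := by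
  have : 0 ≤ sig K o o' v u := add_nonneg (capf_nonneg H _ _) (capf_nonneg H _ _)
  exact le_max_of_le_left (by linarith)

end
end FT722
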