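import Mathlib
import Pool.Agent.FTfinal.FT722_Stn2
set_option autoImplicit false
open MeasureTheory Set
namespace FT722.MG1

noncomputable section

variable {K C : Set (ℝ × ℝ)} {h : ℝ}

theorem hexS_vol {α β γ : ℝ} (hα : 0 ≤ α) (hβ : 0 ≤ β) (hγ : 0 ≤ γ) :
    volume {x : ℝ × ℝ | |x.1| ≤ α + β ∧ |x.2| ≤ α + γ ∧ |x.1 + x.2| ≤ β + γ} ≤
      ENNReal.ofReal (4 * (α * β + β * γ + γ * α)) := by
  set S := {x : ℝ × ℝ | |x.1| ≤ α + β ∧ |x.2| ≤ α + γ ∧ |x.1 + x.2| ≤ β + γ} with hS
  set R : Set (ℝ × ℝ) := Icc (-(α + β)) (α + β) ×ˢ Icc (-(α + γ)) (α + γ) with hR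
  set C1 : Set (ℝ × ℝ) := regionBetween (fun s => β + γ - s) (fun _ => α + γ) (Ioc (β - α) (α + β)) with hC1
  set C2 : Set (ℝ × ℝ) := regionBetween (fun _ => -(α + γ)) (fun s => -(β + γ) - s) (Ico (-(α + β)) (-(β - α))) with hC2
  have v1 : volume C1 = ENNReal.ofReal (2 * α ^ 2) := by
    rw [hC1, Measure.volume_eq_prod, volume_regionBetween_eq_integral]
    · congr 1
      rw [← intervalIntegral.integral_of_le (by linarith)]
      simp only [Pi.sub_apply]
      have : ∀ s : ℝ, (α + γ - (β + γ - s)) = s + (α - β) := by intro s; ring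
      simp only [this]
      rw [intervalIntegral.integral_add (by simp) (by simp)]
      simp
      ring
    · apply Continuous.integrableOn_Ioc; fun_prop
    · apply Continuous.integrableOn_Ioc; fun_prop
    · exact measurableSet_Ioc
    · intro s hs; linarith [hs.1]
  have v2 : volume C2 = ENNReal.ofReal (2 * α ^ 2) := by
    rw [hC2, Measure.volume_eq_prod, volume_regionBetween_eq_integral]
    · congr 1
      rw [integral_Ico_eq_integral_Ioc, ← intervalIntegral.integral_of_le (by linarith)]
      simp only [Pi.sub_apply]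
      have : ∀ s : ℝ, (-(β + γ) - s - -(α + γ)) = (α - β) - s := by intro s; ring
      simp only [this]
      rw [intervalIntegral.integral_sub (by simp) (by simp)]
      simp
      ring
    · exact (Continuous.integrableOn_Icc (by fun_prop)).mono_set Ico_subset_Icc_self
    · exact (Continuous.integrableOn_Icc (by fun_prop)).mono_set Ico_subset_Icc_self
    · exact measurableSet_Ico
    · intro s hs; linarith [hs.2]
  have vR : volume R = ENNReal.ofReal (4 * ((α + β) * (α + γ))) := by
    rw [hR, Measure.volume_eq_prod, Measure.prod_prod, Real.volume_Icc, Real.volume_Icc,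
      ← ENNReal.ofReal_mul (by linarith)]
    congr 1; ring
  have m1 : MeasurableSet C1 := measurableSet_regionBetween (by fun_prop) (by fun_prop) measurableSet_Ioc
  have m2 : MeasurableSet C2 := measurableSet_regionBetween (by fun_prop) (by fun_prop) measurableSet_Ico
  have d12 : Disjoint C1 C2 := by
    rw [Set.disjoint_left]
    rintro x ⟨h1, h2⟩ ⟨h3, h4⟩
    simp only [mem_Ioo] at h2 h4
    linarith [h2.1, h2.2, h4.1, h4.2]
  have dS : Disjoint S (C1 ∪ C2) := by
    rw [Set.disjoint_left]
    rintro x ⟨h1, h2, h3⟩ (⟨h4, h5⟩ | ⟨h4, h5⟩)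
    · have := abs_le.mp h3; simp only [mem_Ioo] at h5; linarith [h5.1]
    · have := abs_le.mp h3; simp only [mem_Ioo] at h5; linarith [h5.2]
  have sub : S ∪ (C1 ∪ C2) ⊆ R := by
    rintro x (⟨h1, h2, h3⟩ | ⟨h4, h5⟩ | ⟨h4, h5⟩)
    · exact ⟨abs_le.mp h1, abs_le.mp h2⟩
    · simp only [mem_Ioo] at h5
      refine ⟨⟨by linarith [h4.1], h4.2⟩, ⟨by linarith [h5.1, h4.2], h5.2.le⟩⟩
    · simp only [mem_Ioo] at h5
      refine ⟨⟨h4.1, by linarith [h4.2]⟩, ⟨h5.1.le, by linarith [h5.2, h4.1]⟩⟩
  have key : volume S + (volume C1 + volume C2) ≤ volume R := by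
    rw [← measure_union d12 m2, ← measure_union dS (m1.union m2)]
    exact measure_mono sub
  rw [v1, v2, vR, ← ENNReal.ofReal_add (by positivity) (by positivity)] at key
  have : volume S ≤ ENNReal.ofReal (4 * ((α + β) * (α + γ))) - ENNReal.ofReal (2 * α ^ 2 + 2 * α ^ 2) :=
    ENNReal.le_sub_of_add_le_right ENNReal.ofReal_ne_top key
  rw [← ENNReal.ofReal_sub _ (by positivity)] at this
  refine this.trans (ENNReal.ofReal_le_ofReal (le_of_eq (by ring)))

theorem vol_four_thirds_aux {K : Set (ℝ × ℝ)} {h : ℝ} (hc : IsCompact K) (hne : K.Nonempty)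
    (hsym : ∀ p ∈ K, -p ∈ K) (h0 : 0 < h)
    (hex : ∀ p ∈ K, ∀ q ∈ K, ∀ r ∈ K, cr p q + cr q r + cr p r ≤ h) :
    (volume K).toReal ≤ 4 / 3 * h := by
  -- maximal triple
  obtain ⟨⟨p, q, r⟩, ⟨hp, hq, hr⟩, hmax⟩ := (hc.prod (hc.prod hc)).exists_isMaxOn
    (hne.prod (hne.prod hne))
    (f := fun x : (ℝ × ℝ) × (ℝ × ℝ) × (ℝ × ℝ) => cr x.1 x.2.1 + cr x.2.1 x.2.2 + cr x.1 x.2.2)
    (by unfold cr; fun_prop)
  simp only at hp hq hr
  have hM : ∀ u ∈ K, ∀ v ∈ K, ∀ w ∈ K, cr u v + cr v w + cr u w ≤ cr p q + cr q r + cr p r := by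
    intro u hu v hv w hw
    exact hmax (show (u, v, w) ∈ K ×ˢ (K ×ˢ K) from ⟨hu, hv, hw⟩)
  set α := cr p q with hα
  set β := cr q r with hβ
  set γ := cr p r with hγ
  have hle : α + β + γ ≤ h := hex p hp q hq r hr
  have s0 : ∀ u : ℝ × ℝ, cr u u = 0 := by intro u; unfold cr; ring
  have h2 : ∀ u ∈ K, ∀ v ∈ K, 2 * cr u v ≤ α + β + γ := by
    intro u hu v hv
    have := hM u hu v hv v hv
    rw [s0] at this; linarith
  have a0 : 0 ≤ α := by have := h2 q hq r hr; have := h2 p hp r hr; linarith
  have b0 : 0 ≤ β := by have := h2 p hp q hq; have := h2 p hp r hr; linarith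
  have g0 : 0 ≤ γ := by have := h2 p hp q hq; have := h2 q hq r hr; linarith
  have k1 : ∀ x ∈ K, |cr (p - r) x| ≤ α + β := by
    intro x hx
    rw [abs_le]
    have e1 := hM p hp x hx r hr
    have e2 := hM p hp (-x) (hsym x hx) r hr
    simp only [cr, Prod.fst_sub, Prod.snd_sub, Prod.fst_neg, Prod.snd_neg, hα, hβ, hγ] at *
    constructor <;> linarith
  have k2 : ∀ x ∈ K, |cr (q + r) x| ≤ α + γ := by
    intro x hx
    rw [abs_le]
    have e1 := hM x hx q hq r hr
    have e2 := hM (-x) (hsym x hx) q hq r hr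
    simp only [cr, Prod.fst_add, Prod.snd_add, Prod.fst_neg, Prod.snd_neg, hα, hβ, hγ] at *
    constructor <;> linarith
  have k3 : ∀ x ∈ K, |cr (p - r) x + cr (q + r) x| ≤ β + γ := by
    intro x hx
    rw [abs_le]
    have e1 := hM p hp q hq x hx
    have e2 := hM p hp q hq (-x) (hsym x hx)
    simp only [cr, Prod.fst_add, Prod.snd_add, Prod.fst_sub, Prod.snd_sub, Prod.fst_neg, Prod.snd_neg, hα, hβ, hγ] at *
    constructor <;> linarith
  rcases eq_or_lt_of_le (show 0 ≤ α + β + γ by linarith) with h00 | hpos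
  · -- all cross products vanish: K is in a line
    have hz : ∀ u ∈ K, ∀ v ∈ K, cr u v = 0 := by
      intro u hu v hv
      have e1 := h2 u hu v hv
      have e2 := h2 v hv u hu
      have e3 : cr v u = - cr u v := by unfold cr; ring
      linarith
    have : volume K = 0 := by
      by_cases hK0 : ∀ u ∈ K, u = 0
      · exact measure_mono_null (fun u hu => hK0 u hu) (measure_singleton (0 : ℝ × ℝ))
      · push Not at hK0
        obtain ⟨u, hu, hu0⟩ := hK0
        have hsub : K ⊆ (Submodule.span ℝ {u} : Submodule ℝ (ℝ × ℝ)) := by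
          intro v hv
          rw [SetLike.mem_coe, Submodule.mem_span_singleton]
          have e := hz u hu v hv
          unfold cr at e
          by_cases h1 : u.1 = 0
          · have h2' : u.2 ≠ 0 := by
              intro h2'; apply hu0; exact Prod.ext h1 h2'
            refine ⟨v.2 / u.2, Prod.ext ?_ ?_⟩
            · simp only [Prod.smul_fst, smul_eq_mul, h1]
              rw [h1] at e
              have : u.2 * v.1 = 0 := by linarith
              rcases mul_eq_zero.mp this with h | h
              · exact absurd h h2'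
              · simp [h]
            · simp only [Prod.smul_snd, smul_eq_mul]; field_simp
          · refine ⟨v.1 / u.1, Prod.ext ?_ ?_⟩
            · simp only [Prod.smul_fst, smul_eq_mul]; field_simp
            · simp only [Prod.smul_snd, smul_eq_mul]; field_simp; linarith
        refine measure_mono_null hsub (Measure.addHaar_submodule volume _ ?_)
        intro htop
        have h1 : ((1, 0) : ℝ × ℝ) ∈ Submodule.span ℝ {u} := by rw [htop]; trivial
        have h2 : ((0, 1) : ℝ × ℝ) ∈ Submodule.span ℝ {u} := by rw [htop]; trivial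
        rw [Submodule.mem_span_singleton] at h1 h2
        obtain ⟨s, hs⟩ := h1
        obtain ⟨t, ht⟩ := h2
        have a1 := congrArg Prod.fst hs
        have a2 := congrArg Prod.snd hs
        have a3 := congrArg Prod.fst ht
        have a4 := congrArg Prod.snd ht
        simp only [Prod.smul_fst, Prod.smul_snd, smul_eq_mul] at a1 a2 a3 a4
        have : (s * u.1) * (t * u.2) = (s * u.2) * (t * u.1) := by ring
        rw [a1, a4, a2, a3] at this
        norm_num at this
    rw [this]; simp; linarith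
  · -- linear map
    let L : (ℝ × ℝ) →ₗ[ℝ] (ℝ × ℝ) :=
      { toFun := fun x => (cr (p - r) x, cr (q + r) x)
        map_add' := by intro x y; unfold cr; ext <;> simp <;> ring
        map_smul' := by intro c x; unfold cr; ext <;> simp <;> ring }
    have hdet : LinearMap.det L = α + β + γ := by
      rw [← LinearMap.det_toMatrix (Module.Basis.finTwoProd ℝ), Matrix.det_fin_two]
      simp [LinearMap.toMatrix_apply, L, cr, hα, hβ, hγ]
      ring
    have hsub : K ⊆ L ⁻¹' {x : ℝ × ℝ | |x.1| ≤ α + β ∧ |x.2| ≤ α + γ ∧ |x.1 + x.2| ≤ β + γ} := by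
      intro x hx
      exact ⟨k1 x hx, k2 x hx, k3 x hx⟩
    have hvol : volume K ≤ ENNReal.ofReal (|(α + β + γ)⁻¹|) * ENNReal.ofReal (4 * (α * β + β * γ + γ * α)) := by
      refine (measure_mono hsub).trans ?_
      rw [Measure.addHaar_preimage_linearMap volume (f := L) (by rw [hdet]; exact hpos.ne'), hdet]
      gcongr
      exact hexS_vol a0 b0 g0
    rw [← ENNReal.ofReal_mul (by positivity)] at hvol
    refine (ENNReal.toReal_le_of_le_ofReal (by positivity) hvol).trans ?_
    rw [abs_of_pos (by positivity)]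
    have : (α + β + γ)⁻¹ * (4 * (α * β + β * γ + γ * α)) ≤ 4 / 3 * (α + β + γ) := by
      rw [inv_mul_le_iff₀ hpos]
      nlinarith [sq_nonneg (α - β), sq_nonneg (β - γ), sq_nonneg (γ - α)]
    linarith

theorem vol_le_four_thirds (H : Hyp K C h) : ar K ≤ 4 / 3 * h :=
  vol_four_thirds_aux H.Kc (H.Kint.mono interior_subset) H.Ksym H.hpos H.hex

end

end FT722.MG1

namespace FT722
alias vol_le_four_thirds := MG1.vol_le_four_thirds
end FT722
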