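import Mathlib
import Pool.Agent.FTfinal.FT722_Stn2
set_option autoImplicit false
open MeasureTheory Set
namespace FT722
noncomputable section

/-! Part A4 of MP_cab9bb_co (helper15): the lambda-lemma `lam`. -/

theorem line_null16 {e : ℝ × ℝ} (he : e ≠ 0) (v : ℝ × ℝ) :
    volume {p : ℝ × ℝ | cr e (p - v) = 0} = 0 := by
  let f : (ℝ × ℝ) →ₗ[ℝ] ℝ :=
    { toFun := fun x => cr e x
      map_add' := by intro x y; unfold cr; simp only [Prod.fst_add, Prod.snd_add]; ring
      map_smul' := by intro c x; unfold cr; simp only [Prod.smul_fst, Prod.smul_snd, smul_eq_mul, RingHom.id_apply]; ring }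
  have h1 : volume (LinearMap.ker f : Set (ℝ × ℝ)) = 0 := by
    refine Measure.addHaar_submodule volume _ ?_
    intro htop
    apply he
    have h1 : ((1, 0) : ℝ × ℝ) ∈ LinearMap.ker f := by rw [htop]; trivial
    have h2 : ((0, 1) : ℝ × ℝ) ∈ LinearMap.ker f := by rw [htop]; trivial
    rw [LinearMap.mem_ker] at h1 h2
    simp only [f, LinearMap.coe_mk, AddHom.coe_mk, cr] at h1 h2
    ext
    · simpa using h2
    · simpa using h1
  have h2 : {p : ℝ × ℝ | cr e (p - v) = 0} = (fun p => p + (-v)) ⁻¹' (LinearMap.ker f : Set (ℝ × ℝ)) := by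
    ext p
    simp only [mem_ofPred_eq, mem_preimage, SetLike.mem_coe, LinearMap.mem_ker, f, LinearMap.coe_mk, AddHom.coe_mk,
      sub_eq_add_neg]
  rw [h2, measure_preimage_add_right, h1]

theorem tri_up {M : ℝ} (hM : 0 ≤ M) :
    volume {p : ℝ × ℝ | 0 < p.1 ∧ 0 < p.2 ∧ p.1 + p.2 ≤ M} ≤ ENNReal.ofReal (M ^ 2 / 2) := by
  have hsub : {p : ℝ × ℝ | 0 < p.1 ∧ 0 < p.2 ∧ p.1 + p.2 ≤ M} ⊆
      regionBetween (fun _ => (0:ℝ)) (fun s => M - s) (Ioc 0 M) ∪ {p : ℝ × ℝ | cr (1, -1) (p - (M, 0)) = 0} := by
    rintro p ⟨h1, h2, h3⟩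
    rcases lt_or_eq_of_le h3 with h4 | h4
    · left
      exact ⟨⟨h1, by linarith⟩, ⟨h2, by linarith⟩⟩
    · right
      simp only [mem_ofPred_eq, cr, Prod.fst_sub, Prod.snd_sub]
      linarith
  refine (measure_mono hsub).trans ((measure_union_le _ _).trans ?_)
  rw [line_null16 (by intro h; have := congrArg Prod.fst h; norm_num at this), add_zero, Measure.volume_eq_prod,
    volume_regionBetween_eq_integral]
  · apply le_of_eq
    congr 1
    rw [← intervalIntegral.integral_of_le hM]
    simp only [Pi.sub_apply]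
    rw [intervalIntegral.integral_sub (Continuous.intervalIntegrable (by fun_prop) _ _) (by simp), intervalIntegral.integral_sub (by simp) (by simp)]
    simp
    ring
  · apply Continuous.integrableOn_Ioc; fun_prop
  · apply Continuous.integrableOn_Ioc; fun_prop
  · exact measurableSet_Ioc
  · intro s hs; linarith [hs.2]

theorem tri_lo {c : ℝ} (hc : 0 ≤ c) :
    volume (regionBetween (fun _ => (0:ℝ)) (fun s => c * (1 + s)) (Ioc (-1) 0)) = ENNReal.ofReal (c / 2) := by
  rw [Measure.volume_eq_prod, volume_regionBetween_eq_integral]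
  · congr 1
    rw [← intervalIntegral.integral_of_le (by norm_num)]
    simp only [Pi.sub_apply, sub_zero]
    rw [intervalIntegral.integral_const_mul, intervalIntegral.integral_add (by simp) (by simp)]
    simp
    ring
  · apply Continuous.integrableOn_Ioc; fun_prop
  · apply Continuous.integrableOn_Ioc; fun_prop
  · exact measurableSet_Ioc
  · intro s hs; nlinarith [hs.1]

/-- one-sided triangle inside the body -/
theorem side_lo {K : Set (ℝ × ℝ)} (hcv : Convex ℝ K) (h0 : (0, 0) ∈ K) (h1 : (-1, 0) ∈ K) {w : ℝ × ℝ}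
    (hw : w ∈ K) (w1 : 0 ≤ w.1) (w2 : 0 ≤ w.2) :
    ENNReal.ofReal (w.2 / (1 + w.1) / 2) ≤ volume (K ∩ {p | 0 < p.2 ∧ p.1 ≤ 0}) := by
  rw [← tri_lo (by positivity)]
  apply measure_mono
  rintro ⟨s, t⟩ ⟨⟨hs1, hs2⟩, ⟨ht1, ht2⟩⟩
  simp only at hs1 hs2 ht1 ht2
  refine ⟨?_, ht1, hs2⟩
  have hw2 : 0 < w.2 := by
    by_contra hcon
    have : w.2 = 0 := le_antisymm (not_lt.mp hcon) w2
    rw [this] at ht2
    simp at ht2
    linarith
  have ht3 : t * (1 + w.1) < w.2 * (1 + s) := by
    rw [div_mul_eq_mul_div, lt_div_iff₀ (by positivity)] at ht2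
    exact ht2
  set g := t / w.2 with hg
  have hg0 : 0 ≤ g := by positivity
  have hgw : g * w.2 = t := by rw [hg]; field_simp
  have hg1 : g * (1 + w.1) < 1 + s := by
    by_contra hcon
    have hcon := not_lt.mp hcon
    have : w.2 * (1 + s) ≤ w.2 * (g * (1 + w.1)) := mul_le_mul_of_nonneg_left hcon w2
    nlinarith
  have hcomb := hcv.sum_mem (t := (Finset.univ : Finset (Fin 3))) (w := ![g * w.1 - s, g, 1 - (g * w.1 - s) - g])
    (z := ![((-1, 0) : ℝ × ℝ), w, (0, 0)]) (by
      intro i _
      fin_cases i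
      · simp; nlinarith [mul_nonneg hg0 w1]
      · simpa using hg0
      · simp; linarith) (by simp [Fin.sum_univ_three]) (by
      intro i _
      fin_cases i
      · simpa using h1
      · simpa using hw
      · simpa using h0)
  rw [Fin.sum_univ_three] at hcomb
  simp at hcomb
  have : (s, t) = (s - g * w.1, 0) + g • w + (0, 0) := by
    ext
    · simp
    · simp [hgw]
  rw [this]
  exact hcomb

theorem lam_core {K : Set (ℝ × ℝ)} (hc : IsCompact K) (hcv : Convex ℝ K) (h0 : (0, 0) ∈ K)
    (h1 : (-1, 0) ∈ K) (h2 : (0, -1) ∈ K) (hw : ∃ w ∈ K, 0 < w.1 ∧ 0 < w.2) :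
    ∃ M : ℝ, 0 < M ∧ (∃ w ∈ K, w.1 + w.2 = M) ∧
      1 / (1 + M) ^ 2 * ((volume (K ∩ {p | 0 < p.2})).toReal + (volume (K ∩ {p | 0 < p.1})).toReal) ≤
        (volume (K ∩ symmDiff {p | 0 < p.2} {p | 0 < p.1})).toReal := by
  have hfin : ∀ S : Set (ℝ × ℝ), volume (K ∩ S) ≠ ⊤ := fun S =>
    ((measure_mono inter_subset_left).trans_lt hc.measure_lt_top).ne
  obtain ⟨w0, hw0, hw01, hw02⟩ := hw
  have hQ : IsCompact (K ∩ {p : ℝ × ℝ | 0 ≤ p.1 ∧ 0 ≤ p.2}) := by
    apply hc.inter_right
    exact (isClosed_le continuous_const continuous_fst).inter (isClosed_le continuous_const continuous_snd)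
  obtain ⟨w, ⟨hwK, hw1, hw2⟩, hmax⟩ := hQ.exists_isMaxOn ⟨w0, hw0, hw01.le, hw02.le⟩
    (f := fun p : ℝ × ℝ => p.1 + p.2) (by fun_prop)
  have hmax' : ∀ p ∈ K, 0 ≤ p.1 → 0 ≤ p.2 → p.1 + p.2 ≤ w.1 + w.2 := fun p hp a b => hmax ⟨hp, a, b⟩
  set M := w.1 + w.2 with hM
  have hMpos : 0 < M := by have := hmax' w0 hw0 hw01.le hw02.le; linarith
  refine ⟨M, hMpos, ⟨w, hwK, rfl⟩, ?_⟩
  have mA : MeasurableSet {p : ℝ × ℝ | 0 < p.2} := measurableSet_lt measurable_const measurable_snd
  have mB : MeasurableSet {p : ℝ × ℝ | 0 < p.1} := measurableSet_lt measurable_const measurable_fst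
  have mK := hc.measurableSet
  set W := (volume (K ∩ ({p : ℝ × ℝ | 0 < p.1} ∩ {p | 0 < p.2}))).toReal with hW
  set X1 := (volume (K ∩ {p : ℝ × ℝ | 0 < p.2 ∧ p.1 ≤ 0})).toReal with hX1
  set X2 := (volume (K ∩ {p : ℝ × ℝ | 0 < p.1 ∧ p.2 ≤ 0})).toReal with hX2
  have e1 : (volume (K ∩ {p : ℝ × ℝ | 0 < p.2})).toReal = X1 + W := by
    rw [hX1, hW, ← ENNReal.toReal_add (hfin _) (hfin _), ← measure_union]
    · congr 2; ext p; simp only [mem_inter_iff, mem_ofPred_eq, mem_union]
      constructor
      · rintro ⟨a, b⟩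
        rcases le_or_gt p.1 0 with h | h
        · exact Or.inl ⟨a, b, h⟩
        · exact Or.inr ⟨a, h, b⟩
      · rintro (⟨a, b, c⟩ | ⟨a, b, c⟩)
        · exact ⟨a, b⟩
        · exact ⟨a, c⟩
    · rw [Set.disjoint_left]; rintro p ⟨_, _, a⟩ ⟨_, b, _⟩; simp only [mem_ofPred_eq] at b; linarith
    · exact mK.inter (mB.inter mA)
  have e2 : (volume (K ∩ {p : ℝ × ℝ | 0 < p.1})).toReal = X2 + W := by
    rw [hX2, hW, ← ENNReal.toReal_add (hfin _) (hfin _), ← measure_union]
    · congr 2; ext p; simp only [mem_inter_iff, mem_ofPred_eq, mem_union]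
      constructor
      · rintro ⟨a, b⟩
        rcases le_or_gt p.2 0 with h | h
        · exact Or.inl ⟨a, b, h⟩
        · exact Or.inr ⟨a, b, h⟩
      · rintro (⟨a, b, c⟩ | ⟨a, b, c⟩)
        · exact ⟨a, b⟩
        · exact ⟨a, b⟩
    · rw [Set.disjoint_left]; rintro p ⟨_, _, a⟩ ⟨_, _, b⟩; simp only [mem_ofPred_eq] at b; linarith
    · exact mK.inter (mB.inter mA)
  have e3 : (volume (K ∩ symmDiff {p : ℝ × ℝ | 0 < p.2} {p | 0 < p.1})).toReal = X1 + X2 := by
    rw [hX1, hX2, ← ENNReal.toReal_add (hfin _) (hfin _), ← measure_union]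
    · congr 2; ext p; simp only [mem_inter_iff, mem_ofPred_eq, mem_union, Set.mem_symmDiff, not_lt]
      tauto
    · rw [Set.disjoint_left]; rintro p ⟨_, _, a⟩ ⟨_, b, _⟩; linarith
    · refine mK.inter ?_
      exact mB.inter (measurableSet_le measurable_snd measurable_const)
  have hWle : W ≤ M ^ 2 / 2 := by
    rw [hW]
    refine ENNReal.toReal_le_of_le_ofReal (by positivity) ?_
    refine (measure_mono ?_).trans (tri_up hMpos.le)
    rintro p ⟨a, b, c⟩
    exact ⟨b, c, hmax' p a b.le c.le⟩
  have l1 : w.2 / (1 + w.1) / 2 ≤ X1 := by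
    rw [hX1]
    have := side_lo hcv h0 h1 hwK hw1 hw2
    exact (ENNReal.ofReal_le_iff_le_toReal (hfin _)).mp this
  -- swap
  have l2 : w.1 / (1 + w.2) / 2 ≤ X2 := by
    have hsw : volume (K ∩ {p : ℝ × ℝ | 0 < p.1 ∧ p.2 ≤ 0}) =
        volume ((Prod.swap ⁻¹' K) ∩ {p : ℝ × ℝ | 0 < p.2 ∧ p.1 ≤ 0}) := by
      have : (Prod.swap ⁻¹' K) ∩ {p : ℝ × ℝ | 0 < p.2 ∧ p.1 ≤ 0} =
          Prod.swap ⁻¹' (K ∩ {p : ℝ × ℝ | 0 < p.1 ∧ p.2 ≤ 0}) := by
        ext p; simp
      rw [this]
      have hmp : MeasurePreserving (Prod.swap : ℝ × ℝ → ℝ × ℝ) volume volume := Measure.measurePreserving_swap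
      rw [hmp.measure_preimage]
      exact (mK.inter (mB.inter (measurableSet_le measurable_snd measurable_const))).nullMeasurableSet
    have hcv' : Convex ℝ (Prod.swap ⁻¹' K) := by
      have := hcv.linear_preimage (LinearEquiv.prodComm ℝ ℝ ℝ).toLinearMap
      exact this
    have := side_lo (K := Prod.swap ⁻¹' K) hcv' (by simpa using h0) (by simpa using h2) (w := w.swap)
      (by simpa using hwK) (by simpa using hw2) (by simpa using hw1)
    rw [← hsw] at this
    rw [hX2]
    exact (ENNReal.ofReal_le_iff_le_toReal (hfin _)).mp this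
  rw [e1, e2, e3]
  have hG : M / (M + 2) ≤ X1 + X2 := by
    have k : w.2 / (1 + w.1) + w.1 / (1 + w.2) ≥ 2 * M / (M + 2) := by
      rw [ge_iff_le, div_add_div _ _ (by positivity) (by positivity), div_le_div_iff₀ (by positivity) (by positivity)]
      rw [hM]
      nlinarith [sq_nonneg (w.1 - w.2), mul_nonneg hw1 hw2, mul_nonneg hw1 (sq_nonneg (w.1 - w.2)), mul_nonneg hw2 (sq_nonneg (w.1 - w.2))]
    have : 2 * M / (M + 2) = 2 * (M / (M + 2)) := by ring
    linarith
  have hW0 : 0 ≤ W := ENNReal.toReal_nonneg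
  rw [one_div, inv_mul_le_iff₀ (by positivity)]
  have k1 : M ≤ (X1 + X2) * (M + 2) := by
    rw [div_le_iff₀ (by positivity)] at hG; exact hG
  nlinarith [mul_le_mul_of_nonneg_left k1 hMpos.le]

variable {K C : Set (ℝ × ℝ)} {h : ℝ}

theorem tri_up0 {M : ℝ} (hM : 0 ≤ M) :
    volume {p : ℝ × ℝ | 0 ≤ p.1 ∧ 0 ≤ p.2 ∧ p.1 + p.2 ≤ M} ≤ ENNReal.ofReal (M ^ 2 / 2) := by
  have hsub : {p : ℝ × ℝ | 0 ≤ p.1 ∧ 0 ≤ p.2 ∧ p.1 + p.2 ≤ M} ⊆
      {p : ℝ × ℝ | 0 < p.1 ∧ 0 < p.2 ∧ p.1 + p.2 ≤ M} ∪ ({p : ℝ × ℝ | cr (1, 0) (p - (0, 0)) = 0} ∪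
        {p : ℝ × ℝ | cr (0, 1) (p - (0, 0)) = 0}) := by
    rintro p ⟨h1, h2, h3⟩
    rcases lt_or_eq_of_le h1 with h4 | h4
    · rcases lt_or_eq_of_le h2 with h5 | h5
      · exact Or.inl ⟨h4, h5, h3⟩
      · right; left; simp [cr, ← h5]
    · right; right; simp [cr, ← h4]
  refine (measure_mono hsub).trans ((measure_union_le _ _).trans ?_)
  have h1 : volume ({p : ℝ × ℝ | cr (1, 0) (p - (0, 0)) = 0} ∪ {p : ℝ × ℝ | cr (0, 1) (p - (0, 0)) = 0}) = 0 := by
    refine measure_union_null (line_null16 ?_ _) (line_null16 ?_ _)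
    · intro h; have := congrArg Prod.fst h; norm_num at this
    · intro h; have := congrArg Prod.snd h; norm_num at this
  rw [h1, add_zero]
  exact tri_up hM

theorem mem_tri16 {K : Set (ℝ × ℝ)} (hK : Convex ℝ K) {a b c p : ℝ × ℝ} (ha : a ∈ K) (hb : b ∈ K)
    (hc : c ∈ K) (h1 : 0 ≤ cr (b - a) (p - a)) (h2 : 0 ≤ cr (c - b) (p - b))
    (h3 : 0 ≤ cr (a - c) (p - c)) (h4 : 0 < cr (b - a) (c - b)) : p ∈ K := by
  set D := cr (b - a) (c - b) with hD
  have hs : cr (b - a) (p - a) + cr (c - b) (p - b) + cr (a - c) (p - c) = D := by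
    rw [hD]; unfold cr; simp only [Prod.fst_sub, Prod.snd_sub]; ring
  have hp : p = (cr (c - b) (p - b) / D) • a + (cr (a - c) (p - c) / D) • b + (cr (b - a) (p - a) / D) • c := by
    have e1 : D * p.1 = cr (c - b) (p - b) * a.1 + cr (a - c) (p - c) * b.1 + cr (b - a) (p - a) * c.1 := by
      rw [hD]; unfold cr; simp only [Prod.fst_sub, Prod.snd_sub]; ring
    have e2 : D * p.2 = cr (c - b) (p - b) * a.2 + cr (a - c) (p - c) * b.2 + cr (b - a) (p - a) * c.2 := by
      rw [hD]; unfold cr; simp only [Prod.fst_sub, Prod.snd_sub]; ring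
    ext
    · simp only [Prod.fst_add, Prod.smul_fst, smul_eq_mul]
      field_simp
      linarith
    · simp only [Prod.snd_add, Prod.smul_snd, smul_eq_mul]
      field_simp
      linarith
  have hcomb := hK.sum_mem (t := (Finset.univ : Finset (Fin 3)))
    (w := ![cr (c - b) (p - b) / D, cr (a - c) (p - c) / D, cr (b - a) (p - a) / D])
    (z := ![a, b, c]) (by
      intro i _
      fin_cases i
      · simp; positivity
      · simp; positivity
      · simp; positivity) (by
      simp only [Fin.sum_univ_three, Matrix.cons_val_zero, Matrix.cons_val_one, Matrix.cons_val_two, Matrix.head_cons, Matrix.tail_cons, Matrix.cons_val]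
      rw [← add_div, ← add_div, div_eq_one_iff_eq h4.ne']
      linarith) (by
      intro i _
      fin_cases i
      · simpa using ha
      · simpa using hb
      · simpa using hc)
  rw [Fin.sum_univ_three] at hcomb
  simp only [Matrix.cons_val_zero, Matrix.cons_val_one, Matrix.cons_val_two, Matrix.head_cons, Matrix.tail_cons, Matrix.cons_val] at hcomb
  rw [hp]
  exact hcomb

theorem cr_id (u u' x y : ℝ × ℝ) : cr u u' * cr x y = cr u x * cr u' y - cr u' x * cr u y := by
  unfold cr; ring

/-- affine chart -/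
def cht (z e1 e2 : ℝ × ℝ) (x : ℝ × ℝ) : ℝ × ℝ := z + x.1 • e1 - x.2 • e2

theorem cht_vol {z e1 e2 : ℝ × ℝ} (hJ : 0 < cr e1 e2) (S : Set (ℝ × ℝ)) :
    volume S = ENNReal.ofReal (cr e1 e2) * volume (cht z e1 e2 ⁻¹' S) := by
  let L : (ℝ × ℝ) →ₗ[ℝ] (ℝ × ℝ) :=
    { toFun := fun x => x.1 • e1 - x.2 • e2
      map_add' := by intro x y; ext <;> simp <;> ring
      map_smul' := by intro c x; ext <;> simp <;> ring }
  have hdet : LinearMap.det L = - cr e1 e2 := by
    rw [← LinearMap.det_toMatrix (Module.Basis.finTwoProd ℝ), Matrix.det_fin_two]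
    simp [LinearMap.toMatrix_apply, L, cr]
    ring
  have h1 : cht z e1 e2 ⁻¹' S = L ⁻¹' ((fun p => p + z) ⁻¹' S) := by
    ext x
    simp only [mem_preimage, cht, L, LinearMap.coe_mk, AddHom.coe_mk]
    have : z + x.1 • e1 - x.2 • e2 = x.1 • e1 - x.2 • e2 + z := by abel
    rw [this]
  rw [h1, Measure.addHaar_preimage_linearMap volume (f := L) (by rw [hdet]; linarith), hdet,
    measure_preimage_add_right, ← mul_assoc, ← ENNReal.ofReal_mul hJ.le]
  have : cr e1 e2 * |(-cr e1 e2)⁻¹| = 1 := by
    rw [abs_inv, abs_neg, abs_of_pos hJ]; field_simp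
  rw [this]; simp

def icht (z e1 e2 : ℝ × ℝ) (p : ℝ × ℝ) : ℝ × ℝ :=
  (cr (p - z) e2 / cr e1 e2, - cr e1 (p - z) / cr e1 e2)

theorem cht_icht {z e1 e2 : ℝ × ℝ} (hJ : 0 < cr e1 e2) (p : ℝ × ℝ) : cht z e1 e2 (icht z e1 e2 p) = p := by
  unfold cht icht
  have q1 : cr e1 e2 * (p - z).1 = cr (p - z) e2 * e1.1 + cr e1 (p - z) * e2.1 := by
    unfold cr; simp only [Prod.fst_sub, Prod.snd_sub]; ring
  have q2 : cr e1 e2 * (p - z).2 = cr (p - z) e2 * e1.2 + cr e1 (p - z) * e2.2 := by
    unfold cr; simp only [Prod.fst_sub, Prod.snd_sub]; ring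
  have hJ' := hJ.ne'
  ext
  · simp only [Prod.fst_add, Prod.fst_sub, Prod.smul_fst, smul_eq_mul] at q1 ⊢
    field_simp
    linarith
  · simp only [Prod.snd_add, Prod.snd_sub, Prod.smul_snd, smul_eq_mul] at q2 ⊢
    field_simp
    linarith

theorem icht_cht {z e1 e2 : ℝ × ℝ} (hJ : 0 < cr e1 e2) (x : ℝ × ℝ) : icht z e1 e2 (cht z e1 e2 x) = x := by
  unfold cht icht
  have hJ' := hJ.ne'
  have h1 : cr (z + x.1 • e1 - x.2 • e2 - z) e2 = x.1 * cr e1 e2 := by
    unfold cr; simp only [Prod.fst_add, Prod.snd_add, Prod.fst_sub, Prod.snd_sub, Prod.smul_fst, Prod.smul_snd, smul_eq_mul]; ring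
  have h2 : - cr e1 (z + x.1 • e1 - x.2 • e2 - z) = x.2 * cr e1 e2 := by
    unfold cr; simp only [Prod.fst_add, Prod.snd_add, Prod.fst_sub, Prod.snd_sub, Prod.smul_fst, Prod.smul_snd, smul_eq_mul]; ring
  rw [h1, h2]
  ext <;> simp <;> field_simp

theorem cht_compact {z e1 e2 : ℝ × ℝ} (hJ : 0 < cr e1 e2) {K : Set (ℝ × ℝ)} (hK : IsCompact K) :
    IsCompact (cht z e1 e2 ⁻¹' K) := by
  have : cht z e1 e2 ⁻¹' K = icht z e1 e2 '' K := by
    ext x
    constructor
    · intro hx; exact ⟨_, hx, icht_cht hJ x⟩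
    · rintro ⟨p, hp, rfl⟩
      rw [mem_preimage, cht_icht hJ]; exact hp
  rw [this]
  apply hK.image
  unfold icht cr; fun_prop

theorem cht_convex (z e1 e2 : ℝ × ℝ) {K : Set (ℝ × ℝ)} (hK : Convex ℝ K) :
    Convex ℝ (cht z e1 e2 ⁻¹' K) := by
  intro x hx y hy a b ha hb hab
  rw [mem_preimage] at hx hy ⊢
  have : cht z e1 e2 (a • x + b • y) = a • cht z e1 e2 x + b • cht z e1 e2 y := by
    unfold cht
    have hb' : b = 1 - a := by linarith
    subst hb'
    ext
    · simp only [Prod.fst_add, Prod.snd_add, Prod.fst_sub, Prod.smul_fst, Prod.smul_snd, smul_eq_mul]; ring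
    · simp only [Prod.fst_add, Prod.snd_add, Prod.snd_sub, Prod.smul_fst, Prod.smul_snd, smul_eq_mul]; ring
  rw [this]
  exact hK hx hy ha hb hab

theorem lam (H : Hyp K C h) {s s' : Stn} (ha : Arc2 K C s s') :
    ar C ≤ ar K ∨ ∃ l : ℝ, 0 ≤ l ∧ l ≤ 1 ∧
      l * (cap K (s.v - s.o) s.u + cap K (s'.v - s.o) s'.u) ≤
        gam K (s.v - s.o) s.u (s'.v - s.o) s'.u ∧
      (l = 1 ∨ ar (bey C s.v s'.v) ≤ h / 2 * Real.sqrt l) := by
  obtain ⟨o, v, u, θ⟩ := s
  obtain ⟨o', v', u', θ'⟩ := s'
  obtain ⟨⟨vC, v1, v2, sup, ang, HH⟩, vC', sup', une, une'⟩ := ha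
  simp only at vC v1 v2 sup HH vC' sup' une une' ⊢
  clear ang
  have hfin : ∀ S : Set (ℝ × ℝ), volume (K ∩ S) ≠ ⊤ := fun S =>
    ((measure_mono inter_subset_left).trans_lt H.Kc.measure_lt_top).ne
  have hKne : volume K ≠ ⊤ := H.Kc.measure_lt_top.ne
  have mH : ∀ z u : ℝ × ℝ, MeasurableSet (Hs z u) := by
    intro z u
    refine (isOpen_lt ?_ continuous_const).measurableSet
    unfold cr; fun_prop
  have hgam0 : ∀ z u z' u' : ℝ × ℝ, 0 ≤ gam K z u z' u' := fun _ _ _ _ => ENNReal.toReal_nonneg
  -- facts on the two lines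
  have hu1 : 0 ≤ cr u (v' - v) := sup _ vC'
  have hu2 : 0 ≤ cr u' (v - v') := sup' _ vC
  set A := v - o with hA
  set B := v' - o with hB
  have hBA : v' - v = B - A := by rw [hA, hB]; abel
  have hAB : v - v' = A - B := by rw [hA, hB]; abel
  rw [hBA] at hu1
  rw [hAB] at hu2
  -- if bey has volume zero we may take l = 0
  have hnull : volume (bey C v v') = 0 → ∃ l : ℝ, 0 ≤ l ∧ l ≤ 1 ∧
      l * (cap K A u + cap K B u') ≤ gam K A u B u' ∧
      (l = 1 ∨ ar (bey C v v') ≤ h / 2 * Real.sqrt l) := by
    intro h0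
    refine ⟨0, le_refl _, zero_le_one, by rw [zero_mul]; exact hgam0 _ _ _ _, Or.inr ?_⟩
    simp [ar, h0]
  -- translation: a subset S of C with S - o in K has area at most ar K
  have htr : ∀ S : Set (ℝ × ℝ), (∀ p ∈ S, p - o ∈ K) → volume S ≤ volume K := by
    intro S hS
    have : S ⊆ (fun p => p + (-o)) ⁻¹' K := by
      intro p hp
      have := hS p hp
      simpa [sub_eq_add_neg] using this
    exact (measure_mono this).trans (by rw [measure_preimage_add_right])
  by_cases hW : volume (K ∩ (Hs A u ∩ Hs B u')) = 0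
  · -- W = 0
    right
    refine ⟨1, zero_le_one, le_refl _, ?_, Or.inl rfl⟩
    rw [one_mul]
    unfold cap gam
    have e1 : volume (K ∩ Hs A u) ≤ volume (K ∩ (Hs A u \ Hs B u')) := by
      calc volume (K ∩ Hs A u) ≤ volume ((K ∩ (Hs A u \ Hs B u')) ∪ (K ∩ (Hs A u ∩ Hs B u'))) := by
            apply measure_mono
            rintro p ⟨a, b⟩
            by_cases hc : p ∈ Hs B u'
            · exact Or.inr ⟨a, b, hc⟩
            · exact Or.inl ⟨a, b, hc⟩
        _ ≤ _ := (measure_union_le _ _).trans (by rw [hW, add_zero])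
    have e2 : volume (K ∩ Hs B u') ≤ volume (K ∩ (Hs B u' \ Hs A u)) := by
      calc volume (K ∩ Hs B u') ≤ volume ((K ∩ (Hs B u' \ Hs A u)) ∪ (K ∩ (Hs A u ∩ Hs B u'))) := by
            apply measure_mono
            rintro p ⟨a, b⟩
            by_cases hc : p ∈ Hs A u
            · exact Or.inr ⟨a, hc, b⟩
            · exact Or.inl ⟨a, b, hc⟩
        _ ≤ _ := (measure_union_le _ _).trans (by rw [hW, add_zero])
    have e3 : volume (K ∩ symmDiff (Hs A u) (Hs B u')) =
        volume (K ∩ (Hs A u \ Hs B u')) + volume (K ∩ (Hs B u' \ Hs A u)) := by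
      rw [← measure_union _ (H.Kc.measurableSet.inter ((mH _ _).diff (mH _ _)))]
      · rw [← inter_union_distrib_left]; rfl
      · rw [Set.disjoint_left]
        rintro p ⟨_, a, b⟩ ⟨_, c, d⟩
        exact b c
    rw [e3, ENNReal.toReal_add (hfin _) (hfin _)]
    exact add_le_add (ENNReal.toReal_mono (hfin _) e1) (ENNReal.toReal_mono (hfin _) e2)
  · -- W > 0
    obtain ⟨w, hwK, hwA, hwB⟩ : (K ∩ (Hs A u ∩ Hs B u')).Nonempty := by
      rw [Set.nonempty_iff_ne_empty]
      intro h0; apply hW; rw [h0]; simp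
    have hwA' : cr u (w - A) < 0 := hwA
    have hwB' : cr u' (w - B) < 0 := hwB
    by_cases he : B - A = 0
    · right
      apply hnull
      have : bey C v v' = ∅ := by
        rw [Set.eq_empty_iff_forall_notMem]
        rintro p ⟨_, hp⟩
        rw [hBA, he] at hp
        simp [cr] at hp
      rw [this]; simp
    have hlin := line_null16 he v
    rcases lt_trichotomy (cr u u') 0 with hc | hc | hc
    · -- turning more than π
      left
      have hsub : ∀ p ∈ C, cr (B - A) (p - v) < 0 ∨ cr (B - A) (p - v) = 0 ∨ p - o ∈ K := by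
        intro p hp
        rcases lt_trichotomy (cr (B - A) (p - v)) 0 with hZ | hZ | hZ
        · exact Or.inl hZ
        · exact Or.inr (Or.inl hZ)
        right; right
        have X1 := sup p hp
        have X2 := sup' p hp
        have p1 : p - v = (p - o) - A := by rw [hA]; abel
        have p2 : p - v' = (p - o) - B := by rw [hB]; abel
        rw [p1] at X1 hZ
        rw [p2] at X2
        generalize p - o = q at X1 X2 hZ ⊢
        clear_value A B
        have i1 := cr_id u u' (B - A) (q - A)
        have i2 := cr_id u u' (w - B) (q - B)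
        have i3 := cr_id u u' (A - w) (q - w)
        have i4 := cr_id u u' (B - A) (w - B)
        have f1 : cr u' (B - A) = - cr u' (A - B) := by unfold cr; simp only [Prod.fst_sub, Prod.snd_sub]; ring
        have f2 : cr u' (q - A) = cr u' (q - B) - cr u' (A - B) := by unfold cr; simp only [Prod.fst_sub, Prod.snd_sub]; ring
        have f3 : cr u (w - B) = cr u (w - A) - cr u (B - A) := by unfold cr; simp only [Prod.fst_sub, Prod.snd_sub]; ring
        have f4 : cr u (q - B) = cr u (q - A) - cr u (B - A) := by unfold cr; simp only [Prod.fst_sub, Prod.snd_sub]; ring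
        have f5 : cr u (A - w) = - cr u (w - A) := by unfold cr; simp only [Prod.fst_sub, Prod.snd_sub]; ring
        have f6 : cr u' (A - w) = cr u' (A - B) - cr u' (w - B) := by unfold cr; simp only [Prod.fst_sub, Prod.snd_sub]; ring
        have f7 : cr u' (q - w) = cr u' (q - B) - cr u' (w - B) := by unfold cr; simp only [Prod.fst_sub, Prod.snd_sub]; ring
        have f8 : cr u (q - w) = cr u (q - A) - cr u (w - A) := by unfold cr; simp only [Prod.fst_sub, Prod.snd_sub]; ring
        rw [f1, f2] at i1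
        rw [f3, f4] at i2
        rw [f5, f6, f7, f8] at i3
        rw [f3, f1] at i4
        have n1 : cr u u' * cr (B - A) (q - A) < 0 := mul_neg_of_neg_of_pos hc hZ
        have hS : 0 < cr u' (A - B) := by
          rcases lt_or_eq_of_le hu2 with h | h
          · exact h
          · rw [← h] at i1
            have := mul_nonneg hu1 X2
            nlinarith
        have hT : 0 < cr u (B - A) := by
          rcases lt_or_eq_of_le hu1 with h | h
          · exact h
          · rw [← h] at i1
            have := mul_nonneg hu2 X1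
            nlinarith
        have g1 : cr u' (q - B) < cr u' (A - B) := by
          by_contra hcon
          have hcon := not_lt.mp hcon
          have := mul_le_mul_of_nonneg_left hcon hu1
          have := mul_nonneg hu2 X1
          nlinarith
        have g2 : cr u (q - A) < cr u (B - A) := by
          by_contra hcon
          have hcon := not_lt.mp hcon
          have := mul_le_mul_of_nonneg_left hcon hu2
          have := mul_nonneg hu1 X2
          nlinarith
        have j2 : 0 ≤ cr (w - B) (q - B) := by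
          by_contra hcon
          have hcon := not_le.mp hcon
          have := mul_pos_of_neg_of_neg hc hcon
          have a1 : (cr u (w - A) - cr u (B - A)) * cr u' (q - B) ≤ 0 :=
            mul_nonpos_of_nonpos_of_nonneg (by linarith) X2
          have a2 : cr u' (w - B) * (cr u (q - A) - cr u (B - A)) ≥ 0 :=
            mul_nonneg_of_nonpos_of_nonpos hwB'.le (by linarith)
          linarith
        have j3 : 0 ≤ cr (A - w) (q - w) := by
          by_contra hcon
          have hcon := not_le.mp hcon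
          have := mul_pos_of_neg_of_neg hc hcon
          nlinarith [mul_nonneg (by linarith : 0 ≤ - cr u (w - A)) (by linarith : 0 ≤ cr u' (A - B) - cr u' (q - B)),
            mul_nonneg (by linarith : 0 ≤ cr u' (A - B) - cr u' (w - B)) X1]
        have j4 : 0 < cr (B - A) (w - B) := by
          by_contra hcon
          have hcon := not_lt.mp hcon
          have := mul_nonneg_of_nonpos_of_nonpos hc.le hcon
          nlinarith [mul_pos hT (by linarith : 0 < - cr u' (w - B)), mul_pos hS (by linarith : 0 < - cr u (w - A)), mul_pos hS hT]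
        exact mem_tri16 H.Kconv v1 v2 hwK hZ.le j2 j3 j4
      have : C ⊆ (fun p => p + (-o)) ⁻¹' K ∪ {p : ℝ × ℝ | cr (B - A) (p - v) = 0} := by
        intro p hp
        rcases hsub p hp with h1 | h1 | h1
        · left
          have := HH p hp (by rw [hBA]; exact h1)
          simpa [sub_eq_add_neg] using this
        · right; exact h1
        · left; simpa [sub_eq_add_neg] using h1
      have h2 : volume C ≤ volume K :=
        (measure_mono this).trans ((measure_union_le _ _).trans (by rw [hlin, add_zero, measure_preimage_add_right]))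
      exact ENNReal.toReal_mono hKne h2
    · -- parallel lines
      have i1 := cr_id u u' (w - A) (w - A)
      obtain ⟨k, hk⟩ : ∃ k : ℝ, u' = k • u := by
        unfold cr at hc
        by_cases h1 : u.1 = 0
        · have h2 : u.2 ≠ 0 := fun h2 => une (Prod.ext h1 h2)
          rw [h1] at hc
          have h3 : u'.1 = 0 := by
            have : u.2 * u'.1 = 0 := by linarith
            exact (mul_eq_zero.mp this).resolve_left h2
          refine ⟨u'.2 / u.2, Prod.ext ?_ ?_⟩
          · simp [h1, h3]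
          · simp; field_simp
        · refine ⟨u'.1 / u.1, Prod.ext ?_ ?_⟩
          · simp; field_simp
          · simp; field_simp; linarith
      have hk0 : k ≠ 0 := by
        intro h0; apply une'; rw [hk, h0, zero_smul]
      have sm : ∀ x : ℝ × ℝ, cr u' x = k * cr u x := by
        intro x; rw [hk]; unfold cr; simp only [Prod.smul_fst, Prod.smul_snd, smul_eq_mul]; ring
      rw [sm] at hwB' hu2
      have f1 : cr u (w - B) = cr u (w - A) - cr u (B - A) := by unfold cr; simp only [Prod.fst_sub, Prod.snd_sub]; ring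
      have f2 : cr u (A - B) = - cr u (B - A) := by unfold cr; simp only [Prod.fst_sub, Prod.snd_sub]; ring
      rw [f1] at hwB'
      rw [f2] at hu2
      rcases lt_or_gt_of_ne hk0 with hkn | hkp
      · exfalso
        nlinarith [mul_nonneg (by linarith : 0 ≤ -k) hu1, mul_pos (by linarith : 0 < -k) (by linarith : 0 < - cr u (w - A))]
      · have hT : cr u (B - A) = 0 := by
          by_contra hne
          have : 0 < cr u (B - A) := lt_of_le_of_ne hu1 (Ne.symm hne)
          nlinarith [mul_pos hkp this]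
        obtain ⟨r, hr⟩ : ∃ r : ℝ, B - A = r • u := by
          unfold cr at hT
          by_cases h1 : u.1 = 0
          · have h2 : u.2 ≠ 0 := fun h2 => une (Prod.ext h1 h2)
            rw [h1] at hT
            have h3 : (B - A).1 = 0 := by
              have : u.2 * (B - A).1 = 0 := by linarith
              exact (mul_eq_zero.mp this).resolve_left h2
            refine ⟨(B - A).2 / u.2, Prod.ext ?_ ?_⟩
            · rw [h3]; simp [h1]
            · simp only [Prod.smul_snd, smul_eq_mul]; field_simp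
          · refine ⟨(B - A).1 / u.1, Prod.ext ?_ ?_⟩
            · simp only [Prod.smul_fst, smul_eq_mul]; field_simp
            · simp only [Prod.smul_snd, smul_eq_mul]; field_simp; linarith
        have smr : ∀ x : ℝ × ℝ, cr (B - A) x = r * cr u x := by
          intro x; rw [hr]; unfold cr; simp only [Prod.smul_fst, Prod.smul_snd, smul_eq_mul]; ring
        rcases le_or_gt 0 r with hr0 | hr0
        · right
          apply hnull
          have : bey C v v' = ∅ := by
            rw [Set.eq_empty_iff_forall_notMem]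
            rintro p ⟨hpC, hp⟩
            rw [hBA, smr] at hp
            have := mul_nonneg hr0 (sup p hpC)
            linarith
          rw [this]; simp
        · left
          have : C ⊆ (fun p => p + (-o)) ⁻¹' K ∪ {p : ℝ × ℝ | cr (B - A) (p - v) = 0} := by
            intro p hp
            rcases lt_or_eq_of_le (sup p hp) with h1 | h1
            · left
              have := HH p hp (by rw [hBA, smr]; exact mul_neg_of_neg_of_pos hr0 h1)
              simpa [sub_eq_add_neg] using this
            · right; rw [mem_ofPred_eq, smr, ← h1, mul_zero]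
          have h2 : volume C ≤ volume K :=
            (measure_mono this).trans ((measure_union_le _ _).trans (by rw [hlin, add_zero, measure_preimage_add_right]))
          exact ENNReal.toReal_mono hKne h2
    · -- turning less than π
      right
      rcases eq_or_lt_of_le hu1 with hT | hT
      · apply hnull
        have : bey C v v' = ∅ := by
          rw [Set.eq_empty_iff_forall_notMem]
          rintro p ⟨hpC, hp⟩
          rw [hBA] at hp
          have i1 := cr_id u u' (B - A) (p - v)
          rw [← hT] at i1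
          have f1 : cr u' (B - A) = - cr u' (A - B) := by unfold cr; simp only [Prod.fst_sub, Prod.snd_sub]; ring
          rw [f1] at i1
          have := mul_neg_of_pos_of_neg hc hp
          have := mul_nonneg hu2 (sup p hpC)
          linarith
        rw [this]; simp
      rcases eq_or_lt_of_le hu2 with hS | hS
      · apply hnull
        have : bey C v v' = ∅ := by
          rw [Set.eq_empty_iff_forall_notMem]
          rintro p ⟨hpC, hp⟩
          rw [hBA] at hp
          have i1 := cr_id u u' (B - A) (p - v)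
          have f1 : cr u' (B - A) = - cr u' (A - B) := by unfold cr; simp only [Prod.fst_sub, Prod.snd_sub]; ring
          have f2 : cr u' (p - v) = cr u' (p - v') + cr u' (B - A) := by
            rw [← hBA]; unfold cr; simp only [Prod.fst_sub, Prod.snd_sub]; ring
          rw [f2, f1, ← hS] at i1
          have := mul_neg_of_pos_of_neg hc hp
          have := mul_nonneg hT.le (sup' p hpC)
          linarith
        rw [this]; simp
      -- the corner
      set c := cr u u' with hcdef
      set α := cr u' (A - B) / c with hα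
      set β := cr u (B - A) / c with hβ
      have hα0 : 0 < α := div_pos hS hc
      have hβ0 : 0 < β := div_pos hT hc
      set e1 := α • u with he1
      set e2 := β • u' with he2
      have hBAe : B - A = e1 + e2 := by
        rw [he1, he2, hα, hβ]
        have q1 : c * (B - A).1 = cr u' (A - B) * u.1 + cr u (B - A) * u'.1 := by
          rw [hcdef]; unfold cr; simp only [Prod.fst_sub, Prod.snd_sub]; ring
        have q2 : c * (B - A).2 = cr u' (A - B) * u.2 + cr u (B - A) * u'.2 := by
          rw [hcdef]; unfold cr; simp only [Prod.fst_sub, Prod.snd_sub]; ring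
        ext
        · simp only [Prod.fst_add, Prod.smul_fst, smul_eq_mul]
          rw [div_mul_eq_mul_div, div_mul_eq_mul_div, ← add_div, eq_div_iff hc.ne']
          linarith
        · simp only [Prod.snd_add, Prod.smul_snd, smul_eq_mul]
          rw [div_mul_eq_mul_div, div_mul_eq_mul_div, ← add_div, eq_div_iff hc.ne']
          linarith
      have hBAe' : v' - v = e1 + e2 := by rw [hBA, hBAe]
      set z := A + e1 with hz
      have hzB : z = B - e2 := by
        have : B = A + (e1 + e2) := by rw [← hBAe]; abel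
        rw [hz, this]; abel
      have hJ : cr e1 e2 = α * β * c := by
        rw [he1, he2, hcdef]; unfold cr; simp only [Prod.smul_fst, Prod.smul_snd, smul_eq_mul]; ring
      have hJ0 : 0 < cr e1 e2 := by rw [hJ]; positivity
      have ce1 : ∀ x : ℝ × ℝ, cr e1 x = α * cr u x := by
        intro x; rw [he1]; unfold cr; simp only [Prod.smul_fst, Prod.smul_snd, smul_eq_mul]; ring
      have ce2 : ∀ x : ℝ × ℝ, cr e2 x = β * cr u' x := by
        intro x; rw [he2]; unfold cr; simp only [Prod.smul_fst, Prod.smul_snd, smul_eq_mul]; ring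
      have hAz : A = z - e1 := by rw [hz]; abel
      have hBz : B = z + e2 := by rw [hzB]; abel
      have cu_e1 : cr u e1 = 0 := by rw [he1]; unfold cr; simp only [Prod.smul_fst, Prod.smul_snd, smul_eq_mul]; ring
      have cu_e2 : cr u e2 = β * c := by rw [he2, hcdef]; unfold cr; simp only [Prod.smul_fst, Prod.smul_snd, smul_eq_mul]; ring
      have cu'_e1 : cr u' e1 = - (α * c) := by rw [he1, hcdef]; unfold cr; simp only [Prod.smul_fst, Prod.smul_snd, smul_eq_mul]; ring
      have cu'_e2 : cr u' e2 = 0 := by rw [he2]; unfold cr; simp only [Prod.smul_fst, Prod.smul_snd, smul_eq_mul]; ring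
      have hwz1 : cr u (w - z) = cr u (w - A) := by
        rw [hz]
        have : cr u (w - (A + e1)) = cr u (w - A) - cr u e1 := by
          unfold cr; simp only [Prod.fst_add, Prod.snd_add, Prod.fst_sub, Prod.snd_sub]; ring
        rw [this, cu_e1, sub_zero]
      have hwz2 : cr u' (w - z) = cr u' (w - B) := by
        rw [hzB]
        have : cr u' (w - (B - e2)) = cr u' (w - B) + cr u' e2 := by
          unfold cr; simp only [Prod.fst_sub, Prod.snd_sub]; ring
        rw [this, cu'_e2, add_zero]
      have wx1 : 0 < cr (w - z) e2 := by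
        have : cr (w - z) e2 = - cr e2 (w - z) := by unfold cr; ring
        rw [this, ce2, hwz2]
        have := mul_neg_of_pos_of_neg hβ0 hwB'
        linarith
      have wx2 : 0 < - cr e1 (w - z) := by
        rw [ce1, hwz1]
        have := mul_neg_of_pos_of_neg hα0 hwA'
        linarith
      have hzK : z ∈ K := by
        refine mem_tri16 H.Kconv v1 hwK v2 ?_ ?_ ?_ ?_
        · have : cr (w - A) (z - A) = - cr e1 (w - z) := by
            rw [hAz]; unfold cr; simp only [Prod.fst_sub, Prod.snd_sub]; ring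
          rw [this]; exact wx2.le
        · have : cr (B - w) (z - w) = cr (w - z) e2 := by
            rw [hBz]; unfold cr; simp only [Prod.fst_sub, Prod.snd_sub, Prod.fst_add, Prod.snd_add]; ring
          rw [this]; exact wx1.le
        · have : cr (A - B) (z - B) = cr e1 e2 := by
            rw [hAz, hBz]; unfold cr; simp only [Prod.fst_sub, Prod.snd_sub, Prod.fst_add, Prod.snd_add]; ring
          rw [this]; exact hJ0.le
        · have : cr (w - A) (B - w) = - cr e1 (w - z) + cr (w - z) e2 + cr e1 e2 := by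
            rw [hAz, hBz]; unfold cr; simp only [Prod.fst_sub, Prod.snd_sub, Prod.fst_add, Prod.snd_add]; ring
          rw [this]; linarith
      clear_value z
      set K' := cht z e1 e2 ⁻¹' K with hK'
      have k0 : ((0, 0) : ℝ × ℝ) ∈ K' := by
        rw [hK', mem_preimage]; unfold cht; simpa using hzK
      have k1 : ((-1, 0) : ℝ × ℝ) ∈ K' := by
        rw [hK', mem_preimage]; unfold cht
        convert v1 using 1
        rw [hAz]
        ext
        · simp; ring
        · simp; ring
      have k2 : ((0, -1) : ℝ × ℝ) ∈ K' := by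
        rw [hK', mem_preimage]; unfold cht
        convert v2 using 1
        rw [hBz]
        ext
        · simp
        · simp
      have kw : ∃ x ∈ K', 0 < x.1 ∧ 0 < x.2 := by
        refine ⟨icht z e1 e2 w, ?_, ?_, ?_⟩
        · rw [hK', mem_preimage, cht_icht hJ0]; exact hwK
        · exact div_pos wx1 hJ0
        · exact div_pos wx2 hJ0
      obtain ⟨M, hM, ⟨x, hxK, hxM⟩, hcore⟩ := lam_core (cht_compact hJ0 H.Kc) (cht_convex z e1 e2 H.Kconv) k0 k1 k2 kw
      -- identification of the sets
      have sA : cht z e1 e2 ⁻¹' (K ∩ Hs A u) = K' ∩ {p : ℝ × ℝ | 0 < p.2} := by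
        ext y
        simp only [mem_preimage, mem_inter_iff, Hs, mem_ofPred_eq, hK']
        have : cr u (cht z e1 e2 y - A) = - (y.2 * (β * c)) := by
          have : cr u (cht z e1 e2 y - A) = (1 + y.1) * cr u e1 - y.2 * cr u e2 := by
            rw [hAz]; unfold cht cr; simp only [Prod.fst_sub, Prod.snd_sub, Prod.fst_add, Prod.snd_add, Prod.smul_fst, Prod.smul_snd, smul_eq_mul]; ring
          rw [this, cu_e1, cu_e2]; ring
        rw [this]
        have hbc : 0 < β * c := by positivity
        constructor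
        · rintro ⟨a, b⟩; exact ⟨a, by by_contra hn; nlinarith [not_lt.mp hn]⟩
        · rintro ⟨a, b⟩; exact ⟨a, by nlinarith⟩
      have sB : cht z e1 e2 ⁻¹' (K ∩ Hs B u') = K' ∩ {p : ℝ × ℝ | 0 < p.1} := by
        ext y
        simp only [mem_preimage, mem_inter_iff, Hs, mem_ofPred_eq, hK']
        have : cr u' (cht z e1 e2 y - B) = - (y.1 * (α * c)) := by
          have : cr u' (cht z e1 e2 y - B) = y.1 * cr u' e1 - (1 + y.2) * cr u' e2 := by
            rw [hBz]; unfold cht cr; simp only [Prod.fst_sub, Prod.snd_sub, Prod.fst_add, Prod.snd_add, Prod.smul_fst, Prod.smul_snd, smul_eq_mul]; ring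
          rw [this, cu'_e1, cu'_e2]; ring
        rw [this]
        have hbc : 0 < α * c := by positivity
        constructor
        · rintro ⟨a, b⟩; exact ⟨a, by by_contra hn; nlinarith [not_lt.mp hn]⟩
        · rintro ⟨a, b⟩; exact ⟨a, by nlinarith⟩
      have sG : cht z e1 e2 ⁻¹' (K ∩ symmDiff (Hs A u) (Hs B u')) =
          K' ∩ symmDiff {p : ℝ × ℝ | 0 < p.2} {p | 0 < p.1} := by
        ext y
        have a1 := Set.ext_iff.mp sA y
        have a2 := Set.ext_iff.mp sB y
        simp only [mem_preimage, mem_inter_iff, Set.mem_symmDiff, hK'] at a1 a2 ⊢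
        tauto
      have hJn : (0:ℝ) ≤ cr e1 e2 := hJ0.le
      refine ⟨1 / (1 + M) ^ 2, by positivity, ?_, ?_, ?_⟩
      · rw [div_le_one (by positivity)]; nlinarith
      · unfold cap gam
        rw [cht_vol (z := z) hJ0 (K ∩ Hs A u), cht_vol (z := z) hJ0 (K ∩ Hs B u'),
          cht_vol (z := z) hJ0 (K ∩ symmDiff (Hs A u) (Hs B u')), sA, sB, sG,
          ENNReal.toReal_mul, ENNReal.toReal_mul, ENNReal.toReal_mul, ENNReal.toReal_ofReal hJn]
        have := mul_le_mul_of_nonneg_left hcore hJn
        linarith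
      · right
        have hx : cht z e1 e2 x ∈ K := hxK
        have hex := H.hex A v1 (-B) (H.Ksym _ v2) _ hx
        have hMJ : (1 + M) * cr e1 e2 ≤ h := by
          have : (1 + M) * cr e1 e2 = cr A (-B) + cr (-B) (cht z e1 e2 x) + cr A (cht z e1 e2 x) := by
            rw [← hxM, hAz, hBz]
            unfold cht cr
            simp only [Prod.fst_sub, Prod.snd_sub, Prod.fst_add, Prod.snd_add, Prod.smul_fst, Prod.smul_snd, smul_eq_mul, Prod.fst_neg, Prod.snd_neg]
            ring
          rw [this]; exact hex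
        have hbey : volume (bey C v v') ≤ ENNReal.ofReal (cr e1 e2) * ENNReal.ofReal (1 ^ 2 / 2) := by
          have hb1 : volume (bey C v v') = volume ((fun p => p + o) ⁻¹' (bey C v v')) := by
            rw [measure_preimage_add_right]
          rw [hb1, cht_vol (z := z) hJ0]
          gcongr
          refine le_trans ?_ (tri_up0 (zero_le_one))
          rw [← Measure.measure_preimage_neg volume {p : ℝ × ℝ | 0 ≤ p.1 ∧ 0 ≤ p.2 ∧ p.1 + p.2 ≤ 1}]
          apply measure_mono
          rintro y ⟨hyC, hy⟩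
          simp only at hyC hy
          have t1 := sup _ hyC
          have t2 := sup' _ hyC
          rw [hBAe' ] at hy
          have r1 : cr u (cht z e1 e2 y + o - v) = - (y.2 * (β * c)) := by
            have : cr u (cht z e1 e2 y + o - v) = (1 + y.1) * cr u e1 - y.2 * cr u e2 := by
              have hv : v = z - e1 + o := by rw [← hAz, hA]; abel
              rw [hv]; unfold cht cr; simp only [Prod.fst_sub, Prod.snd_sub, Prod.fst_add, Prod.snd_add, Prod.smul_fst, Prod.smul_snd, smul_eq_mul]; ring
            rw [this, cu_e1, cu_e2]; ring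
          have r2 : cr u' (cht z e1 e2 y + o - v') = - (y.1 * (α * c)) := by
            have : cr u' (cht z e1 e2 y + o - v') = y.1 * cr u' e1 - (1 + y.2) * cr u' e2 := by
              have hv : v' = z + e2 + o := by rw [← hBz, hB]; abel
              rw [hv]; unfold cht cr; simp only [Prod.fst_sub, Prod.snd_sub, Prod.fst_add, Prod.snd_add, Prod.smul_fst, Prod.smul_snd, smul_eq_mul]; ring
            rw [this, cu'_e1, cu'_e2]; ring
          have r3 : cr (e1 + e2) (cht z e1 e2 y + o - v) = - ((1 + y.1 + y.2) * cr e1 e2) := by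
            have hv : v = z - e1 + o := by rw [← hAz, hA]; abel
            rw [hv]; unfold cht cr; simp only [Prod.fst_sub, Prod.snd_sub, Prod.fst_add, Prod.snd_add, Prod.smul_fst, Prod.smul_snd, smul_eq_mul]; ring
          rw [r1] at t1
          rw [r2] at t2
          rw [r3] at hy
          have hbc : 0 < β * c := by positivity
          have hac : 0 < α * c := by positivity
          simp only [mem_preimage, mem_ofPred_eq, Prod.fst_neg, Prod.snd_neg]
          refine ⟨?_, ?_, ?_⟩
          · by_contra hn; nlinarith [not_le.mp hn]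
          · by_contra hn; nlinarith [not_le.mp hn]
          · by_contra hn; nlinarith [not_le.mp hn]
        rw [← ENNReal.ofReal_mul hJn] at hbey
        have h6 : ar (bey C v v') ≤ cr e1 e2 * (1 ^ 2 / 2) :=
          ENNReal.toReal_le_of_le_ofReal (by positivity) hbey
        have hsq : Real.sqrt (1 / (1 + M) ^ 2) = 1 / (1 + M) := by
          rw [one_div, one_div, Real.sqrt_inv, Real.sqrt_sq (by positivity)]
        rw [hsq]
        have h7 : cr e1 e2 ≤ h * (1 / (1 + M)) := by
          rw [mul_one_div, le_div_iff₀ (by positivity)]; linarith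
        linarith


end
end FT722
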