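import Mathlib
import Pool.Agent.FTfinal.FT722x_Lam
import Pool.Agent.FTfinal.FT722_Fold
set_option autoImplicit false
open MeasureTheory Set
namespace FT722
noncomputable section
variable {K C : Set (ℝ × ℝ)} {h : ℝ}

theorem lamf (H : Hyp K C h) {s s' : Stn} (ha : Arc2 K C s s') :
    ar C ≤ ar K ∨ ∃ l : ℝ, 0 ≤ l ∧ l ≤ 1 ∧
      l * (capf K (s.v - s.o) s.u + capf K (s'.v - s.o) s'.u) ≤
        gam K (s.v - s.o) s.u (s'.v - s.o) s'.u ∧
      (l = 1 ∨ ar (bey C s.v s'.v) ≤ h / 2 * Real.sqrt l) := by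
  rcases lam H ha with h1 | ⟨l, l0, l1, l2, l3⟩
  · exact Or.inl h1
  · refine Or.inr ⟨l, l0, l1, le_trans ?_ l2, l3⟩
    exact mul_le_mul_of_nonneg_left (add_le_add (capf_le _ _) (capf_le _ _)) l0
end
end FT722
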