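import Mathlib
import Pool.Agent.FTfinal.FT722_Stn2
import Pool.Agent.FTfinal.FT722_Fold
import Pool.Agent.FTfinal.FT722_M_G1
import Pool.Agent.FTfinal.FT722_M_Lamf
set_option autoImplicit false
open MeasureTheory Set
namespace FT722.MS2

noncomputable section

variable {K C : Set (ℝ × ℝ)} {h : ℝ}


lemma line_null (w a : ℝ × ℝ) (hw : w ≠ 0) : volume {p : ℝ × ℝ | cr w (p - a) = 0} = 0 := by
  let L : ℝ × ℝ →ₗ[ℝ] ℝ :=
    { toFun := fun q => cr w q
      map_add' := by intro x y; simp [cr]; ring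
      map_smul' := by intro c x; simp [cr]; ring }
  have hker : LinearMap.ker L ≠ ⊤ := by
    intro h
    have h1 : ∀ q, cr w q = 0 := fun q => by
      have : q ∈ LinearMap.ker L := by rw [h]; trivial
      exact this
    have h2 := h1 (1, 0)
    have h3 := h1 (0, 1)
    simp [cr] at h2 h3
    exact hw (Prod.ext h3 h2)
  have h0 : volume (LinearMap.ker L : Set (ℝ × ℝ)) = 0 :=
    Measure.addHaar_submodule volume _ hker
  have h1 : {p : ℝ × ℝ | cr w (p - a) = 0} = (fun p => p + (-a)) ⁻¹' (LinearMap.ker L : Set (ℝ × ℝ)) := by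
    ext p
    simp only [mem_setOf_eq, mem_preimage, SetLike.mem_coe, LinearMap.mem_ker, ← sub_eq_add_neg]
    rfl
  rw [h1, measure_preimage_add_right, h0]

lemma ar_le_two (H : Hyp K C h) {a b : ℝ × ℝ} (hne : a ≠ b) :
    ar C ≤ ar (bey C a b) + ar (bey C b a) := by
  have hsub : C ⊆ (bey C a b ∪ bey C b a) ∪ {p : ℝ × ℝ | cr (b - a) (p - a) = 0} := by
    intro p hp
    rcases lt_trichotomy (cr (b - a) (p - a)) 0 with h1 | h1 | h1
    · exact Or.inl (Or.inl ⟨hp, h1⟩)
    · exact Or.inr h1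
    · refine Or.inl (Or.inr ⟨hp, ?_⟩)
      have : cr (a - b) (p - b) = - cr (b - a) (p - a) := by
        simp [cr]; ring
      rw [this]; linarith
  have hfin : volume C ≠ ⊤ := H.Cc.measure_lt_top.ne
  have hf1 : volume (bey C a b) ≠ ⊤ :=
    ne_top_of_le_ne_top hfin (measure_mono (fun p hp => hp.1))
  have hf2 : volume (bey C b a) ≠ ⊤ :=
    ne_top_of_le_ne_top hfin (measure_mono (fun p hp => hp.1))
  have h1 : volume C ≤ volume (bey C a b) + volume (bey C b a) := by
    calc volume C ≤ _ := measure_mono hsub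
      _ ≤ volume (bey C a b ∪ bey C b a) + volume {p : ℝ × ℝ | cr (b - a) (p - a) = 0} :=
          measure_union_le _ _
      _ = volume (bey C a b ∪ bey C b a) := by
          rw [line_null _ _ (sub_ne_zero.mpr (Ne.symm hne)), add_zero]
      _ ≤ _ := measure_union_le _ _
  unfold ar
  rw [← ENNReal.toReal_add hf1 hf2]
  exact ENNReal.toReal_mono (ENNReal.add_ne_top.mpr ⟨hf1, hf2⟩) h1

theorem two (H : Hyp K C h) {s0 s1 : Stn} (h0 : Arc2 K C s0 s1) (h1 : Arc2 K C s1 s0)
    (hne : s0.v ≠ s1.v) :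
    ar C ≤ 2 * h ∨ 2 * (ar K - h) ≤ sv K h s0 s1 + sv K h s1 s0 := by
  have hp := H.hpos
  have hV := vol_le_four_thirds H
  rcases lamf H h0 with hc | ⟨l0, l0n, l01, hg0, hb0⟩
  · left; linarith
  rcases lamf H h1 with hc | ⟨l1, l1n, l11, hg1, hb1⟩
  · left; linarith
  have key := ar_le_two H hne
  rcases hb0 with e0 | hb0
  · rcases hb1 with e1 | hb1
    · right
      subst e0 e1
      unfold sv kap
      have k1 := le_max_right (sig K s0.o s1.o s1.v s1.u / 2) (ar K - h - sig K s0.o s1.o s1.v s1.u)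
      have k2 := le_max_right (sig K s1.o s0.o s0.v s0.u / 2) (ar K - h - sig K s1.o s0.o s0.v s0.u)
      have e1 : sig K s0.o s1.o s1.v s1.u = capf K (s1.v - s0.o) s1.u + capf K (s1.v - s1.o) s1.u := rfl
      have e2 : sig K s1.o s0.o s0.v s0.u = capf K (s0.v - s1.o) s0.u + capf K (s0.v - s0.o) s0.u := rfl
      linarith
    · left
      have h3 := bey_le H h0.arc
      have h4 : Real.sqrt l1 ≤ 1 := Real.sqrt_le_one.mpr l11
      have h5 : h / 2 * Real.sqrt l1 ≤ h / 2 * 1 := mul_le_mul_of_nonneg_left h4 (by linarith)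
      linarith
  · left
    have h3 := bey_le H h1.arc
    have h4 : Real.sqrt l0 ≤ 1 := Real.sqrt_le_one.mpr l01
    have h5 : h / 2 * Real.sqrt l0 ≤ h / 2 * 1 := mul_le_mul_of_nonneg_left h4 (by linarith)
    linarith

end

end FT722.MS2

namespace FT722
alias two := MS2.two
end FT722
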