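import Mathlib
import Pool.Agent.FTfinal.FT722_Stn2
set_option autoImplicit false
open MeasureTheory Set
namespace FT722.MA0

noncomputable section

variable {K C : Set (ℝ × ℝ)} {h : ℝ}

theorem slice_vol_lin (a b c d : ℝ) (hdet : a * d - b * c ≠ 0) (S : Set (ℝ × ℝ)) :
    volume {p : ℝ × ℝ | (a * p.1 + b * p.2, c * p.1 + d * p.2) ∈ S}
      = ENNReal.ofReal |(a * d - b * c)⁻¹| * volume S := by
  let L : ℝ × ℝ →ₗ[ℝ] ℝ × ℝ :=
    Matrix.toLin (Module.Basis.finTwoProd ℝ) (Module.Basis.finTwoProd ℝ) !![a, b; c, d]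
  have hL : ∀ p, L p = (a * p.1 + b * p.2, c * p.1 + d * p.2) := fun p =>
    Matrix.toLin_finTwoProd_apply a b c d p
  have hd : LinearMap.det L = a * d - b * c := by
    rw [LinearMap.det_toLin, Matrix.det_fin_two_of]
  have hset : {p : ℝ × ℝ | (a * p.1 + b * p.2, c * p.1 + d * p.2) ∈ S} = L ⁻¹' S := by
    ext p
    rw [Set.mem_preimage, hL]
    rfl
  rw [hset, Measure.addHaar_preimage_linearMap volume (by rw [hd]; exact hdet), hd]

theorem slice_line (e A : ℝ × ℝ) (he : e.1 ^ 2 + e.2 ^ 2 ≠ 0) (G : Set (ℝ × ℝ))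
    (hG : ∀ p ∈ G, cr e (p - A) = 0) : volume G = 0 := by
  have h1 : G ⊆ {p : ℝ × ℝ | (e.1 * p.1 + e.2 * p.2, e.2 * p.1 + (-e.1) * p.2) ∈
      (Set.univ : Set ℝ) ×ˢ ({e.2 * A.1 + (-e.1) * A.2} : Set ℝ)} := by
    intro p hp
    refine ⟨Set.mem_univ _, ?_⟩
    have := hG p hp
    unfold cr at this
    simp only [Prod.fst_sub, Prod.snd_sub] at this
    rw [Set.mem_singleton_iff]
    linarith
  refine measure_mono_null h1 ?_
  rw [slice_vol_lin _ _ _ _ (by
    intro h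
    apply he
    nlinarith), Measure.volume_eq_prod, Measure.prod_prod]
  simp

theorem slice_le {G : Set (ℝ × ℝ)} {A B uA uB : ℝ × ℝ} {D : ℝ} (hD : 0 ≤ D)
    (hA : 0 ≤ cr uA (B - A)) (hB : 0 ≤ cr uB (A - B)) (huA : uA ≠ 0) (huB : uB ≠ 0)
    (hturn : 0 ≤ cr uA uB)
    (hnd : ∃ p0, 0 < cr (B - A) (p0 - A) ∧ 0 ≤ cr uA (p0 - A) ∧ 0 ≤ cr uB (p0 - B))
    (hG : ∀ p ∈ G, cr (B - A) (p - A) ≤ 0 ∧ -D ≤ cr (B - A) (p - A) ∧
      0 ≤ cr uA (p - A) ∧ 0 ≤ cr uB (p - B)) :
    volume G ≤ ENNReal.ofReal D := by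
  obtain ⟨p0, hp0, hp0A, hp0B⟩ := hnd
  have he : (B - A).1 ^ 2 + (B - A).2 ^ 2 ≠ 0 := by
    intro h0
    have h1 : (B - A).1 = 0 := by nlinarith [sq_nonneg (B - A).1, sq_nonneg (B - A).2]
    have h2 : (B - A).2 = 0 := by nlinarith [sq_nonneg (B - A).1, sq_nonneg (B - A).2]
    unfold cr at hp0
    rw [h1, h2] at hp0
    simp at hp0
  set e := B - A with hedef
  -- the two degenerate cases
  have hdeg : ∀ (u : ℝ × ℝ) (Z : ℝ × ℝ), u ≠ 0 → cr u e = 0 →
      (∀ p : ℝ × ℝ, cr e (p - Z) = cr e (p - A)) → 0 ≤ cr u (p0 - Z) →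
      (∀ p ∈ G, 0 ≤ cr u (p - Z)) → volume G ≤ ENNReal.ofReal D := by
    intro u Z hu hue hZ hu0 huG
    -- `u = a • e`
    have hpar : ∀ q : ℝ × ℝ, (e.1 ^ 2 + e.2 ^ 2) * cr u q = (u.1 * e.1 + u.2 * e.2) * cr e q := by
      intro q
      have : u.1 * e.2 - u.2 * e.1 = 0 := hue
      unfold cr
      linear_combination (e.1 * q.1 + e.2 * q.2) * this
    have hepos : 0 < e.1 ^ 2 + e.2 ^ 2 := lt_of_le_of_ne (by positivity) (Ne.symm he)
    have hane : u.1 * e.1 + u.2 * e.2 ≠ 0 := by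
      intro h0
      apply hu
      have h1 : u.1 * e.2 - u.2 * e.1 = 0 := hue
      have h2 : (e.1 ^ 2 + e.2 ^ 2) * u.1 = 0 := by linear_combination e.1 * h0 + e.2 * h1
      have h3 : (e.1 ^ 2 + e.2 ^ 2) * u.2 = 0 := by linear_combination e.2 * h0 - e.1 * h1
      exact Prod.ext ((mul_eq_zero.1 h2).resolve_left he) ((mul_eq_zero.1 h3).resolve_left he)
    have hapos : 0 < u.1 * e.1 + u.2 * e.2 := by
      have h1 := hpar (p0 - Z)
      rw [hZ p0] at h1
      have h2 : 0 ≤ (u.1 * e.1 + u.2 * e.2) * cr e (p0 - A) := by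
        rw [← h1]; exact mul_nonneg hepos.le hu0
      rcases lt_or_gt_of_ne hane with h3 | h3
      · exfalso
        have := mul_neg_of_neg_of_pos h3 hp0
        linarith
      · exact h3
    have hzero : volume G = 0 := by
      apply slice_line e A he
      intro p hp
      obtain ⟨h1, -, -, -⟩ := hG p hp
      have h2 := hpar (p - Z)
      rw [hZ p] at h2
      have h3 : 0 ≤ (u.1 * e.1 + u.2 * e.2) * cr e (p - A) := by
        rw [← h2]; exact mul_nonneg hepos.le (huG p hp)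
      have h4 : 0 ≤ cr e (p - A) := nonneg_of_mul_nonneg_right h3 hapos
      linarith
    rw [hzero]
    exact bot_le
  rcases eq_or_lt_of_le hA with hα | hα
  · exact hdeg uA A huA hα.symm (fun p => rfl) hp0A (fun p hp => (hG p hp).2.2.1)
  have hBe : cr uB e ≤ 0 := by
    have h1 : cr uB (A - B) = - cr uB e := by
      rw [hedef]
      unfold cr
      simp only [Prod.fst_sub, Prod.snd_sub]
      ring
    rw [h1] at hB
    linarith
  have hZB : ∀ p : ℝ × ℝ, cr e (p - B) = cr e (p - A) := by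
    intro p
    rw [hedef]
    unfold cr
    simp only [Prod.fst_sub, Prod.snd_sub]
    ring
  rcases eq_or_lt_of_le hBe with hβ | hβ
  · exact hdeg uB B huB hβ hZB hp0B (fun p hp => (hG p hp).2.2.2)
  -- the main case
  set α := cr uA e with hαdef
  have hsub : G ⊆ {p : ℝ × ℝ | ((-uA.2 / α) * p.1 + (uA.1 / α) * p.2, e.2 * p.1 + (-e.1) * p.2) ∈
      (Set.Icc ((-uA.2 / α) * A.1 + (uA.1 / α) * A.2) ((-uA.2 / α) * A.1 + (uA.1 / α) * A.2 + 1))
        ×ˢ (Set.Icc (e.2 * A.1 + (-e.1) * A.2) (e.2 * A.1 + (-e.1) * A.2 + D))} := by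
    intro p hp
    obtain ⟨h1, h2, h3, h4⟩ := hG p hp
    -- Plücker
    have hpl : cr uA (p - B) * cr uB e = α * cr uB (p - B) - cr uA uB * cr e (p - B) := by
      rw [hαdef]
      unfold cr
      ring
    rw [hZB p] at hpl
    have h5 : 0 ≤ cr uA (p - B) * cr uB e := by
      rw [hpl]
      have h6 := mul_nonneg hα.le h4
      have h7 := mul_nonneg hturn (neg_nonneg.2 h1)
      linarith
    have h8 : cr uA (p - B) ≤ 0 := by
      by_contra hcon
      push Not at hcon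
      have := mul_neg_of_pos_of_neg hcon hβ
      linarith
    have h9 : cr uA (p - B) = cr uA (p - A) - α := by
      rw [hαdef, hedef]
      unfold cr
      simp only [Prod.fst_sub, Prod.snd_sub]
      ring
    have hX : (-uA.2 / α) * p.1 + (uA.1 / α) * p.2
        = (-uA.2 / α) * A.1 + (uA.1 / α) * A.2 + cr uA (p - A) / α := by
      unfold cr
      simp only [Prod.fst_sub, Prod.snd_sub]
      ring
    have hY : e.2 * p.1 + (-e.1) * p.2 = e.2 * A.1 + (-e.1) * A.2 - cr e (p - A) := by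
      unfold cr
      simp only [Prod.fst_sub, Prod.snd_sub]
      ring
    have h10 : 0 ≤ cr uA (p - A) / α := div_nonneg h3 hα.le
    have h11 : cr uA (p - A) / α ≤ 1 := by
      rw [div_le_one hα]
      linarith
    refine ⟨⟨?_, ?_⟩, ⟨?_, ?_⟩⟩
    · show _ ≤ (-uA.2 / α) * p.1 + (uA.1 / α) * p.2
      rw [hX]; linarith
    · show (-uA.2 / α) * p.1 + (uA.1 / α) * p.2 ≤ _
      rw [hX]; linarith
    · show _ ≤ e.2 * p.1 + (-e.1) * p.2
      rw [hY]; linarith
    · show e.2 * p.1 + (-e.1) * p.2 ≤ _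
      rw [hY]; linarith
  have hdet : (-uA.2 / α) * (-e.1) - (uA.1 / α) * e.2 = -1 := by
    have h1 : (-uA.2 / α) * (-e.1) - (uA.1 / α) * e.2 = -(cr uA e / α) := by
      unfold cr
      ring
    rw [h1, ← hαdef, div_self hα.ne']
  refine (measure_mono hsub).trans ?_
  rw [slice_vol_lin _ _ _ _ (by rw [hdet]; norm_num), hdet, Measure.volume_eq_prod,
    Measure.prod_prod, Real.volume_Icc, Real.volume_Icc]
  have e1 : ∀ x : ℝ, x + 1 - x = 1 := fun x => by ring
  have e2 : ∀ x : ℝ, x + D - x = D := fun x => by ring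
  rw [e1, e2]
  norm_num

end

end FT722.MA0

namespace FT722
alias slice_le := MA0.slice_le
end FT722
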