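import Mathlib
import Pool.Agent.FTfinal.FT722_Stn2
import Pool.Agent.FTfinal.FT722_M_A0
set_option autoImplicit false
open MeasureTheory Set
namespace FT722.MA1

noncomputable section

variable {K C : Set (ℝ × ℝ)} {h : ℝ}


theorem line_null15 {e : ℝ × ℝ} (he : e ≠ 0) (v : ℝ × ℝ) :
    volume {p : ℝ × ℝ | cr e (p - v) = 0} = 0 := by
  let f : (ℝ × ℝ) →ₗ[ℝ] ℝ :=
    { toFun := fun x => cr e x
      map_add' := by intro x y; unfold cr; simp only [Prod.fst_add, Prod.snd_add]; ring
      map_smul' := by intro c x; unfold cr; simp only [Prod.smul_fst, Prod.smul_snd, smul_eq_mul, RingHom.id_apply]; ring }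
  have h1 : volume (LinearMap.ker f : Set (ℝ × ℝ)) = 0 := by
    refine Measure.addHaar_submodule volume _ ?_
    intro htop
    apply he
    have h1 : ((1, 0) : ℝ × ℝ) ∈ LinearMap.ker f := by rw [htop]; trivial
    have h2 : ((0, 1) : ℝ × ℝ) ∈ LinearMap.ker f := by rw [htop]; trivial
    rw [LinearMap.mem_ker] at h1 h2
    simp only [f, LinearMap.coe_mk, AddHom.coe_mk, cr] at h1 h2
    ext
    · simpa using h2
    · simpa using h1
  have h2 : {p : ℝ × ℝ | cr e (p - v) = 0} = (fun p => p + (-v)) ⁻¹' (LinearMap.ker f : Set (ℝ × ℝ)) := by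
    ext p
    simp only [mem_ofPred_eq, mem_preimage, SetLike.mem_coe, LinearMap.mem_ker, f, LinearMap.coe_mk, AddHom.coe_mk,
      sub_eq_add_neg]
  rw [h2, measure_preimage_add_right, h1]

theorem small_arc (H : Hyp K C h) {s s' : Stn} (ha : Arc2 K C s s') (hturn : 0 ≤ cr s.u s'.u) :
    ar C ≤ ar K ∨ (ar (bey C s.v s'.v) ≤ h ∧
      ar (bey C s.v s'.v) ≤ ar K / 2 + max 0 (cr (s'.v - s.o) (s.v - s.o))) := by
  have hKne : volume K ≠ ⊤ := H.Kc.measure_lt_top.ne
  have hCne : volume C ≠ ⊤ := H.Cc.measure_lt_top.ne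
  have harK : 0 ≤ ar K := ENNReal.toReal_nonneg
  have hh := H.hpos
  by_cases he : s'.v - s.v = 0
  · right
    have : bey C s.v s'.v = ∅ := by
      rw [Set.eq_empty_iff_forall_notMem]
      rintro p ⟨_, hp⟩
      rw [he] at hp
      simp [cr] at hp
    rw [this]
    have h0 : ar (∅ : Set (ℝ × ℝ)) = 0 := by simp [ar]
    rw [h0]
    exact ⟨hh.le, by have := le_max_left 0 (cr (s'.v - s.o) (s.v - s.o)); linarith⟩
  have hbm : MeasurableSet (bey C s.v s'.v) := by
    have : bey C s.v s'.v = C ∩ {p | cr (s'.v - s.v) (p - s.v) < 0} := rfl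
    rw [this]
    refine H.Cc.measurableSet.inter ?_
    refine (isOpen_lt ?_ continuous_const).measurableSet
    unfold cr; fun_prop
  -- the translate
  set G : Set (ℝ × ℝ) := (fun p => p + s.o) ⁻¹' (bey C s.v s'.v) with hG
  have hGm : MeasurableSet G := hbm.preimage (by fun_prop)
  have hGv : volume G = volume (bey C s.v s'.v) := by
    rw [hG, measure_preimage_add_right]
  have hGK : G ⊆ K := by
    intro p hp
    have := ha.arc.H (p + s.o) hp.1 hp.2
    simpa using this
  by_cases hp0 : ∃ p0 ∈ C, 0 < cr (s'.v - s.v) (p0 - s.v)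
  · right
    obtain ⟨p0, hp0C, hp0⟩ := hp0
    have hA : 0 ≤ cr s.u (s'.v - s.v) := ha.arc.sup _ ha.vC'
    have hB : 0 ≤ cr s'.u (s.v - s'.v) := ha.sup' _ ha.arc.vC
    constructor
    · have := slice_le (G := bey C s.v s'.v) (A := s.v) (B := s'.v) (uA := s.u) (uB := s'.u) hh.le hA hB
        ha.une ha.une' hturn ⟨p0, hp0, ha.arc.sup _ hp0C, ha.sup' _ hp0C⟩ (by
          rintro p ⟨hpC, hp⟩
          refine ⟨hp.le, ?_, ha.arc.sup _ hpC, ha.sup' _ hpC⟩
          have h1 := H.hex _ ha.arc.v1 _ (H.Ksym _ ha.arc.v2) _ (ha.arc.H p hpC hp)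
          simp only [cr, Prod.fst_sub, Prod.snd_sub, Prod.fst_neg, Prod.snd_neg] at h1 ⊢
          linarith)
      exact ENNReal.toReal_le_of_le_ofReal hh.le this
    · set c := cr (s'.v - s.o) (s.v - s.o) with hc
      have hc' : cr (s'.v - s.v) (s.v - s.o) = c := by
        rw [hc]; unfold cr; simp only [Prod.fst_sub, Prod.snd_sub]; ring
      -- reflection
      set G' : Set (ℝ × ℝ) := (fun p => -p) ⁻¹' G with hG'
      have hG'v : volume G' = volume G := by
        rw [hG']
        exact Measure.measure_preimage_neg volume G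
      have hG'K : G' ⊆ K := by
        intro p hp
        have := H.Ksym _ (hGK hp)
        simpa using this
      have hinter : volume (G ∩ G') ≤ ENNReal.ofReal (2 * max 0 c) := by
        rcases le_or_gt c 0 with hc0 | hc0
        · have : G ∩ G' = ∅ := by
            rw [Set.eq_empty_iff_forall_notMem]
            rintro p ⟨⟨h1, h2⟩, ⟨h3, h4⟩⟩
            have : cr (s'.v - s.v) (p + s.o - s.v) + cr (s'.v - s.v) (-p + s.o - s.v) = -2 * c := by
              rw [← hc']; unfold cr; simp only [Prod.fst_sub, Prod.snd_sub, Prod.fst_add, Prod.snd_add, Prod.fst_neg, Prod.snd_neg]; ring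
            linarith
          rw [this]; simp
        · rw [max_eq_right hc0.le]
          have := slice_le (G := G ∩ G') (A := s.v - s.o) (B := s'.v - s.o) (uA := s.u) (uB := s'.u)
            (D := 2 * c) (by linarith) (by rw [sub_sub_sub_cancel_right]; exact hA)
            (by rw [sub_sub_sub_cancel_right]; exact hB)
            ha.une ha.une' hturn ⟨p0 - s.o, by rw [sub_sub_sub_cancel_right, sub_sub_sub_cancel_right]; exact hp0,
              by rw [sub_sub_sub_cancel_right]; exact ha.arc.sup _ hp0C,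
              by rw [sub_sub_sub_cancel_right]; exact ha.sup' _ hp0C⟩ (by
              rintro p ⟨⟨h1, h2⟩, ⟨h3, h4⟩⟩
              have e1 : cr (s'.v - s.o - (s.v - s.o)) (p - (s.v - s.o)) = cr (s'.v - s.v) (p + s.o - s.v) := by
                unfold cr; simp only [Prod.fst_sub, Prod.snd_sub, Prod.fst_add, Prod.snd_add]; ring
              have e2 : cr (s'.v - s.v) (p + s.o - s.v) + cr (s'.v - s.v) (-p + s.o - s.v) = -2 * c := by
                rw [← hc']; unfold cr; simp only [Prod.fst_sub, Prod.snd_sub, Prod.fst_add, Prod.snd_add, Prod.fst_neg, Prod.snd_neg]; ring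
              have e3 : p - (s.v - s.o) = p + s.o - s.v := by abel
              have e4 : p - (s'.v - s.o) = p + s.o - s'.v := by abel
              rw [e1, e3, e4]
              exact ⟨h2.le, by linarith, ha.arc.sup _ h1, ha.sup' _ h1⟩)
          exact this
      have hun : volume (G ∪ G') ≤ volume K := measure_mono (union_subset hGK hG'K)
      have hadd : volume (G ∪ G') + volume (G ∩ G') = volume G + volume G' :=
        measure_union_add_inter' hGm G'
      have hGfin : volume G ≠ ⊤ := ((measure_mono hGK).trans_lt H.Kc.measure_lt_top).ne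
      have h5 : volume G + volume G ≤ volume K + ENNReal.ofReal (2 * max 0 c) := by
        calc volume G + volume G = volume (G ∪ G') + volume (G ∩ G') := by rw [hadd, hG'v]
          _ ≤ _ := add_le_add hun hinter
      have h6 := (ENNReal.toReal_le_toReal (ENNReal.add_ne_top.mpr ⟨hGfin, hGfin⟩)
        (ENNReal.add_ne_top.mpr ⟨hKne, ENNReal.ofReal_ne_top⟩)).mpr h5
      rw [ENNReal.toReal_add hGfin hGfin, ENNReal.toReal_add hKne ENNReal.ofReal_ne_top,
        ENNReal.toReal_ofReal (by have := le_max_left 0 c; linarith)] at h6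
      have h7 : ar (bey C s.v s'.v) = (volume G).toReal := by rw [ar, hGv]
      rw [h7]
      unfold ar
      linarith
  · left
    push Not at hp0
    have hsub : C ⊆ bey C s.v s'.v ∪ {p | cr (s'.v - s.v) (p - s.v) = 0} := by
      intro p hp
      rcases lt_or_eq_of_le (hp0 p hp) with h1 | h1
      · exact Or.inl ⟨hp, h1⟩
      · exact Or.inr h1
    have : volume C ≤ volume K := by
      calc volume C ≤ volume (bey C s.v s'.v ∪ {p | cr (s'.v - s.v) (p - s.v) = 0}) := measure_mono hsub
        _ ≤ volume (bey C s.v s'.v) + volume {p | cr (s'.v - s.v) (p - s.v) = 0} := measure_union_le _ _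
        _ = volume G := by rw [line_null15 he, add_zero, hGv]
        _ ≤ volume K := measure_mono hGK
    exact ENNReal.toReal_mono hKne this

end

end FT722.MA1

namespace FT722
alias small_arc := MA1.small_arc
end FT722
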