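import Mathlib
import Pool.Agent.FTfinal.FT722_Stn2
import Pool.Agent.FTfinal.FT722_M_A0
set_option autoImplicit false
open MeasureTheory Set
namespace FT722.MA2

noncomputable section

variable {K C : Set (ℝ × ℝ)} {h : ℝ}


theorem big_arc (H : Hyp K C h) {s s' : Stn} (ha : Arc2 K C s s') (hneg : cr s.u s'.u < 0)
    (hne : (bey C s.v s'.v).Nonempty) {G : Set (ℝ × ℝ)} (hGC : G ⊆ C) {D : ℝ} (hD : 0 ≤ D)
    (hG : ∀ p ∈ G, 0 ≤ cr (s'.v - s.v) (p - s.v) ∧ cr (s'.v - s.v) (p - s.v) ≤ D) :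
    ar G ≤ D := by
  have key : ∀ p : ℝ × ℝ, cr (s.v - s'.v) (p - s'.v) = - cr (s'.v - s.v) (p - s.v) := by
    intro p
    simp only [cr, Prod.fst_sub, Prod.snd_sub]
    ring
  obtain ⟨p0, hp0C, hp0⟩ := hne
  have h1 : volume G ≤ ENNReal.ofReal D := by
    refine slice_le (A := s'.v) (B := s.v) (uA := s'.u) (uB := s.u) hD
      (ha.sup' _ ha.arc.vC) (ha.arc.sup _ ha.vC') ha.une' ha.une ?_ ?_ ?_
    · have : cr s'.u s.u = - cr s.u s'.u := by
        simp only [cr]; ring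
      rw [this]; linarith
    · refine ⟨p0, ?_, ha.sup' _ hp0C, ha.arc.sup _ hp0C⟩
      rw [key]; linarith
    · intro p hp
      have := hG p hp
      rw [key]
      exact ⟨by linarith, by linarith, ha.sup' _ (hGC hp), ha.arc.sup _ (hGC hp)⟩
  unfold ar
  exact ENNReal.toReal_le_of_le_ofReal hD h1

end

end FT722.MA2

namespace FT722
alias big_arc := MA2.big_arc
end FT722
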