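import Mathlib
import Pool.Agent.FTfinal.FT722_Stn2
set_option autoImplicit false
open MeasureTheory Set
namespace FT722.MA3

noncomputable section

variable {K C : Set (ℝ × ℝ)} {h : ℝ}

theorem cr_cont (e : ℝ × ℝ) : Continuous fun x : ℝ × ℝ => cr e x := by
  unfold cr; fun_prop

theorem strip_bound {K : Set (ℝ × ℝ)} {h N c : ℝ} (hK : IsCompact K) (Kconv : Convex ℝ K)
    (Ksym : ∀ p ∈ K, -p ∈ K) {e qs : ℝ × ℝ} (hN : 0 < N) (hNq : cr e qs = N) (hqs : qs ∈ K)
    (h2 : ∀ p ∈ K, ∀ q ∈ K, 2 * cr p q ≤ h) :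
    volume (K ∩ {x | 0 ≤ cr e x ∧ cr e x < c}) ≤ ENNReal.ofReal (h / N) * ENNReal.ofReal c := by
  have he : e.1 ^ 2 + e.2 ^ 2 ≠ 0 := by
    intro h0
    have h1 : e.1 = 0 := by nlinarith [sq_nonneg e.1, sq_nonneg e.2]
    have h3 : e.2 = 0 := by nlinarith [sq_nonneg e.1, sq_nonneg e.2]
    rw [cr, h1, h3] at hNq
    simp at hNq
    linarith
  obtain ⟨f, hf⟩ : ∃ f : ℝ × ℝ, f = (-e.2 / (e.1 ^ 2 + e.2 ^ 2), e.1 / (e.1 ^ 2 + e.2 ^ 2)) :=
    ⟨_, rfl⟩
  have hef : e.1 * f.2 - e.2 * f.1 = 1 := by
    rw [hf]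
    field_simp
    ring
  let Lm : (ℝ × ℝ) →ₗ[ℝ] (ℝ × ℝ) :=
    Matrix.toLin (Module.Basis.finTwoProd ℝ) (Module.Basis.finTwoProd ℝ) !![e.1, f.1; e.2, f.2]
  have hLm : ∀ x, Lm x = (e.1 * x.1 + f.1 * x.2, e.2 * x.1 + f.2 * x.2) := fun x =>
    Matrix.toLin_finTwoProd_apply _ _ _ _ x
  have hdet : LinearMap.det Lm = 1 := by
    show LinearMap.det (Matrix.toLin _ _ _) = 1
    rw [LinearMap.det_toLin, Matrix.det_fin_two_of]
    linarith
  obtain ⟨S, hS⟩ : ∃ S : Set (ℝ × ℝ), S = K ∩ {x | 0 ≤ cr e x ∧ cr e x < c} := ⟨_, rfl⟩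
  rw [← hS]
  have hSm : MeasurableSet S := by
    rw [hS]
    refine hK.isClosed.measurableSet.inter ?_
    exact (isClosed_le continuous_const (cr_cont e)).measurableSet.inter
      (isOpen_lt (cr_cont e) continuous_const).measurableSet
  have h3 : volume (Lm ⁻¹' S) = volume S := by
    have := Measure.addHaar_preimage_linearMap (volume : Measure (ℝ × ℝ)) (f := Lm)
      (by rw [hdet]; norm_num) S
    rw [hdet] at this
    simpa using this
  have hTm : MeasurableSet (Lm ⁻¹' S) :=
    (LinearMap.continuous_of_finiteDimensional Lm).measurable hSm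
  rw [← h3, Measure.volume_eq_prod, Measure.prod_apply_symm hTm]
  have hcr : ∀ x : ℝ × ℝ, cr e (Lm x) = x.2 := by
    intro x
    rw [hLm, cr]
    simp only
    linear_combination x.2 * hef
  calc ∫⁻ t : ℝ, volume ((fun s : ℝ => (s, t)) ⁻¹' (Lm ⁻¹' S))
      ≤ ∫⁻ t : ℝ, (Set.Ico 0 c).indicator (fun _ => ENNReal.ofReal (h / N)) t := by
        refine lintegral_mono fun t => ?_
        by_cases ht : t ∈ Set.Ico 0 c
        · rw [Set.indicator_of_mem ht]
          refine (Real.volume_le_diam _).trans ?_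
          refine Metric.ediam_le fun x hx y hy => ?_
          have hx' : Lm (x, t) ∈ K := by
            have : Lm (x, t) ∈ S := hx
            rw [hS] at this; exact this.1
          have hy' : Lm (y, t) ∈ K := by
            have : Lm (y, t) ∈ S := hy
            rw [hS] at this; exact this.1
          rw [edist_dist, Real.dist_eq]
          apply ENNReal.ofReal_le_ofReal
          have key : ∀ a b : ℝ, Lm (a, t) ∈ K → Lm (b, t) ∈ K → (a - b) * N ≤ h := by
            intro a b ha hb
            have h4 : (1 / 2 : ℝ) • Lm (a, t) + (1 / 2 : ℝ) • (-Lm (b, t)) ∈ K :=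
              Kconv ha (Ksym _ hb) (by norm_num) (by norm_num) (by norm_num)
            have h5 := h2 _ h4 _ hqs
            rw [hLm, hLm] at h5
            rw [← hNq]
            simp only [cr, Prod.smul_mk, Prod.neg_mk, Prod.mk_add_mk, smul_eq_mul] at h5 ⊢
            nlinarith
          rw [abs_le, le_div_iff₀ hN, ← neg_le_neg_iff, neg_neg, ← sub_neg_eq_add] at *
          constructor
          · have := key y x hy' hx'
            have h6 : y - x ≤ h / N := by rw [le_div_iff₀ hN]; exact this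
            linarith
          · exact key x y hx' hy'
        · rw [Set.indicator_of_notMem ht]
          have : (fun s : ℝ => (s, t)) ⁻¹' (Lm ⁻¹' S) = ∅ := by
            rw [Set.eq_empty_iff_forall_notMem]
            intro s hs
            have hs' : Lm (s, t) ∈ S := hs
            rw [hS] at hs'
            have h4 := hs'.2
            simp only [Set.mem_ofPred_eq, hcr] at h4
            exact ht h4
          rw [this, measure_empty]
    _ = ENNReal.ofReal (h / N) * ENNReal.ofReal c := by
        rw [lintegral_indicator_const measurableSet_Ico, Real.volume_Ico, sub_zero]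

theorem half_bound {K : Set (ℝ × ℝ)} (hK : IsCompact K) (Ksym : ∀ p ∈ K, -p ∈ K) (e : ℝ × ℝ) :
    2 * volume (K ∩ {x | cr e x < 0}) ≤ volume K := by
  have h1 : volume (K ∩ {x | 0 < cr e x}) = volume (K ∩ {x | cr e x < 0}) := by
    have : K ∩ {x | 0 < cr e x} = Neg.neg ⁻¹' (K ∩ {x | cr e x < 0}) := by
      ext x
      constructor
      · rintro ⟨hx, hx2⟩
        refine ⟨Ksym x hx, ?_⟩
        show cr e (-x) < 0
        have : cr e (-x) = - cr e x := by simp [cr]; ring
        rw [this]
        have : 0 < cr e x := hx2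
        linarith
      · rintro ⟨hx, hx2⟩
        refine ⟨by simpa using Ksym _ hx, ?_⟩
        have h3 : cr e (-x) < 0 := hx2
        have : cr e (-x) = - cr e x := by simp [cr]; ring
        rw [this] at h3
        show 0 < cr e x
        linarith
    rw [this, Measure.measure_preimage_neg]
  have h2 : volume (K ∩ {x | 0 < cr e x}) + volume (K ∩ {x | cr e x < 0}) ≤ volume K := by
    rw [← measure_union]
    · exact measure_mono (by rintro x (hx | hx) <;> exact hx.1)
    · rw [Set.disjoint_left]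
      rintro x ⟨-, hx⟩ ⟨-, hx'⟩
      have h3 : 0 < cr e x := hx
      have h4 : cr e x < 0 := hx'
      linarith
    · exact hK.isClosed.measurableSet.inter (isOpen_lt (cr_cont e) continuous_const).measurableSet
  rw [h1] at h2
  rw [two_mul]; exact h2

theorem X_lemma (H : Hyp K C h) {s s' : Stn} (ha : Arc2 K C s s') :
    ∃ N : ℝ, 0 ≤ N ∧ (∀ q ∈ K, cr (s'.v - s.v) q ≤ N) ∧
      ar (bey C s.v s'.v) + 2 * N ≤ ar K / 2 + 2 * h := by
  obtain ⟨o, v, u, θ⟩ := s
  obtain ⟨o', v', u', θ'⟩ := s'
  have hA := ha.arc.v1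
  have hB := ha.arc.v2
  have hH := ha.arc.H
  simp only at hA hB hH ⊢
  clear ha
  obtain ⟨e, he⟩ : ∃ e, e = v' - v := ⟨_, rfl⟩
  rw [← he] at hH ⊢
  have hAB : (v' - o) = e + (v - o) := by rw [he]; abel
  obtain ⟨qs, hqs, hmax⟩ := H.Kc.exists_isMaxOn ⟨_, hA⟩ (cr_cont e).continuousOn
  have hmax' : ∀ q ∈ K, cr e q ≤ cr e qs := fun q hq => hmax hq
  have hN0 : 0 ≤ cr e qs := by
    have h1 := hmax' _ (H.Ksym _ hqs)
    have : cr e (-qs) = - cr e qs := by simp [cr]; ring
    rw [this] at h1
    linarith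
  refine ⟨cr e qs, hN0, hmax', ?_⟩
  have h2cr : ∀ p ∈ K, ∀ q ∈ K, 2 * cr p q ≤ h := by
    intro p hp q hq
    have := H.hex p hp q hq q hq
    have h1 : cr q q = 0 := by simp [cr]; ring
    linarith
  have hlin : ∀ q, cr e q = cr (v' - o) q - cr (v - o) q := by
    intro q
    rw [hAB]
    simp [cr]; ring
  have hanti : ∀ p q, cr p q = - cr q p := by
    intro p q; simp [cr]; ring
  have hNh : cr e qs ≤ h := by
    rw [hlin]
    have h1 := h2cr _ hB _ hqs
    have h3 := h2cr _ hqs _ hA
    have h4 := hanti (v - o) qs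
    linarith
  have hKfin : volume K ≠ ⊤ := H.Kc.measure_lt_top.ne
  obtain ⟨c, hc⟩ : ∃ c, c = cr e (v - o) := ⟨_, rfl⟩
  have hcN : c ≤ cr e qs := by rw [hc]; exact hmax' _ hA
  have hNc : cr e qs + c ≤ h := by
    have h1 := H.hex _ hB _ hqs _ hA
    have h3 : cr e (v - o) = cr (v' - o) (v - o) := by
      rw [hAB]; simp [cr]; ring
    have h4 := hanti (v - o) qs
    rw [hc, h3, hlin]
    linarith
  -- bey is contained in a translate of the cap
  have hbey : bey C v v' ⊆ (fun p => p + (-o)) ⁻¹' (K ∩ {x | cr e x < c}) := by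
    rintro p ⟨hp, hp2⟩
    rw [← he] at hp2
    refine ⟨by simpa [sub_eq_add_neg] using hH p hp hp2, ?_⟩
    show cr e (p + -o) < c
    rw [hc]
    simp only [cr, Prod.fst_sub, Prod.snd_sub, Prod.fst_add, Prod.snd_add, Prod.fst_neg,
      Prod.snd_neg] at hp2 ⊢
    linarith
  have hX : ar (bey C v v') ≤ (volume (K ∩ {x | cr e x < c})).toReal := by
    unfold ar
    apply ENNReal.toReal_mono
    · exact (lt_of_le_of_lt (measure_mono Set.inter_subset_left) H.Kc.measure_lt_top).ne
    · refine (measure_mono hbey).trans ?_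
      rw [measure_preimage_add_right]
  have hhalf : (volume (K ∩ {x | cr e x < 0})).toReal ≤ ar K / 2 := by
    have h1 := ENNReal.toReal_mono hKfin (half_bound H.Kc H.Ksym e)
    rw [ENNReal.toReal_mul] at h1
    have h3 : ((2 : ENNReal)).toReal = 2 := by norm_num
    rw [h3] at h1
    unfold ar
    linarith
  by_cases hc0 : c ≤ 0
  · have h1 : (volume (K ∩ {x | cr e x < c})).toReal ≤ (volume (K ∩ {x | cr e x < 0})).toReal := by
      apply ENNReal.toReal_mono
      · exact (lt_of_le_of_lt (measure_mono Set.inter_subset_left) H.Kc.measure_lt_top).ne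
      · apply measure_mono
        rintro x ⟨hx, hx2⟩
        exact ⟨hx, lt_of_lt_of_le hx2 hc0⟩
    linarith
  · push Not at hc0
    have hNpos : 0 < cr e qs := lt_of_lt_of_le hc0 hcN
    have hst := strip_bound (c := c) H.Kc H.Kconv H.Ksym hNpos rfl hqs h2cr
    have hst' : (volume (K ∩ {x | 0 ≤ cr e x ∧ cr e x < c})).toReal ≤ h / cr e qs * c := by
      have h1 := ENNReal.toReal_mono (by finiteness) hst
      rw [ENNReal.toReal_mul, ENNReal.toReal_ofReal (by
        exact div_nonneg H.hpos.le hN0), ENNReal.toReal_ofReal hc0.le] at h1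
      exact h1
    have hun : (volume (K ∩ {x | cr e x < c})).toReal ≤
        (volume (K ∩ {x | cr e x < 0})).toReal
          + (volume (K ∩ {x | 0 ≤ cr e x ∧ cr e x < c})).toReal := by
      rw [← ENNReal.toReal_add]
      · apply ENNReal.toReal_mono
        · refine ENNReal.add_ne_top.mpr ⟨?_, ?_⟩ <;>
          exact (lt_of_le_of_lt (measure_mono Set.inter_subset_left) H.Kc.measure_lt_top).ne
        · refine (measure_mono ?_).trans (measure_union_le _ _)
          rintro x ⟨hx, hx2⟩
          by_cases h0 : cr e x < 0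
          · exact Or.inl ⟨hx, h0⟩
          · exact Or.inr ⟨hx, not_lt.mp h0, hx2⟩
      · exact (lt_of_le_of_lt (measure_mono Set.inter_subset_left) H.Kc.measure_lt_top).ne
      · exact (lt_of_le_of_lt (measure_mono Set.inter_subset_left) H.Kc.measure_lt_top).ne
    have hfin : h / cr e qs * c + 2 * cr e qs ≤ 2 * h := by
      set N := cr e qs
      have h1 : h / N * c = h * c / N := by ring
      rw [h1, ← sub_nonneg]
      have h3 : 2 * h - (h * c / N + 2 * N) = (2 * h * N - h * c - 2 * N ^ 2) / N := by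
        field_simp
        ring
      rw [h3]
      apply div_nonneg _ hN0
      by_cases hcase : 2 * N ≤ h
      · nlinarith [H.hpos]
      · push Not at hcase
        nlinarith [H.hpos, mul_nonneg (sub_nonneg.mpr hNh) (by linarith : 0 ≤ 2 * N - h),
          mul_nonneg H.hpos.le (by linarith : 0 ≤ h - N - c)]
    linarith


end

end FT722.MA3

namespace FT722
alias X_lemma := MA3.X_lemma
end FT722
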