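import Mathlib
import Pool.Agent.FTfinal.FT722_Stn2
set_option autoImplicit false
open MeasureTheory Set
namespace FT722.MB35

noncomputable section

variable {K C : Set (ℝ × ℝ)} {h : ℝ}

theorem mem_tri {K : Set (ℝ × ℝ)} (hK : Convex ℝ K) {a b c p : ℝ × ℝ} (ha : a ∈ K) (hb : b ∈ K)
    (hc : c ∈ K) (h1 : 0 ≤ cr (b - a) (p - a)) (h2 : 0 ≤ cr (c - b) (p - b))
    (h3 : 0 ≤ cr (a - c) (p - c)) (h4 : 0 < cr (b - a) (c - b)) : p ∈ K := by
  obtain ⟨D, hD⟩ : ∃ D : ℝ, D = cr (b - a) (c - b) := ⟨_, rfl⟩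
  have hD0 : 0 < D := by rw [hD]; exact h4
  have hsum : cr (c - b) (p - b) / D + cr (a - c) (p - c) / D + cr (b - a) (p - a) / D = 1 := by
    rw [← add_div, ← add_div, div_eq_one_iff_eq hD0.ne', hD]
    simp only [cr, Prod.fst_sub, Prod.snd_sub]
    ring
  have hp : p = (cr (c - b) (p - b) / D) • a + (cr (a - c) (p - c) / D) • b +
      (cr (b - a) (p - a) / D) • c := by
    have e1 : D * p.1 = cr (c - b) (p - b) * a.1 + cr (a - c) (p - c) * b.1 +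
        cr (b - a) (p - a) * c.1 := by
      rw [hD]
      simp only [cr, Prod.fst_sub, Prod.snd_sub]
      ring
    have e2 : D * p.2 = cr (c - b) (p - b) * a.2 + cr (a - c) (p - c) * b.2 +
        cr (b - a) (p - a) * c.2 := by
      rw [hD]
      simp only [cr, Prod.fst_sub, Prod.snd_sub]
      ring
    apply Prod.ext
    · simp only [Prod.fst_add, Prod.smul_fst, smul_eq_mul]
      rw [div_mul_eq_mul_div, div_mul_eq_mul_div, div_mul_eq_mul_div, ← add_div, ← add_div,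
        eq_div_iff hD0.ne', ← e1]
      ring
    · simp only [Prod.snd_add, Prod.smul_snd, smul_eq_mul]
      rw [div_mul_eq_mul_div, div_mul_eq_mul_div, div_mul_eq_mul_div, ← add_div, ← add_div,
        eq_div_iff hD0.ne', ← e2]
      ring
  have hmem := hK.sum_mem (t := (Finset.univ : Finset (Fin 3)))
    (w := ![cr (c - b) (p - b) / D, cr (a - c) (p - c) / D, cr (b - a) (p - a) / D])
    (z := ![a, b, c]) (by
      intro i _
      fin_cases i
      · exact div_nonneg h2 hD0.le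
      · exact div_nonneg h3 hD0.le
      · exact div_nonneg h1 hD0.le) (by
      rw [Fin.sum_univ_three]
      exact hsum) (by
      intro i _
      fin_cases i
      · exact ha
      · exact hb
      · exact hc)
  rw [Fin.sum_univ_three] at hmem
  rw [hp]
  exact hmem

theorem two_cr849 (H : Hyp K C h) {p q : ℝ × ℝ} (hp : p ∈ K) (hq : q ∈ K) : 2 * cr p q ≤ h := by
  have h1 := H.hex p hp q hq q hq
  simp only [cr] at h1 ⊢
  linarith

theorem tri_bound (H : Hyp K C h) {x y : ℝ × ℝ} (hx : (1 / 2 : ℝ) • x ∈ K)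
    (hy : (1 / 2 : ℝ) • y ∈ K) (hxy : (1 / 2 : ℝ) • (x + y) ∈ K) : cr x y / 2 ≤ 2 / 3 * h := by
  have h1 := H.hex _ hx _ hxy _ hy
  simp only [cr, Prod.smul_fst, Prod.smul_snd, Prod.fst_add, Prod.snd_add, smul_eq_mul] at h1 ⊢
  linarith

theorem half_mem849 (H : Hyp K C h) {p q : ℝ × ℝ} (hp : p ∈ K) (hq : q ∈ K) :
    (1 / 2 : ℝ) • (p - q) ∈ K := by
  have h1 := H.Kconv hp (H.Ksym q hq) (show (0 : ℝ) ≤ 1 / 2 by norm_num)
    (show (0 : ℝ) ≤ 1 / 2 by norm_num) (by norm_num)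
  have h2 : (1 / 2 : ℝ) • (p - q) = (1 / 2 : ℝ) • p + (1 / 2 : ℝ) • -q := by
    rw [smul_sub, smul_neg, sub_eq_add_neg]
  rw [h2]
  exact h1

theorem quad_bound (H : Hyp K C h) {o1 o2 o3 o4 v1 v2 v3 v4 : ℝ × ℝ}
    (h1 : v1 - o1 ∈ K) (h1' : v2 - o1 ∈ K) (h2 : v2 - o2 ∈ K) (h2' : v3 - o2 ∈ K)
    (h3 : v3 - o3 ∈ K) (h3' : v4 - o3 ∈ K) (h4 : v4 - o4 ∈ K) (h4' : v1 - o4 ∈ K) :
    max 0 (cr (v2 - v1) (v3 - v2) / 2) + max 0 (cr (v4 - v3) (v1 - v4) / 2) +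
      max 0 (cr (v2 - o1) (v1 - o1)) + max 0 (cr (v4 - o3) (v3 - o3)) ≤ 2 * h := by
  have g1 : (1 / 2 : ℝ) • (v2 - v1) ∈ K := by
    have := half_mem849 H h1' h1
    rwa [sub_sub_sub_cancel_right] at this
  have g2 : (1 / 2 : ℝ) • (v3 - v2) ∈ K := by
    have := half_mem849 H h2' h2
    rwa [sub_sub_sub_cancel_right] at this
  have g3 : (1 / 2 : ℝ) • (v4 - v3) ∈ K := by
    have := half_mem849 H h3' h3
    rwa [sub_sub_sub_cancel_right] at this
  have g4 : (1 / 2 : ℝ) • (v1 - v4) ∈ K := by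
    have := half_mem849 H h4' h4
    rwa [sub_sub_sub_cancel_right] at this
  have gf := half_mem849 H g2 g4
  obtain ⟨f, hf⟩ : ∃ f : ℝ × ℝ, f = (1 / 2 : ℝ) • ((1 / 2 : ℝ) • (v3 - v2) -
    (1 / 2 : ℝ) • (v1 - v4)) := ⟨_, rfl⟩
  rw [← hf] at gf
  have gf' := H.Ksym f gf
  have hf1 : f.1 = ((v3.1 - v2.1) - (v1.1 - v4.1)) / 4 := by
    rw [hf]
    simp only [Prod.smul_fst, Prod.fst_sub, smul_eq_mul]
    ring
  have hf2 : f.2 = ((v3.2 - v2.2) - (v1.2 - v4.2)) / 4 := by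
    rw [hf]
    simp only [Prod.smul_snd, Prod.snd_sub, smul_eq_mul]
    ring
  have F1 : cr (v2 - v1) (v3 - v2) / 2 + cr (v4 - v3) (v1 - v4) / 2 =
      cr (v2 - v1) f + cr f (v4 - v3) := by
    simp only [cr, Prod.fst_sub, Prod.snd_sub, hf1, hf2]
    ring
  have F2 : cr (v2 - v1) f + cr (v2 - o1) (v1 - o1) ≤ h := by
    have := H.hex _ h1' _ gf _ h1
    simp only [cr, Prod.fst_sub, Prod.snd_sub] at this ⊢
    linarith
  have F3 : cr f (v4 - v3) + cr (v4 - o3) (v3 - o3) ≤ h := by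
    have := H.hex _ h3' _ gf' _ h3
    simp only [cr, Prod.fst_sub, Prod.snd_sub, Prod.fst_neg, Prod.snd_neg] at this ⊢
    linarith
  have F4 : cr (v2 - v1) f ≤ h := by
    have := two_cr849 H g1 gf
    simp only [cr, Prod.smul_fst, Prod.smul_snd, Prod.fst_sub, Prod.snd_sub, smul_eq_mul]
      at this ⊢
    linarith
  have F5 : cr f (v4 - v3) ≤ h := by
    have := two_cr849 H gf g3
    simp only [cr, Prod.smul_fst, Prod.smul_snd, Prod.fst_sub, Prod.snd_sub, smul_eq_mul]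
      at this ⊢
    linarith
  have F6 := two_cr849 H h1' h1
  have F7 := two_cr849 H h3' h3
  have F8 : cr (v2 - v1) (v3 - v2) / 2 ≤ h := by
    have := two_cr849 H g1 g2
    simp only [cr, Prod.smul_fst, Prod.smul_snd, Prod.fst_sub, Prod.snd_sub, smul_eq_mul]
      at this ⊢
    linarith
  have F9 : cr (v4 - v3) (v1 - v4) / 2 ≤ h := by
    have := two_cr849 H g3 g4
    simp only [cr, Prod.smul_fst, Prod.smul_snd, Prod.fst_sub, Prod.snd_sub, smul_eq_mul]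
      at this ⊢
    linarith
  have F0 := H.hpos
  generalize cr (v2 - v1) (v3 - v2) / 2 = T1 at *
  generalize cr (v4 - v3) (v1 - v4) / 2 = T2 at *
  generalize cr (v2 - o1) (v1 - o1) = c1 at *
  generalize cr (v4 - o3) (v3 - o3) = c3 at *
  generalize cr (v2 - v1) f = a1 at *
  generalize cr f (v4 - v3) = a3 at *
  rcases max_cases 0 T1 with ⟨m1, _⟩ | ⟨m1, _⟩ <;> rcases max_cases 0 T2 with ⟨m2, _⟩ | ⟨m2, _⟩ <;>
    rcases max_cases 0 c1 with ⟨m3, _⟩ | ⟨m3, _⟩ <;>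
    rcases max_cases 0 c3 with ⟨m4, _⟩ | ⟨m4, _⟩ <;> rw [m1, m2, m3, m4] <;> linarith

theorem pent_bound (H : Hyp K C h) {e1 e2 e3 e4 e5 : ℝ × ℝ} (h1 : (1 / 2 : ℝ) • e1 ∈ K)
    (h2 : (1 / 2 : ℝ) • e2 ∈ K) (h3 : (1 / 2 : ℝ) • e3 ∈ K) (h4 : (1 / 2 : ℝ) • e4 ∈ K)
    (h5 : (1 / 2 : ℝ) • e5 ∈ K) (hs : e1 + e2 + e3 + e4 + e5 = 0) :
    cr e1 e2 / 2 + cr (e1 + e2) e3 / 2 + cr e4 e5 / 2 ≤ 3 * h ∧
    max 0 (cr e1 e2 / 2) + max 0 (cr (e1 + e2) e3 / 2) + max 0 (cr e4 e5 / 2) ≤ 3 * h := by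
  have hx : e5.1 = -(e1.1 + e2.1 + e3.1 + e4.1) := by
    have := congrArg Prod.fst hs
    simp only [Prod.fst_add, Prod.fst_zero] at this
    linarith
  have hy : e5.2 = -(e1.2 + e2.2 + e3.2 + e4.2) := by
    have := congrArg Prod.snd hs
    simp only [Prod.snd_add, Prod.snd_zero] at this
    linarith
  have two : ∀ {p q : ℝ × ℝ}, (1 / 2 : ℝ) • p ∈ K → (1 / 2 : ℝ) • q ∈ K → cr p q ≤ 2 * h := by
    intro p q hp hq
    have := two_cr849 H hp hq
    simp only [cr, Prod.smul_fst, Prod.smul_snd, smul_eq_mul] at this ⊢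
    linarith
  have three : ∀ {p q r : ℝ × ℝ}, (1 / 2 : ℝ) • p ∈ K → (1 / 2 : ℝ) • q ∈ K →
      (1 / 2 : ℝ) • r ∈ K → cr p q + cr q r + cr p r ≤ 4 * h := by
    intro p q r hp hq hr
    have := H.hex _ hp _ hq _ hr
    simp only [cr, Prod.smul_fst, Prod.smul_snd, smul_eq_mul] at this ⊢
    linarith
  have a1 := two h1 h2
  have a2 := two h2 h3
  have a3 := two h3 h4
  have a4 := two h4 h5
  have a5 := two h5 h1
  have b1 := three h1 h2 h3
  have b2 := three h2 h3 h4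
  have b3 := three h3 h4 h5
  have b4 := three h4 h5 h1
  have b5 := three h5 h1 h2
  have a13 := two h1 h3
  have key : cr e1 e2 / 2 + cr (e1 + e2) e3 / 2 + cr e4 e5 / 2 ≤ 3 * h := by
    simp only [cr, Prod.fst_add, Prod.snd_add, hx, hy] at *
    linarith
  refine ⟨key, ?_⟩
  have T2 : cr (e1 + e2) e3 / 2 ≤ 2 * h := by
    simp only [cr, Prod.fst_add, Prod.snd_add] at a13 a2 ⊢
    linarith
  have hpos := H.hpos
  rcases max_cases 0 (cr e1 e2 / 2) with ⟨m1, _⟩ | ⟨m1, _⟩ <;>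
    rcases max_cases 0 (cr (e1 + e2) e3 / 2) with ⟨m2, _⟩ | ⟨m2, _⟩ <;>
    rcases max_cases 0 (cr e4 e5 / 2) with ⟨m3, _⟩ | ⟨m3, _⟩ <;> rw [m1, m2, m3] <;> linarith

end

end FT722.MB35

namespace FT722
alias mem_tri := MB35.mem_tri
alias tri_bound := MB35.tri_bound
alias quad_bound := MB35.quad_bound
alias pent_bound := MB35.pent_bound
end FT722
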