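import Mathlib
import Pool.Agent.FTfinal.FT722_Stn2
set_option autoImplicit false
open MeasureTheory Set
namespace FT722.MR3

noncomputable section

variable {K C : Set (ℝ × ℝ)} {h : ℝ}

theorem pre_sub (z : ℝ × ℝ) (A : Set (ℝ × ℝ)) : volume ((fun p => p - z) ⁻¹' A) = volume A := by
  simp_rw [sub_eq_add_neg]
  exact measure_preimage_add_right volume (-z) A

theorem line_null {e z : ℝ × ℝ} (he : e ≠ 0) : volume {p : ℝ × ℝ | cr e (p - z) = 0} = 0 := by
  let φ : (ℝ × ℝ) →ₗ[ℝ] ℝ :=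
    { toFun := fun p => cr e p
      map_add' := by intro x y; simp only [cr, Prod.fst_add, Prod.snd_add]; ring
      map_smul' := by intro r x; simp only [cr, Prod.smul_fst, Prod.smul_snd, smul_eq_mul, RingHom.id_apply]; ring }
  have h1 : {p : ℝ × ℝ | cr e (p - z) = 0} = (fun p => p - z) ⁻¹' ((LinearMap.ker φ : Submodule ℝ (ℝ × ℝ)) : Set (ℝ × ℝ)) := by
    ext p
    simp only [mem_ofPred_eq, mem_preimage, SetLike.mem_coe, LinearMap.mem_ker]
    rfl
  rw [h1, pre_sub]
  apply Measure.addHaar_submodule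
  intro htop
  have h2 : ∀ p : ℝ × ℝ, cr e p = 0 := by
    intro p
    have : p ∈ (LinearMap.ker φ : Submodule ℝ (ℝ × ℝ)) := by rw [htop]; trivial
    exact this
  apply he
  have h3 := h2 (0, 1)
  have h4 := h2 (1, 0)
  simp only [cr] at h3 h4
  ext
  · simpa using h3
  · simpa using h4

theorem vol_T : volume {q : ℝ × ℝ | 0 ≤ q.1 ∧ 0 ≤ q.2 ∧ q.1 + q.2 ≤ 1} ≤ ENNReal.ofReal (1 / 2) := by
  have hm : MeasurableSet {q : ℝ × ℝ | 0 ≤ q.1 ∧ 0 ≤ q.2 ∧ q.1 + q.2 ≤ 1} := by
    apply IsClosed.measurableSet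
    apply IsClosed.inter (isClosed_le continuous_const continuous_fst)
    apply IsClosed.inter (isClosed_le continuous_const continuous_snd)
    exact isClosed_le (continuous_fst.add continuous_snd) continuous_const
  rw [Measure.volume_eq_prod, Measure.prod_apply hm]
  have h1 : ∀ x : ℝ, volume (Prod.mk x ⁻¹' {q : ℝ × ℝ | 0 ≤ q.1 ∧ 0 ≤ q.2 ∧ q.1 + q.2 ≤ 1}) =
      (Icc (0:ℝ) 1).indicator (fun x => ENNReal.ofReal (1 - x)) x := by
    intro x
    by_cases hx : x ∈ Icc (0:ℝ) 1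
    · rw [indicator_of_mem hx]
      have : (Prod.mk x ⁻¹' {q : ℝ × ℝ | 0 ≤ q.1 ∧ 0 ≤ q.2 ∧ q.1 + q.2 ≤ 1}) = Icc 0 (1 - x) := by
        ext y
        simp only [mem_preimage, mem_ofPred_eq, mem_Icc]
        constructor
        · rintro ⟨h1, h2, h3⟩; exact ⟨h2, by linarith⟩
        · rintro ⟨h1, h2⟩; exact ⟨hx.1, h1, by linarith⟩
      rw [this, Real.volume_Icc]; congr 1; ring
    · rw [indicator_of_notMem hx]
      have : (Prod.mk x ⁻¹' {q : ℝ × ℝ | 0 ≤ q.1 ∧ 0 ≤ q.2 ∧ q.1 + q.2 ≤ 1}) = ∅ := by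
        ext y
        simp only [mem_preimage, mem_ofPred_eq, mem_empty_iff_false, iff_false]
        rintro ⟨h1, h2, h3⟩
        exact hx ⟨h1, by linarith⟩
      rw [this, measure_empty]
  simp_rw [h1]
  rw [lintegral_indicator measurableSet_Icc]
  rw [← ofReal_integral_eq_lintegral_ofReal]
  · apply ENNReal.ofReal_le_ofReal
    rw [integral_Icc_eq_integral_Ioc, ← intervalIntegral.integral_of_le zero_le_one]
    rw [intervalIntegral.integral_sub intervalIntegrable_const intervalIntegral.intervalIntegrable_id, intervalIntegral.integral_const, integral_id]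
    norm_num
  · exact (Continuous.integrableOn_Icc (by fun_prop))
  · rw [Filter.EventuallyLE, ae_restrict_iff' measurableSet_Icc]
    filter_upwards with x hx
    simpa using hx.2

theorem region3 {a b c : ℝ × ℝ} (hne : a ≠ b ∨ b ≠ c) :
    volume {p | 0 ≤ cr (b - a) (p - a) ∧ 0 ≤ cr (c - b) (p - b) ∧ 0 ≤ cr (a - c) (p - c)} ≤
      ENNReal.ofReal (cr (b - a) (c - b) / 2) := by
  have key : ∀ p : ℝ × ℝ, cr (b - a) (p - a) + cr (c - b) (p - b) + cr (a - c) (p - c) = cr (b - a) (c - b) := by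
    intro p; simp only [cr, Prod.fst_sub, Prod.snd_sub]; ring
  rcases lt_or_ge 0 (cr (b - a) (c - b)) with hD | hD
  · -- triangle
    set D := cr (b - a) (c - b) with hDdef
    let f : (ℝ × ℝ) →ₗ[ℝ] (ℝ × ℝ) := Matrix.toLin (Module.Basis.finTwoProd ℝ) (Module.Basis.finTwoProd ℝ)
      !![(b - a).1, (c - a).1; (b - a).2, (c - a).2]
    have hf : ∀ q : ℝ × ℝ, f q = (q.1 * (b - a).1 + q.2 * (c - a).1, q.1 * (b - a).2 + q.2 * (c - a).2) := by
      intro q
      simp only [f, Matrix.toLin_finTwoProd_apply]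
      ext <;> ring
    have hdet : LinearMap.det f = D := by
      simp only [f, LinearMap.det_toLin, Matrix.det_fin_two_of, hDdef, cr, Prod.fst_sub, Prod.snd_sub]
      ring
    have hsub : {p | 0 ≤ cr (b - a) (p - a) ∧ 0 ≤ cr (c - b) (p - b) ∧ 0 ≤ cr (a - c) (p - c)} ⊆
        (fun p => p - a) ⁻¹' (f '' {q : ℝ × ℝ | 0 ≤ q.1 ∧ 0 ≤ q.2 ∧ q.1 + q.2 ≤ 1}) := by
      rintro p ⟨h1, h2, h3⟩
      have hk := key p
      refine ⟨(cr (a - c) (p - c) / D, cr (b - a) (p - a) / D), ⟨?_, ?_, ?_⟩, ?_⟩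
      · exact div_nonneg h3 hD.le
      · exact div_nonneg h1 hD.le
      · show cr (a - c) (p - c) / D + cr (b - a) (p - a) / D ≤ 1
        rw [← add_div, div_le_one hD]
        linarith
      · rw [hf]
        have hD' : (b - a).1 * (c - b).2 - (b - a).2 * (c - b).1 ≠ 0 := hD.ne'
        ext
        · simp only [hDdef, cr, Prod.fst_sub, Prod.snd_sub] at hD' ⊢
          field_simp
          ring
        · simp only [hDdef, cr, Prod.fst_sub, Prod.snd_sub] at hD' ⊢
          field_simp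
          ring
    refine (measure_mono hsub).trans ?_
    rw [pre_sub, Measure.addHaar_image_linearMap, hdet, abs_of_pos hD]
    calc ENNReal.ofReal D * volume {q : ℝ × ℝ | 0 ≤ q.1 ∧ 0 ≤ q.2 ∧ q.1 + q.2 ≤ 1}
        ≤ ENNReal.ofReal D * ENNReal.ofReal (1 / 2) := by gcongr; exact vol_T
      _ = ENNReal.ofReal (D / 2) := by
          rw [← ENNReal.ofReal_mul hD.le]; congr 1; ring
  · -- null
    have hz : volume {p | 0 ≤ cr (b - a) (p - a) ∧ 0 ≤ cr (c - b) (p - b) ∧ 0 ≤ cr (a - c) (p - c)} = 0 := by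
      rcases hne with h | h
      · refine measure_mono_null ?_ (line_null (e := b - a) (z := a) (sub_ne_zero.2 (Ne.symm h)))
        rintro p ⟨h1, h2, h3⟩
        have hk := key p
        show cr (b - a) (p - a) = 0
        linarith
      · refine measure_mono_null ?_ (line_null (e := c - b) (z := b) (sub_ne_zero.2 (Ne.symm h)))
        rintro p ⟨h1, h2, h3⟩
        have hk := key p
        show cr (c - b) (p - b) = 0
        linarith
    rw [hz]; exact bot_le

end

end FT722.MR3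

namespace FT722
alias region3 := MR3.region3
end FT722
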