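import Mathlib
import Pool.Agent.FTfinal.FT722_Stn2
import Pool.Agent.FTfinal.FT722_Fold
import Pool.Agent.FTfinal.FT722_M_G1
import Pool.Agent.FTfinal.FT722_M_Lamf
import Pool.Agent.FTfinal.FT722_M_A1
import Pool.Agent.FTfinal.FT722_M_A2
import Pool.Agent.FTfinal.FT722_M_A3
import Pool.Agent.FTfinal.FT722_M_R3
import Pool.Agent.FTfinal.FT722_M_B35
set_option autoImplicit false
open MeasureTheory Set
namespace FT722.MS3

noncomputable section

variable {K C : Set (ℝ × ℝ)} {h : ℝ}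


lemma ar_nn (S : Set (ℝ × ℝ)) : 0 ≤ ar S := ENNReal.toReal_nonneg

lemma cap_nn (H : Hyp K C h) (z u : ℝ × ℝ) : 0 ≤ capf K z u := capf_nonneg H z u

lemma ar_cover2 (H : Hyp K C h) {A B : Set (ℝ × ℝ)} (hA : A ⊆ C) (hB : B ⊆ C) (hC : C ⊆ A ∪ B) :
    ar C ≤ ar A + ar B := by
  have hfin : volume C ≠ ⊤ := H.Cc.measure_lt_top.ne
  have hf1 : volume A ≠ ⊤ := ne_top_of_le_ne_top hfin (measure_mono hA)
  have hf2 : volume B ≠ ⊤ := ne_top_of_le_ne_top hfin (measure_mono hB)
  unfold ar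
  rw [← ENNReal.toReal_add hf1 hf2]
  exact ENNReal.toReal_mono (ENNReal.add_ne_top.mpr ⟨hf1, hf2⟩)
    ((measure_mono hC).trans (measure_union_le _ _))

lemma bey_sub (C : Set (ℝ × ℝ)) (a b : ℝ × ℝ) : bey C a b ⊆ C := fun _ hp => hp.1

/-- `C` is covered by the three caps and the triangle -/
lemma three_cover (H : Hyp K C h) {a b c : ℝ × ℝ} (hne : a ≠ b ∨ b ≠ c) :
    ar C ≤ ar (bey C a b) + ar (bey C b c) + ar (bey C c a) + max 0 (cr (b - a) (c - b) / 2) := by
  have hfin : volume C ≠ ⊤ := H.Cc.measure_lt_top.ne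
  have hf1 : volume (bey C a b) ≠ ⊤ := ne_top_of_le_ne_top hfin (measure_mono (bey_sub _ _ _))
  have hf2 : volume (bey C b c) ≠ ⊤ := ne_top_of_le_ne_top hfin (measure_mono (bey_sub _ _ _))
  have hf3 : volume (bey C c a) ≠ ⊤ := ne_top_of_le_ne_top hfin (measure_mono (bey_sub _ _ _))
  have hT := region3 (a := a) (b := b) (c := c) hne
  have hsub : C ⊆ ((bey C a b ∪ bey C b c) ∪ bey C c a) ∪
      {p | 0 ≤ cr (b - a) (p - a) ∧ 0 ≤ cr (c - b) (p - b) ∧ 0 ≤ cr (a - c) (p - c)} := by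
    intro p hp
    by_cases h1 : cr (b - a) (p - a) < 0
    · exact Or.inl (Or.inl (Or.inl ⟨hp, h1⟩))
    by_cases h2 : cr (c - b) (p - b) < 0
    · exact Or.inl (Or.inl (Or.inr ⟨hp, h2⟩))
    by_cases h3 : cr (a - c) (p - c) < 0
    · exact Or.inl (Or.inr ⟨hp, h3⟩)
    exact Or.inr ⟨not_lt.mp h1, not_lt.mp h2, not_lt.mp h3⟩
  have h1 : volume C ≤ volume (bey C a b) + volume (bey C b c) + volume (bey C c a) +
      ENNReal.ofReal (cr (b - a) (c - b) / 2) := by
    refine (measure_mono hsub).trans ((measure_union_le _ _).trans ?_)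
    refine add_le_add ((measure_union_le _ _).trans ?_) hT
    exact add_le_add (measure_union_le _ _) le_rfl
  have h2 := ENNReal.toReal_mono (by simp [hf1, hf2, hf3]) h1
  rw [ENNReal.toReal_add (by simp [hf1, hf2, hf3]) ENNReal.ofReal_ne_top,
    ENNReal.toReal_add (by simp [hf1, hf2]) hf3, ENNReal.toReal_add hf1 hf2] at h2
  have h3 : (ENNReal.ofReal (cr (b - a) (c - b) / 2)).toReal = max 0 (cr (b - a) (c - b) / 2) := by
    rw [ENNReal.toReal_ofReal', max_comm]
  rw [h3] at h2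
  exact h2

lemma threeA (H : Hyp K C h) {s0 s1 s2 : Stn} (h0 : Arc2 K C s0 s1) (h1 : Arc2 K C s1 s2)
    (h2 : Arc2 K C s2 s0) (hneg : cr s0.u s1.u < 0) (hne : (bey C s0.v s1.v).Nonempty) :
    ar C ≤ ar K / 2 + 2 * h := by
  obtain ⟨N, hN0, hN, hX⟩ := X_lemma H h0
  have hG : ar {p | p ∈ C ∧ 0 ≤ cr (s1.v - s0.v) (p - s0.v)} ≤ 2 * N := by
    refine big_arc (D := 2 * N) H h0 hneg hne (fun p hp => hp.1) (by linarith) ?_
    intro p hp
    refine ⟨hp.2, ?_⟩
    -- two points of a common cell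
    have two : ∀ x y o : ℝ × ℝ, x - o ∈ K → y - o ∈ K → cr (s1.v - s0.v) (x - y) ≤ 2 * N := by
      intro x y o hx hy
      have e1 := hN _ hx
      have e2 := hN _ (H.Ksym _ hy)
      have e3 : cr (s1.v - s0.v) (x - y) = cr (s1.v - s0.v) (x - o) + cr (s1.v - s0.v) (-(y - o)) := by
        simp [cr]; ring
      linarith
    by_cases c1 : cr (s2.v - s1.v) (p - s1.v) < 0
    · have e := two p s1.v s1.o (h1.arc.H p hp.1 c1) h1.arc.v1
      have e2 : cr (s1.v - s0.v) (p - s0.v) = cr (s1.v - s0.v) (p - s1.v) := by simp [cr]; ring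
      linarith
    by_cases c2 : cr (s0.v - s2.v) (p - s2.v) < 0
    · exact two p s0.v s2.o (h2.arc.H p hp.1 c2) h2.arc.v2
    have e := two s2.v s0.v s2.o h2.arc.v1 h2.arc.v2
    have e2 : cr (s1.v - s0.v) (s2.v - s0.v) = cr (s1.v - s0.v) (p - s0.v) +
        cr (s2.v - s1.v) (p - s1.v) + cr (s0.v - s2.v) (p - s2.v) := by simp [cr]; ring
    push Not at c1 c2
    linarith
  have hc := ar_cover2 H (A := bey C s0.v s1.v)
    (B := {p | p ∈ C ∧ 0 ≤ cr (s1.v - s0.v) (p - s0.v)}) (bey_sub _ _ _) (fun p hp => hp.1) (by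
      intro p hp
      by_cases c : cr (s1.v - s0.v) (p - s0.v) < 0
      · exact Or.inl ⟨hp, c⟩
      · exact Or.inr ⟨hp, not_lt.mp c⟩)
  linarith

/-- numerical core at a notch -/
lemma notch_num (δ p q l l' : ℝ) (hp : 0 ≤ p) (hq : 0 ≤ q) (hl : 0 ≤ l) (hl1 : l ≤ 1)
    (hl' : 0 ≤ l') (hl1' : l' ≤ 1) :
    δ / 3 + 2 / 3 * δ * min l l' ≤ max ((p + q) / 2) (δ - (p + q)) + l * p + l' * q := by
  have hm0 : 0 ≤ min l l' := le_min hl hl'
  have hm1 : min l l' ≤ 1 := (min_le_left _ _).trans hl1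
  have h1 : min l l' * p ≤ l * p := mul_le_mul_of_nonneg_right (min_le_left _ _) hp
  have h2 : min l l' * q ≤ l' * q := mul_le_mul_of_nonneg_right (min_le_right _ _) hq
  have m1 := le_max_left ((p + q) / 2) (δ - (p + q))
  have m2 := le_max_right ((p + q) / 2) (δ - (p + q))
  rcases le_total (2 * δ / 3) (p + q) with c | c
  · nlinarith [mul_nonneg (sub_nonneg.mpr c) hm0]
  · nlinarith [mul_nonneg (sub_nonneg.mpr c) (sub_nonneg.mpr hm1)]

lemma half_mem (H : Hyp K C h) {x y o : ℝ × ℝ} (hx : x - o ∈ K) (hy : y - o ∈ K) :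
    (1 / 2 : ℝ) • (x - y) ∈ K := by
  have e : (1 / 2 : ℝ) • (x - y) = (1 / 2 : ℝ) • (x - o) + (1 / 2 : ℝ) • (-(y - o)) := by
    rw [← smul_add]; congr 1; abel
  rw [e]
  exact H.Kconv hx (H.Ksym _ hy) (by norm_num) (by norm_num) (by norm_num)

theorem three (H : Hyp K C h) {s0 s1 s2 : Stn} (h0 : Arc2 K C s0 s1) (h1 : Arc2 K C s1 s2)
    (h2 : Arc2 K C s2 s0) (hne : s0.v ≠ s1.v ∨ s1.v ≠ s2.v) :
    ar C ≤ 3 * h ∨ 2 * (ar K - h) ≤ sv K h s0 s1 + sv K h s1 s2 + sv K h s2 s0 := by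
  have hp := H.hpos
  have hV := vol_le_four_thirds H
  by_cases hbig : ar C ≤ ar K
  · left; linarith
  -- case A
  have bound : ∀ {s s' : Stn}, Arc2 K C s s' →
      ¬ (cr s.u s'.u < 0 ∧ (bey C s.v s'.v).Nonempty) → ar (bey C s.v s'.v) ≤ h := by
    intro s s' ha hn
    by_cases hb : (bey C s.v s'.v).Nonempty
    · have hc : 0 ≤ cr s.u s'.u := by
        by_contra hc
        exact hn ⟨not_le.mp hc, hb⟩
      rcases small_arc H ha hc with e | e
      · exact absurd e hbig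
      · exact e.1
    · rw [not_nonempty_iff_eq_empty] at hb
      rw [hb]; simp [ar]; linarith
  by_cases c0 : cr s0.u s1.u < 0 ∧ (bey C s0.v s1.v).Nonempty
  · left; have := threeA H h0 h1 h2 c0.1 c0.2; linarith
  by_cases c1 : cr s1.u s2.u < 0 ∧ (bey C s1.v s2.v).Nonempty
  · left; have := threeA H h1 h2 h0 c1.1 c1.2; linarith
  by_cases c2 : cr s2.u s0.u < 0 ∧ (bey C s2.v s0.v).Nonempty
  · left; have := threeA H h2 h0 h1 c2.1 c2.2; linarith
  have B0 := bound h0 c0
  have B1 := bound h1 c1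
  have B2 := bound h2 c2
  have hcov := three_cover H (a := s0.v) (b := s1.v) (c := s2.v) hne
  have htri : max 0 (cr (s1.v - s0.v) (s2.v - s1.v) / 2) ≤ 2 / 3 * h := by
    refine max_le (by linarith) ?_
    refine tri_bound H (half_mem H h0.arc.v2 h0.arc.v1) (half_mem H h1.arc.v2 h1.arc.v1) ?_
    have e : s1.v - s0.v + (s2.v - s1.v) = s2.v - s0.v := by abel
    rw [e]
    exact half_mem H h2.arc.v1 h2.arc.v2
  rcases lamf H h0 with hc | ⟨l0, l0n, l01, hg0, hb0⟩
  · exact absurd hc hbig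
  rcases lamf H h1 with hc | ⟨l1, l1n, l11, hg1, hb1⟩
  · exact absurd hc hbig
  rcases lamf H h2 with hc | ⟨l2, l2n, l21, hg2, hb2⟩
  · exact absurd hc hbig
  have sq : ∀ l : ℝ, l ≤ 1 → h / 2 * Real.sqrt l ≤ h / 2 := by
    intro l hl
    have h4 : Real.sqrt l ≤ 1 := Real.sqrt_le_one.mpr hl
    have h5 : h / 2 * Real.sqrt l ≤ h / 2 * 1 := mul_le_mul_of_nonneg_left h4 (by linarith)
    linarith
  have sq4 : ∀ l : ℝ, l ≤ 1 / 4 → h / 2 * Real.sqrt l ≤ h / 4 := by
    intro l hl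
    have h4 : Real.sqrt l ≤ 1 / 2 := by
      rw [Real.sqrt_le_left (by norm_num)]; linarith
    have h5 : h / 2 * Real.sqrt l ≤ h / 2 * (1 / 2) := mul_le_mul_of_nonneg_left h4 (by linarith)
    linarith
  -- the estimate of S
  have hS : (ar K - h) + 2 / 3 * (ar K - h) * (min l0 l1 + min l1 l2 + min l2 l0) ≤
      sv K h s0 s1 + sv K h s1 s2 + sv K h s2 s0 := by
    have n1 := notch_num (ar K - h) (capf K (s1.v - s0.o) s1.u) (capf K (s1.v - s1.o) s1.u) l0 l1
      (cap_nn H _ _) (cap_nn H _ _) l0n l01 l1n l11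
    have n2 := notch_num (ar K - h) (capf K (s2.v - s1.o) s2.u) (capf K (s2.v - s2.o) s2.u) l1 l2
      (cap_nn H _ _) (cap_nn H _ _) l1n l11 l2n l21
    have n0 := notch_num (ar K - h) (capf K (s0.v - s2.o) s0.u) (capf K (s0.v - s0.o) s0.u) l2 l0
      (cap_nn H _ _) (cap_nn H _ _) l2n l21 l0n l01
    unfold sv kap sig
    linarith
  by_cases hm : 3 / 2 ≤ min l0 l1 + min l1 l2 + min l2 l0
  · right
    by_cases hδ : 0 ≤ ar K - h
    · nlinarith [mul_nonneg hδ (sub_nonneg.mpr hm)]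
    · have nn : ∀ s s' : Stn, 0 ≤ sv K h s s' := by
        intro s s'
        unfold sv kap
        have e1 : 0 ≤ sig K s.o s'.o s'.v s'.u / 2 := by
          unfold sig
          have := cap_nn H (s'.v - s.o) s'.u
          have := cap_nn H (s'.v - s'.o) s'.u
          linarith
        have e2 := le_max_left (sig K s.o s'.o s'.v s'.u / 2) (ar K - h - sig K s.o s'.o s'.v s'.u)
        have e3 : 0 ≤ gam K (s.v - s.o) s.u (s'.v - s.o) s'.u := ENNReal.toReal_nonneg
        linarith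
      have := nn s0 s1
      have := nn s1 s2
      have := nn s2 s0
      push Not at hδ
      linarith
  · left
    push Not at hm
    rcases hb0 with e0 | hb0 <;> rcases hb1 with e1 | hb1 <;> rcases hb2 with e2 | hb2
    · subst e0 e1 e2; norm_num at hm
    · subst e0 e1
      rw [min_self, min_eq_right l21, min_eq_left l21] at hm
      have := sq4 l2 (by linarith)
      linarith
    · subst e0 e2
      rw [min_self, min_eq_right l11, min_eq_left l11] at hm
      have := sq4 l1 (by linarith)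
      linarith
    · have := sq l1 l11
      have := sq l2 l21
      linarith
    · subst e1 e2
      rw [min_self, min_eq_right l01, min_eq_left l01] at hm
      have := sq4 l0 (by linarith)
      linarith
    · have := sq l0 l01
      have := sq l2 l21
      linarith
    · have := sq l0 l01
      have := sq l1 l11
      linarith
    · have := sq l0 l01
      have := sq l1 l11
      linarith

end

end FT722.MS3

namespace FT722
alias three := MS3.three
end FT722
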