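import Mathlib
import Pool.Agent.FTfinal.FT722_Stn2
import Pool.Agent.FTfinal.FT722_M_R3
set_option autoImplicit false
open MeasureTheory Set
namespace FT722.MR4

noncomputable section

variable {K C : Set (ℝ × ℝ)} {h : ℝ}


theorem pre_subR4 (z : ℝ × ℝ) (A : Set (ℝ × ℝ)) : volume ((fun p => p - z) ⁻¹' A) = volume A := by
  simp_rw [sub_eq_add_neg]
  exact measure_preimage_add_right volume (-z) A

theorem line_nullR4 {e z : ℝ × ℝ} (he : e ≠ 0) : volume {p : ℝ × ℝ | cr e (p - z) = 0} = 0 := by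
  let φ : (ℝ × ℝ) →ₗ[ℝ] ℝ :=
    { toFun := fun p => cr e p
      map_add' := by intro x y; simp only [cr, Prod.fst_add, Prod.snd_add]; ring
      map_smul' := by intro r x; simp only [cr, Prod.smul_fst, Prod.smul_snd, smul_eq_mul, RingHom.id_apply]; ring }
  have h1 : {p : ℝ × ℝ | cr e (p - z) = 0} = (fun p => p - z) ⁻¹' ((LinearMap.ker φ : Submodule ℝ (ℝ × ℝ)) : Set (ℝ × ℝ)) := by
    ext p
    simp only [mem_ofPred_eq, mem_preimage, SetLike.mem_coe, LinearMap.mem_ker]
    rfl
  rw [h1, pre_subR4]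
  apply Measure.addHaar_submodule
  intro htop
  have h2 : ∀ p : ℝ × ℝ, cr e p = 0 := by
    intro p
    have : p ∈ (LinearMap.ker φ : Submodule ℝ (ℝ × ℝ)) := by rw [htop]; trivial
    exact this
  apply he
  have h3 := h2 (0, 1)
  have h4 := h2 (1, 0)
  simp only [cr] at h3 h4
  ext
  · simpa using h3
  · simpa using h4

theorem cr_flipR4 (x y p : ℝ × ℝ) : cr (x - y) (p - y) = - cr (y - x) (p - x) := by
  simp only [cr, Prod.fst_sub, Prod.snd_sub]; ring

theorem region4 {a b c d : ℝ × ℝ} (hne : a ≠ b ∨ b ≠ c ∨ c ≠ d) :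
    volume {p | 0 ≤ cr (b - a) (p - a) ∧ 0 ≤ cr (c - b) (p - b) ∧ 0 ≤ cr (d - c) (p - c) ∧
      0 ≤ cr (a - d) (p - d)} ≤
      ENNReal.ofReal (cr (b - a) (c - b) / 2) + ENNReal.ofReal (cr (d - c) (a - d) / 2) := by
  by_cases h1 : a ≠ b ∨ b ≠ c
  · by_cases h2 : a ≠ c ∨ c ≠ d
    · have e2 : cr (d - c) (a - d) = cr (c - a) (d - c) := by
        simp only [cr, Prod.fst_sub, Prod.snd_sub]; ring
      rw [e2]
      refine (measure_mono (t := {p | 0 ≤ cr (b - a) (p - a) ∧ 0 ≤ cr (c - b) (p - b) ∧ 0 ≤ cr (a - c) (p - c)} ∪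
        {p | 0 ≤ cr (c - a) (p - a) ∧ 0 ≤ cr (d - c) (p - c) ∧ 0 ≤ cr (a - d) (p - d)}) ?_).trans
        ((measure_union_le _ _).trans (add_le_add (region3 h1) (region3 h2)))
      rintro p ⟨q1, q2, q3, q4⟩
      rcases le_total 0 (cr (c - a) (p - a)) with h | h
      · right; exact ⟨h, q3, q4⟩
      · left; refine ⟨q1, q2, ?_⟩
        rw [cr_flipR4]; linarith
    · push Not at h2
      obtain ⟨h3, h4⟩ := h2
      subst h3; subst h4
      have hab : b - a ≠ 0 := by
        rw [sub_ne_zero]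
        rcases h1 with h | h
        · exact Ne.symm h
        · exact h
      have : volume {p | 0 ≤ cr (b - a) (p - a) ∧ 0 ≤ cr (a - b) (p - b) ∧ 0 ≤ cr (a - a) (p - a) ∧
          0 ≤ cr (a - a) (p - a)} = 0 := by
        refine measure_mono_null ?_ (line_nullR4 (e := b - a) (z := a) hab)
        rintro p ⟨q1, q2, q3, q4⟩
        rw [cr_flipR4] at q2
        show cr (b - a) (p - a) = 0
        linarith
      rw [this]; exact bot_le
  · push Not at h1
    obtain ⟨h3, h4⟩ := h1
    subst h3; subst h4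
    have had : d - a ≠ 0 := by
      rw [sub_ne_zero]
      rcases hne with h | h | h
      · exact absurd rfl h
      · exact absurd rfl h
      · exact Ne.symm h
    have : volume {p | 0 ≤ cr (a - a) (p - a) ∧ 0 ≤ cr (a - a) (p - a) ∧ 0 ≤ cr (d - a) (p - a) ∧
        0 ≤ cr (a - d) (p - d)} = 0 := by
      refine measure_mono_null ?_ (line_nullR4 (e := d - a) (z := a) had)
      rintro p ⟨q1, q2, q3, q4⟩
      rw [cr_flipR4] at q4
      show cr (d - a) (p - a) = 0
      linarith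
    rw [this]; exact bot_le


end

end FT722.MR4

namespace FT722
alias region4 := MR4.region4
end FT722
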