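import Mathlib
import Pool.Agent.FTfinal.FT722_Stn2
import Pool.Agent.FTfinal.FT722_Fold
import Pool.Agent.FTfinal.FT722_M_G1
import Pool.Agent.FTfinal.FT722_M_Lamf
import Pool.Agent.FTfinal.FT722_M_A1
import Pool.Agent.FTfinal.FT722_M_A2
import Pool.Agent.FTfinal.FT722_M_A3
import Pool.Agent.FTfinal.FT722_M_R4
import Pool.Agent.FTfinal.FT722_M_B35
set_option autoImplicit false
open MeasureTheory Set
namespace FT722.MS4

noncomputable section

variable {K C : Set (ℝ × ℝ)} {h : ℝ}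

theorem f4_station {κ σ δ m : ℝ} (h1 : σ / 2 ≤ κ) (h2 : δ - σ ≤ κ) (hm0 : 0 ≤ m) (hm1 : m ≤ 1) :
    (1 / 3 + 2 / 3 * m) * δ ≤ κ + m * σ := by
  have a1 : 0 ≤ (2 / 3 * (1 - m)) * (κ - σ / 2) :=
    mul_nonneg (by linarith) (by linarith)
  have a2 : 0 ≤ (1 - 2 / 3 * (1 - m)) * (κ - (δ - σ)) :=
    mul_nonneg (by linarith) (by linarith)
  nlinarith


theorem f4_kap_half (K : Set (ℝ × ℝ)) (δ : ℝ) (o o' v u : ℝ × ℝ) :
    sig K o o' v u / 2 ≤ kap K δ o o' v u := le_max_left _ _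


theorem f4_kap_diff (K : Set (ℝ × ℝ)) (δ : ℝ) (o o' v u : ℝ × ℝ) :
    δ - sig K o o' v u ≤ kap K δ o o' v u := le_max_right _ _


theorem f4_cap_nonneg (H : Hyp K C h) (z u : ℝ × ℝ) : 0 ≤ capf K z u := capf_nonneg H z u


theorem f4_gam_nonneg (K : Set (ℝ × ℝ)) (z u z' u' : ℝ × ℝ) : 0 ≤ gam K z u z' u' :=
  ENNReal.toReal_nonneg


theorem f4_ar_nonneg (S : Set (ℝ × ℝ)) : 0 ≤ ar S := ENNReal.toReal_nonneg


/-- the saving is large if the sum of the minima is at least one -/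

theorem f4_saving (H : Hyp K C h) (s0 s1 s2 s3 : Stn) (l0 l1 l2 l3 : ℝ)
    (a0 : 0 ≤ l0) (a1 : 0 ≤ l1) (a2 : 0 ≤ l2) (a3 : 0 ≤ l3)
    (b0 : l0 ≤ 1) (b1 : l1 ≤ 1) (b2 : l2 ≤ 1) (b3 : l3 ≤ 1)
    (g0 : l0 * (capf K (s0.v - s0.o) s0.u + capf K (s1.v - s0.o) s1.u) ≤
        gam K (s0.v - s0.o) s0.u (s1.v - s0.o) s1.u)
    (g1 : l1 * (capf K (s1.v - s1.o) s1.u + capf K (s2.v - s1.o) s2.u) ≤
        gam K (s1.v - s1.o) s1.u (s2.v - s1.o) s2.u)
    (g2 : l2 * (capf K (s2.v - s2.o) s2.u + capf K (s3.v - s2.o) s3.u) ≤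
        gam K (s2.v - s2.o) s2.u (s3.v - s2.o) s3.u)
    (g3 : l3 * (capf K (s3.v - s3.o) s3.u + capf K (s0.v - s3.o) s0.u) ≤
        gam K (s3.v - s3.o) s3.u (s0.v - s3.o) s0.u)
    (hm : 1 ≤ min l3 l0 + min l0 l1 + min l1 l2 + min l2 l3) :
    2 * (ar K - h) ≤ sv K h s0 s1 + sv K h s1 s2 + sv K h s2 s3 + sv K h s3 s0 := by
  have key : ∀ (la lb : ℝ) (o o' v u : ℝ × ℝ), 0 ≤ la → 0 ≤ lb → la ≤ 1 → lb ≤ 1 →
      (1 / 3 + 2 / 3 * min la lb) * (ar K - h) ≤ kap K (ar K - h) o o' v u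
        + (la * capf K (v - o) u + lb * capf K (v - o') u) := by
    intro la lb o o' v u h1 h2 h3 h4
    have e1 := f4_station (f4_kap_half K (ar K - h) o o' v u)
      (f4_kap_diff K (ar K - h) o o' v u) (le_min h1 h2) ((min_le_left la lb).trans h3)
    have e2 : min la lb * sig K o o' v u ≤ la * capf K (v - o) u + lb * capf K (v - o') u := by
      unfold sig
      rw [mul_add]
      exact add_le_add (mul_le_mul_of_nonneg_right (min_le_left _ _) (f4_cap_nonneg H _ _))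
        (mul_le_mul_of_nonneg_right (min_le_right _ _) (f4_cap_nonneg H _ _))
    linarith
  have k1 := key l0 l1 s0.o s1.o s1.v s1.u a0 a1 b0 b1
  have k2 := key l1 l2 s1.o s2.o s2.v s2.u a1 a2 b1 b2
  have k3 := key l2 l3 s2.o s3.o s3.v s3.u a2 a3 b2 b3
  have k0 := key l3 l0 s3.o s0.o s0.v s0.u a3 a0 b3 b0
  unfold sv
  rcases le_or_gt 0 (ar K - h) with hd | hd
  · have e1 := mul_nonneg (sub_nonneg.mpr hm) hd
    nlinarith
  · have c1 := f4_kap_half K (ar K - h) s0.o s1.o s1.v s1.u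
    have c2 := f4_kap_half K (ar K - h) s1.o s2.o s2.v s2.u
    have c3 := f4_kap_half K (ar K - h) s2.o s3.o s3.v s3.u
    have c0 := f4_kap_half K (ar K - h) s3.o s0.o s0.v s0.u
    unfold sig at c0 c1 c2 c3
    have n1 := f4_cap_nonneg H (s1.v - s0.o) s1.u
    have n2 := f4_cap_nonneg H (s1.v - s1.o) s1.u
    have n3 := f4_cap_nonneg H (s2.v - s1.o) s2.u
    have n4 := f4_cap_nonneg H (s2.v - s2.o) s2.u
    have n5 := f4_cap_nonneg H (s3.v - s2.o) s3.u
    have n6 := f4_cap_nonneg H (s3.v - s3.o) s3.u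
    have n7 := f4_cap_nonneg H (s0.v - s3.o) s0.u
    have n8 := f4_cap_nonneg H (s0.v - s0.o) s0.u
    have m0 := f4_gam_nonneg K (s0.v - s0.o) s0.u (s1.v - s0.o) s1.u
    have m1 := f4_gam_nonneg K (s1.v - s1.o) s1.u (s2.v - s1.o) s2.u
    have m2 := f4_gam_nonneg K (s2.v - s2.o) s2.u (s3.v - s2.o) s3.u
    have m3 := f4_gam_nonneg K (s3.v - s3.o) s3.u (s0.v - s3.o) s0.u
    linarith


/-- area of a set covered by finitely many sets -/

theorem f4_ar_le {C A : Set (ℝ × ℝ)} (l : List (Set (ℝ × ℝ))) (hA : volume A ≠ ⊤)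
    (hl : ∀ B ∈ l, volume B ≠ ⊤) (hC : ∀ p ∈ C, p ∈ A ∨ ∃ B ∈ l, p ∈ B) :
    ar C ≤ ar A + (l.map ar).sum := by
  induction l generalizing C with
  | nil =>
    have h1 : C ⊆ A := fun p hp => (hC p hp).resolve_right (by simp)
    simp only [List.map_nil, List.sum_nil, add_zero]
    exact ENNReal.toReal_mono hA (measure_mono h1)
  | cons B l ih =>
    have h1 := ih (C := C \ B) (fun B' hB' => hl B' (List.mem_cons_of_mem _ hB')) (by
      intro p hp
      rcases hC p hp.1 with h2 | ⟨B', hB', h3⟩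
      · exact Or.inl h2
      · rcases List.mem_cons.mp hB' with h4 | h4
        · exact absurd (h4 ▸ h3) hp.2
        · exact Or.inr ⟨B', h4, h3⟩)
    have hB : volume B ≠ ⊤ := hl B (List.mem_cons_self)
    have hfin : volume (C \ B) ≠ ⊤ := by
      refine ne_top_of_le_ne_top ?_ (measure_mono (t := A ∪ ⋃ B' ∈ {x | x ∈ l}, B') ?_)
      · have h5 : volume (⋃ B' ∈ {x | x ∈ l}, B') ≠ ⊤ := by
          have h6 : {x | x ∈ l}.Finite := l.finite_toSet
          exact (measure_biUnion_lt_top h6 (fun B' hB' =>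
            (hl B' (List.mem_cons_of_mem _ hB')).lt_top)).ne
        exact ne_top_of_le_ne_top (ENNReal.add_ne_top.mpr ⟨hA, h5⟩) (measure_union_le _ _)
      · intro p hp
        rcases hC p hp.1 with h2 | ⟨B', hB', h3⟩
        · exact Or.inl h2
        · rcases List.mem_cons.mp hB' with h4 | h4
          · exact absurd (h4 ▸ h3) hp.2
          · exact Or.inr (mem_biUnion (x := B') h4 h3)
    have h2 : ar C ≤ ar (C \ B) + ar B := by
      unfold ar
      rw [← ENNReal.toReal_add hfin hB]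
      refine ENNReal.toReal_mono (ENNReal.add_ne_top.mpr ⟨hfin, hB⟩) ?_
      refine (measure_mono (?_ : C ⊆ (C \ B) ∪ B)).trans (measure_union_le _ _)
      intro p hp
      by_cases hpB : p ∈ B
      · exact Or.inr hpB
      · exact Or.inl ⟨hp, hpB⟩
    simp only [List.map_cons, List.sum_cons]
    linarith


theorem f4_bey_fin (H : Hyp K C h) (v v' : ℝ × ℝ) : volume (bey C v v') ≠ ⊤ :=
  ne_top_of_le_ne_top H.Cc.measure_lt_top.ne (measure_mono (fun _ hp => hp.1))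


/-- the quadrilateral region -/
def f4R (a b c d : ℝ × ℝ) : Set (ℝ × ℝ) :=
  {p | 0 ≤ cr (b - a) (p - a) ∧ 0 ≤ cr (c - b) (p - b) ∧ 0 ≤ cr (d - c) (p - c) ∧
      0 ≤ cr (a - d) (p - d)}


theorem f4_R_le {a b c d : ℝ × ℝ} (hne : a ≠ b ∨ b ≠ c ∨ c ≠ d) :
    volume (f4R a b c d) ≠ ⊤ ∧
      ar (f4R a b c d) ≤ max 0 (cr (b - a) (c - b) / 2) + max 0 (cr (d - c) (a - d) / 2) := by
  have h1 := region4 hne
  have h2 : ENNReal.ofReal (cr (b - a) (c - b) / 2) + ENNReal.ofReal (cr (d - c) (a - d) / 2)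
      ≠ ⊤ := ENNReal.add_ne_top.mpr ⟨ENNReal.ofReal_ne_top, ENNReal.ofReal_ne_top⟩
  refine ⟨ne_top_of_le_ne_top h2 h1, ?_⟩
  have h3 := ENNReal.toReal_mono h2 h1
  rw [ENNReal.toReal_add ENNReal.ofReal_ne_top ENNReal.ofReal_ne_top, ENNReal.toReal_ofReal',
    ENNReal.toReal_ofReal', max_comm, max_comm (cr (d - c) (a - d) / 2)] at h3
  exact h3


theorem f4_cover (H : Hyp K C h) {a b c d : ℝ × ℝ} (hne : a ≠ b ∨ b ≠ c ∨ c ≠ d) :
    ar C ≤ max 0 (cr (b - a) (c - b) / 2) + max 0 (cr (d - c) (a - d) / 2)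
      + ar (bey C a b) + ar (bey C b c) + ar (bey C c d) + ar (bey C d a) := by
  obtain ⟨h1, h2⟩ := f4_R_le hne
  have h3 := f4_ar_le (C := C) (A := f4R a b c d) [bey C a b, bey C b c, bey C c d, bey C d a] h1
    (by
      intro B hB
      simp only [List.mem_cons, List.not_mem_nil, or_false] at hB
      rcases hB with rfl | rfl | rfl | rfl <;> exact f4_bey_fin H _ _)
    (by
      intro p hp
      by_cases c1 : 0 ≤ cr (b - a) (p - a)
      · by_cases c2 : 0 ≤ cr (c - b) (p - b)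
        · by_cases c3 : 0 ≤ cr (d - c) (p - c)
          · by_cases c4 : 0 ≤ cr (a - d) (p - d)
            · exact Or.inl ⟨c1, c2, c3, c4⟩
            · exact Or.inr ⟨bey C d a, by simp, hp, not_le.mp c4⟩
          · exact Or.inr ⟨bey C c d, by simp, hp, not_le.mp c3⟩
        · exact Or.inr ⟨bey C b c, by simp, hp, not_le.mp c2⟩
      · exact Or.inr ⟨bey C a b, by simp, hp, not_le.mp c1⟩)
  simp only [List.map_cons, List.map_nil, List.sum_cons, List.sum_nil, add_zero] at h3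
  linarith


theorem f4_sqrt {a b c : ℝ} (ha : 0 ≤ a) (hb : 0 ≤ b) (hc : 0 ≤ c) (h : 2 * (a + b) ≤ c ^ 2) :
    Real.sqrt a + Real.sqrt b ≤ c := by
  have h1 := Real.sq_sqrt ha
  have h2 := Real.sq_sqrt hb
  have h3 : (Real.sqrt a + Real.sqrt b) ^ 2 ≤ c ^ 2 := by
    nlinarith [sq_nonneg (Real.sqrt a - Real.sqrt b)]
  exact (abs_le_of_sq_le_sq' h3 hc).2


/-- the area estimate when the arcs 1 and 3 are good -/

theorem f4_core (H : Hyp K C h) {s0 s1 s2 s3 : Stn} (h0 : Arc2 K C s0 s1) (h1 : Arc2 K C s1 s2)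
    (h2 : Arc2 K C s2 s3) (h3 : Arc2 K C s3 s0) (hne : s0.v ≠ s1.v ∨ s1.v ≠ s2.v ∨ s2.v ≠ s3.v)
    (l0 l1 l2 l3 : ℝ)
    (a0 : 0 ≤ l0) (a1 : 0 ≤ l1) (a2 : 0 ≤ l2) (a3 : 0 ≤ l3)
    (b0 : l0 ≤ 1) (b1 : l1 ≤ 1) (b2 : l2 ≤ 1) (b3 : l3 ≤ 1)
    (hm : min l3 l0 + min l0 l1 + min l1 l2 + min l2 l3 < 1)
    (g1 : ar (bey C s1.v s2.v) ≤ h / 2 * Real.sqrt l1)
    (g3 : ar (bey C s3.v s0.v) ≤ h / 2 * Real.sqrt l3)
    (g0 : ar (bey C s0.v s1.v) ≤ h / 2 * Real.sqrt l0 ∨ (l0 = 1 ∧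
      ar (bey C s0.v s1.v) ≤ ar K / 2 + max 0 (cr (s1.v - s0.o) (s0.v - s0.o))))
    (g2 : ar (bey C s2.v s3.v) ≤ h / 2 * Real.sqrt l2 ∨ (l2 = 1 ∧
      ar (bey C s2.v s3.v) ≤ ar K / 2 + max 0 (cr (s3.v - s2.o) (s2.v - s2.o)))) :
    ar C ≤ 4 * h := by
  have hpos := H.hpos
  have hV := vol_le_four_thirds H
  have hcov := f4_cover H hne
  have hq := quad_bound H h0.arc.v1 h0.arc.v2 h1.arc.v1 h1.arc.v2 h2.arc.v1 h2.arc.v2
    h3.arc.v1 h3.arc.v2
  have hcyc : max 0 (cr (s1.v - s0.v) (s2.v - s1.v) / 2) +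
      max 0 (cr (s3.v - s2.v) (s0.v - s3.v) / 2) +
      max 0 (cr (s1.v - s0.o) (s0.v - s0.o)) + max 0 (cr (s3.v - s2.o) (s2.v - s2.o)) ≤ 2 * h := by
    exact hq
  have n0 : 0 ≤ max 0 (cr (s1.v - s0.o) (s0.v - s0.o)) := le_max_left _ _
  have n2 : 0 ≤ max 0 (cr (s3.v - s2.o) (s2.v - s2.o)) := le_max_left _ _
  have r0 : Real.sqrt l0 ≤ 1 := (Real.sqrt_le_sqrt b0).trans (by rw [Real.sqrt_one])
  have r1 : Real.sqrt l1 ≤ 1 := (Real.sqrt_le_sqrt b1).trans (by rw [Real.sqrt_one])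
  have r2 : Real.sqrt l2 ≤ 1 := (Real.sqrt_le_sqrt b2).trans (by rw [Real.sqrt_one])
  have r3 : Real.sqrt l3 ≤ 1 := (Real.sqrt_le_sqrt b3).trans (by rw [Real.sqrt_one])
  have m1 : 0 ≤ min l3 l0 := le_min a3 a0
  have m2 : 0 ≤ min l0 l1 := le_min a0 a1
  have m3 : 0 ≤ min l1 l2 := le_min a1 a2
  have m4 : 0 ≤ min l2 l3 := le_min a2 a3
  rcases g0 with g0 | ⟨e0, g0⟩
  · rcases g2 with g2 | ⟨e2, g2⟩
    · nlinarith
    · rw [e2, min_eq_left b1, min_eq_right b3] at hm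
      have hs := f4_sqrt a1 a3 (by norm_num : (0:ℝ) ≤ 3 / 2) (by nlinarith)
      nlinarith
  · rcases g2 with g2 | ⟨e2, g2⟩
    · rw [e0, min_eq_left b3, min_eq_right b1] at hm
      have hs := f4_sqrt a1 a3 (by norm_num : (0:ℝ) ≤ 3 / 2) (by nlinarith)
      nlinarith
    · rw [e0, e2, min_eq_left b3, min_eq_right b1, min_eq_left b1, min_eq_right b3] at hm
      have hs := f4_sqrt a1 a3 (by norm_num : (0:ℝ) ≤ 1) (by nlinarith)
      nlinarith


/-- a two dimensional identity -/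

theorem f4_ident (w x y z : ℝ × ℝ) :
    cr y w * cr x z = cr x w * cr y z + cr z w * cr x y := by
  unfold cr
  ring


/-- the case of a big arc with a large turn -/

theorem f4_big (H : Hyp K C h) {s0 s1 s2 s3 : Stn} (h0 : Arc2 K C s0 s1) (h1 : Arc2 K C s1 s2)
    (h2 : Arc2 K C s2 s3) (h3 : Arc2 K C s3 s0) (hneg : cr s0.u s1.u < 0)
    (hne : (bey C s0.v s1.v).Nonempty) (hturn : 0 ≤ cr s2.u s3.u) : ar C ≤ 4 * h := by
  have hpos := H.hpos
  have hV := vol_le_four_thirds H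
  rcases small_arc H h2 hturn with hs | ⟨hs, -⟩
  · linarith
  obtain ⟨N, hN0, hN, hX⟩ := X_lemma H h0
  set w : ℝ × ℝ := s1.v - s0.v with hw
  -- depth of the cells at the two ends
  have d1 : ∀ p, p - s1.o ∈ K → cr w (p - s0.v) ≤ 2 * N := by
    intro p hp
    have e1 := hN _ hp
    have e2 := hN _ (H.Ksym _ h1.arc.v1)
    have e3 : cr w (p - s0.v) = cr w (p - s1.o) + cr w (-(s1.v - s1.o)) := by
      rw [hw]
      unfold cr
      simp only [Prod.fst_sub, Prod.snd_sub, Prod.fst_neg, Prod.snd_neg]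
      ring
    rw [e3]
    linarith
  have d3 : ∀ p, p - s3.o ∈ K → cr w (p - s0.v) ≤ 2 * N := by
    intro p hp
    have e1 := hN _ hp
    have e2 := hN _ (H.Ksym _ h3.arc.v2)
    have e3 : cr w (p - s0.v) = cr w (p - s3.o) + cr w (-(s0.v - s3.o)) := by
      rw [hw]
      unfold cr
      simp only [Prod.fst_sub, Prod.snd_sub, Prod.fst_neg, Prod.snd_neg]
      ring
    rw [e3]
    linarith
  have dv2 := d1 _ h1.arc.v2
  have dv3 := d3 _ h3.arc.v1
  -- the rest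
  set G : Set (ℝ × ℝ) := {p | p ∈ C ∧ 0 ≤ cr w (p - s0.v) ∧ 0 ≤ cr (s3.v - s2.v) (p - s2.v)}
    with hG
  have hGC : G ⊆ C := fun p hp => hp.1
  have hGd : ∀ p ∈ G, 0 ≤ cr (s1.v - s0.v) (p - s0.v) ∧ cr (s1.v - s0.v) (p - s0.v) ≤ 2 * N := by
    intro p hp
    refine ⟨hp.2.1, ?_⟩
    by_contra hcon
    have hcon' : 2 * N < cr w (p - s0.v) := not_le.mp hcon
    have f1 : 0 ≤ cr (s2.v - s1.v) (p - s1.v) := by
      by_contra hc
      have := d1 p (h1.arc.H p hp.1 (not_le.mp hc))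
      linarith
    have f3 : 0 ≤ cr (s0.v - s3.v) (p - s3.v) := by
      by_contra hc
      have := d3 p (h3.arc.H p hp.1 (not_le.mp hc))
      linarith
    have f2 := hp.2.2
    -- vectors from `p` to the vertices
    have c01 : 0 < cr (s0.v - p) (s1.v - p) := by
      have e : cr (s0.v - p) (s1.v - p) = cr w (p - s0.v) := by
        rw [hw]; unfold cr
        simp only [Prod.fst_sub, Prod.snd_sub]
        ring
      rw [e]; linarith
    have c12 : 0 ≤ cr (s1.v - p) (s2.v - p) := by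
      have e : cr (s1.v - p) (s2.v - p) = cr (s2.v - s1.v) (p - s1.v) := by
        unfold cr
        simp only [Prod.fst_sub, Prod.snd_sub]
        ring
      rw [e]; exact f1
    have c23 : 0 ≤ cr (s2.v - p) (s3.v - p) := by
      have e : cr (s2.v - p) (s3.v - p) = cr (s3.v - s2.v) (p - s2.v) := by
        unfold cr
        simp only [Prod.fst_sub, Prod.snd_sub]
        ring
      rw [e]; exact f2
    have c30 : cr (s0.v - p) (s3.v - p) ≤ 0 := by
      have e : cr (s0.v - p) (s3.v - p) = - cr (s0.v - s3.v) (p - s3.v) := by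
        unfold cr
        simp only [Prod.fst_sub, Prod.snd_sub]
        ring
      rw [e]; linarith
    have w0 : 0 < cr (s0.v - p) w := by
      have e : cr (s0.v - p) w = cr w (p - s0.v) := by
        unfold cr
        simp only [Prod.fst_sub, Prod.snd_sub]
        ring
      rw [e]; linarith
    have w1 : 0 < cr (s1.v - p) w := by
      have e : cr (s1.v - p) w = cr w (p - s0.v) := by
        rw [hw]; unfold cr
        simp only [Prod.fst_sub, Prod.snd_sub]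
        ring
      rw [e]; linarith
    have w2 : 0 < cr (s2.v - p) w := by
      have e : cr (s2.v - p) w = cr w (p - s0.v) - cr w (s2.v - s0.v) := by
        unfold cr
        simp only [Prod.fst_sub, Prod.snd_sub]
        ring
      rw [e]; linarith
    have w3 : 0 < cr (s3.v - p) w := by
      have e : cr (s3.v - p) w = cr w (p - s0.v) - cr w (s3.v - s0.v) := by
        unfold cr
        simp only [Prod.fst_sub, Prod.snd_sub]
        ring
      rw [e]; linarith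
    have c02 : 0 < cr (s0.v - p) (s2.v - p) := by
      have e := f4_ident w (s0.v - p) (s1.v - p) (s2.v - p)
      have e1 := mul_nonneg w0.le c12
      have e2 := mul_pos w2 c01
      have e3 : 0 < cr (s1.v - p) w * cr (s0.v - p) (s2.v - p) := by rw [e]; linarith
      exact (mul_pos_iff_of_pos_left w1).mp e3
    have c03 : 0 < cr (s0.v - p) (s3.v - p) := by
      have e := f4_ident w (s0.v - p) (s2.v - p) (s3.v - p)
      have e1 := mul_nonneg w0.le c23
      have e2 := mul_pos w3 c02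
      have e3 : 0 < cr (s2.v - p) w * cr (s0.v - p) (s3.v - p) := by rw [e]; linarith
      exact (mul_pos_iff_of_pos_left w2).mp e3
    linarith
  have hGar := big_arc H h0 hneg hne hGC (by linarith) hGd
  have hGfin : volume G ≠ ⊤ := ne_top_of_le_ne_top H.Cc.measure_lt_top.ne (measure_mono hGC)
  have hcov := f4_ar_le (C := C) (A := G) [bey C s0.v s1.v, bey C s2.v s3.v] hGfin
    (by
      intro B hB
      simp only [List.mem_cons, List.not_mem_nil, or_false] at hB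
      rcases hB with rfl | rfl <;> exact f4_bey_fin H _ _)
    (by
      intro p hp
      by_cases c1 : 0 ≤ cr w (p - s0.v)
      · by_cases c2 : 0 ≤ cr (s3.v - s2.v) (p - s2.v)
        · exact Or.inl ⟨hp, c1, c2⟩
        · exact Or.inr ⟨bey C s2.v s3.v, by simp, hp, not_le.mp c2⟩
      · exact Or.inr ⟨bey C s0.v s1.v, by simp, hp, not_le.mp c1⟩)
  simp only [List.map_cons, List.map_nil, List.sum_cons, List.sum_nil, add_zero] at hcov
  linarith


/-- the dichotomy for one arc, when the area of `C` is large -/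

theorem f4_arc (H : Hyp K C h) {s s' : Stn} (ha : Arc2 K C s s') (hC : 4 * h < ar C) {l : ℝ}
    (hl : l = 1 ∨ ar (bey C s.v s'.v) ≤ h / 2 * Real.sqrt l)
    (hbig : cr s.u s'.u < 0 → (bey C s.v s'.v).Nonempty → False) :
    ar (bey C s.v s'.v) ≤ h / 2 * Real.sqrt l ∨ (l = 1 ∧
      ar (bey C s.v s'.v) ≤ ar K / 2 + max 0 (cr (s'.v - s.o) (s.v - s.o))) := by
  have hpos := H.hpos
  have hV := vol_le_four_thirds H
  rcases hl with hl | hl
  · rcases le_or_gt 0 (cr s.u s'.u) with ht | ht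
    · rcases small_arc H ha ht with h1 | ⟨-, h1⟩
      · linarith
      · exact Or.inr ⟨hl, h1⟩
    · left
      have h1 : bey C s.v s'.v = ∅ := by
        rw [← not_nonempty_iff_eq_empty]
        exact hbig ht
      rw [h1]
      have h2 : ar (∅ : Set (ℝ × ℝ)) = 0 := by
        unfold ar
        rw [measure_empty]
        rfl
      rw [h2]
      exact mul_nonneg (by linarith) (Real.sqrt_nonneg _)
  · exact Or.inl hl


theorem four (H : Hyp K C h) {s0 s1 s2 s3 : Stn} (h0 : Arc2 K C s0 s1) (h1 : Arc2 K C s1 s2)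
    (h2 : Arc2 K C s2 s3) (h3 : Arc2 K C s3 s0) (hne : s0.v ≠ s1.v ∨ s1.v ≠ s2.v ∨ s2.v ≠ s3.v)
    (t02 : 0 ≤ cr s0.u s1.u ∨ 0 ≤ cr s2.u s3.u) (t13 : 0 ≤ cr s1.u s2.u ∨ 0 ≤ cr s3.u s0.u) :
    ar C ≤ 4 * h ∨ 2 * (ar K - h) ≤ sv K h s0 s1 + sv K h s1 s2 + sv K h s2 s3 + sv K h s3 s0 := by
  by_contra hcon
  push Not at hcon
  obtain ⟨hC, hS⟩ := hcon
  have hpos := H.hpos
  have hV := vol_le_four_thirds H
  have hCK : ¬ ar C ≤ ar K := by
    intro h'
    linarith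
  obtain ⟨l0, a0, b0, g0, c0⟩ := (lamf H h0).resolve_left hCK
  obtain ⟨l1, a1, b1, g1, c1⟩ := (lamf H h1).resolve_left hCK
  obtain ⟨l2, a2, b2, g2, c2⟩ := (lamf H h2).resolve_left hCK
  obtain ⟨l3, a3, b3, g3, c3⟩ := (lamf H h3).resolve_left hCK
  have hm : min l3 l0 + min l0 l1 + min l1 l2 + min l2 l3 < 1 := by
    by_contra hc
    have := f4_saving H s0 s1 s2 s3 l0 l1 l2 l3 a0 a1 a2 a3 b0 b1 b2 b3 g0 g1 g2 g3
      (not_lt.mp hc)
    linarith
  have m1 : 0 ≤ min l3 l0 := le_min a3 a0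
  have m2 : 0 ≤ min l0 l1 := le_min a0 a1
  have m3 : 0 ≤ min l1 l2 := le_min a1 a2
  have m4 : 0 ≤ min l2 l3 := le_min a2 a3
  have k0 := f4_arc H h0 hC c0 (fun hn hne' => by
    have := f4_big H h0 h1 h2 h3 hn hne' (t02.resolve_left (not_le.mpr hn))
    linarith)
  have k2 := f4_arc H h2 hC c2 (fun hn hne' => by
    have := f4_big H h2 h3 h0 h1 hn hne' (t02.resolve_right (not_le.mpr hn))
    linarith)
  have k1 := f4_arc H h1 hC c1 (fun hn hne' => by
    have := f4_big H h1 h2 h3 h0 hn hne' (t13.resolve_left (not_le.mpr hn))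
    linarith)
  have k3 := f4_arc H h3 hC c3 (fun hn hne' => by
    have := f4_big H h3 h0 h1 h2 hn hne' (t13.resolve_right (not_le.mpr hn))
    linarith)
  -- no two adjacent bad arcs
  have n01 : ¬ (l0 = 1 ∧ l1 = 1) := by
    rintro ⟨e, e'⟩
    rw [e, e'] at m2 hm
    rw [min_self] at hm
    rw [e] at m1
    rw [e'] at m3
    linarith
  have n12 : ¬ (l1 = 1 ∧ l2 = 1) := by
    rintro ⟨e, e'⟩
    rw [e, e'] at hm
    rw [min_self] at hm
    rw [e] at m2
    rw [e'] at m4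
    linarith
  have n23 : ¬ (l2 = 1 ∧ l3 = 1) := by
    rintro ⟨e, e'⟩
    rw [e, e'] at hm
    rw [min_self] at hm
    rw [e] at m3
    rw [e'] at m1
    linarith
  have n30 : ¬ (l3 = 1 ∧ l0 = 1) := by
    rintro ⟨e, e'⟩
    rw [e, e'] at hm
    rw [min_self] at hm
    rw [e] at m4
    rw [e'] at m2
    linarith
  -- the rotated non-degeneracy
  have hne' : s1.v ≠ s2.v ∨ s2.v ≠ s3.v ∨ s3.v ≠ s0.v := by
    by_contra hc
    push Not at hc
    obtain ⟨e1, e2, e3⟩ := hc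
    rcases hne with h' | h' | h'
    · exact h' (by rw [← e3, ← e2, ← e1])
    · exact h' e1
    · exact h' e2
  by_cases hb : ar (bey C s1.v s2.v) ≤ h / 2 * Real.sqrt l1 ∧
      ar (bey C s3.v s0.v) ≤ h / 2 * Real.sqrt l3
  · have := f4_core H h0 h1 h2 h3 hne l0 l1 l2 l3 a0 a1 a2 a3 b0 b1 b2 b3 hm hb.1 hb.2 k0 k2
    linarith
  · -- one of the arcs 1, 3 is bad, so the arcs 0 and 2 are good
    have hl : l1 = 1 ∨ l3 = 1 := by
      by_contra hc
      push Not at hc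
      refine hb ⟨?_, ?_⟩
      · rcases k1 with k | ⟨k, -⟩
        · exact k
        · exact absurd k hc.1
      · rcases k3 with k | ⟨k, -⟩
        · exact k
        · exact absurd k hc.2
    have hg0 : ar (bey C s0.v s1.v) ≤ h / 2 * Real.sqrt l0 := by
      rcases k0 with k | ⟨k, -⟩
      · exact k
      · exfalso
        rcases hl with e | e
        · exact n01 ⟨k, e⟩
        · exact n30 ⟨e, k⟩
    have hg2 : ar (bey C s2.v s3.v) ≤ h / 2 * Real.sqrt l2 := by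
      rcases k2 with k | ⟨k, -⟩
      · exact k
      · exfalso
        rcases hl with e | e
        · exact n12 ⟨e, k⟩
        · exact n23 ⟨k, e⟩
    have := f4_core H h1 h2 h3 h0 hne' l1 l2 l3 l0 a1 a2 a3 a0 b1 b2 b3 b0 (by linarith) hg2 hg0
      k1 k3
    linarith

end

end FT722.MS4

namespace FT722
alias four := MS4.four
end FT722
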