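import Mathlib
import Pool.Agent.FTfinal.FT722_Stn2
import Pool.Agent.FTfinal.FT722_Fold
import Pool.Agent.FTfinal.FT722_M_G1
import Pool.Agent.FTfinal.FT722_M_A1
import Pool.Agent.FTfinal.FT722_M_R4
import Pool.Agent.FTfinal.FT722_M_B35
set_option autoImplicit false
open MeasureTheory Set
namespace FT722.MS4p

noncomputable section

variable {K C : Set (ℝ × ℝ)} {h : ℝ}

theorem line_null' {a b : ℝ × ℝ} (hab : a ≠ b) :
    volume {p : ℝ × ℝ | cr (b - a) (p - a) = 0} = 0 := by
  have h := region4 (a := a) (b := b) (c := a) (d := b) (Or.inl hab)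
  have h0 : cr (b - a) (a - b) = 0 := by simp only [cr, Prod.fst_sub, Prod.snd_sub]; ring
  rw [h0] at h
  simp only [zero_div, ENNReal.ofReal_zero, add_zero] at h
  refine le_antisymm (le_trans (measure_mono ?_) h) bot_le
  intro p hp
  simp only [mem_setOf_eq] at hp ⊢
  have h1 : cr (a - b) (p - b) = - cr (b - a) (p - a) := by
    simp only [cr, Prod.fst_sub, Prod.snd_sub]; ring
  rw [h1, hp]
  simp


/-- the line through `a`, `b` (empty if `a = b`) -/
def Ln (a b : ℝ × ℝ) : Set (ℝ × ℝ) := {p | a ≠ b ∧ cr (b - a) (p - a) = 0}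


theorem Ln_null (a b : ℝ × ℝ) : volume (Ln a b) = 0 := by
  by_cases hab : a = b
  · have : Ln a b = ∅ := by
      ext p; simp [Ln, hab]
    rw [this]; simp
  · refine measure_mono_null ?_ (line_null' hab)
    intro p hp
    exact hp.2


theorem quad_in (hK : Convex ℝ K) {a b c d o p : ℝ × ℝ} (ha : a - o ∈ K) (hb : b - o ∈ K)
    (hc : c - o ∈ K) (hd : d - o ∈ K) (hne : a ≠ b ∨ b ≠ c ∨ c ≠ d)
    (h1 : 0 ≤ cr (b - a) (p - a)) (h2 : 0 ≤ cr (c - b) (p - b)) (h3 : 0 ≤ cr (d - c) (p - c))
    (h4 : 0 ≤ cr (a - d) (p - d)) (hp : p - o ∉ K) : p ∈ Ln a b ∪ Ln c d ∪ Ln a c := by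
  by_cases hac : a = c
  · subst hac
    by_cases hab : a = b
    · subst hab
      have had : a ≠ d := by
        rcases hne with h | h | h
        · exact absurd rfl h
        · exact absurd rfl h
        · exact h
      left; right
      refine ⟨had, ?_⟩
      have : cr (a - d) (p - d) = - cr (d - a) (p - a) := by
        simp only [cr, Prod.fst_sub, Prod.snd_sub]; ring
      linarith
    · left; left
      refine ⟨hab, ?_⟩
      have : cr (a - b) (p - b) = - cr (b - a) (p - a) := by
        simp only [cr, Prod.fst_sub, Prod.snd_sub]; ring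
      linarith
  · right
    refine ⟨hac, ?_⟩
    rcases le_total 0 (cr (c - a) (p - a)) with ht | ht
    · by_contra hcon
      apply hp
      have hsum : cr (c - a) (p - a) + cr (d - c) (p - c) + cr (a - d) (p - d) =
          cr (c - a) (d - c) := by
        simp only [cr, Prod.fst_sub, Prod.snd_sub]; ring
      have hpos : 0 < cr (c - a) (d - c) := by
        have : 0 < cr (c - a) (p - a) := lt_of_le_of_ne ht (Ne.symm hcon)
        linarith
      apply mem_tri hK ha hc hd
      · simpa only [sub_sub_sub_cancel_right] using ht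
      · simpa only [sub_sub_sub_cancel_right] using h3
      · simpa only [sub_sub_sub_cancel_right] using h4
      · simpa only [sub_sub_sub_cancel_right] using hpos
    · by_contra hcon
      apply hp
      have hneg : cr (a - c) (p - c) = - cr (c - a) (p - a) := by
        simp only [cr, Prod.fst_sub, Prod.snd_sub]; ring
      have hsum : cr (b - a) (p - a) + cr (c - b) (p - b) + cr (a - c) (p - c) =
          cr (b - a) (c - b) := by
        simp only [cr, Prod.fst_sub, Prod.snd_sub]; ring
      have hlt : cr (c - a) (p - a) < 0 := lt_of_le_of_ne ht hcon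
      have hpos : 0 < cr (b - a) (c - b) := by linarith
      have h5 : 0 ≤ cr (a - c) (p - c) := by linarith
      apply mem_tri hK ha hb hc
      · simpa only [sub_sub_sub_cancel_right] using h1
      · simpa only [sub_sub_sub_cancel_right] using h2
      · simpa only [sub_sub_sub_cancel_right] using h5
      · simpa only [sub_sub_sub_cancel_right] using hpos


theorem cr_cont (a b : ℝ × ℝ) : Continuous (fun p : ℝ × ℝ => cr (b - a) (p - a)) := by
  unfold cr
  fun_prop


theorem four'_aux (H : Hyp K C h) {s0 s1 s2 s3 : Stn} (h0 : Arc2 K C s0 s1) (h1 : Arc2 K C s1 s2)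
    (h2 : Arc2 K C s2 s3) (h3 : Arc2 K C s3 s0) (hne : s0.v ≠ s1.v ∨ s1.v ≠ s2.v ∨ s2.v ≠ s3.v)
    (t1 : 0 ≤ cr s1.u s2.u) (hrep : s0.o = s2.o)
    (hmain2 : ∀ C' : Set (ℝ × ℝ), IsCompact C' → Convex ℝ C' → (interior C').Nonempty →
      ∀ o o' : ℝ × ℝ, (∀ p ∈ C', p - o ∈ K ∨ p - o' ∈ K) → ar C' ≤ 2 * h) :
    ar C ≤ 3 * h := by
  have hh := H.hpos
  rcases small_arc H h1 t1 with hs | ⟨hs, -⟩
  · have := vol_le_four_thirds H
    linarith
  · set A : Set (ℝ × ℝ) := {p | 0 ≤ cr (s2.v - s1.v) (p - s1.v)} with hA
    have hAc : IsClosed A := isClosed_le continuous_const (cr_cont s1.v s2.v)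
    have hAconv : Convex ℝ A := by
      intro x hx y hy α β hα hβ hαβ
      simp only [hA, mem_setOf_eq] at hx hy ⊢
      have : cr (s2.v - s1.v) (α • x + β • y - s1.v) =
          α * cr (s2.v - s1.v) (x - s1.v) + β * cr (s2.v - s1.v) (y - s1.v) := by
        have hβ' : β = 1 - α := by linarith
        subst hβ'
        simp only [cr, Prod.fst_sub, Prod.snd_sub, Prod.fst_add, Prod.snd_add, Prod.smul_fst,
          Prod.smul_snd, smul_eq_mul]
        ring
      rw [this]
      positivity
    set C' : Set (ℝ × ℝ) := C ∩ A with hC'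
    have hC'c : IsCompact C' := H.Cc.inter_right hAc
    have hC'conv : Convex ℝ C' := H.Cconv.inter hAconv
    have hsplit : ar C ≤ ar C' + ar (bey C s1.v s2.v) := by
      have hsub : C ⊆ C' ∪ bey C s1.v s2.v := by
        intro p hp
        by_cases hpp : 0 ≤ cr (s2.v - s1.v) (p - s1.v)
        · left; exact ⟨hp, hpp⟩
        · right; exact ⟨hp, not_le.mp hpp⟩
      have hfin1 : volume C' ≠ ⊤ := hC'c.measure_lt_top.ne
      have hfin2 : volume (bey C s1.v s2.v) ≠ ⊤ := by
        have : volume (bey C s1.v s2.v) ≤ volume C := measure_mono (fun p hp => hp.1)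
        exact (lt_of_le_of_lt this H.Cc.measure_lt_top).ne
      unfold ar
      rw [← ENNReal.toReal_add hfin1 hfin2]
      apply ENNReal.toReal_mono (ENNReal.add_ne_top.mpr ⟨hfin1, hfin2⟩)
      exact le_trans (measure_mono hsub) (measure_union_le _ _)
    have hmain : ar C' ≤ 2 * h := by
      by_cases hint : (interior C').Nonempty
      · apply hmain2 C' hC'c hC'conv hint s0.o s3.o
        set Z : Set (ℝ × ℝ) := {p | p - s0.o ∈ K ∨ p - s3.o ∈ K} with hZ
        have hKcl : IsClosed K := H.Kc.isClosed
        have hZc : IsClosed Z := by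
          have : Z = (fun p : ℝ × ℝ => p - s0.o) ⁻¹' K ∪ (fun p : ℝ × ℝ => p - s3.o) ⁻¹' K := by
            ext p; simp [hZ]
          rw [this]
          exact (hKcl.preimage (by fun_prop)).union (hKcl.preimage (by fun_prop))
        have hopen : IsOpen (interior C' \ Z) := isOpen_interior.sdiff hZc
        have hnull : volume (interior C' \ Z) = 0 := by
          have hN : volume (Ln s0.v s1.v ∪ Ln s2.v s3.v ∪ Ln s0.v s2.v) = 0 := by
            rw [measure_union_null_iff, measure_union_null_iff]
            exact ⟨⟨Ln_null _ _, Ln_null _ _⟩, Ln_null _ _⟩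
          refine measure_mono_null ?_ hN
          rintro p ⟨hp, hpZ⟩
          have hpC' : p ∈ C' := interior_subset hp
          have hpC : p ∈ C := hpC'.1
          have hpA : 0 ≤ cr (s2.v - s1.v) (p - s1.v) := hpC'.2
          simp only [hZ, mem_setOf_eq, not_or] at hpZ
          obtain ⟨hz0, hz3⟩ := hpZ
          have e0 : 0 ≤ cr (s1.v - s0.v) (p - s0.v) := by
            by_contra hcon
            exact hz0 (h0.arc.H p hpC (not_le.mp hcon))
          have e2 : 0 ≤ cr (s3.v - s2.v) (p - s2.v) := by
            by_contra hcon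
            apply hz0
            rw [hrep]
            exact h2.arc.H p hpC (not_le.mp hcon)
          have e3 : 0 ≤ cr (s0.v - s3.v) (p - s3.v) := by
            by_contra hcon
            exact hz3 (h3.arc.H p hpC (not_le.mp hcon))
          exact quad_in H.Kconv h0.arc.v1 h0.arc.v2 (by rw [hrep]; exact h2.arc.v1)
            (by rw [hrep]; exact h2.arc.v2) hne e0 hpA e2 e3 hz0
        have hempty : interior C' \ Z = ∅ := by
          by_contra hcon
          have hnonempty : (interior C' \ Z).Nonempty := nonempty_iff_ne_empty.mpr hcon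
          exact (hopen.measure_pos volume hnonempty).ne' hnull
        have hsub : interior C' ⊆ Z := by
          rw [diff_eq_empty] at hempty
          exact hempty
        have hcl : closure (interior C') ⊆ Z := closure_minimal hsub hZc
        have hC'sub : C' ⊆ closure (interior C') := by
          rw [hC'conv.closure_interior_eq_closure_of_nonempty_interior hint]
          exact subset_closure
        intro p hp
        exact hcl (hC'sub hp)
      · have hz : volume C' = 0 := by
          have hfr : C' ⊆ frontier C' := by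
            intro p hp
            rw [frontier, hC'c.isClosed.closure_eq]
            refine ⟨hp, ?_⟩
            intro hpi
            exact hint ⟨p, hpi⟩
          exact measure_mono_null hfr (hC'conv.addHaar_frontier volume)
        have : ar C' = 0 := by unfold ar; rw [hz]; simp
        rw [this]; positivity
    linarith


theorem four' (H : Hyp K C h) {s0 s1 s2 s3 : Stn} (h0 : Arc2 K C s0 s1) (h1 : Arc2 K C s1 s2)
    (h2 : Arc2 K C s2 s3) (h3 : Arc2 K C s3 s0) (hne : s0.v ≠ s1.v ∨ s1.v ≠ s2.v ∨ s2.v ≠ s3.v)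
    (t13 : 0 ≤ cr s1.u s2.u ∨ 0 ≤ cr s3.u s0.u) (hrep : s0.o = s2.o)
    (hmain2 : ∀ C' : Set (ℝ × ℝ), IsCompact C' → Convex ℝ C' → (interior C').Nonempty →
      ∀ o o' : ℝ × ℝ, (∀ p ∈ C', p - o ∈ K ∨ p - o' ∈ K) → ar C' ≤ 2 * h) :
    ar C ≤ 3 * h := by
  rcases t13 with t | t
  · exact four'_aux H h0 h1 h2 h3 hne t hrep hmain2
  · refine four'_aux H h2 h3 h0 h1 ?_ t hrep.symm hmain2
    by_contra hcon
    push Not at hcon
    obtain ⟨a, b, c⟩ := hcon
    rcases hne with h | h | h
    · exact h c
    · exact h (by rw [← c, ← b, ← a])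
    · exact h a

end

end FT722.MS4p

namespace FT722
alias four' := MS4p.four'
end FT722
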