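import Mathlib
import Pool.Agent.FTfinal.FT722_Fold
import Pool.Agent.FTfinal.FT722_M_G1
import Pool.Agent.FTfinal.FT722_M_Lamf
import Pool.Agent.FTfinal.FT722_M_R3
import Pool.Agent.FTfinal.FT722_M_R5
import Pool.Agent.FTfinal.FT722_M_B35
set_option autoImplicit false
open MeasureTheory Set
namespace FT722
noncomputable section
variable {K C : Set (ℝ × ℝ)} {h : ℝ}

/-- numerical part, an arc with `λ = 1` -/
theorem j17989_num1 {d k1 k2 k3 k4 k5 p1 p2 p3 p4 p5 q1 q2 q3 q4 q5 g1 g2 g3 g4 g5 : ℝ}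
    (a1 : (p1 + q1) / 2 ≤ k1) (a2 : (p2 + q2) / 2 ≤ k2) (a3 : (p3 + q3) / 2 ≤ k3)
    (a4 : (p4 + q4) / 2 ≤ k4) (a5 : (p5 + q5) / 2 ≤ k5)
    (b1 : d - (p1 + q1) ≤ k1) (b3 : d - (p3 + q3) ≤ k3) (b5 : d - (p5 + q5) ≤ k5)
    (c1 : |q1 - p2| ≤ g1) (c2 : |q2 - p3| ≤ g2) (c3 : |q3 - p4| ≤ g3) (c4 : |q4 - p5| ≤ g4)
    (c5 : q5 + p1 ≤ g5) (hp1 : 0 ≤ p1) (hp2 : 0 ≤ p2) (hp3 : 0 ≤ p3) (hp4 : 0 ≤ p4)
    (hp5 : 0 ≤ p5) (hq1 : 0 ≤ q1) (hq2 : 0 ≤ q2) (hq3 : 0 ≤ q3) (hq4 : 0 ≤ q4) (hq5 : 0 ≤ q5) :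
    2 * d ≤ (k1 + k2 + k3 + k4 + k5) + (g1 + g2 + g3 + g4 + g5) := by
  rw [abs_le] at c1 c2 c3 c4
  linarith [c1.1, c1.2, c2.1, c2.2, c3.1, c3.2, c4.1, c4.2]

theorem j17989_notch {d k p q lp lq m : ℝ} (hm0 : 0 ≤ m) (hm1 : m ≤ 1) (hp : 0 ≤ p)
    (hq : 0 ≤ q) (hlp : m ≤ lp) (hlq : m ≤ lq) (ha : (p + q) / 2 ≤ k) (hb : d - (p + q) ≤ k) :
    d / 3 + 2 / 3 * (d * m) ≤ k + lq * q + lp * p := by
  have h1 : m * q ≤ lq * q := mul_le_mul_of_nonneg_right hlq hq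
  have h2 : m * p ≤ lp * p := mul_le_mul_of_nonneg_right hlp hp
  have h3 : (2 / 3 * (1 - m)) * ((p + q) / 2) ≤ (2 / 3 * (1 - m)) * k :=
    mul_le_mul_of_nonneg_left ha (by linarith)
  have h4 : (1 - 2 / 3 * (1 - m)) * (d - (p + q)) ≤ (1 - 2 / 3 * (1 - m)) * k :=
    mul_le_mul_of_nonneg_left hb (by linarith)
  nlinarith [h1, h2, h3, h4]

theorem j17989_min {x y : ℝ} (hx0 : 0 ≤ x) (hx1 : x ≤ 1) (hy0 : 0 ≤ y) (hy1 : y ≤ 1) :
    1 - 2 * (1 - x) - 2 * (1 - y) ≤ min (x ^ 2) (y ^ 2) := by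
  refine le_min ?_ ?_
  · nlinarith [sq_nonneg (1 - x)]
  · nlinarith [sq_nonneg (1 - y)]

/-- numerical part, no arc with `λ = 1` -/
theorem j17989_num2 {d k1 k2 k3 k4 k5 p1 p2 p3 p4 p5 q1 q2 q3 q4 q5 g1 g2 g3 g4 g5
    l1 l2 l3 l4 l5 : ℝ}
    (a1 : (p1 + q1) / 2 ≤ k1) (a2 : (p2 + q2) / 2 ≤ k2) (a3 : (p3 + q3) / 2 ≤ k3)
    (a4 : (p4 + q4) / 2 ≤ k4) (a5 : (p5 + q5) / 2 ≤ k5)
    (b1 : d - (p1 + q1) ≤ k1) (b2 : d - (p2 + q2) ≤ k2) (b3 : d - (p3 + q3) ≤ k3)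
    (b4 : d - (p4 + q4) ≤ k4) (b5 : d - (p5 + q5) ≤ k5)
    (c1 : l1 * (q1 + p2) ≤ g1) (c2 : l2 * (q2 + p3) ≤ g2) (c3 : l3 * (q3 + p4) ≤ g3)
    (c4 : l4 * (q4 + p5) ≤ g4) (c5 : l5 * (q5 + p1) ≤ g5)
    (hp1 : 0 ≤ p1) (hp2 : 0 ≤ p2) (hp3 : 0 ≤ p3) (hp4 : 0 ≤ p4)
    (hp5 : 0 ≤ p5) (hq1 : 0 ≤ q1) (hq2 : 0 ≤ q2) (hq3 : 0 ≤ q3) (hq4 : 0 ≤ q4) (hq5 : 0 ≤ q5)
    (hl1 : 0 ≤ l1) (hl2 : 0 ≤ l2) (hl3 : 0 ≤ l3) (hl4 : 0 ≤ l4) (hl5 : 0 ≤ l5)
    (hl1' : l1 ≤ 1) (hl2' : l2 ≤ 1) (hl3' : l3 ≤ 1) (hl4' : l4 ≤ 1) (hl5' : l5 ≤ 1)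
    (hS : ¬ 2 * d ≤ (k1 + k2 + k3 + k4 + k5) + (g1 + g2 + g3 + g4 + g5)) :
    Real.sqrt l1 + Real.sqrt l2 + Real.sqrt l3 + Real.sqrt l4 + Real.sqrt l5 ≤ 4 := by
  by_contra hx
  apply hS
  have hx' : 4 < Real.sqrt l1 + Real.sqrt l2 + Real.sqrt l3 + Real.sqrt l4 + Real.sqrt l5 :=
    not_le.1 hx
  have s1 := Real.sq_sqrt hl1
  have s2 := Real.sq_sqrt hl2
  have s3 := Real.sq_sqrt hl3
  have s4 := Real.sq_sqrt hl4
  have s5 := Real.sq_sqrt hl5
  have t1 : Real.sqrt l1 ≤ 1 := Real.sqrt_le_one.2 hl1'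
  have t2 : Real.sqrt l2 ≤ 1 := Real.sqrt_le_one.2 hl2'
  have t3 : Real.sqrt l3 ≤ 1 := Real.sqrt_le_one.2 hl3'
  have t4 : Real.sqrt l4 ≤ 1 := Real.sqrt_le_one.2 hl4'
  have t5 : Real.sqrt l5 ≤ 1 := Real.sqrt_le_one.2 hl5'
  have n1 := Real.sqrt_nonneg l1
  have n2 := Real.sqrt_nonneg l2
  have n3 := Real.sqrt_nonneg l3
  have n4 := Real.sqrt_nonneg l4
  have n5 := Real.sqrt_nonneg l5
  have m1 := j17989_min n5 t5 n1 t1
  have m2 := j17989_min n1 t1 n2 t2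
  have m3 := j17989_min n2 t2 n3 t3
  have m4 := j17989_min n3 t3 n4 t4
  have m5 := j17989_min n4 t4 n5 t5
  rw [s5, s1] at m1
  rw [s1, s2] at m2
  rw [s2, s3] at m3
  rw [s3, s4] at m4
  rw [s4, s5] at m5
  rcases le_or_gt d 0 with hd | hd
  · have e1 : 0 ≤ l1 * (q1 + p2) := by positivity
    have e2 : 0 ≤ l2 * (q2 + p3) := by positivity
    have e3 : 0 ≤ l3 * (q3 + p4) := by positivity
    have e4 : 0 ≤ l4 * (q4 + p5) := by positivity
    have e5 : 0 ≤ l5 * (q5 + p1) := by positivity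
    linarith
  have r1 := j17989_notch (d := d) (k := k1) (p := p1) (q := q1) (lp := l5) (lq := l1)
    (m := min l5 l1) (le_min hl5 hl1) ((min_le_left _ _).trans hl5') hp1 hq1 (min_le_left _ _)
    (min_le_right _ _) a1 b1
  have r2 := j17989_notch (d := d) (k := k2) (p := p2) (q := q2) (lp := l1) (lq := l2)
    (m := min l1 l2) (le_min hl1 hl2) ((min_le_left _ _).trans hl1') hp2 hq2 (min_le_left _ _)
    (min_le_right _ _) a2 b2
  have r3 := j17989_notch (d := d) (k := k3) (p := p3) (q := q3) (lp := l2) (lq := l3)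
    (m := min l2 l3) (le_min hl2 hl3) ((min_le_left _ _).trans hl2') hp3 hq3 (min_le_left _ _)
    (min_le_right _ _) a3 b3
  have r4 := j17989_notch (d := d) (k := k4) (p := p4) (q := q4) (lp := l3) (lq := l4)
    (m := min l3 l4) (le_min hl3 hl4) ((min_le_left _ _).trans hl3') hp4 hq4 (min_le_left _ _)
    (min_le_right _ _) a4 b4
  have r5 := j17989_notch (d := d) (k := k5) (p := p5) (q := q5) (lp := l4) (lq := l5)
    (m := min l4 l5) (le_min hl4 hl5) ((min_le_left _ _).trans hl4') hp5 hq5 (min_le_left _ _)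
    (min_le_right _ _) a5 b5
  have hsum : 1 ≤ min l5 l1 + min l1 l2 + min l2 l3 + min l3 l4 + min l4 l5 := by linarith
  have hprod : d * 1 ≤ d * (min l5 l1 + min l1 l2 + min l2 l3 + min l3 l4 + min l4 l5) :=
    mul_le_mul_of_nonneg_left hsum hd.le
  have hexp : d * (min l5 l1 + min l1 l2 + min l2 l3 + min l3 l4 + min l4 l5) =
      d * min l5 l1 + d * min l1 l2 + d * min l2 l3 + d * min l3 l4 + d * min l4 l5 := by ring
  have c1' : l1 * q1 + l1 * p2 ≤ g1 := by linarith [mul_add l1 q1 p2]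
  have c2' : l2 * q2 + l2 * p3 ≤ g2 := by linarith [mul_add l2 q2 p3]
  have c3' : l3 * q3 + l3 * p4 ≤ g3 := by linarith [mul_add l3 q3 p4]
  have c4' : l4 * q4 + l4 * p5 ≤ g4 := by linarith [mul_add l4 q4 p5]
  have c5' : l5 * q5 + l5 * p1 ≤ g5 := by linarith [mul_add l5 q5 p1]
  linarith

theorem j17989_kap (K : Set (ℝ × ℝ)) (d : ℝ) (o o' v u : ℝ × ℝ) :
    (capf K (v - o) u + capf K (v - o') u) / 2 ≤ kap K d o o' v u ∧
      d - (capf K (v - o) u + capf K (v - o') u) ≤ kap K d o o' v u :=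
  ⟨le_max_left _ _, le_max_right _ _⟩

theorem j17989_half {K C : Set (ℝ × ℝ)} {h : ℝ} (H : Hyp K C h) {x y : ℝ × ℝ} (hx : x ∈ K)
    (hy : y ∈ K) : (1 / 2 : ℝ) • (y - x) ∈ K := by
  have h1 := H.Kconv hy (H.Ksym x hx) (by norm_num : (0 : ℝ) ≤ 1 / 2)
    (by norm_num : (0 : ℝ) ≤ 1 / 2) (by norm_num)
  have e : (1 / 2 : ℝ) • (y - x) = (1 / 2 : ℝ) • y + (1 / 2 : ℝ) • (-x) := by
    rw [sub_eq_add_neg, smul_add]
  rw [e]
  exact h1

theorem j17989_ofReal_max (x : ℝ) : ENNReal.ofReal x = ENNReal.ofReal (max 0 x) := by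
  rcases le_total 0 x with h | h
  · rw [max_eq_right h]
  · rw [max_eq_left h, ENNReal.ofReal_of_nonpos h, ENNReal.ofReal_zero]

theorem j17989_bey {K C : Set (ℝ × ℝ)} {h : ℝ} (H : Hyp K C h) (v v' : ℝ × ℝ) :
    volume (bey C v v') = ENNReal.ofReal (ar (bey C v v')) := by
  unfold ar
  rw [ENNReal.ofReal_toReal]
  exact ((measure_mono fun p hp => hp.1).trans_lt H.Cc.measure_lt_top).ne

theorem j17989_arnn (S : Set (ℝ × ℝ)) : 0 ≤ ar S := ENNReal.toReal_nonneg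

/-- pentagon bound -/
theorem j17989_pent {K C : Set (ℝ × ℝ)} {h : ℝ} (H : Hyp K C h) {a b c d e : ℝ × ℝ}
    (hne : a ≠ b ∨ b ≠ c ∨ c ≠ d ∨ d ≠ e) (h1 : (1 / 2 : ℝ) • (b - a) ∈ K)
    (h2 : (1 / 2 : ℝ) • (c - b) ∈ K) (h3 : (1 / 2 : ℝ) • (d - c) ∈ K)
    (h4 : (1 / 2 : ℝ) • (e - d) ∈ K) (h5 : (1 / 2 : ℝ) • (a - e) ∈ K) :
    ar C ≤ 3 * h + (ar (bey C a b) + ar (bey C b c) + ar (bey C c d) + ar (bey C d e) +
      ar (bey C e a)) := by
  have hsub : C ⊆ bey C a b ∪ (bey C b c ∪ (bey C c d ∪ (bey C d e ∪ (bey C e a ∪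
      {p | 0 ≤ cr (b - a) (p - a) ∧ 0 ≤ cr (c - b) (p - b) ∧ 0 ≤ cr (d - c) (p - c) ∧
        0 ≤ cr (e - d) (p - d) ∧ 0 ≤ cr (a - e) (p - e)})))) := by
    intro p hp
    by_cases g1 : cr (b - a) (p - a) < 0
    · exact Or.inl ⟨hp, g1⟩
    by_cases g2 : cr (c - b) (p - b) < 0
    · exact Or.inr (Or.inl ⟨hp, g2⟩)
    by_cases g3 : cr (d - c) (p - c) < 0
    · exact Or.inr (Or.inr (Or.inl ⟨hp, g3⟩))
    by_cases g4 : cr (e - d) (p - d) < 0
    · exact Or.inr (Or.inr (Or.inr (Or.inl ⟨hp, g4⟩)))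
    by_cases g5 : cr (a - e) (p - e) < 0
    · exact Or.inr (Or.inr (Or.inr (Or.inr (Or.inl ⟨hp, g5⟩))))
    exact Or.inr (Or.inr (Or.inr (Or.inr (Or.inr
      ⟨not_lt.1 g1, not_lt.1 g2, not_lt.1 g3, not_lt.1 g4, not_lt.1 g5⟩))))
  have hr := region5 (a := a) (b := b) (c := c) (d := d) (e := e) hne
  have hpb := (pent_bound H (e1 := b - a) (e2 := c - b) (e3 := d - c) (e4 := e - d)
    (e5 := a - e) h1 h2 h3 h4 h5 (by abel)).2
  have e12 : (b - a) + (c - b) = c - a := by abel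
  rw [e12] at hpb
  rw [j17989_ofReal_max (cr (b - a) (c - b) / 2), j17989_ofReal_max (cr (c - a) (d - c) / 2),
    j17989_ofReal_max (cr (e - d) (a - e) / 2)] at hr
  have hv : volume C ≤ ENNReal.ofReal (ar (bey C a b)) + (ENNReal.ofReal (ar (bey C b c)) +
      (ENNReal.ofReal (ar (bey C c d)) + (ENNReal.ofReal (ar (bey C d e)) +
      (ENNReal.ofReal (ar (bey C e a)) + (ENNReal.ofReal (max 0 (cr (b - a) (c - b) / 2)) +
      ENNReal.ofReal (max 0 (cr (c - a) (d - c) / 2)) +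
      ENNReal.ofReal (max 0 (cr (e - d) (a - e) / 2))))))) := by
    rw [← j17989_bey H, ← j17989_bey H, ← j17989_bey H, ← j17989_bey H, ← j17989_bey H]
    refine (measure_mono hsub).trans ?_
    refine (measure_union_le _ _).trans (add_le_add le_rfl ?_)
    refine (measure_union_le _ _).trans (add_le_add le_rfl ?_)
    refine (measure_union_le _ _).trans (add_le_add le_rfl ?_)
    refine (measure_union_le _ _).trans (add_le_add le_rfl ?_)
    exact (measure_union_le _ _).trans (add_le_add le_rfl hr)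
  have n1 := j17989_arnn (bey C a b)
  have n2 := j17989_arnn (bey C b c)
  have n3 := j17989_arnn (bey C c d)
  have n4 := j17989_arnn (bey C d e)
  have n5 := j17989_arnn (bey C e a)
  have x1 : (0:ℝ) ≤ max 0 (cr (b - a) (c - b) / 2) := le_max_left _ _
  have x2 : (0:ℝ) ≤ max 0 (cr (c - a) (d - c) / 2) := le_max_left _ _
  have x3 : (0:ℝ) ≤ max 0 (cr (e - d) (a - e) / 2) := le_max_left _ _
  rw [← ENNReal.ofReal_add x1 x2, ← ENNReal.ofReal_add (by linarith) x3,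
    ← ENNReal.ofReal_add n5 (by linarith), ← ENNReal.ofReal_add n4 (by linarith),
    ← ENNReal.ofReal_add n3 (by linarith), ← ENNReal.ofReal_add n2 (by linarith),
    ← ENNReal.ofReal_add n1 (by linarith)] at hv
  have := ENNReal.toReal_le_of_le_ofReal (by linarith) hv
  have hh : ar C = (volume C).toReal := rfl
  rw [hh]
  linarith

/-- the case of four vertices in one cell -/
theorem j17989_four {K C : Set (ℝ × ℝ)} {h : ℝ} (H : Hyp K C h) {o a b c d e : ℝ × ℝ}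
    (hne : a ≠ b ∨ b ≠ c ∨ c ≠ d ∨ d ≠ e) (ha : a - o ∈ K) (hb : b - o ∈ K) (hc : c - o ∈ K)
    (hd : d - o ∈ K) (h4 : (1 / 2 : ℝ) • (e - d) ∈ K) (h5 : (1 / 2 : ℝ) • (a - e) ∈ K)
    (H0 : ∀ p ∈ C, cr (b - a) (p - a) < 0 → p - o ∈ K)
    (H2 : ∀ p ∈ C, cr (d - c) (p - c) < 0 → p - o ∈ K)
    (B1 : ar (bey C b c) ≤ h / 2) (B3 : ar (bey C d e) ≤ h / 2) (B4 : ar (bey C e a) ≤ h / 2) :
    ar C ≤ 4 * h := by
  have hhp := H.hpos
  have hV := vol_le_four_thirds H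
  -- the cell as a translate
  set K' : Set (ℝ × ℝ) := (fun p => p + (-o)) ⁻¹' K with hK'
  have hmK' : ∀ p, p ∈ K' ↔ p - o ∈ K := fun p => by
    rw [hK', Set.mem_preimage, sub_eq_add_neg]
  have hvK' : volume K' = ENNReal.ofReal (ar K) := by
    rw [hK', measure_preimage_add_right]
    unfold ar
    rw [ENNReal.ofReal_toReal H.Kc.measure_lt_top.ne]
  have hconv : Convex ℝ K' := by
    intro x hx y hy s t hs ht hst
    rw [hmK'] at hx hy ⊢
    have h1 := H.Kconv hx hy hs ht hst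
    have e1 : s • x + t • y - o = s • (x - o) + t • (y - o) := by
      rw [smul_sub, smul_sub]
      have : o = s • o + t • o := by rw [← add_smul, hst, one_smul]
      nth_rewrite 1 [this]
      abel
    rw [e1]
    exact h1
  -- the key inclusion
  have key : ∀ p ∈ C, p ∉ K' → ¬ cr (c - b) (p - b) < 0 → 0 ≤ cr (a - d) (p - d) →
      0 ≤ cr (b - a) (p - a) ∧ 0 ≤ cr (c - b) (p - b) ∧ 0 ≤ cr (d - c) (p - c) ∧
        cr (a - d) (p - d) ≤ 0 := by
    intro p hp hpK g1 _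
    have f0 : 0 ≤ cr (b - a) (p - a) := by
      by_contra hh
      exact hpK ((hmK' p).2 (H0 p hp (not_le.1 hh)))
    have f2 : 0 ≤ cr (d - c) (p - c) := by
      by_contra hh
      exact hpK ((hmK' p).2 (H2 p hp (not_le.1 hh)))
    refine ⟨f0, not_lt.1 g1, f2, ?_⟩
    by_contra hE
    have hE' : 0 < cr (a - d) (p - d) := not_le.1 hE
    rcases le_or_gt 0 (cr (c - a) (p - a)) with hF | hF
    · -- triangle a c d
      have hs : cr (c - a) (p - a) + cr (d - c) (p - c) + cr (a - d) (p - d) =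
          cr (c - a) (d - c) := by
        simp only [cr, Prod.fst_sub, Prod.snd_sub]; ring
      exact hpK (mem_tri hconv ((hmK' a).2 ha) ((hmK' c).2 hc) ((hmK' d).2 hd) hF f2 hE'.le
        (by linarith))
    · have hs : cr (b - a) (p - a) + cr (c - b) (p - b) + cr (a - c) (p - c) =
          cr (b - a) (c - b) := by
        simp only [cr, Prod.fst_sub, Prod.snd_sub]; ring
      have hs2 : cr (a - c) (p - c) = - cr (c - a) (p - a) := by
        simp only [cr, Prod.fst_sub, Prod.snd_sub]; ring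
      exact hpK (mem_tri hconv ((hmK' a).2 ha) ((hmK' b).2 hb) ((hmK' c).2 hc) f0 (not_lt.1 g1)
        (by linarith) (by linarith))
  have key2 : ∀ p ∈ C, p ∉ K' → ¬ cr (c - b) (p - b) < 0 → ¬ cr (a - d) (p - d) > 0 := by
    intro p hp hpK g1 g
    exact absurd (key p hp hpK g1 g.le).2.2.2 (not_le.2 g)
  have n1 := j17989_arnn (bey C b c)
  have n3 := j17989_arnn (bey C d e)
  have n4 := j17989_arnn (bey C e a)
  have nK := j17989_arnn K
  have had : (1 / 2 : ℝ) • (a - d) ∈ K := by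
    have := j17989_half H hd ha
    have e1 : a - o - (d - o) = a - d := by abel
    rwa [e1] at this
  have hbb : (1 / 2 : ℝ) • (b - a) ∈ K := by
    have := j17989_half H ha hb
    have e1 : b - o - (a - o) = b - a := by abel
    rwa [e1] at this
  have hcb : (1 / 2 : ℝ) • (c - b) ∈ K := by
    have := j17989_half H hb hc
    have e1 : c - o - (b - o) = c - b := by abel
    rwa [e1] at this
  have hca : (1 / 2 : ℝ) • (c - a) ∈ K := by
    have := j17989_half H ha hc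
    have e1 : c - o - (a - o) = c - a := by abel
    rwa [e1] at this
  -- it suffices to cover the rest by a set of small area
  have fin : ∀ T : Set (ℝ × ℝ), ∀ x : ℝ, x ≤ 2 / 3 * h → volume T ≤ ENNReal.ofReal x →
      (∀ p ∈ C, p ∉ K' → ¬ cr (c - b) (p - b) < 0 → ¬ cr (e - d) (p - d) < 0 →
        ¬ cr (a - e) (p - e) < 0 → p ∈ T) → ar C ≤ 4 * h := by
    intro T x hx hT hcov
    have hsub : C ⊆ K' ∪ (bey C b c ∪ (bey C d e ∪ (bey C e a ∪ T))) := by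
      intro p hp
      by_cases g0 : p ∈ K'
      · exact Or.inl g0
      by_cases g1 : cr (c - b) (p - b) < 0
      · exact Or.inr (Or.inl ⟨hp, g1⟩)
      by_cases g3 : cr (e - d) (p - d) < 0
      · exact Or.inr (Or.inr (Or.inl ⟨hp, g3⟩))
      by_cases g4 : cr (a - e) (p - e) < 0
      · exact Or.inr (Or.inr (Or.inr (Or.inl ⟨hp, g4⟩)))
      exact Or.inr (Or.inr (Or.inr (Or.inr (hcov p hp g0 g1 g3 g4))))
    have hv : volume C ≤ ENNReal.ofReal (ar K) + (ENNReal.ofReal (ar (bey C b c)) +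
        (ENNReal.ofReal (ar (bey C d e)) + (ENNReal.ofReal (ar (bey C e a)) +
        ENNReal.ofReal (max 0 x)))) := by
      rw [← j17989_bey H, ← j17989_bey H, ← j17989_bey H, ← hvK', ← j17989_ofReal_max]
      refine (measure_mono hsub).trans ?_
      refine (measure_union_le _ _).trans (add_le_add le_rfl ?_)
      refine (measure_union_le _ _).trans (add_le_add le_rfl ?_)
      refine (measure_union_le _ _).trans (add_le_add le_rfl ?_)
      exact (measure_union_le _ _).trans (add_le_add le_rfl hT)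
    have x0 : (0:ℝ) ≤ max 0 x := le_max_left _ _
    have x1 : max 0 x ≤ 2 / 3 * h := max_le (by linarith) hx
    rw [← ENNReal.ofReal_add n4 x0, ← ENNReal.ofReal_add n3 (by linarith),
      ← ENNReal.ofReal_add n1 (by linarith), ← ENNReal.ofReal_add nK (by linarith)] at hv
    have := ENNReal.toReal_le_of_le_ofReal (by linarith) hv
    have hh : ar C = (volume C).toReal := rfl
    rw [hh]
    linarith
  by_cases hdeg : d = e ∧ e = a
  · obtain ⟨hde, hea⟩ := hdeg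
    have hda : d = a := hde.trans hea
    have hne' : a ≠ b ∨ b ≠ c := by
      by_contra hcon
      push Not at hcon
      rcases hne with h | h | h | h
      · exact h hcon.1
      · exact h hcon.2
      · exact h (by rw [← hcon.2, ← hcon.1, hda])
      · exact h hde
    refine fin _ (cr (b - a) (c - b) / 2) ?_ (region3 hne') ?_
    · have := tri_bound H (x := b - a) (y := c - b) hbb hcb (by
        have e1 : b - a + (c - b) = c - a := by abel
        rw [e1]; exact hca)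
      exact this
    · intro p hp g0 g1 g3 g4
      have f0 : 0 ≤ cr (b - a) (p - a) := by
        by_contra hh
        exact g0 ((hmK' p).2 (H0 p hp (not_le.1 hh)))
      have f2 : 0 ≤ cr (d - c) (p - c) := by
        by_contra hh
        exact g0 ((hmK' p).2 (H2 p hp (not_le.1 hh)))
      rw [hda] at f2
      exact ⟨f0, not_lt.1 g1, f2⟩
  · have hne' : d ≠ e ∨ e ≠ a := by
      by_contra hcon
      push Not at hcon
      exact hdeg hcon
    refine fin _ (cr (e - d) (a - e) / 2) ?_ (region3 hne') ?_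
    · exact tri_bound H (x := e - d) (y := a - e) h4 h5 (by
        have e1 : e - d + (a - e) = a - d := by abel
        rw [e1]; exact had)
    · intro p hp g0 g1 g3 g4
      refine ⟨not_lt.1 g3, not_lt.1 g4, ?_⟩
      have h1 := key2 p hp g0 g1
      have hs2 : cr (d - a) (p - a) = - cr (a - d) (p - d) := by
        simp only [cr, Prod.fst_sub, Prod.snd_sub]; ring
      have h2 : cr (a - d) (p - d) ≤ 0 := not_lt.1 h1
      linarith

theorem five (H : Hyp K C h) {s0 s1 s2 s3 s4 : Stn} (h0 : Arc2 K C s0 s1) (h1 : Arc2 K C s1 s2)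
    (h2 : Arc2 K C s2 s3) (h3 : Arc2 K C s3 s4) (h4 : Arc2 K C s4 s0)
    (hne : s0.v ≠ s1.v ∨ s1.v ≠ s2.v ∨ s2.v ≠ s3.v ∨ s3.v ≠ s4.v) :
    (ar C ≤ 5 * h ∧ (s0.o = s2.o → ar C ≤ 4 * h)) ∨
      2 * (ar K - h) ≤ sv K h s0 s1 + sv K h s1 s2 + sv K h s2 s3 + sv K h s3 s4 + sv K h s4 s0 := by
  have hhp := H.hpos
  have hV := vol_le_four_thirds H
  have small : ar C ≤ ar K → (ar C ≤ 5 * h ∧ (s0.o = s2.o → ar C ≤ 4 * h)) := by
    intro hs
    exact ⟨by linarith, fun _ => by linarith⟩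
  rcases lamf H h0 with hs | ⟨l0, l0a, l0b, l0c, l0d⟩
  · exact Or.inl (small hs)
  rcases lamf H h1 with hs | ⟨l1, l1a, l1b, l1c, l1d⟩
  · exact Or.inl (small hs)
  rcases lamf H h2 with hs | ⟨l2, l2a, l2b, l2c, l2d⟩
  · exact Or.inl (small hs)
  rcases lamf H h3 with hs | ⟨l3, l3a, l3b, l3c, l3d⟩
  · exact Or.inl (small hs)
  rcases lamf H h4 with hs | ⟨l4, l4a, l4b, l4c, l4d⟩
  · exact Or.inl (small hs)
  by_cases hS : 2 * (ar K - h) ≤
      sv K h s0 s1 + sv K h s1 s2 + sv K h s2 s3 + sv K h s3 s4 + sv K h s4 s0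
  · exact Or.inr hS
  refine Or.inl ?_
  have k1 := j17989_kap K (ar K - h) s0.o s1.o s1.v s1.u
  have k2 := j17989_kap K (ar K - h) s1.o s2.o s2.v s2.u
  have k3 := j17989_kap K (ar K - h) s2.o s3.o s3.v s3.u
  have k4 := j17989_kap K (ar K - h) s3.o s4.o s4.v s4.u
  have k0 := j17989_kap K (ar K - h) s4.o s0.o s0.v s0.u
  have g0 := gamf_ge H (s0.v - s0.o) s0.u (s1.v - s0.o) s1.u
  have g1 := gamf_ge H (s1.v - s1.o) s1.u (s2.v - s1.o) s2.u
  have g2 := gamf_ge H (s2.v - s2.o) s2.u (s3.v - s2.o) s3.u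
  have g3 := gamf_ge H (s3.v - s3.o) s3.u (s4.v - s3.o) s4.u
  have g4 := gamf_ge H (s4.v - s4.o) s4.u (s0.v - s4.o) s0.u
  have nn : ∀ z u, 0 ≤ capf K z u := fun z u => capf_nonneg H z u
  have hS' : ∀ x : ℝ, x = sv K h s0 s1 + sv K h s1 s2 + sv K h s2 s3 + sv K h s3 s4 +
      sv K h s4 s0 → ¬ 2 * (ar K - h) ≤ x := by
    intro x hx
    rw [hx]
    exact hS
  -- no `λ` is one
  have d0 : ar (bey C s0.v s1.v) ≤ h / 2 * Real.sqrt l0 := by
    rcases l0d with e | e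
    · exfalso
      rw [e, one_mul] at l0c
      refine hS' _ ?_ (j17989_num1 k1.1 k2.1 k3.1 k4.1 k0.1 k1.2 k3.2 k0.2 g1 g2 g3 g4 l0c
        (nn _ _) (nn _ _) (nn _ _) (nn _ _) (nn _ _) (nn _ _) (nn _ _) (nn _ _) (nn _ _) (nn _ _))
      unfold sv
      ring
    · exact e
  have d1 : ar (bey C s1.v s2.v) ≤ h / 2 * Real.sqrt l1 := by
    rcases l1d with e | e
    · exfalso
      rw [e, one_mul] at l1c
      refine hS' _ ?_ (j17989_num1 k2.1 k3.1 k4.1 k0.1 k1.1 k2.2 k4.2 k1.2 g2 g3 g4 g0 l1c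
        (nn _ _) (nn _ _) (nn _ _) (nn _ _) (nn _ _) (nn _ _) (nn _ _) (nn _ _) (nn _ _) (nn _ _))
      unfold sv
      ring
    · exact e
  have d2 : ar (bey C s2.v s3.v) ≤ h / 2 * Real.sqrt l2 := by
    rcases l2d with e | e
    · exfalso
      rw [e, one_mul] at l2c
      refine hS' _ ?_ (j17989_num1 k3.1 k4.1 k0.1 k1.1 k2.1 k3.2 k0.2 k2.2 g3 g4 g0 g1 l2c
        (nn _ _) (nn _ _) (nn _ _) (nn _ _) (nn _ _) (nn _ _) (nn _ _) (nn _ _) (nn _ _) (nn _ _))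
      unfold sv
      ring
    · exact e
  have d3 : ar (bey C s3.v s4.v) ≤ h / 2 * Real.sqrt l3 := by
    rcases l3d with e | e
    · exfalso
      rw [e, one_mul] at l3c
      refine hS' _ ?_ (j17989_num1 k4.1 k0.1 k1.1 k2.1 k3.1 k4.2 k1.2 k3.2 g4 g0 g1 g2 l3c
        (nn _ _) (nn _ _) (nn _ _) (nn _ _) (nn _ _) (nn _ _) (nn _ _) (nn _ _) (nn _ _) (nn _ _))
      unfold sv
      ring
    · exact e
  have d4 : ar (bey C s4.v s0.v) ≤ h / 2 * Real.sqrt l4 := by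
    rcases l4d with e | e
    · exfalso
      rw [e, one_mul] at l4c
      refine hS' _ ?_ (j17989_num1 k0.1 k1.1 k2.1 k3.1 k4.1 k0.2 k2.2 k4.2 g0 g1 g2 g3 l4c
        (nn _ _) (nn _ _) (nn _ _) (nn _ _) (nn _ _) (nn _ _) (nn _ _) (nn _ _) (nn _ _) (nn _ _))
      unfold sv
      ring
    · exact e
  have hsq : Real.sqrt l0 + Real.sqrt l1 + Real.sqrt l2 + Real.sqrt l3 + Real.sqrt l4 ≤ 4 := by
    refine j17989_num2 k0.1 k1.1 k2.1 k3.1 k4.1 k0.2 k1.2 k2.2 k3.2 k4.2 l0c l1c l2c l3c l4c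
        (nn _ _) (nn _ _) (nn _ _) (nn _ _) (nn _ _) (nn _ _) (nn _ _) (nn _ _) (nn _ _) (nn _ _)
        l0a l1a l2a l3a l4a l0b l1b l2b l3b l4b (hS' _ ?_)
    unfold sv
    ring
  have hh1 : (1 / 2 : ℝ) • (s1.v - s0.v) ∈ K := by
    have := j17989_half H h0.arc.v1 h0.arc.v2
    have e1 : s1.v - s0.o - (s0.v - s0.o) = s1.v - s0.v := by abel
    rwa [e1] at this
  have hh2 : (1 / 2 : ℝ) • (s2.v - s1.v) ∈ K := by
    have := j17989_half H h1.arc.v1 h1.arc.v2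
    have e1 : s2.v - s1.o - (s1.v - s1.o) = s2.v - s1.v := by abel
    rwa [e1] at this
  have hh3 : (1 / 2 : ℝ) • (s3.v - s2.v) ∈ K := by
    have := j17989_half H h2.arc.v1 h2.arc.v2
    have e1 : s3.v - s2.o - (s2.v - s2.o) = s3.v - s2.v := by abel
    rwa [e1] at this
  have hh4 : (1 / 2 : ℝ) • (s4.v - s3.v) ∈ K := by
    have := j17989_half H h3.arc.v1 h3.arc.v2
    have e1 : s4.v - s3.o - (s3.v - s3.o) = s4.v - s3.v := by abel
    rwa [e1] at this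
  have hh5 : (1 / 2 : ℝ) • (s0.v - s4.v) ∈ K := by
    have := j17989_half H h4.arc.v1 h4.arc.v2
    have e1 : s0.v - s4.o - (s4.v - s4.o) = s0.v - s4.v := by abel
    rwa [e1] at this
  constructor
  · have hp := j17989_pent H hne hh1 hh2 hh3 hh4 hh5
    have : h / 2 * (Real.sqrt l0 + Real.sqrt l1 + Real.sqrt l2 + Real.sqrt l3 + Real.sqrt l4) ≤
        h / 2 * 4 := mul_le_mul_of_nonneg_left hsq (by linarith)
    nlinarith
  · intro ho
    have t1 : h / 2 * Real.sqrt l1 ≤ h / 2 * 1 :=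
      mul_le_mul_of_nonneg_left (Real.sqrt_le_one.2 l1b) (by linarith)
    have t3 : h / 2 * Real.sqrt l3 ≤ h / 2 * 1 :=
      mul_le_mul_of_nonneg_left (Real.sqrt_le_one.2 l3b) (by linarith)
    have t4 : h / 2 * Real.sqrt l4 ≤ h / 2 * 1 :=
      mul_le_mul_of_nonneg_left (Real.sqrt_le_one.2 l4b) (by linarith)
    refine j17989_four H (o := s0.o) hne h0.arc.v1 h0.arc.v2 ?_ ?_ hh4 hh5 h0.arc.H ?_
      (by linarith) (by linarith) (by linarith)
    · rw [ho]; exact h2.arc.v1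
    · rw [ho]; exact h2.arc.v2
    · rw [ho]; exact h2.arc.H

end
end FT722
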