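import Mathlib
import Pool.Agent.FTfinal.FT722_Fold
import Pool.Agent.FTfinal.FT722_M_G1
import Pool.Agent.FTfinal.FT722_M_S2
import Pool.Agent.FTfinal.FT722_M_S3
import Pool.Agent.FTfinal.FT722_M_S4
import Pool.Agent.FTfinal.FT722_M_S4p
import Pool.Agent.FTfinal.FT722_M_S5
set_option autoImplicit false
open MeasureTheory Set
namespace FT722
noncomputable section

/-! ### cyclic sums -/

theorem go_add {α : Type} (f g : α → α → ℝ) (a0 : α) : ∀ (l : List α) (a : α),
    cyc.go (fun s s' => f s s' + g s s') a0 a l = cyc.go f a0 a l + cyc.go g a0 a l := by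
  intro l
  induction l with
  | nil => intro a; rfl
  | cons b l ih => intro a; simp only [cyc.go, ih]; ring

theorem cyc_add {α : Type} (f g : α → α → ℝ) (l : List α) :
    cyc (fun s s' => f s s' + g s s') l = cyc f l + cyc g l := by
  cases l with
  | nil => simp [cyc]
  | cons a l => exact go_add f g a l a

theorem go_mono {α : Type} {R : α → α → Prop} {f g : α → α → ℝ} (a0 : α)
    (h : ∀ s s', R s s' → f s s' ≤ g s s') : ∀ (l : List α) (a : α), cycAll.go R a0 a l →
    cyc.go f a0 a l ≤ cyc.go g a0 a l := by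
  intro l
  induction l with
  | nil => intro a ha; exact h _ _ ha
  | cons b l ih => intro a ha; exact add_le_add (h _ _ ha.1) (ih b ha.2)

theorem cyc_mono {α : Type} {R : α → α → Prop} {f g : α → α → ℝ}
    (h : ∀ s s', R s s' → f s s' ≤ g s s') {l : List α} (hl : cycAll R l) :
    cyc f l ≤ cyc g l := by
  cases l with
  | nil => simp [cyc]
  | cons a l => exact go_mono a h l a hl

theorem go_const {α : Type} (x : ℝ) (a0 : α) : ∀ (l : List α) (a : α),
    cyc.go (fun _ _ => x) a0 a l = ((l.length : ℝ) + 1) * x := by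
  intro l
  induction l with
  | nil => intro a; simp [cyc.go]
  | cons b l ih => intro a; simp only [cyc.go, ih, List.length_cons]; push_cast; ring

theorem cyc_const {α : Type} (x : ℝ) (l : List α) :
    cyc (fun _ _ => x) l = (l.length : ℝ) * x := by
  cases l with
  | nil => simp [cyc]
  | cons a l => simp only [cyc, List.length_cons]; rw [go_const]; push_cast; ring

theorem cycAll_true {α : Type} {R : α → α → Prop} (h : ∀ s s', R s s') : ∀ l : List α, cycAll R l := by
  have : ∀ (a0 : α) (l : List α) (a : α), cycAll.go R a0 a l := by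
    intro a0 l
    induction l with
    | nil => intro a; exact h _ _
    | cons b l ih => intro a; exact ⟨h _ _, ih b⟩
  intro l
  cases l with
  | nil => trivial
  | cons a l => exact this a l a

theorem cyc_congr {α : Type} {R : α → α → Prop} {f g : α → α → ℝ}
    (h : ∀ s s', R s s' → f s s' = g s s') {l : List α} (hl : cycAll R l) :
    cyc f l = cyc g l :=
  le_antisymm (cyc_mono (fun s s' hr => (h s s' hr).le) hl)
    (cyc_mono (fun s s' hr => (h s s' hr).ge) hl)

variable {K C : Set (ℝ × ℝ)} {h : ℝ}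

theorem gam_nonneg (z u z' u' : ℝ × ℝ) : 0 ≤ gam K z u z' u' := ENNReal.toReal_nonneg

theorem sv_nonneg (H : Hyp K C h) (s s' : Stn) : 0 ≤ sv K h s s' :=
  add_nonneg (kap_nonneg H _ _ _ _ _) (gam_nonneg _ _ _ _)

/-- how RI is used -/
theorem RI_use (k : ℝ) {l : List Stn} (hne : cycAll (fun s s' => s.o ≠ s'.o) l) (hRI : RI K C h l)
    (hF : cyc (fun s s' => cr s.o s'.o) l ≤ h * (2 * k - 2 - l.length))
    (hS : 2 * (ar K - h) ≤ cyc (sv K h) l) : ar C ≤ k * h := by
  unfold RI at hRI
  have e1 : cyc (fun s s' => if s.o = s'.o then 0 else h - kap K (ar K - h) s.o s'.o s'.v s'.u) l =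
      cyc (fun s s' => h + -kap K (ar K - h) s.o s'.o s'.v s'.u) l :=
    cyc_congr (fun s s' hs => by rw [if_neg hs]; ring) hne
  have e2 : cyc (sv K h) l = cyc (fun s s' => kap K (ar K - h) s.o s'.o s'.v s'.u) l +
      cyc (fun s s' => gam K (s.v - s.o) s.u (s'.v - s.o) s'.u) l := cyc_add _ _ l
  have e3 : cyc (fun s s' => kap K (ar K - h) s.o s'.o s'.v s'.u +
      -kap K (ar K - h) s.o s'.o s'.v s'.u) l = 0 := by
    rw [cyc_congr (g := fun _ _ => (0 : ℝ)) (R := fun _ _ => True) (fun s s' _ => by ring)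
      (cycAll_true (fun _ _ => trivial) l), cyc_const]
    ring
  rw [cyc_add] at e3
  rw [e1, cyc_add, cyc_const] at hRI
  rw [e2] at hS
  nlinarith

theorem RI_big (H : Hyp K C h) (k : ℝ) {l : List Stn} (hne : cycAll (fun s s' => s.o ≠ s'.o) l) (hRI : RI K C h l)
    (hF : cyc (fun s s' => cr s.o s'.o) l ≤ h * (2 * k - 2 - l.length)) (hb : 6 ≤ l.length) :
    ar C ≤ k * h := by
  apply RI_use k hne hRI hF
  rcases le_total (ar K - h) 0 with h0 | h0
  · have h1 : cyc (fun _ _ : Stn => (0 : ℝ)) l ≤ cyc (sv K h) l :=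
      cyc_mono (R := fun _ _ => True) (fun s s' _ => sv_nonneg H s s') (cycAll_true (fun _ _ => trivial) l)
    rw [cyc_const] at h1
    linarith
  · have h1 : cyc (fun _ _ : Stn => (ar K - h) / 3) l ≤ cyc (sv K h) l :=
      cyc_mono (R := fun _ _ => True) (fun s s' _ => by
        have := kap_ge (K := K) (ar K - h) s.o s'.o s'.v s'.u
        have h2 := gam_nonneg (K := K) (s.v - s.o) s.u (s'.v - s.o) s'.u
        unfold sv
        linarith) (cycAll_true (fun _ _ => trivial) l)
    rw [cyc_const] at h1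
    have h3 : (6 : ℝ) ≤ l.length := by exact_mod_cast hb
    nlinarith

theorem Arc.une {s s' : Stn} (ha : Arc K C s s') : s.u ≠ 0 := by
  obtain ⟨r, hr, hu⟩ := ha.ang
  intro h0
  rw [hu] at h0
  have h1 : r * Real.cos s.θ = 0 := congrArg Prod.fst h0
  have h2 : r * Real.sin s.θ = 0 := congrArg Prod.snd h0
  have h3 := Real.sin_sq_add_cos_sq s.θ
  have h4 : Real.cos s.θ = 0 := (mul_eq_zero.mp h1).resolve_left hr.ne'
  have h5 : Real.sin s.θ = 0 := (mul_eq_zero.mp h2).resolve_left hr.ne'
  rw [h4, h5] at h3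
  norm_num at h3

theorem Arc.two' {s s' s'' : Stn} (ha : Arc K C s s') (hb : Arc K C s' s'') : Arc2 K C s s' :=
  ⟨ha, hb.vC, hb.sup, ha.une, hb.une⟩

theorem all_eq {l : List Stn} {w : ℝ × ℝ} (hl : ∀ s ∈ l, s.v = w)
    (hv : ∃ s ∈ l, ∃ s' ∈ l, s.v ≠ s'.v) : False := by
  obtain ⟨s, hs, s', hs', hss⟩ := hv
  exact hss ((hl s hs).trans (hl s' hs').symm)

/-- sine sign -/
theorem turn_gt {s s' s2 s3 : Stn} (ha : Arc K C s s2) (hb : Arc K C s' s3) (h1 : cr s.u s'.u < 0)
    {d : ℝ} (hd : d = s'.θ - s.θ ∨ d = s'.θ - s.θ + 2 * Real.pi) (h0 : 0 ≤ d) : Real.pi < d := by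
  obtain ⟨r, hr, hu⟩ := ha.ang
  obtain ⟨r', hr', hu'⟩ := hb.ang
  have e : cr s.u s'.u = r * r' * Real.sin d := by
    have : Real.sin d = Real.sin (s'.θ - s.θ) := by
      rcases hd with hd | hd
      · rw [hd]
      · rw [hd, Real.sin_add_two_pi]
    rw [this, Real.sin_sub, hu, hu']
    unfold cr
    simp only
    ring
  by_contra hcon
  push Not at hcon
  have := Real.sin_nonneg_of_nonneg_of_le_pi h0 hcon
  rw [e] at h1
  have : 0 ≤ r * r' * Real.sin d := by positivity
  linarith

theorem cases_len {l : List Stn} (hA : cycAll (Arc K C) l) (hne : cycAll (fun s s' => s.o ≠ s'.o) l)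
    (hang : angs l) (hv : ∃ s ∈ l, ∃ s' ∈ l, s.v ≠ s'.v) (H : Hyp K C h) {k : ℕ} (hk : 2 ≤ k)
    (hlk : l.length + 2 ≤ 2 * k) (hRI : RI K C h l)
    (hF : cyc (fun s s' => cr s.o s'.o) l ≤ h * (2 * k - 2 - l.length))
    (c : Fin k → ℝ × ℝ) (hc : ∀ s ∈ l, ∃ i, s.o = c i)
    (IH : k = 3 → ∀ C' : Set (ℝ × ℝ), IsCompact C' → Convex ℝ C' → (interior C').Nonempty →
      ∀ o o' : ℝ × ℝ, (∀ p ∈ C', p - o ∈ K ∨ p - o' ∈ K) → ar C' ≤ 2 * h) :
    ar C ≤ k * h := by
  have hk2 : (2 : ℝ) ≤ k := by exact_mod_cast hk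
  have hh := H.hpos
  rcases Nat.lt_or_ge l.length 6 with hlt | hge
  swap
  · exact RI_big H k hne hRI hF hge
  match l, hA, hne, hang, hv, hlk, hRI, hF, hc, hlt with
  | [], _, _, _, hv, _, _, _, _, _ => obtain ⟨s, hs, _⟩ := hv; simp at hs
  | [s0], _, _, _, hv, _, _, _, _, _ =>
    obtain ⟨s, hs, s', hs', hss⟩ := hv
    simp only [List.mem_singleton] at hs hs'
    rw [hs, hs'] at hss
    exact absurd rfl hss
  | [s0, s1], hA, hne, hang, hv, hlk, hRI, hF, hc, hlt =>
    obtain ⟨a0, a1⟩ := hA
    have hv' : s0.v ≠ s1.v := by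
      intro he
      refine all_eq (w := s0.v) ?_ hv
      intro s hs
      simp only [List.mem_cons, List.not_mem_nil, or_false] at hs
      rcases hs with rfl | rfl
      exacts [rfl, he.symm]
    rcases two H (a0.two' a1) (a1.two' a0) hv' with h1 | h1
    · nlinarith
    · exact RI_use k hne hRI hF (by simpa [cyc, cyc.go] using h1)
  | [s0, s1, s2], hA, hne, hang, hv, hlk, hRI, hF, hc, hlt =>
    obtain ⟨a0, a1, a2⟩ := hA
    have hv' : s0.v ≠ s1.v ∨ s1.v ≠ s2.v := by
      by_contra he
      push Not at he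
      obtain ⟨w1, w2⟩ := he
      refine all_eq (w := s0.v) ?_ hv
      intro s hs
      simp only [List.mem_cons, List.not_mem_nil, or_false] at hs
      rcases hs with rfl | rfl | rfl
      exacts [rfl, w1.symm, by rw [w1, w2]]
    rcases three H (a0.two' a1) (a1.two' a2) (a2.two' a0) hv' with h1 | h1
    · have : (3 : ℝ) ≤ k := by
        have : 3 ≤ k := by simp only [List.length_cons, List.length_nil] at hlk; omega
        exact_mod_cast this
      nlinarith
    · exact RI_use k hne hRI hF (by simp only [cyc, cyc.go]; linarith)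
  | [s0, s1, s2, s3], hA, hne, hang, hv, hlk, hRI, hF, hc, hlt =>
    obtain ⟨a0, a1, a2, a3⟩ := hA
    have hv' : s0.v ≠ s1.v ∨ s1.v ≠ s2.v ∨ s2.v ≠ s3.v := by
      by_contra he
      push Not at he
      obtain ⟨w1, w2, w3⟩ := he
      refine all_eq (w := s0.v) ?_ hv
      intro s hs
      simp only [List.mem_cons, List.not_mem_nil, or_false] at hs
      rcases hs with rfl | rfl | rfl | rfl
      exacts [rfl, w1.symm, by rw [w1, w2], by rw [w1, w2, w3]]
    have hv'' : s1.v ≠ s2.v ∨ s2.v ≠ s3.v ∨ s3.v ≠ s0.v := by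
      by_contra he
      push Not at he
      obtain ⟨h1, h2, h3⟩ := he
      rcases hv' with h | h | h
      · exact h (by rw [← h3, ← h2, ← h1])
      · exact h h1
      · exact h h2
    obtain ⟨g1, g2⟩ := hang
    simp only [List.map_cons, List.map_nil, List.pairwise_cons, List.mem_cons, List.not_mem_nil,
      or_false, forall_eq_or_imp, forall_eq, false_imp_iff, implies_true, List.Pairwise.nil,
      and_true] at g1 g2
    obtain ⟨⟨g01, g02, g03⟩, ⟨g12, g13⟩, g23⟩ := g1
    have p3 : s3.θ ≤ s0.θ + 2 * Real.pi := g2.1.2.2.2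
    have t02 : 0 ≤ cr s0.u s1.u ∨ 0 ≤ cr s2.u s3.u := by
      by_contra he
      push Not at he
      have q1 := turn_gt a0 a1 he.1 (Or.inl rfl) (by linarith)
      have q2 := turn_gt a2 a3 he.2 (Or.inl rfl) (by linarith)
      linarith
    have t13 : 0 ≤ cr s1.u s2.u ∨ 0 ≤ cr s3.u s0.u := by
      by_contra he
      push Not at he
      have q1 := turn_gt a1 a2 he.1 (Or.inl rfl) (by linarith)
      have q2 := turn_gt a3 a0 he.2 (Or.inr rfl) (by linarith)
      linarith
    have A0 := a0.two' a1
    have A1 := a1.two' a2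
    have A2 := a2.two' a3
    have A3 := a3.two' a0
    rcases four H A0 A1 A2 A3 hv' t02 t13 with h1 | h1
    · rcases Nat.lt_or_ge k 4 with hk4 | hk4
      · have hk3 : k = 3 := by simp only [List.length_cons, List.length_nil] at hlk; omega
        subst hk3
        obtain ⟨i0, e0⟩ := hc s0 (by simp)
        obtain ⟨i1, e1⟩ := hc s1 (by simp)
        obtain ⟨i2, e2⟩ := hc s2 (by simp)
        obtain ⟨i3, e3⟩ := hc s3 (by simp)
        obtain ⟨n0, n1, n2, n3⟩ := hne
        change s3.o ≠ s0.o at n3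
        have hrep : s0.o = s2.o ∨ s1.o = s3.o := by
          by_contra he
          push Not at he
          rw [e0, e1] at n0
          rw [e1, e2] at n1
          rw [e2, e3] at n2
          rw [e3, e0] at n3
          rw [e0, e2, e1, e3] at he
          have m0 : i0 ≠ i1 := fun e => n0 (by rw [e])
          have m1 : i1 ≠ i2 := fun e => n1 (by rw [e])
          have m2 : i2 ≠ i3 := fun e => n2 (by rw [e])
          have m3 : i3 ≠ i0 := fun e => n3 (by rw [e])
          have m4 : i0 ≠ i2 := fun e => he.1 (by rw [e])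
          have m5 : i1 ≠ i3 := fun e => he.2 (by rw [e])
          omega
        rcases hrep with hr | hr
        · have := four' H A0 A1 A2 A3 hv' t13 hr (IH rfl)
          simpa using this
        · have := four' H A1 A2 A3 A0 hv'' t02.symm hr (IH rfl)
          simpa using this
      · have : (4 : ℝ) ≤ k := by exact_mod_cast hk4
        nlinarith
    · exact RI_use k hne hRI hF (by simp only [cyc, cyc.go]; linarith)
  | [s0, s1, s2, s3, s4], hA, hne, hang, hv, hlk, hRI, hF, hc, hlt =>
    obtain ⟨a0, a1, a2, a3, a4⟩ := hA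
    have hv' : s0.v ≠ s1.v ∨ s1.v ≠ s2.v ∨ s2.v ≠ s3.v ∨ s3.v ≠ s4.v := by
      by_contra he
      push Not at he
      obtain ⟨w1, w2, w3, w4⟩ := he
      refine all_eq (w := s0.v) ?_ hv
      intro s hs
      simp only [List.mem_cons, List.not_mem_nil, or_false] at hs
      rcases hs with rfl | rfl | rfl | rfl | rfl
      exacts [rfl, w1.symm, by rw [w1, w2], by rw [w1, w2, w3], by rw [w1, w2, w3, w4]]
    have hv5 : ∀ w, (s0.v = w ∧ s1.v = w ∧ s2.v = w ∧ s3.v = w ∧ s4.v = w) → False := by
      rintro w ⟨w0, w1, w2, w3, w4⟩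
      rcases hv' with h | h | h | h
      · exact h (w0.trans w1.symm)
      · exact h (w1.trans w2.symm)
      · exact h (w2.trans w3.symm)
      · exact h (w3.trans w4.symm)
    have A0 := a0.two' a1
    have A1 := a1.two' a2
    have A2 := a2.two' a3
    have A3 := a3.two' a4
    have A4 := a4.two' a0
    rcases five H A0 A1 A2 A3 A4 hv' with h1 | h1
    · rcases Nat.lt_or_ge k 5 with hk4 | hk4
      · have hk3 : k = 4 := by simp only [List.length_cons, List.length_nil] at hlk; omega
        subst hk3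
        obtain ⟨i0, e0⟩ := hc s0 (by simp)
        obtain ⟨i1, e1⟩ := hc s1 (by simp)
        obtain ⟨i2, e2⟩ := hc s2 (by simp)
        obtain ⟨i3, e3⟩ := hc s3 (by simp)
        obtain ⟨i4, e4⟩ := hc s4 (by simp)
        have hne0 := hne
        obtain ⟨n0, n1, n2, n3, n4⟩ := hne
        change s4.o ≠ s0.o at n4
        have hrep : s0.o = s2.o ∨ s1.o = s3.o ∨ s2.o = s4.o ∨ s3.o = s0.o ∨ s4.o = s1.o := by
          by_contra he
          push Not at he
          obtain ⟨b0, b1, b2, b3, b4⟩ := he
          rw [e0, e1] at n0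
          rw [e1, e2] at n1
          rw [e2, e3] at n2
          rw [e3, e4] at n3
          rw [e4, e0] at n4
          rw [e0, e2] at b0
          rw [e1, e3] at b1
          rw [e2, e4] at b2
          rw [e3, e0] at b3
          rw [e4, e1] at b4
          have m0 : i0 ≠ i1 := fun e => n0 (by rw [e])
          have m1 : i1 ≠ i2 := fun e => n1 (by rw [e])
          have m2 : i2 ≠ i3 := fun e => n2 (by rw [e])
          have m3 : i3 ≠ i4 := fun e => n3 (by rw [e])
          have m4 : i4 ≠ i0 := fun e => n4 (by rw [e])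
          have m5 : i0 ≠ i2 := fun e => b0 (by rw [e])
          have m6 : i1 ≠ i3 := fun e => b1 (by rw [e])
          have m7 : i2 ≠ i4 := fun e => b2 (by rw [e])
          have m8 : i3 ≠ i0 := fun e => b3 (by rw [e])
          have m9 : i4 ≠ i1 := fun e => b4 (by rw [e])
          omega
        have hgoal : ar C ≤ 4 * h ∨ 2 * (ar K - h) ≤
            sv K h s0 s1 + sv K h s1 s2 + sv K h s2 s3 + sv K h s3 s4 + sv K h s4 s0 := by
          rcases hrep with hr | hr | hr | hr | hr
          · exact Or.inl (h1.2 hr)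
          · have w : s1.v ≠ s2.v ∨ s2.v ≠ s3.v ∨ s3.v ≠ s4.v ∨ s4.v ≠ s0.v := by
              by_contra he
              push Not at he
              obtain ⟨w1, w2, w3, w4⟩ := he
              exact hv5 s0.v ⟨rfl, by rw [w1, w2, w3, w4], by rw [w2, w3, w4], by rw [w3, w4], w4⟩
            rcases five H A1 A2 A3 A4 A0 w with h2 | h2
            · exact Or.inl (h2.2 hr)
            · right; linarith
          · have w : s2.v ≠ s3.v ∨ s3.v ≠ s4.v ∨ s4.v ≠ s0.v ∨ s0.v ≠ s1.v := by
              by_contra he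
              push Not at he
              obtain ⟨w1, w2, w3, w4⟩ := he
              exact hv5 s1.v ⟨w4, rfl, by rw [w1, w2, w3, w4], by rw [w2, w3, w4], by rw [w3, w4]⟩
            rcases five H A2 A3 A4 A0 A1 w with h2 | h2
            · exact Or.inl (h2.2 hr)
            · right; linarith
          · have w : s3.v ≠ s4.v ∨ s4.v ≠ s0.v ∨ s0.v ≠ s1.v ∨ s1.v ≠ s2.v := by
              by_contra he
              push Not at he
              obtain ⟨w1, w2, w3, w4⟩ := he
              exact hv5 s2.v ⟨by rw [w3, w4], w4, rfl, by rw [w1, w2, w3, w4], by rw [w2, w3, w4]⟩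
            rcases five H A3 A4 A0 A1 A2 w with h2 | h2
            · exact Or.inl (h2.2 hr)
            · right; linarith
          · have w : s4.v ≠ s0.v ∨ s0.v ≠ s1.v ∨ s1.v ≠ s2.v ∨ s2.v ≠ s3.v := by
              by_contra he
              push Not at he
              obtain ⟨w1, w2, w3, w4⟩ := he
              exact hv5 s3.v ⟨by rw [w2, w3, w4], by rw [w3, w4], w4, rfl, by rw [w1, w2, w3, w4]⟩
            rcases five H A4 A0 A1 A2 A3 w with h2 | h2
            · exact Or.inl (h2.2 hr)
            · right; linarith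
        rcases hgoal with hg | hg
        · simpa using hg
        · exact RI_use (4 : ℕ) hne0 hRI hF (by simp only [cyc, cyc.go]; linarith)
      · have : (5 : ℝ) ≤ k := by exact_mod_cast hk4
        nlinarith [h1.1]
    · exact RI_use k hne hRI hF (by simp only [cyc, cyc.go]; linarith)

end
end FT722
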