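import Mathlib
import Pool.Agent.FTfinal.FT934_Defs
set_option autoImplicit false
namespace FT722
theorem lattice_cover_two {K : Set (ℝ × ℝ)} (hc : Convex ℝ K) (h0 : (0 : ℝ × ℝ) ∈ K)
    {x y : ℝ × ℝ} (hx : x ∈ K) (hy : y ∈ K) {s r : ℝ} (hs : 0 ≤ s) (hr : 0 ≤ r)
    (hsr : s + r ≤ 1) : s • x + r • y ∈ K := by
  rcases (add_nonneg hs hr).eq_or_lt with h | h
  · have h1 : s = 0 := by linarith
    have h2 : r = 0 := by linarith
    rw [h1, h2, zero_smul, zero_smul, add_zero]
    exact h0
  · have h1 : (s / (s + r)) • x + (r / (s + r)) • y ∈ K :=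
      hc hx hy (by positivity) (by positivity) (by field_simp)
    have h2 := hc h1 h0 (show 0 ≤ s + r from h.le) (show 0 ≤ 1 - (s + r) by linarith) (by ring)
    rw [smul_zero, add_zero, smul_add, smul_smul, smul_smul, mul_div_cancel₀ _ h.ne',
      mul_div_cancel₀ _ h.ne'] at h2
    exact h2

/-- triangle case -/
theorem lattice_cover_tri {K : Set (ℝ × ℝ)} (hc : Convex ℝ K) (hs : ∀ p ∈ K, -p ∈ K)
    {u v w : ℝ × ℝ} (hu : u ∈ K) (hv : v ∈ K) (hw : w ∈ K)
    (h1 : 0 ≤ cr u v) (h2 : 0 ≤ cr v w) (h3 : 0 ≤ cr u w)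
    (hpos : 0 < cr u v + cr v w + cr u w) (α β : ℝ) (hα : 0 ≤ α) (hβ : 0 ≤ β) (hαβ : α + β ≤ 1) :
    ∃ m n : ℤ, (α • (u + v) + β • (v + w)) - ((m : ℝ) • (u + v) + (n : ℝ) • (v + w)) ∈ K := by
  have h0 : (0 : ℝ × ℝ) ∈ K := by
    have := hc hu (hs u hu) (show (0 : ℝ) ≤ 1 / 2 by norm_num) (show (0 : ℝ) ≤ 1 / 2 by norm_num)
      (by norm_num)
    rwa [smul_neg, add_neg_cancel] at this
  set D := cr u v + cr v w + cr u w with hD
  obtain ⟨lam, hlam⟩ : ∃ lam, lam = cr v w / D := ⟨_, rfl⟩
  obtain ⟨mu, hmu⟩ : ∃ mu, mu = cr u v / D := ⟨_, rfl⟩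
  obtain ⟨nu, hnu⟩ : ∃ nu, nu = cr u w / D := ⟨_, rfl⟩
  have hlam0 : 0 ≤ lam := by rw [hlam]; positivity
  have hmu0 : 0 ≤ mu := by rw [hmu]; positivity
  have hnu0 : 0 ≤ nu := by rw [hnu]; positivity
  have hsum : lam + mu + nu = 1 := by
    rw [hlam, hmu, hnu, ← add_div, ← add_div, hD, div_eq_one_iff_eq (by rw [← hD]; exact hpos.ne')]
    ring
  -- `v = lam • (u + v) + mu • (v + w)`
  have hv1 : v.1 = lam * (u.1 + v.1) + mu * (v.1 + w.1) := by
    rw [hlam, hmu]
    field_simp
    rw [hD]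
    unfold cr
    ring
  have hv2 : v.2 = lam * (u.2 + v.2) + mu * (v.2 + w.2) := by
    rw [hlam, hmu]
    field_simp
    rw [hD]
    unfold cr
    ring
  -- the parameter `r`
  obtain ⟨r, ⟨hr0, hr1⟩, hr⟩ : ∃ r ∈ Set.Icc (0 : ℝ) 1,
      min (1 - α - β - r * nu) (min (α - r * lam) (β - r * mu)) = 0 := by
    have hcont : ContinuousOn (fun r : ℝ => min (1 - α - β - r * nu)
      (min (α - r * lam) (β - r * mu))) (Set.Icc 0 1) := by fun_prop
    have hiv := intermediate_value_Icc' (zero_le_one (α := ℝ)) hcont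
    apply hiv
    constructor
    · by_contra hcon
      push Not at hcon
      rw [lt_min_iff, lt_min_iff] at hcon
      obtain ⟨c1, c2, c3⟩ := hcon
      linarith
    · simp only [zero_mul, sub_zero]
      exact le_min (by linarith) (le_min hα hβ)
  have g1 : 0 ≤ 1 - α - β - r * nu := by
    rw [← hr]; exact min_le_left _ _
  have g2 : 0 ≤ α - r * lam := by
    rw [← hr]; exact (min_le_right _ _).trans (min_le_left _ _)
  have g3 : 0 ≤ β - r * mu := by
    rw [← hr]; exact (min_le_right _ _).trans (min_le_right _ _)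
  have hcase : 1 - α - β - r * nu = 0 ∨ α - r * lam = 0 ∨ β - r * mu = 0 := by
    rcases min_choice (1 - α - β - r * nu) (min (α - r * lam) (β - r * mu)) with h | h
    · left; rw [← h]; exact hr
    · rw [h] at hr
      rcases min_choice (α - r * lam) (β - r * mu) with h' | h'
      · right; left; rw [← h']; exact hr
      · right; right; rw [← h']; exact hr
  have ha2 : (1 / 2 : ℝ) • (u + v) ∈ K := by
    have := hc hu hv (show (0 : ℝ) ≤ 1 / 2 by norm_num) (show (0 : ℝ) ≤ 1 / 2 by norm_num)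
      (by norm_num)
    rwa [← smul_add] at this
  have hb2 : (1 / 2 : ℝ) • (v + w) ∈ K := by
    have := hc hv hw (show (0 : ℝ) ≤ 1 / 2 by norm_num) (show (0 : ℝ) ≤ 1 / 2 by norm_num)
      (by norm_num)
    rwa [← smul_add] at this
  have hab2 : (1 / 2 : ℝ) • (u - w) ∈ K := by
    have := hc hu (hs w hw) (show (0 : ℝ) ≤ 1 / 2 by norm_num)
      (show (0 : ℝ) ≤ 1 / 2 by norm_num) (by norm_num)
    rwa [← smul_add, ← sub_eq_add_neg] at this
  have er : 1 - α - β - r * nu + (α - r * lam) + (β - r * mu) + r = 1 := by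
    linear_combination (-r) * hsum
  have rv1 : r * v.1 = r * lam * (u.1 + v.1) + r * mu * (v.1 + w.1) := by
    linear_combination r * hv1
  have rv2 : r * v.2 = r * lam * (u.2 + v.2) + r * mu * (v.2 + w.2) := by
    linear_combination r * hv2
  rcases hcase with hz | hz | hz
  · -- `γ = r ν`
    rcases le_total (α - r * lam) (β - r * mu) with hst | hst
    · refine ⟨0, 1, ?_⟩
      have hk := lattice_cover_two hc h0 hab2 (hs w hw)
        (show 0 ≤ 2 * (α - r * lam) by linarith) hr0 (by linarith)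
      convert hk using 1
      ext
      · simp
        linear_combination (-1) * rv1 + (er - hz) * (v.1 + w.1)
      · simp
        linear_combination (-1) * rv2 + (er - hz) * (v.2 + w.2)
    · refine ⟨1, 0, ?_⟩
      have hk := lattice_cover_two hc h0 (hs _ hab2) (hs u hu)
        (show 0 ≤ 2 * (β - r * mu) by linarith) hr0 (by linarith)
      convert hk using 1
      ext
      · simp
        linear_combination (-1) * rv1 + (er - hz) * (u.1 + v.1)
      · simp
        linear_combination (-1) * rv2 + (er - hz) * (u.2 + v.2)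
  · -- `α = r λ`
    rcases le_total (β - r * mu) (1 - α - β - r * nu) with hst | hst
    · refine ⟨0, 0, ?_⟩
      have hk := lattice_cover_two hc h0 hb2 hv
        (show 0 ≤ 2 * (β - r * mu) by linarith) hr0 (by linarith)
      convert hk using 1
      ext
      · simp
        linear_combination (-1) * rv1 + hz * (u.1 + v.1)
      · simp
        linear_combination (-1) * rv2 + hz * (u.2 + v.2)
    · refine ⟨0, 1, ?_⟩
      have hk := lattice_cover_two hc h0 (hs _ hb2) (hs w hw)
        (show 0 ≤ 2 * (1 - α - β - r * nu) by linarith) hr0 (by linarith)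
      convert hk using 1
      ext
      · simp
        linear_combination (-1) * rv1 + hz * (u.1 + v.1) + (er - hz) * (v.1 + w.1)
      · simp
        linear_combination (-1) * rv2 + hz * (u.2 + v.2) + (er - hz) * (v.2 + w.2)
  · -- `β = r μ`
    rcases le_total (α - r * lam) (1 - α - β - r * nu) with hst | hst
    · refine ⟨0, 0, ?_⟩
      have hk := lattice_cover_two hc h0 ha2 hv
        (show 0 ≤ 2 * (α - r * lam) by linarith) hr0 (by linarith)
      convert hk using 1
      ext
      · simp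
        linear_combination (-1) * rv1 + hz * (v.1 + w.1)
      · simp
        linear_combination (-1) * rv2 + hz * (v.2 + w.2)
    · refine ⟨1, 0, ?_⟩
      have hk := lattice_cover_two hc h0 (hs _ ha2) (hs u hu)
        (show 0 ≤ 2 * (1 - α - β - r * nu) by linarith) hr0 (by linarith)
      convert hk using 1
      ext
      · simp
        linear_combination (-1) * rv1 + hz * (v.1 + w.1) + (er - hz) * (u.1 + v.1)
      · simp
        linear_combination (-1) * rv2 + hz * (v.2 + w.2) + (er - hz) * (u.2 + v.2)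

/-- The lattice generated by `u+v`, `v+w` together with the symmetric hexagon `±u,±v,±w`
covers the plane. -/
theorem lattice_cover {K : Set (ℝ × ℝ)} (hc : Convex ℝ K) (hs : ∀ p ∈ K, -p ∈ K)
    {u v w : ℝ × ℝ} (hu : u ∈ K) (hv : v ∈ K) (hw : w ∈ K)
    (h1 : 0 ≤ cr u v) (h2 : 0 ≤ cr v w) (h3 : 0 ≤ cr u w)
    (hpos : 0 < cr u v + cr v w + cr u w) (p : ℝ × ℝ) :
    ∃ m n : ℤ, p - ((m : ℝ) • (u + v) + (n : ℝ) • (v + w)) ∈ K := by
  set D := cr u v + cr v w + cr u w with hD
  obtain ⟨A, hA⟩ : ∃ A, A = cr p (v + w) / D := ⟨_, rfl⟩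
  obtain ⟨B, hB⟩ : ∃ B, B = cr (u + v) p / D := ⟨_, rfl⟩
  have hp : p = A • (u + v) + B • (v + w) := by
    ext
    · simp only [Prod.fst_add, Prod.smul_fst, smul_eq_mul]
      rw [hA, hB]
      field_simp
      rw [hD]
      unfold cr
      simp only [Prod.fst_add, Prod.snd_add]
      ring
    · simp only [Prod.snd_add, Prod.smul_snd, smul_eq_mul]
      rw [hA, hB]
      field_simp
      rw [hD]
      unfold cr
      simp only [Prod.fst_add, Prod.snd_add]
      ring
  have a0 : 0 ≤ Int.fract A := Int.fract_nonneg A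
  have b0 : 0 ≤ Int.fract B := Int.fract_nonneg B
  have a1 : Int.fract A < 1 := Int.fract_lt_one A
  have b1 : Int.fract B < 1 := Int.fract_lt_one B
  rcases le_total (Int.fract A + Int.fract B) 1 with h | h
  · obtain ⟨m, n, hmn⟩ := lattice_cover_tri hc hs hu hv hw h1 h2 h3 hpos (Int.fract A)
      (Int.fract B) a0 b0 h
    refine ⟨⌊A⌋ + m, ⌊B⌋ + n, ?_⟩
    convert hmn using 1
    rw [hp]
    push_cast
    have e1 : A • (u + v) = (⌊A⌋ : ℝ) • (u + v) + Int.fract A • (u + v) := by
      rw [← add_smul, Int.floor_add_fract]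
    have e2 : B • (v + w) = (⌊B⌋ : ℝ) • (v + w) + Int.fract B • (v + w) := by
      rw [← add_smul, Int.floor_add_fract]
    rw [e1, e2]
    module
  · obtain ⟨m, n, hmn⟩ := lattice_cover_tri hc hs hu hv hw h1 h2 h3 hpos (1 - Int.fract A)
      (1 - Int.fract B) (by linarith) (by linarith) (by linarith)
    refine ⟨⌊A⌋ + 1 - m, ⌊B⌋ + 1 - n, ?_⟩
    have := hs _ hmn
    convert this using 1
    rw [hp]
    push_cast
    have e1 : A • (u + v) = (⌊A⌋ : ℝ) • (u + v) + Int.fract A • (u + v) := by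
      rw [← add_smul, Int.floor_add_fract]
    have e2 : B • (v + w) = (⌊B⌋ : ℝ) • (v + w) + Int.fract B • (v + w) := by
      rw [← add_smul, Int.floor_add_fract]
    rw [e1, e2]
    module

end FT722
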