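import Mathlib
import Pool.Agent.FTfinal.FT722_Stn2
import Pool.Agent.FTfinal.FT722_M_B35
set_option autoImplicit false
open MeasureTheory Set
namespace FT722.MP1

noncomputable section

variable {K C : Set (ℝ × ℝ)} {h : ℝ}


theorem cp_go_append {α : Type} (f : α → α → ℝ) (l1 : List α) : ∀ (c a b : α) (l2 : List α),
    cyc.go f c a (l1 ++ b :: l2) = cyc.go f b a l1 + cyc.go f c b l2 := by
  induction l1 with
  | nil => intro c a b l2; simp [cyc.go]
  | cons x l1 ih =>
    intro c a b l2
    simp only [List.cons_append, cyc.go]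
    rw [ih]
    ring

theorem cp_goAll_append {α : Type} (R : α → α → Prop) (l1 : List α) : ∀ (c a b : α) (l2 : List α),
    cycAll.go R c a (l1 ++ b :: l2) ↔ cycAll.go R b a l1 ∧ cycAll.go R c b l2 := by
  induction l1 with
  | nil => intro c a b l2; simp [cycAll.go]
  | cons x l1 ih =>
    intro c a b l2
    simp only [List.cons_append, cycAll.go]
    rw [ih, and_assoc]

theorem cp_find {α : Type} (R : α → α → Prop) : ∀ (t : List α) (a c : α), ¬ cycAll.go R c a t →
    (∃ pre s s' post, a :: t = pre ++ s :: s' :: post ∧ ¬ R s s') ∨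
    (∃ pre s, a :: t = pre ++ [s] ∧ ¬ R s c) := by
  intro t
  induction t with
  | nil =>
    intro a c h
    right
    exact ⟨[], a, rfl, by simpa [cycAll.go] using h⟩
  | cons b t ih =>
    intro a c h
    by_cases hab : R a b
    · have h2 : ¬ cycAll.go R c b t := fun h3 => h (by simp only [cycAll.go]; exact ⟨hab, h3⟩)
      rcases ih b c h2 with ⟨pre, s, s', post, e, hn⟩ | ⟨pre, s, e, hn⟩
      · left
        exact ⟨a :: pre, s, s', post, by rw [e]; rfl, hn⟩
      · right
        exact ⟨a :: pre, s, by rw [e]; rfl, hn⟩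
    · left
      exact ⟨[], a, b, t, rfl, hab⟩

theorem cp_rm {α : Type} (R : α → α → Prop) (l : List α) (hlen : 2 ≤ l.length)
    (hbad : ¬ cycAll R l) :
    ∃ (l1 : List α) (s s' s'' : α), ¬ R s s' ∧ l1.Sublist l ∧ l1.length < l.length ∧
      (∀ x ∈ l, x = s' ∨ x ∈ l1) ∧ s ∈ l1 ∧ s'' ∈ l1 ∧
      (∀ f : α → α → ℝ, cyc f l = cyc f l1 - f s s'' + f s s' + f s' s'') ∧
      (∀ Q : α → α → Prop, cycAll Q l → Q s s' ∧ Q s' s'' ∧ (Q s s'' → cycAll Q l1)) := by
  rcases l with _ | ⟨a, t⟩
  · simp at hlen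
  · rcases cp_find R t a a hbad with ⟨pre, s, s', post, e, hn⟩ | ⟨pre, s, e, hn⟩
    · rcases pre with _ | ⟨x, pre⟩
      · rw [List.nil_append, List.cons.injEq] at e
        obtain ⟨rfl, rfl⟩ := e
        rcases post with _ | ⟨y, post⟩
        · refine ⟨[a], a, s', a, hn, by simp, by simp, ?_, by simp, by simp, ?_, ?_⟩
          · intro x hx; simp at hx ⊢; tauto
          · intro f; simp only [cyc, cyc.go]; ring
          · intro Q hQ; simp only [cycAll, cycAll.go] at hQ ⊢; tauto
        · refine ⟨a :: y :: post, a, s', y, hn, ?_, by simp, ?_, by simp, by simp, ?_, ?_⟩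
          · exact List.Sublist.cons_cons a (List.Sublist.cons s' (List.Sublist.refl _))
          · intro x hx; simp at hx ⊢; tauto
          · intro f; simp only [cyc, cyc.go]; ring
          · intro Q hQ; simp only [cycAll, cycAll.go] at hQ ⊢; tauto
      · rw [List.cons_append, List.cons.injEq] at e
        obtain ⟨rfl, rfl⟩ := e
        rcases post with _ | ⟨y, post⟩
        · refine ⟨a :: (pre ++ [s]), s, s', a, hn, ?_, by simp, ?_, by simp, by simp, ?_, ?_⟩
          · refine List.Sublist.cons_cons a (List.Sublist.append_left ?_ pre)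
            exact List.Sublist.cons_cons s (List.nil_sublist _)
          · intro x hx; simp at hx ⊢; tauto
          · intro f
            simp only [cyc, cp_go_append, cyc.go]; ring
          · intro Q hQ
            simp only [cycAll, cp_goAll_append, cycAll.go] at hQ ⊢; tauto
        · refine ⟨a :: (pre ++ s :: y :: post), s, s', y, hn, ?_, by simp, ?_, by simp, by simp,
            ?_, ?_⟩
          · refine List.Sublist.cons_cons a (List.Sublist.append_left ?_ pre)
            exact List.Sublist.cons_cons s (List.Sublist.cons s' (List.Sublist.refl _))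
          · intro x hx; simp at hx ⊢; tauto
          · intro f
            simp only [cyc, cp_go_append, cyc.go]; ring
          · intro Q hQ
            simp only [cycAll, cp_goAll_append, cycAll.go] at hQ ⊢; tauto
    · rcases pre with _ | ⟨x, pre⟩
      · rw [List.nil_append, List.cons.injEq] at e
        obtain ⟨rfl, rfl⟩ := e
        simp at hlen
      · rw [List.cons_append, List.cons.injEq] at e
        obtain ⟨rfl, rfl⟩ := e
        rcases pre with _ | ⟨b, pre⟩
        · refine ⟨[s], s, a, s, hn, by simp, by simp, ?_, by simp, by simp, ?_, ?_⟩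
          · intro x hx; simp at hx ⊢; tauto
          · intro f; simp only [List.nil_append, cyc, cyc.go]; ring
          · intro Q hQ; simp only [List.nil_append, cycAll, cycAll.go] at hQ ⊢; tauto
        · refine ⟨b :: (pre ++ [s]), s, a, b, hn, ?_, by simp, ?_, by simp, by simp, ?_, ?_⟩
          · exact List.Sublist.cons a (List.Sublist.refl _)
          · intro x hx; simp at hx ⊢; tauto
          · intro f
            simp only [List.cons_append, cyc, cyc.go, cp_go_append]; ring
          · intro Q hQ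
            simp only [List.cons_append, cycAll, cycAll.go, cp_goAll_append] at hQ ⊢; tauto

theorem cp_count (t : List Stn) : ∀ (c a : Stn), cycAll.go (fun s s' => s.o ≠ s'.o) c a t →
    cyc.go (fun s s' => if s.o = s'.o then (0 : ℝ) else 1) c a t = t.length + 1 := by
  induction t with
  | nil =>
    intro c a h
    simp only [cycAll.go] at h
    simp [cyc.go, h]
  | cons b t ih =>
    intro c a h
    simp only [cycAll.go] at h
    simp only [cyc.go, ih c b h.2, if_neg h.1, List.length_cons]
    push_cast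
    ring

theorem cp_cr_self (p : ℝ × ℝ) : cr p p = 0 := by
  unfold cr; ring

theorem cp_merge (H : Hyp K C h) {s s' s'' : Stn} (h1 : Arc K C s s') (h2 : Arc K C s' s'')
    (ho : s.o = s'.o) : Arc K C s s'' where
  vC := h1.vC
  v1 := h1.v1
  v2 := by rw [ho]; exact h2.v2
  sup := h1.sup
  ang := h1.ang
  H := by
    intro p hp hneg
    by_cases c1 : cr (s'.v - s.v) (p - s.v) < 0
    · exact h1.H p hp c1
    · by_cases c2 : cr (s''.v - s'.v) (p - s'.v) < 0
      · rw [ho]; exact h2.H p hp c2
      · have m3 : s''.v - s.o ∈ K := by rw [ho]; exact h2.v2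
        have d1 := not_lt.1 c1
        have d2 := not_lt.1 c2
        refine mem_tri H.Kconv h1.v1 h1.v2 m3 ?_ ?_ ?_ ?_
        · have e : cr (s'.v - s.o - (s.v - s.o)) (p - s.o - (s.v - s.o)) =
              cr (s'.v - s.v) (p - s.v) := by
            unfold cr; simp only [Prod.fst_sub, Prod.snd_sub]; ring
          rw [e]; exact d1
        · have e : cr (s''.v - s.o - (s'.v - s.o)) (p - s.o - (s'.v - s.o)) =
              cr (s''.v - s'.v) (p - s'.v) := by
            unfold cr; simp only [Prod.fst_sub, Prod.snd_sub]; ring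
          rw [e]; exact d2
        · have e : cr (s.v - s.o - (s''.v - s.o)) (p - s.o - (s''.v - s.o)) =
              - cr (s''.v - s.v) (p - s.v) := by
            unfold cr; simp only [Prod.fst_sub, Prod.snd_sub]; ring
          rw [e]; linarith
        · have e : cr (s'.v - s.o - (s.v - s.o)) (s''.v - s.o - (s'.v - s.o)) =
              cr (s'.v - s.v) (p - s.v) + cr (s''.v - s'.v) (p - s'.v)
                - cr (s''.v - s.v) (p - s.v) := by
            unfold cr; simp only [Prod.fst_sub, Prod.snd_sub]; ring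
          rw [e]; linarith

theorem cp_haar : (volume : Measure (ℝ × ℝ)).IsAddHaarMeasure := by
  rw [Measure.volume_eq_prod]
  infer_instance

theorem cp_trans (K : Set (ℝ × ℝ)) (o : ℝ × ℝ) :
    volume ((fun p : ℝ × ℝ => p - o) ⁻¹' K) = volume K := by
  have := cp_haar
  have e : (fun p : ℝ × ℝ => p - o) = fun p => p + (-o) := by
    funext p; rw [sub_eq_add_neg]
  rw [e]
  exact measure_preimage_add_right volume (-o) K

theorem cp_line (w v : ℝ × ℝ) (hw : w ≠ 0) :
    volume {p : ℝ × ℝ | cr w (p - v) = 0} = 0 := by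
  have hH := cp_haar
  let φ : ℝ × ℝ →ₗ[ℝ] ℝ :=
    { toFun := fun p => cr w p
      map_add' := by intro a b; simp only [cr, Prod.fst_add, Prod.snd_add]; ring
      map_smul' := by
        intro c a
        simp only [cr, Prod.smul_fst, Prod.smul_snd, smul_eq_mul, RingHom.id_apply]; ring }
  have hne : LinearMap.ker φ ≠ ⊤ := by
    intro htop
    apply hw
    have m1 : ((0, 1) : ℝ × ℝ) ∈ LinearMap.ker φ := by rw [htop]; exact Submodule.mem_top
    have m2 : ((1, 0) : ℝ × ℝ) ∈ LinearMap.ker φ := by rw [htop]; exact Submodule.mem_top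
    rw [LinearMap.mem_ker] at m1 m2
    have m1' : cr w (0, 1) = 0 := m1
    have m2' : cr w (1, 0) = 0 := m2
    simp only [cr] at m1' m2'
    apply Prod.ext
    · show w.1 = 0
      linarith
    · show w.2 = 0
      linarith
  have h0 := Measure.addHaar_submodule (volume : Measure (ℝ × ℝ)) (LinearMap.ker φ) hne
  have e : {p : ℝ × ℝ | cr w (p - v) = 0} =
      (fun p : ℝ × ℝ => p - v) ⁻¹' ((LinearMap.ker φ : Submodule ℝ (ℝ × ℝ)) : Set (ℝ × ℝ)) := by
    ext p
    rfl
  rw [e, cp_trans]
  exact h0

theorem cp_alt (H : Hyp K C h) {s s' s'' : Stn} (h1 : Arc K C s s') (h2 : Arc K C s' s'')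
    (ho : s.o = s'.o) (hv : s''.v = s.v) (hne : s'.v ≠ s.v) : ar C ≤ ar K := by
  have hsub : C ⊆ ((fun p : ℝ × ℝ => p - s.o) ⁻¹' K) ∪
      {p : ℝ × ℝ | cr (s'.v - s.v) (p - s.v) = 0} := by
    intro p hp
    rcases lt_trichotomy (cr (s'.v - s.v) (p - s.v)) 0 with c | c | c
    · left; exact h1.H p hp c
    · right; exact c
    · left
      have e : cr (s''.v - s'.v) (p - s'.v) = - cr (s'.v - s.v) (p - s.v) := by
        rw [hv]
        unfold cr; simp only [Prod.fst_sub, Prod.snd_sub]; ring
      have := h2.H p hp (by rw [e]; linarith)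
      show p - s.o ∈ K
      rw [ho]; exact this
  have hle : volume C ≤ volume K := by
    refine (measure_mono hsub).trans ((measure_union_le _ _).trans ?_)
    rw [cp_line _ _ (sub_ne_zero.2 hne), add_zero, cp_trans]
  exact ENNReal.toReal_mono H.Kc.measure_lt_top.ne hle

theorem cp_gam (H : Hyp K C h) (z u z' u' z'' u'' : ℝ × ℝ) :
    gam K z u z'' u'' ≤ gam K z u z' u' + gam K z' u' z'' u'' := by
  have hfin : ∀ A : Set (ℝ × ℝ), volume (K ∩ A) ≠ ⊤ := fun A =>
    ((measure_mono inter_subset_left).trans_lt H.Kc.measure_lt_top).ne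
  unfold gam
  rw [← ENNReal.toReal_add (hfin _) (hfin _)]
  refine ENNReal.toReal_mono (ENNReal.add_ne_top.2 ⟨hfin _, hfin _⟩) ?_
  refine (measure_mono ?_).trans (measure_union_le _ _)
  rw [← inter_union_distrib_left]
  exact inter_subset_inter_right K (symmDiff_triangle (Hs z u) (Hs z' u') (Hs z'' u''))

theorem cp_step (H : Hyp K C h) (l : List Stn) (hl : cycAll (Arc K C) l)
    (hne : ∃ s ∈ l, ∃ s' ∈ l, s.v ≠ s'.v) (hbad : ¬ cycAll (fun s s' : Stn => s.o ≠ s'.o) l) :
    ar C ≤ ar K ∨ ∃ l1 : List Stn, l1.length < l.length ∧ l1.Sublist l ∧ cycAll (Arc K C) l1 ∧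
      (∃ s ∈ l1, ∃ s' ∈ l1, s.v ≠ s'.v) ∧ (RI K C h l → RI K C h l1) ∧
      cyc (fun s s' => cr s.o s'.o) l1 = cyc (fun s s' => cr s.o s'.o) l ∧
      cyc (fun s s' => if s.o = s'.o then (0 : ℝ) else 1) l1 =
        cyc (fun s s' => if s.o = s'.o then (0 : ℝ) else 1) l := by
  have hlen : 2 ≤ l.length := by
    obtain ⟨x, hx, y, hy, hxy⟩ := hne
    rcases l with _ | ⟨a, _ | ⟨b, t⟩⟩
    · simp at hx
    · simp at hx hy
      exact absurd (by rw [hx, hy]) hxy
    · simp
  obtain ⟨l1, s, s', s'', ho', hsub, hlt, hmem, hs1, hs2, hf, hQ⟩ := cp_rm _ l hlen hbad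
  have ho : s.o = s'.o := not_not.1 ho'
  obtain ⟨a1, a2, a3⟩ := hQ (Arc K C) hl
  by_cases hne1 : ∃ x ∈ l1, ∃ y ∈ l1, x.v ≠ y.v
  · right
    have f1 := hf (fun s s' => cr s.o s'.o)
    have f2 := hf (fun s s' => if s.o = s'.o then (0 : ℝ) else 1)
    have f3 := hf (fun s s' => if s.o = s'.o then 0 else h - kap K (ar K - h) s.o s'.o s'.v s'.u)
    have f4 := hf (fun s s' => gam K (s.v - s.o) s.u (s'.v - s.o) s'.u)
    rw [← ho, cp_cr_self] at f1
    rw [← ho, if_pos rfl] at f2 f3
    rw [← ho] at f4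
    have g := cp_gam H (s.v - s.o) s.u (s'.v - s.o) s'.u (s''.v - s.o) s''.u
    refine ⟨l1, hlt, hsub, a3 (cp_merge H a1 a2 ho), hne1, ?_, by linarith, by linarith⟩
    intro hRI
    unfold RI at hRI ⊢
    linarith
  · left
    push Not at hne1
    have hv : s''.v = s.v := hne1 s'' hs2 s hs1
    refine cp_alt H a1 a2 ho hv ?_
    intro hv'
    have hall : ∀ x ∈ l, x.v = s.v := by
      intro x hx
      rcases hmem x hx with rfl | h
      · exact hv'
      · exact hne1 x h s hs1
    obtain ⟨x, hx, y, hy, hxy⟩ := hne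
    exact hxy ((hall x hx).trans (hall y hy).symm)

theorem cp_angs {l l1 : List Stn} (hsub : l1.Sublist l) (h : angs l) : angs l1 :=
  ⟨(h.1).sublist (hsub.map _), fun s hs s' hs' => h.2 s (hsub.subset hs) s' (hsub.subset hs')⟩

theorem compress (H : Hyp K C h) (l : List Stn) (hl : cycAll (Arc K C) l) (hang : angs l)
    (hne : ∃ s ∈ l, ∃ s' ∈ l, s.v ≠ s'.v) :
    ar C ≤ ar K ∨ ∃ l' : List Stn, l'.Sublist l ∧ cycAll (Arc K C) l' ∧ angs l' ∧
      cycAll (fun s s' => s.o ≠ s'.o) l' ∧ (∃ s ∈ l', ∃ s' ∈ l', s.v ≠ s'.v) ∧ (RI K C h l → RI K C h l') ∧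
      cyc (fun s s' => cr s.o s'.o) l' = cyc (fun s s' => cr s.o s'.o) l ∧
      (l'.length : ℝ) = cyc (fun s s' => if s.o = s'.o then 0 else 1) l := by
  have key : ∀ n : ℕ, ∀ l : List Stn, l.length = n → cycAll (Arc K C) l → angs l →
      (∃ s ∈ l, ∃ s' ∈ l, s.v ≠ s'.v) →
      ar C ≤ ar K ∨ ∃ l' : List Stn, l'.Sublist l ∧ cycAll (Arc K C) l' ∧ angs l' ∧
      cycAll (fun s s' => s.o ≠ s'.o) l' ∧ (∃ s ∈ l', ∃ s' ∈ l', s.v ≠ s'.v) ∧
      (RI K C h l → RI K C h l') ∧
      cyc (fun s s' => cr s.o s'.o) l' = cyc (fun s s' => cr s.o s'.o) l ∧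
      (l'.length : ℝ) = cyc (fun s s' => if s.o = s'.o then 0 else 1) l := by
    intro n
    induction n using Nat.strong_induction_on with
    | _ n ih =>
      intro l hn hl hang hne
      by_cases hgood : cycAll (fun s s' : Stn => s.o ≠ s'.o) l
      · right
        refine ⟨l, List.Sublist.refl l, hl, hang, hgood, hne, id, rfl, ?_⟩
        rcases l with _ | ⟨a, t⟩
        · simp [cyc]
        · have := cp_count t a a hgood
          simp only [cyc, this, List.length_cons]
          push_cast
          rfl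
      · rcases cp_step H l hl hne hgood with h1 | ⟨l1, hlt, hsub, hl1, hne1, hRI, hc1, hc2⟩
        · exact Or.inl h1
        · rcases ih l1.length (by omega) l1 rfl hl1 (cp_angs hsub hang) hne1 with
            h1 | ⟨l', b1, b2, b3, b4, b5, b6, b7, b8⟩
          · exact Or.inl h1
          · right
            exact ⟨l', b1.trans hsub, b2, b3, b4, b5, fun h => b6 (hRI h), b7.trans hc1,
              b8.trans hc2⟩
  exact key l.length l rfl hl hang hne

end

end FT722.MP1

namespace FT722
alias compress := MP1.compress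
end FT722
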