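import Mathlib
import Pool.Agent.FTfinal.FT722_Stn2
set_option autoImplicit false
open MeasureTheory Set
namespace FT722
noncomputable section

/-- the convex body between two graphs -/
def reg (s0 s1 : ℝ) (cm cp : ℝ → ℝ) : Set (ℝ × ℝ) :=
  {p | p.1 ∈ Icc s0 s1 ∧ cm p.1 ≤ p.2 ∧ p.2 ≤ cp p.1}

/-- everything a sweep provides -/
structure Sweep {k : ℕ} (a : ℝ) (U cm cp : ℝ → ℝ) (c : Fin k → ℝ × ℝ) (s0 s1 : ℝ) (N : ℕ)
    (x : ℕ → ℝ) (L : ℕ → List (Fin k)) (bo tp : ℕ → Fin k) : Prop where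
  body : Body a U
  inj : Function.Injective c
  h01 : s0 < s1
  hcm : ConvexOn ℝ (Icc s0 s1) cm
  hcmc : ContinuousOn cm (Icc s0 s1)
  hcp : ConcaveOn ℝ (Icc s0 s1) cp
  hcpc : ContinuousOn cp (Icc s0 s1)
  hle : ∀ s ∈ Icc s0 s1, cm s ≤ cp s
  hN : 1 ≤ N
  hx0 : x 0 = s0
  hxN : x N = s1
  hx : ∀ j < N, x j < x (j + 1)
  valid : ∀ j < N, ∀ s ∈ Icc (x j) (x (j + 1)), Valid a U cm cp c (L j) s
  nodup : ∀ j < N, (L j).Nodup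
  hbo : ∀ j < N, bo j ∈ (L j).head?
  htp : ∀ j < N, tp j ∈ (L j).getLast?

/-- slopes of support lines -/
structure Slopes (cm cp : ℝ → ℝ) (s0 s1 : ℝ) (N : ℕ) (x μ ν : ℕ → ℝ) : Prop where
  hμ : ∀ j, 0 < j → j < N → ∀ s ∈ Icc s0 s1, cm (x j) + μ j * (s - x j) ≤ cm s
  hν : ∀ j, 0 < j → j < N → ∀ s ∈ Icc s0 s1, cp s ≤ cp (x j) + ν j * (s - x j)

end
end FT722
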