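import Mathlib
import Pool.Agent.FTfinal.FT722x_SwDefs
set_option autoImplicit false
open MeasureTheory Set
namespace FT722
noncomputable section

/-- number of notches -/
def nb {k : ℕ} (N : ℕ) (L : ℕ → List (Fin k)) (bo tp : ℕ → Fin k) : ℕ :=
  ((Finset.range (N - 1)).filter (fun j => bo j ≠ bo (j + 1))).card +
  ((Finset.range (N - 1)).filter (fun j => tp j ≠ tp (j + 1))).card +
  ((L 0).length - 1) + ((L (N - 1)).length - 1)

end
end FT722
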