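import Mathlib
import Pool.Agent.FTfinal.FT722_SweepDefs
set_option autoImplicit false
open MeasureTheory Set
namespace FT722.MP2

noncomputable section
variable {k : ℕ} {a : ℝ} {U cm cp : ℝ → ℝ} {c : Fin k → ℝ × ℝ} {h : ℝ} {s0 s1 : ℝ} {N : ℕ}
  {x μ ν : ℕ → ℝ} {L : ℕ → List (Fin k)} {bo tp : ℕ → Fin k}




theorem p2_mono (S : Sweep a U cm cp c s0 s1 N x L bo tp) :
    ∀ i j, i < j → j ≤ N → x i < x j := by
  intro i j hij hj
  induction j with
  | zero => omega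
  | succ j ih =>
    have h1 := S.hx j (by omega)
    rcases Nat.lt_or_ge i j with h | h
    · exact (ih h (by omega)).trans h1
    · have : i = j := by omega
      rw [this]; exact h1

theorem exists_slopes (S : Sweep a U cm cp c s0 s1 N x L bo tp) :
    ∃ μ ν : ℕ → ℝ, Slopes cm cp s0 s1 N x μ ν := by
  have hmem : ∀ j, 0 < j → j < N → s0 < x j ∧ x j < s1 := by
    intro j h0 hj
    have h1 := p2_mono S 0 j h0 hj.le
    have h2 := p2_mono S j N hj le_rfl
    rw [S.hx0] at h1; rw [S.hxN] at h2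
    exact ⟨h1, h2⟩
  have e1 : ∀ j : ℕ, ∃ m : ℝ, 0 < j → j < N → ∀ s ∈ Icc s0 s1, cm (x j) + m * (s - x j) ≤ cm s := by
    intro j
    by_cases hj : 0 < j ∧ j < N
    · obtain ⟨h1, h2⟩ := hmem j hj.1 hj.2
      obtain ⟨g, hg⟩ := exists_supergrad (x := x j) S.hcm.neg h1 h2
      refine ⟨-g, fun _ _ s hs => ?_⟩
      have := hg s hs
      simp only [Pi.neg_apply] at this
      linarith
    · exact ⟨0, fun a b => absurd ⟨a, b⟩ hj⟩
  have e2 : ∀ j : ℕ, ∃ m : ℝ, 0 < j → j < N → ∀ s ∈ Icc s0 s1, cp s ≤ cp (x j) + m * (s - x j) := by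
    intro j
    by_cases hj : 0 < j ∧ j < N
    · obtain ⟨h1, h2⟩ := hmem j hj.1 hj.2
      obtain ⟨g, hg⟩ := exists_supergrad (x := x j) S.hcp h1 h2
      exact ⟨g, fun _ _ s hs => hg s hs⟩
    · exact ⟨0, fun a b => absurd ⟨a, b⟩ hj⟩
  choose μ hμ using e1
  choose ν hν using e2
  exact ⟨μ, ν, ⟨hμ, hν⟩⟩

end

end FT722.MP2

namespace FT722
alias exists_slopes := MP2.exists_slopes
end FT722
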