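import Mathlib
import Pool.Agent.FTfinal.FT722_SweepDefs
set_option autoImplicit false
open MeasureTheory Set
namespace FT722.MP3

noncomputable section
variable {k : ℕ} {a : ℝ} {U cm cp : ℝ → ℝ} {c : Fin k → ℝ × ℝ} {h : ℝ} {s0 s1 : ℝ} {N : ℕ}
  {x μ ν : ℕ → ℝ} {L : ℕ → List (Fin k)} {bo tp : ℕ → Fin k}




theorem sa_go_append {α : Type} (R : α → α → Prop) (c b : α) (l' : List α) :
    ∀ (l : List α) (a : α), cycAll.go R c a (l ++ b :: l') ↔
      cycAll.go R b a l ∧ cycAll.go R c b l'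
  | [], _ => Iff.rfl
  | d :: l, a => by
    show (R a d ∧ cycAll.go R c d (l ++ b :: l')) ↔ (R a d ∧ cycAll.go R b d l) ∧ _
    rw [sa_go_append R c b l' l d, and_assoc]

theorem sa_go_range {α : Type} (R : α → α → Prop) (f : ℕ → α) :
    ∀ (n : ℕ) (b : α), (∀ j < n, R (f j) (f (j + 1))) → R (f n) b →
      cycAll.go R b (f 0) ((List.range n).map (fun j => f (j + 1)))
  | 0, _, _, h2 => h2
  | n + 1, b, h1, h2 => by
    rw [List.range_succ, List.map_append]
    exact (sa_go_append R b (f (n + 1)) [] _ _).2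
      ⟨sa_go_range R f n (f (n + 1)) (fun j hj => h1 j (by omega)) (h1 n (by omega)), h2⟩

theorem sa_go_rev {α : Type} (R : α → α → Prop) (g : ℕ → α) (b : α) (h2 : R (g 0) b) :
    ∀ n : ℕ, (∀ j < n, R (g (j + 1)) (g j)) →
      cycAll.go R b (g n) ((List.range n).reverse.map g)
  | 0, _ => h2
  | n + 1, h1 => by
    rw [List.range_succ, List.reverse_append]
    exact ⟨h1 n (by omega), sa_go_rev R g b h2 n (fun j hj => h1 j (by omega))⟩

theorem sa_right {α β ι : Type} (R : α → α → Prop) (vv : α → β) (st : ι → α) (e : ι → β)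
    (hst : ∀ i, vv (st i) = e i) (b : α) :
    ∀ (l : List ι) (i : ι), (i :: l).IsChain (fun i j => ∀ s', vv s' = e j → R (st i) s') →
      (∀ z ∈ (i :: l).getLast?, R (st z) b) → cycAll.go R b (st i) (l.map st)
  | [], i, _, h => h i (by simp)
  | j :: l, i, hc, h => by
    rw [List.isChain_cons_cons] at hc
    refine ⟨hc.1 _ (hst j), sa_right R vv st e hst b l j hc.2 ?_⟩
    intro z hz
    exact h z (by rwa [List.getLast?_cons_cons])

theorem sa_left {α β ι : Type} (R : α → α → Prop) (vv : α → β) (st : ι × ι → α) (e : ι → β)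
    (hst : ∀ q, vv (st q) = e q.2) (a : α) :
    ∀ (l : List ι) (i : ι) (b : α), vv b = e i →
      (i :: l).IsChain (fun i j => ∀ s', vv s' = e i → R (st (i, j)) s') →
      (∀ z ∈ (i :: l).getLast?, ∀ s', vv s' = e z → R a s') →
      cycAll.go R b a (((i :: l).zip l).reverse.map st)
  | [], i, b, hb, _, h => h i (by simp) b hb
  | j :: l, i, b, hb, hc, h => by
    rw [List.isChain_cons_cons] at hc
    have e1 : ((i :: j :: l).zip (j :: l)).reverse.map st =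
        (((j :: l).zip l).reverse.map st) ++ [st (i, j)] := by simp
    rw [e1]
    refine (sa_go_append R b (st (i, j)) [] _ _).2
      ⟨sa_left R vv st e hst a l j (st (i, j)) (hst _) hc.2 ?_, hc.1 b hb⟩
    intro z hz
    exact h z (by rwa [List.getLast?_cons_cons])

theorem sa_head {α : Type} {l : List α} {i : α} (h : i ∈ l.head?) : ∃ t, l = i :: t := by
  cases l with
  | nil => simp at h
  | cons a t =>
    simp only [List.head?_cons, Option.mem_some_iff] at h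
    exact ⟨t, by rw [h]⟩

theorem sa_last {α : Type} {l : List α} {i : α} (h : i ∈ l.getLast?) : i ∈ l := by
  rw [Option.mem_def, List.getLast?_eq_some_iff] at h
  obtain ⟨t, ht⟩ := h
  rw [ht]
  simp

theorem sa_conv3 {I : Set ℝ} {f : ℝ → ℝ} (hf : ConvexOn ℝ I f) {u v w : ℝ} (hu : u ∈ I)
    (hw : w ∈ I) (huv : u < v) (hvw : v < w) :
    (w - u) * f v ≤ (w - v) * f u + (v - u) * f w := by
  have h := hf.slope_mono_adjacent hu hw huv hvw
  rw [div_le_div_iff₀ (by linarith) (by linarith)] at h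
  nlinarith

theorem sa_x_mem (S : Sweep a U cm cp c s0 s1 N x L bo tp) {j : ℕ} (hj : j ≤ N) :
    x j ∈ Icc s0 s1 := by
  constructor
  · rw [← S.hx0]
    exact x_mono S.hx j hj 0 (Nat.zero_le _)
  · rw [← S.hxN]
    exact x_mono S.hx N le_rfl j hj

theorem sa_bo_mem (S : Sweep a U cm cp c s0 s1 N x L bo tp) {j : ℕ} (hj : j < N) {s : ℝ}
    (hs : s ∈ Icc (x j) (x (j + 1))) : dom a (c (bo j)) s ∧ lo U (c (bo j)) s ≤ cm s ∧
      cm s ≤ hi U (c (bo j)) s := by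
  obtain ⟨h1, -, h3, -⟩ := S.valid j hj s hs
  obtain ⟨t, ht⟩ := sa_head (S.hbo j hj)
  have h4 := h1 (bo j) (by rw [ht]; simp)
  exact ⟨h4.1, h3 _ (S.hbo j hj), h4.2.2.1⟩

theorem sa_tp_mem (S : Sweep a U cm cp c s0 s1 N x L bo tp) {j : ℕ} (hj : j < N) {s : ℝ}
    (hs : s ∈ Icc (x j) (x (j + 1))) : dom a (c (tp j)) s ∧ lo U (c (tp j)) s ≤ cp s ∧
      cp s ≤ hi U (c (tp j)) s := by
  obtain ⟨h1, -, -, h3⟩ := S.valid j hj s hs
  have h4 := h1 (tp j) (sa_last (S.htp j hj))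
  exact ⟨h4.1, h4.2.1, h3 _ (S.htp j hj)⟩

theorem sa_cr (p q v : ℝ × ℝ) (y z : ℝ) :
    cr (p - q) (v - (y, z)) = (p.1 - q.1) * (v.2 - z) - (p.2 - q.2) * (v.1 - y) := rfl

theorem sa_bot (S : Sweep a U cm cp c s0 s1 N x L bo tp) {j : ℕ} (hj : j < N) (u : ℝ × ℝ)
    (θ : ℝ) (hsup : ∀ p ∈ reg s0 s1 cm cp, 0 ≤ cr u (p - (x j, cm (x j))))
    (hang : ∃ r : ℝ, 0 < r ∧ u = (r * Real.cos θ, r * Real.sin θ)) (s' : Stn)
    (hs' : s'.v = (x (j + 1), cm (x (j + 1)))) :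
    Arc (KU a U) (reg s0 s1 cm cp) ⟨c (bo j), (x j, cm (x j)), u, θ⟩ s' := by
  have hjx := S.hx j hj
  have hxj := sa_x_mem S hj.le
  have hxj1 := sa_x_mem S (Nat.succ_le_of_lt hj)
  obtain ⟨a1, a2, a3⟩ := sa_bo_mem S hj ⟨le_rfl, hjx.le⟩
  obtain ⟨b1, b2, b3⟩ := sa_bo_mem S hj ⟨hjx.le, le_rfl⟩
  have hK1 : ((x j, cm (x j)) : ℝ × ℝ) - c (bo j) ∈ KU a U := mem_cell a1 a2 a3
  have hK2 : ((x (j + 1), cm (x (j + 1))) : ℝ × ℝ) - c (bo j) ∈ KU a U := mem_cell b1 b2 b3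
  refine ⟨⟨hxj, le_rfl, S.hle _ hxj⟩, hK1, by rw [hs']; exact hK2, hsup, hang, ?_⟩
  rintro ⟨p1, p2⟩ ⟨hp1, hp2, hp3⟩ hcr
  simp only at hp1 hp2 hp3
  rw [hs'] at hcr
  have hcr' : (x (j + 1) - x j) * (p2 - cm (x j)) -
      (cm (x (j + 1)) - cm (x j)) * (p1 - x j) < 0 := hcr
  have hd : 0 < x (j + 1) - x j := by linarith
  have hin : p1 ∈ Icc (x j) (x (j + 1)) := by
    by_contra hcon
    rw [mem_Icc, not_and_or, not_le, not_le] at hcon
    rcases hcon with h | h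
    · have h5 := sa_conv3 S.hcm hp1 hxj1 h hjx
      have h6 : (x (j + 1) - x j) * cm p1 ≤ (x (j + 1) - x j) * p2 :=
        mul_le_mul_of_nonneg_left hp2 hd.le
      nlinarith
    · have h5 := sa_conv3 S.hcm hxj hp1 hjx h
      have h6 : (x (j + 1) - x j) * cm p1 ≤ (x (j + 1) - x j) * p2 :=
        mul_le_mul_of_nonneg_left hp2 hd.le
      nlinarith
  obtain ⟨c1, c2, c3⟩ := sa_bo_mem S hj hin
  have hl := line_mem S.body (z := ((x j, cm (x j)) : ℝ × ℝ) - c (bo j))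
    (z' := ((x (j + 1), cm (x (j + 1))) : ℝ × ℝ) - c (bo j))
    (μ := (cm (x (j + 1)) - cm (x j)) / (x (j + 1) - x j)) hK1 hK2
    (by
      show (cm (x (j + 1)) - (c (bo j)).2) - (cm (x j) - (c (bo j)).2) =
        (cm (x (j + 1)) - cm (x j)) / (x (j + 1) - x j) *
          ((x (j + 1) - (c (bo j)).1) - (x j - (c (bo j)).1))
      have e : (x (j + 1) - (c (bo j)).1) - (x j - (c (bo j)).1) = x (j + 1) - x j := by ring
      rw [e, div_mul_cancel₀ _ hd.ne']
      ring)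
    (s := p1 - (c (bo j)).1)
    (by
      show p1 - (c (bo j)).1 ∈ uIcc (x j - (c (bo j)).1) (x (j + 1) - (c (bo j)).1)
      rw [mem_uIcc]
      left
      exact ⟨by linarith [hin.1], by linarith [hin.2]⟩)
  have hl2 : (cm (x j) - (c (bo j)).2) + (cm (x (j + 1)) - cm (x j)) / (x (j + 1) - x j) *
      (p1 - (c (bo j)).1 - (x j - (c (bo j)).1)) ≤ U (p1 - (c (bo j)).1) := hl.2.2
  have hq : p2 - cm (x j) < (cm (x (j + 1)) - cm (x j)) / (x (j + 1) - x j) *
      (p1 - (c (bo j)).1 - (x j - (c (bo j)).1)) := by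
    have e : p1 - (c (bo j)).1 - (x j - (c (bo j)).1) = p1 - x j := by ring
    rw [e, div_mul_eq_mul_div, lt_div_iff₀ hd]
    linarith
  refine mem_cell c1 (c2.trans hp2) ?_
  unfold hi
  linarith

theorem sa_top (S : Sweep a U cm cp c s0 s1 N x L bo tp) {j : ℕ} (hj : j < N) (u : ℝ × ℝ)
    (θ : ℝ) (hsup : ∀ p ∈ reg s0 s1 cm cp, 0 ≤ cr u (p - (x (j + 1), cp (x (j + 1)))))
    (hang : ∃ r : ℝ, 0 < r ∧ u = (r * Real.cos θ, r * Real.sin θ)) (s' : Stn)
    (hs' : s'.v = (x j, cp (x j))) :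
    Arc (KU a U) (reg s0 s1 cm cp) ⟨c (tp j), (x (j + 1), cp (x (j + 1))), u, θ⟩ s' := by
  have hjx := S.hx j hj
  have hxj := sa_x_mem S hj.le
  have hxj1 := sa_x_mem S (Nat.succ_le_of_lt hj)
  obtain ⟨a1, a2, a3⟩ := sa_tp_mem S hj ⟨le_rfl, hjx.le⟩
  obtain ⟨b1, b2, b3⟩ := sa_tp_mem S hj ⟨hjx.le, le_rfl⟩
  have hK1 : ((x j, cp (x j)) : ℝ × ℝ) - c (tp j) ∈ KU a U := mem_cell a1 a2 a3
  have hK2 : ((x (j + 1), cp (x (j + 1))) : ℝ × ℝ) - c (tp j) ∈ KU a U := mem_cell b1 b2 b3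
  refine ⟨⟨hxj1, S.hle _ hxj1, le_rfl⟩, hK2, by rw [hs']; exact hK1, hsup, hang, ?_⟩
  rintro ⟨p1, p2⟩ ⟨hp1, hp2, hp3⟩ hcr
  simp only at hp1 hp2 hp3
  rw [hs'] at hcr
  have hcr' : (x j - x (j + 1)) * (p2 - cp (x (j + 1))) -
      (cp (x j) - cp (x (j + 1))) * (p1 - x (j + 1)) < 0 := hcr
  have hd : 0 < x (j + 1) - x j := by linarith
  have hin : p1 ∈ Icc (x j) (x (j + 1)) := by
    by_contra hcon
    rw [mem_Icc, not_and_or, not_le, not_le] at hcon
    rcases hcon with h | h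
    · have h5 := sa_conv3 S.hcp.neg hp1 hxj1 h hjx
      simp only [Pi.neg_apply] at h5
      have h6 : (x (j + 1) - x j) * p2 ≤ (x (j + 1) - x j) * cp p1 :=
        mul_le_mul_of_nonneg_left hp3 hd.le
      nlinarith
    · have h5 := sa_conv3 S.hcp.neg hxj hp1 hjx h
      simp only [Pi.neg_apply] at h5
      have h6 : (x (j + 1) - x j) * p2 ≤ (x (j + 1) - x j) * cp p1 :=
        mul_le_mul_of_nonneg_left hp3 hd.le
      nlinarith
  obtain ⟨c1, c2, c3⟩ := sa_tp_mem S hj hin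
  have hl := line_mem S.body (z := ((x j, cp (x j)) : ℝ × ℝ) - c (tp j))
    (z' := ((x (j + 1), cp (x (j + 1))) : ℝ × ℝ) - c (tp j))
    (μ := (cp (x (j + 1)) - cp (x j)) / (x (j + 1) - x j)) hK1 hK2
    (by
      show (cp (x (j + 1)) - (c (tp j)).2) - (cp (x j) - (c (tp j)).2) =
        (cp (x (j + 1)) - cp (x j)) / (x (j + 1) - x j) *
          ((x (j + 1) - (c (tp j)).1) - (x j - (c (tp j)).1))
      have e : (x (j + 1) - (c (tp j)).1) - (x j - (c (tp j)).1) = x (j + 1) - x j := by ring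
      rw [e, div_mul_cancel₀ _ hd.ne']
      ring)
    (s := p1 - (c (tp j)).1)
    (by
      show p1 - (c (tp j)).1 ∈ uIcc (x j - (c (tp j)).1) (x (j + 1) - (c (tp j)).1)
      rw [mem_uIcc]
      left
      exact ⟨by linarith [hin.1], by linarith [hin.2]⟩)
  have hl2 : -U (-(p1 - (c (tp j)).1)) ≤ (cp (x j) - (c (tp j)).2) +
      (cp (x (j + 1)) - cp (x j)) / (x (j + 1) - x j) *
      (p1 - (c (tp j)).1 - (x j - (c (tp j)).1)) := hl.2.1
  have hq : (cp (x (j + 1)) - cp (x j)) / (x (j + 1) - x j) *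
      (p1 - (c (tp j)).1 - (x j - (c (tp j)).1)) < p2 - cp (x j) := by
    have e : p1 - (c (tp j)).1 - (x j - (c (tp j)).1) = p1 - x j := by ring
    rw [e, div_mul_eq_mul_div, div_lt_iff₀ hd]
    nlinarith
  refine mem_cell c1 ?_ (hp3.trans c3)
  unfold lo
  have e2 : (c (tp j)).1 - p1 = -(p1 - (c (tp j)).1) := by ring
  rw [e2]
  linarith

theorem sa_vert_r {K C : Set (ℝ × ℝ)} (o : ℝ × ℝ) (t y y' : ℝ) (hC : ∀ p ∈ C, p.1 ≤ t)
    (hv : (t, y) ∈ C) (h1 : ((t, y) : ℝ × ℝ) - o ∈ K) (h2 : ((t, y') : ℝ × ℝ) - o ∈ K)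
    (hy : y ≤ y') (s' : Stn) (hs' : s'.v = (t, y')) :
    Arc K C ⟨o, (t, y), (0, 1), Real.pi / 2⟩ s' := by
  refine ⟨hv, h1, by rw [hs']; exact h2, ?_, ⟨1, one_pos, by simp⟩, ?_⟩
  · intro p hp
    have h3 : cr ((0, 1) : ℝ × ℝ) (p - (t, y)) = 0 * (p.2 - y) - 1 * (p.1 - t) := rfl
    show 0 ≤ cr ((0, 1) : ℝ × ℝ) (p - (t, y))
    rw [h3]
    have := hC p hp
    linarith
  · intro p hp hcr
    exfalso
    rw [hs'] at hcr
    have h3 : (t - t) * (p.2 - y) - (y' - y) * (p.1 - t) < 0 := hcr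
    have h4 := hC p hp
    nlinarith [mul_nonneg (sub_nonneg.2 hy) (sub_nonneg.2 h4)]

theorem sa_vert_l {K C : Set (ℝ × ℝ)} (o : ℝ × ℝ) (t y y' θ : ℝ) (hC : ∀ p ∈ C, t ≤ p.1)
    (hv : (t, y) ∈ C) (h1 : ((t, y) : ℝ × ℝ) - o ∈ K) (h2 : ((t, y') : ℝ × ℝ) - o ∈ K)
    (hy : y' ≤ y) (hc : Real.cos θ = 0) (hs : Real.sin θ = -1) (s' : Stn)
    (hs' : s'.v = (t, y')) :
    Arc K C ⟨o, (t, y), (0, -1), θ⟩ s' := by
  refine ⟨hv, h1, by rw [hs']; exact h2, ?_, ⟨1, one_pos, ?_⟩, ?_⟩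
  · intro p hp
    have h3 : cr ((0, -1) : ℝ × ℝ) (p - (t, y)) = 0 * (p.2 - y) - (-1) * (p.1 - t) := rfl
    show 0 ≤ cr ((0, -1) : ℝ × ℝ) (p - (t, y))
    rw [h3]
    have := hC p hp
    linarith
  · show ((0, -1) : ℝ × ℝ) = (1 * Real.cos θ, 1 * Real.sin θ)
    rw [hc, hs]
    simp
  · intro p hp hcr
    exfalso
    rw [hs'] at hcr
    have h3 : (t - t) * (p.2 - y) - (y' - y) * (p.1 - t) < 0 := hcr
    have h4 := hC p hp
    nlinarith [mul_nonneg (sub_nonneg.2 hy) (sub_nonneg.2 h4)]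

theorem sa_ang_arctan (m : ℝ) : ∃ r : ℝ, 0 < r ∧
    ((1, m) : ℝ × ℝ) = (r * Real.cos (Real.arctan m), r * Real.sin (Real.arctan m)) := by
  have h : 0 < √(1 + m ^ 2) := by positivity
  refine ⟨√(1 + m ^ 2), h, ?_⟩
  rw [Real.cos_arctan, Real.sin_arctan]
  refine Prod.ext ?_ ?_
  · show 1 = √(1 + m ^ 2) * (1 / √(1 + m ^ 2))
    field_simp
  · show m = √(1 + m ^ 2) * (m / √(1 + m ^ 2))
    field_simp

theorem sa_ang_arctan' (m : ℝ) : ∃ r : ℝ, 0 < r ∧
    ((-1, -m) : ℝ × ℝ) = (r * Real.cos (Real.pi + Real.arctan m),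
      r * Real.sin (Real.pi + Real.arctan m)) := by
  obtain ⟨r, hr, h⟩ := sa_ang_arctan m
  refine ⟨r, hr, ?_⟩
  have h1 : (1 : ℝ) = r * Real.cos (Real.arctan m) := congrArg Prod.fst h
  have h2 : m = r * Real.sin (Real.arctan m) := congrArg Prod.snd h
  rw [add_comm, Real.cos_add_pi, Real.sin_add_pi]
  refine Prod.ext ?_ ?_
  · show -1 = r * -Real.cos (Real.arctan m)
    linarith
  · show -m = r * -Real.sin (Real.arctan m)
    linarith

theorem sa_max_mem (S : Sweep a U cm cp c s0 s1 N x L bo tp) {t : ℝ} (ht : t ∈ Icc s0 s1)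
    {i : Fin k} (h1 : lo U (c i) t ≤ cp t) :
    (t, max (lo U (c i) t) (cm t)) ∈ reg s0 s1 cm cp :=
  ⟨ht, le_max_right _ _, max_le h1 (S.hle _ ht)⟩


theorem stns_arc (S : Sweep a U cm cp c s0 s1 N x L bo tp) (hs : Slopes cm cp s0 s1 N x μ ν) :
    cycAll (Arc (KU a U) (reg s0 s1 cm cp)) (stns U cm cp c N x μ ν L bo tp) := by 
  obtain ⟨M, rfl⟩ : ∃ M, N = M + 1 := ⟨N - 1, by have := S.hN; omega⟩
  have hregr : ∀ p ∈ reg s0 s1 cm cp, p.1 ≤ x (M + 1) := fun p hp => by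
    rw [S.hxN]; exact hp.1.2
  have hregl : ∀ p ∈ reg s0 s1 cm cp, x 0 ≤ p.1 := fun p hp => by
    rw [S.hx0]; exact hp.1.1
  have hxM := sa_x_mem S (le_refl (M + 1))
  have hx0m := sa_x_mem S (Nat.zero_le (M + 1))
  unfold stns
  simp only [Nat.add_sub_cancel, List.cons_append]
  -- the four parts
  refine (sa_go_append _ _ _ _ _ _).2 ⟨(sa_go_append _ _ _ _ _ _).2
    ⟨(sa_go_append _ _ _ _ _ _).2 ⟨?_, ?_⟩, ?_⟩, ?_⟩
  · -- bottom
    let f : ℕ → Stn := fun j => if j = 0 then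
        ⟨c (bo 0), (x 0, cm (x 0)), (0, -1), -(Real.pi / 2)⟩ else
        ⟨c (bo j), (x j, cm (x j)), (1, μ j), Real.arctan (μ j)⟩
    have hf : ∀ j < M + 1, ∀ s' : Stn, s'.v = (x (j + 1), cm (x (j + 1))) →
        Arc (KU a U) (reg s0 s1 cm cp) (f j) s' := by
      intro j hj s' hs'
      by_cases h0 : j = 0
      · subst h0
        show Arc (KU a U) (reg s0 s1 cm cp)
          ⟨c (bo 0), (x 0, cm (x 0)), (0, -1), -(Real.pi / 2)⟩ s'
        refine sa_bot S hj _ _ ?_ ⟨1, one_pos, by simp⟩ s' hs'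
        intro p hp
        have h3 : cr ((0, -1) : ℝ × ℝ) (p - (x 0, cm (x 0))) =
          0 * (p.2 - cm (x 0)) - (-1) * (p.1 - x 0) := rfl
        rw [h3]
        have := hregl p hp
        linarith
      · have e : f j = ⟨c (bo j), (x j, cm (x j)), (1, μ j), Real.arctan (μ j)⟩ := if_neg h0
        rw [e]
        refine sa_bot S hj _ _ ?_ (sa_ang_arctan _) s' hs'
        intro p hp
        have h3 : cr ((1, μ j) : ℝ × ℝ) (p - (x j, cm (x j))) =
          1 * (p.2 - cm (x j)) - μ j * (p.1 - x j) := rfl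
        rw [h3]
        have h4 := hs.hμ j (by omega) hj p.1 hp.1
        have h5 := hp.2.1
        linarith
    exact sa_go_range (Arc (KU a U) (reg s0 s1 cm cp)) f M _
      (fun j hj => hf j (by omega) (f (j + 1)) rfl) (hf M (by omega) _ rfl)
  · -- right edge
    obtain ⟨l, hl⟩ := sa_head (S.hbo M (by omega))
    obtain ⟨V1, V2, V3, V4⟩ := S.valid M (by omega) (x (M + 1)) ⟨(S.hx M (by omega)).le, le_rfl⟩
    have hlo0 := V3 _ (S.hbo M (by omega))
    have e0 : (x (M + 1), cm (x (M + 1))) =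
        (x (M + 1), max (lo U (c (bo M)) (x (M + 1))) (cm (x (M + 1)))) := by
      rw [max_eq_right hlo0]
    rw [e0, hl, List.tail_cons]
    rw [hl] at V1 V2
    refine sa_right (Arc (KU a U) (reg s0 s1 cm cp)) Stn.v
      (fun i => ⟨c i, (x (M + 1), max (lo U (c i) (x (M + 1))) (cm (x (M + 1)))), (0, 1),
        Real.pi / 2⟩)
      (fun i => (x (M + 1), max (lo U (c i) (x (M + 1))) (cm (x (M + 1))))) (fun _ => rfl) _
      l (bo M) ?_ ?_
    · refine List.IsChain.imp_of_mem_imp (fun i j hi hj h => ?_) V2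
      intro s' hs'
      have w1 := V1 i hi
      have w2 := V1 j hj
      refine sa_vert_r (c i) (x (M + 1)) _ _ hregr (sa_max_mem S hxM w1.2.1) ?_ ?_ h.1 s' hs'
      · exact mem_cell w1.1 (le_max_left _ _) (max_le w1.2.2.2 w1.2.2.1)
      · exact mem_cell w1.1 ((le_max_left _ _).trans h.1) (h.2.2.trans (min_le_left _ _))
    · intro z hz
      rw [← hl] at hz
      have hzm : z ∈ bo M :: l := by rw [← hl]; exact sa_last hz
      have w1 := V1 z hzm
      have hz' : z = tp M := by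
        have h5 := S.htp M (by omega)
        rw [Option.mem_def] at hz h5
        rw [hz] at h5
        exact Option.some.inj h5
      refine sa_vert_r (c z) (x (M + 1)) _ (cp (x (M + 1))) hregr (sa_max_mem S hxM w1.2.1)
        ?_ ?_ (max_le w1.2.1 (S.hle _ hxM)) _ rfl
      · exact mem_cell w1.1 (le_max_left _ _) (max_le w1.2.2.2 w1.2.2.1)
      · exact mem_cell w1.1 w1.2.1 (V4 z hz)
  · -- top
    let g : ℕ → Stn := fun j => if j = M then
        ⟨c (tp M), (x (M + 1), cp (x (M + 1))), (0, 1), Real.pi / 2⟩ else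
        ⟨c (tp j), (x (j + 1), cp (x (j + 1))), (-1, -ν (j + 1)),
          Real.pi + Real.arctan (ν (j + 1))⟩
    have hgv : ∀ j, (g j).v = (x (j + 1), cp (x (j + 1))) := by
      intro j
      by_cases h0 : j = M
      · have e : g j = ⟨c (tp M), (x (M + 1), cp (x (M + 1))), (0, 1), Real.pi / 2⟩ := if_pos h0
        rw [e, h0]
      · have e : g j = ⟨c (tp j), (x (j + 1), cp (x (j + 1))), (-1, -ν (j + 1)),
          Real.pi + Real.arctan (ν (j + 1))⟩ := if_neg h0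
        rw [e]
    have hg : ∀ j < M + 1, ∀ s' : Stn, s'.v = (x j, cp (x j)) →
        Arc (KU a U) (reg s0 s1 cm cp) (g j) s' := by
      intro j hj s' hs'
      by_cases h0 : j = M
      · have e : g j = ⟨c (tp j), (x (j + 1), cp (x (j + 1))), (0, 1), Real.pi / 2⟩ := by
          have e' : g j = ⟨c (tp M), (x (M + 1), cp (x (M + 1))), (0, 1), Real.pi / 2⟩ :=
            if_pos h0
          rw [e', h0]
        rw [e]
        refine sa_top S hj _ _ ?_ ⟨1, one_pos, by simp⟩ s' hs'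
        intro p hp
        have h3 : cr ((0, 1) : ℝ × ℝ) (p - (x (j + 1), cp (x (j + 1)))) =
          0 * (p.2 - cp (x (j + 1))) - 1 * (p.1 - x (j + 1)) := rfl
        rw [h3, h0]
        have := hregr p hp
        linarith
      · have e : g j = ⟨c (tp j), (x (j + 1), cp (x (j + 1))), (-1, -ν (j + 1)),
          Real.pi + Real.arctan (ν (j + 1))⟩ := if_neg h0
        rw [e]
        refine sa_top S hj _ _ ?_ (sa_ang_arctan' _) s' hs'
        intro p hp
        have h3 : cr ((-1, -ν (j + 1)) : ℝ × ℝ) (p - (x (j + 1), cp (x (j + 1)))) =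
          -1 * (p.2 - cp (x (j + 1))) - (-ν (j + 1)) * (p.1 - x (j + 1)) := rfl
        rw [h3]
        have h4 := hs.hν (j + 1) (by omega) (by omega) p.1 hp.1
        have h5 := hp.2.2
        linarith
    have hmap : (List.range M).reverse.map (fun j =>
        (⟨c (tp j), (x (j + 1), cp (x (j + 1))), (-1, -ν (j + 1)),
          Real.pi + Real.arctan (ν (j + 1))⟩ : Stn)) = (List.range M).reverse.map g := by
      apply List.map_congr_left
      intro j hj
      rw [List.mem_reverse, List.mem_range] at hj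
      exact (if_neg (by omega)).symm
    have hgM : g M = ⟨c (tp M), (x (M + 1), cp (x (M + 1))), (0, 1), Real.pi / 2⟩ := if_pos rfl
    rw [hmap, ← hgM]
    exact sa_go_rev (Arc (KU a U) (reg s0 s1 cm cp)) g _ (hg 0 (by omega) _ rfl) M
      (fun j hj => hg (j + 1) (by omega) (g j) (hgv j))
  · -- left edge
    obtain ⟨l, hl⟩ := sa_head (S.hbo 0 (by omega))
    obtain ⟨V1, V2, V3, V4⟩ := S.valid 0 (by omega) (x 0) ⟨le_rfl, (S.hx 0 (by omega)).le⟩
    have hlo0 := V3 _ (S.hbo 0 (by omega))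
    have hcos : Real.cos (3 * Real.pi / 2) = 0 := by
      rw [show 3 * Real.pi / 2 = Real.pi / 2 + Real.pi by ring, Real.cos_add_pi]; simp
    have hsin : Real.sin (3 * Real.pi / 2) = -1 := by
      rw [show 3 * Real.pi / 2 = Real.pi / 2 + Real.pi by ring, Real.sin_add_pi]; simp
    have V4' : ∀ z ∈ (bo 0 :: l).getLast?, cp (x 0) ≤ hi U (c z) (x 0) := by
      rw [← hl]; exact V4
    rw [hl, List.tail_cons]
    rw [hl] at V1 V2
    have htp : tp 0 ∈ (bo 0 :: l).getLast? := by rw [← hl]; exact S.htp 0 (by omega)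
    refine sa_left (Arc (KU a U) (reg s0 s1 cm cp)) Stn.v
      (fun q => ⟨c q.1, (x 0, max (lo U (c q.2) (x 0)) (cm (x 0))), (0, -1),
        3 * Real.pi / 2⟩)
      (fun i => (x 0, max (lo U (c i) (x 0)) (cm (x 0)))) (fun _ => rfl) _
      l (bo 0) _ ?_ ?_ ?_
    · show (x 0, cm (x 0)) = (x 0, max (lo U (c (bo 0)) (x 0)) (cm (x 0)))
      rw [max_eq_right hlo0]
    · refine List.IsChain.imp_of_mem_imp (fun i j hi hj h => ?_) V2
      intro s' hs'
      have w1 := V1 i hi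
      have w2 := V1 j hj
      refine sa_vert_l (c i) (x 0) _ _ _ hregl (sa_max_mem S hx0m w2.2.1) ?_ ?_ h.1 hcos hsin
        s' hs'
      · exact mem_cell w1.1 ((le_max_left _ _).trans h.1) (h.2.2.trans (min_le_left _ _))
      · exact mem_cell w1.1 (le_max_left _ _) (max_le w1.2.2.2 w1.2.2.1)
    · intro z hz s' hs'
      have w1 := V1 z (sa_last hz)
      have hz' : z = tp 0 := by
        rw [Option.mem_def] at hz htp
        rw [hz] at htp
        exact Option.some.inj htp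
      rw [← hz']
      refine sa_vert_l (c z) (x 0) _ _ _ hregl ⟨hx0m, S.hle _ hx0m, le_rfl⟩ ?_ ?_
        (max_le w1.2.1 (S.hle _ hx0m)) hcos hsin s' hs'
      · exact mem_cell w1.1 w1.2.1 (V4' z hz)
      · exact mem_cell w1.1 (le_max_left _ _) (max_le w1.2.2.2 w1.2.2.1)

end

end FT722.MP3

namespace FT722
alias stns_arc := MP3.stns_arc
end FT722
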