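import Mathlib
import Pool.Agent.FTfinal.FT722_SweepDefs
set_option autoImplicit false
open MeasureTheory Set
namespace FT722.MP4

noncomputable section
variable {k : ℕ} {a : ℝ} {U cm cp : ℝ → ℝ} {c : Fin k → ℝ × ℝ} {h : ℝ} {s0 s1 : ℝ} {N : ℕ}
  {x μ ν : ℕ → ℝ} {L : ℕ → List (Fin k)} {bo tp : ℕ → Fin k}




theorem stns_x_mono (S : Sweep a U cm cp c s0 s1 N x L bo tp) :
    ∀ j, j ≤ N → ∀ i, i < j → x i < x j := by
  intro j
  induction j with
  | zero => intro _ i hi; omega
  | succ n ih =>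
    intro hn i hi
    have h1 := S.hx n (by omega)
    rcases Nat.lt_succ_iff_lt_or_eq.1 hi with h | h
    · exact (ih (by omega) i h).trans h1
    · rw [h]; exact h1

theorem stns_x_mem (S : Sweep a U cm cp c s0 s1 N x L bo tp) (j : ℕ) (hj : j ≤ N) :
    x j ∈ Icc s0 s1 := by
  have hm := stns_x_mono S
  constructor
  · rcases Nat.eq_zero_or_pos j with h | h
    · rw [h, S.hx0]
    · rw [← S.hx0]; exact (hm j hj 0 h).le
  · rcases Nat.eq_or_lt_of_le hj with h | h
    · rw [h, S.hxN]
    · rw [← S.hxN]; exact (hm N le_rfl j h).le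

theorem stns_mu_mono (S : Sweep a U cm cp c s0 s1 N x L bo tp) (hs : Slopes cm cp s0 s1 N x μ ν)
    (i j : ℕ) (hi : 0 < i) (hij : i < j) (hj : j < N) : μ i ≤ μ j ∧ ν j ≤ ν i := by
  have hx := stns_x_mono S j hj.le i hij
  have mi := stns_x_mem S i (by omega)
  have mj := stns_x_mem S j (by omega)
  have a1 := hs.hμ i hi (by omega) (x j) mj
  have a2 := hs.hμ j (by omega) hj (x i) mi
  have b1 := hs.hν i hi (by omega) (x j) mj
  have b2 := hs.hν j (by omega) hj (x i) mi
  constructor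
  · by_contra h
    push Not at h
    have : 0 < (μ i - μ j) * (x j - x i) := mul_pos (by linarith) (by linarith)
    nlinarith
  · by_contra h
    push Not at h
    have : 0 < (ν j - ν i) * (x j - x i) := mul_pos (by linarith) (by linarith)
    nlinarith

theorem stns_const_pw {α : Type} (l : List α) (f : α → Stn) (t : ℝ) (hf : ∀ a, (f a).θ = t) (s : Stn)
    (hs : s.θ = t) :
    ((s :: l.map f).map Stn.θ).Pairwise (· ≤ ·) ∧ ∀ y ∈ (s :: l.map f).map Stn.θ, y = t := by
  have h : ∀ y ∈ (s :: l.map f).map Stn.θ, y = t := by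
    intro y hy
    rw [List.map_cons, List.mem_cons, List.map_map, List.mem_map] at hy
    rcases hy with rfl | ⟨b, _, rfl⟩
    · exact hs
    · exact hf b
  refine ⟨?_, h⟩
  apply List.Pairwise.imp_of_mem (R := fun _ _ => True)
  · intro p q hp hq _
    rw [h p hp, h q hq]
  · exact List.pairwise_of_forall (fun _ _ => trivial)

theorem stns_angs (S : Sweep a U cm cp c s0 s1 N x L bo tp) (hs : Slopes cm cp s0 s1 N x μ ν) :
    angs (stns U cm cp c N x μ ν L bo tp) := by
  have hpi := Real.pi_pos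
  -- bottom
  obtain ⟨B, hB⟩ : ∃ B : List Stn, B = (⟨c (bo 0), (x 0, cm (x 0)), (0, -1), -(Real.pi / 2)⟩ ::
    (List.range (N - 1)).map (fun j =>
      (⟨c (bo (j + 1)), (x (j + 1), cm (x (j + 1))), (1, μ (j + 1)), Real.arctan (μ (j + 1))⟩ : Stn))) :=
    ⟨_, rfl⟩
  obtain ⟨R, hR⟩ : ∃ R : List Stn, R = (⟨c (bo (N - 1)), (x N, cm (x N)), (0, 1), Real.pi / 2⟩ ::
    (L (N - 1)).tail.map (fun i =>
      (⟨c i, (x N, max (lo U (c i) (x N)) (cm (x N))), (0, 1), Real.pi / 2⟩ : Stn))) := ⟨_, rfl⟩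
  obtain ⟨T, hT⟩ : ∃ T : List Stn, T = (⟨c (tp (N - 1)), (x N, cp (x N)), (0, 1), Real.pi / 2⟩ ::
    (List.range (N - 1)).reverse.map (fun j =>
      (⟨c (tp j), (x (j + 1), cp (x (j + 1))), (-1, -ν (j + 1)),
        Real.pi + Real.arctan (ν (j + 1))⟩ : Stn))) := ⟨_, rfl⟩
  obtain ⟨E, hE⟩ : ∃ E : List Stn, E = (⟨c (tp 0), (x 0, cp (x 0)), (0, -1), 3 * Real.pi / 2⟩ ::
    ((L 0).zip (L 0).tail).reverse.map (fun q =>
      (⟨c q.1, (x 0, max (lo U (c q.2) (x 0)) (cm (x 0))), (0, -1), 3 * Real.pi / 2⟩ : Stn))) :=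
    ⟨_, rfl⟩
  have hl : stns U cm cp c N x μ ν L bo tp = B ++ R ++ T ++ E := by
    rw [hB, hR, hT, hE]
    rfl
  have pR := stns_const_pw (L (N - 1)).tail (fun i =>
      (⟨c i, (x N, max (lo U (c i) (x N)) (cm (x N))), (0, 1), Real.pi / 2⟩ : Stn)) (Real.pi / 2)
      (fun _ => rfl) ⟨c (bo (N - 1)), (x N, cm (x N)), (0, 1), Real.pi / 2⟩ rfl
  rw [← hR] at pR
  have pE := stns_const_pw ((L 0).zip (L 0).tail).reverse (fun q =>
      (⟨c q.1, (x 0, max (lo U (c q.2) (x 0)) (cm (x 0))), (0, -1), 3 * Real.pi / 2⟩ : Stn))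
      (3 * Real.pi / 2) (fun _ => rfl) ⟨c (tp 0), (x 0, cp (x 0)), (0, -1), 3 * Real.pi / 2⟩ rfl
  rw [← hE] at pE
  have bB : ∀ y ∈ B.map Stn.θ, -(Real.pi / 2) ≤ y ∧ y ≤ Real.pi / 2 := by
    intro y hy
    rw [hB, List.map_cons, List.mem_cons, List.map_map, List.mem_map] at hy
    rcases hy with rfl | ⟨j, _, rfl⟩
    · exact ⟨le_rfl, by change -(Real.pi / 2) ≤ Real.pi / 2; linarith⟩
    · exact ⟨(Real.neg_pi_div_two_lt_arctan _).le, (Real.arctan_lt_pi_div_two _).le⟩
  have bT : ∀ y ∈ T.map Stn.θ, Real.pi / 2 ≤ y ∧ y ≤ 3 * Real.pi / 2 := by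
    intro y hy
    rw [hT, List.map_cons, List.mem_cons, List.map_map, List.mem_map] at hy
    rcases hy with rfl | ⟨j, _, rfl⟩
    · exact ⟨le_rfl, by change Real.pi / 2 ≤ 3 * Real.pi / 2; linarith⟩
    · have h1 := (Real.neg_pi_div_two_lt_arctan (ν (j + 1)))
      have h2 := (Real.arctan_lt_pi_div_two (ν (j + 1)))
      change Real.pi / 2 ≤ Real.pi + Real.arctan (ν (j + 1)) ∧
        Real.pi + Real.arctan (ν (j + 1)) ≤ 3 * Real.pi / 2
      exact ⟨by linarith, by linarith⟩
  have pB : (B.map Stn.θ).Pairwise (· ≤ ·) := by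
    rw [hB, List.map_cons, List.pairwise_cons]
    constructor
    · intro y hy
      rw [List.map_map, List.mem_map] at hy
      obtain ⟨j, _, rfl⟩ := hy
      exact (Real.neg_pi_div_two_lt_arctan _).le
    · rw [List.map_map, List.pairwise_map]
      apply List.Pairwise.imp_of_mem _ (List.pairwise_lt_range (n := N - 1))
      intro i j hi hj hij
      rw [List.mem_range] at hi hj
      exact Real.arctan_mono (stns_mu_mono S hs (i + 1) (j + 1) (by omega) (by omega) (by omega)).1
  have pT : (T.map Stn.θ).Pairwise (· ≤ ·) := by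
    rw [hT, List.map_cons, List.pairwise_cons]
    constructor
    · intro y hy
      rw [List.map_map, List.mem_map] at hy
      obtain ⟨j, _, rfl⟩ := hy
      have h1 := (Real.neg_pi_div_two_lt_arctan (ν (j + 1)))
      change Real.pi / 2 ≤ Real.pi + Real.arctan (ν (j + 1))
      linarith
    · rw [List.map_map, List.pairwise_map, List.pairwise_reverse]
      apply List.Pairwise.imp_of_mem _ (List.pairwise_lt_range (n := N - 1))
      intro i j hi hj hij
      rw [List.mem_range] at hi hj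
      have := Real.arctan_mono
        (stns_mu_mono S hs (i + 1) (j + 1) (by omega) (by omega) (by omega)).2
      change Real.pi + Real.arctan (ν (j + 1)) ≤ Real.pi + Real.arctan (ν (i + 1))
      linarith
  rw [hl]
  have hall : ∀ s ∈ B ++ R ++ T ++ E, -(Real.pi / 2) ≤ s.θ ∧ s.θ ≤ 3 * Real.pi / 2 := by
    intro s hs'
    rw [List.mem_append, List.mem_append, List.mem_append] at hs'
    rcases hs' with ((h | h) | h) | h
    · have := bB _ (List.mem_map_of_mem h)
      exact ⟨this.1, by linarith [this.2]⟩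
    · have := pR.2 _ (List.mem_map_of_mem h)
      rw [this]
      exact ⟨by linarith, by linarith⟩
    · have := bT _ (List.mem_map_of_mem h)
      exact ⟨by linarith [this.1], this.2⟩
    · have := pE.2 _ (List.mem_map_of_mem h)
      rw [this]
      exact ⟨by linarith, by linarith⟩
  refine ⟨?_, fun s h s' h' => ?_⟩
  · rw [List.map_append, List.map_append, List.map_append, List.pairwise_append,
      List.pairwise_append, List.pairwise_append]
    refine ⟨⟨⟨pB, pR.1, ?_⟩, pT, ?_⟩, pE.1, ?_⟩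
    · intro y hy z hz
      rw [pR.2 z hz]
      exact (bB y hy).2
    · intro y hy z hz
      refine le_trans ?_ (bT z hz).1
      rcases List.mem_append.1 hy with h | h
      · exact (bB y h).2
      · rw [pR.2 y h]
    · intro y hy z hz
      rw [pE.2 z hz]
      rcases List.mem_append.1 hy with h | h
      · rcases List.mem_append.1 h with h | h
        · linarith [(bB y h).2]
        · rw [pR.2 y h]; linarith
      · exact (bT y h).2
  · have h1 := (hall s h).1
    have h2 := (hall s' h').2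
    linarith

end

end FT722.MP4

namespace FT722
alias stns_angs := MP4.stns_angs
end FT722
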