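import Mathlib
import Pool.Agent.FTfinal.FT722_SweepDefs
set_option autoImplicit false
open MeasureTheory Set
namespace FT722.MP56

noncomputable section
variable {k : ℕ} {a : ℝ} {U cm cp : ℝ → ℝ} {c : Fin k → ℝ × ℝ} {h : ℝ} {s0 s1 : ℝ} {N : ℕ}
  {x μ ν : ℕ → ℝ} {L : ℕ → List (Fin k)} {bo tp : ℕ → Fin k}





/-- path sum -/
def PS56 {α : Type} (G : α → α → ℝ) : List α → ℝ
  | [] => 0
  | [_] => 0
  | a :: b :: l => G a b + PS56 G (b :: l)

theorem PS56_split {α : Type} (G : α → α → ℝ) (l : List α) (a b : α) (l' : List α) :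
    PS56 G (l ++ a :: b :: l') = PS56 G (l ++ [a]) + G a b + PS56 G (b :: l') := by
  induction l with
  | nil => simp [PS56]
  | cons y l ih =>
    cases l with
    | nil => simp [PS56, add_assoc]
    | cons z l =>
      have h1 : PS56 G (y :: z :: l ++ a :: b :: l') =
        G y z + PS56 G (z :: l ++ a :: b :: l') := rfl
      have h2 : PS56 G (y :: z :: l ++ [a]) = G y z + PS56 G (z :: l ++ [a]) := rfl
      rw [h1, h2, ih]
      ring

theorem PS56_join {α : Type} (G : α → α → ℝ) (A B : List α) (a b : α) (ha : a ∈ A.getLast?)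
    (hb : b ∈ B.head?) (h : G a b = 0) : PS56 G (A ++ B) = PS56 G A + PS56 G B := by
  obtain ⟨A', rfl⟩ : ∃ A', A = A' ++ [a] := by
    rcases List.eq_nil_or_concat A with rfl | ⟨A', a', rfl⟩
    · simp at ha
    · refine ⟨A', ?_⟩
      simp at ha
      rw [List.concat_eq_append, ha]
  obtain ⟨B', rfl⟩ : ∃ B', B = b :: B' := by
    cases B with
    | nil => simp at hb
    | cons b' B' =>
      simp at hb
      exact ⟨B', by rw [hb]⟩
  rw [List.append_assoc, List.singleton_append, PS56_split, h]
  ring

theorem PS56_snoc {α : Type} (G : α → α → ℝ) (A : List α) (a b : α) :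
    PS56 G (A ++ [a] ++ [b]) = PS56 G (A ++ [a]) + G a b := by
  rw [List.append_assoc, List.singleton_append, PS56_split]
  simp [PS56]

theorem PS56_map {α β : Type} (G : β → β → ℝ) (φ : α → β) (l : List α) :
    PS56 G (l.map φ) = PS56 (fun i j => G (φ i) (φ j)) l := by
  induction l with
  | nil => rfl
  | cons a l ih =>
    cases l with
    | nil => rfl
    | cons b l =>
      have h1 : PS56 G ((a :: b :: l).map φ) = G (φ a) (φ b) + PS56 G ((b :: l).map φ) := rfl
      rw [h1, ih]
      rfl

theorem PS56_reverse {α : Type} (G : α → α → ℝ) (l : List α) :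
    PS56 G l.reverse = PS56 (fun a b => G b a) l := by
  induction l with
  | nil => rfl
  | cons a l ih =>
    cases l with
    | nil => rfl
    | cons b l =>
      rw [List.reverse_cons, List.reverse_cons, PS56_snoc, ← List.reverse_cons, ih]
      show _ = G b a + PS56 (fun a b => G b a) (b :: l)
      ring

theorem cyc_go_PS56 {α : Type} (f : α → α → ℝ) (a0 : α) (l : List α) :
    ∀ a, cyc.go f a0 a l = PS56 f (a :: l ++ [a0]) := by
  induction l with
  | nil =>
    intro a
    show f a a0 = f a a0 + 0
    ring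
  | cons b l ih =>
    intro a
    show f a b + cyc.go f a0 b l = f a b + PS56 f (b :: l ++ [a0])
    rw [ih]

theorem cyc_PS56 {α : Type} (f : α → α → ℝ) (a : α) (l : List α) :
    cyc f (a :: l) = PS56 f (a :: l ++ [a]) := cyc_go_PS56 f a l a

theorem PS56_range {α : Type} (G : α → α → ℝ) (f : ℕ → α) (n : ℕ) :
    PS56 G ((List.range (n + 1)).map f) = ∑ j ∈ Finset.range n, G (f j) (f (j + 1)) := by
  induction n with
  | zero => simp [PS56]
  | succ n ih =>
    rw [Finset.sum_range_succ, ← ih, List.range_succ, List.range_succ, List.map_append,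
      List.map_append, List.map_singleton, List.map_singleton, PS56_snoc]

/-- the cells of the stations -/
def cells56 {k : ℕ} (N : ℕ) (L : ℕ → List (Fin k)) (bo tp : ℕ → Fin k) : List (Fin k) :=
  (List.range N).map bo ++ L (N - 1) ++ ((List.range N).map tp).reverse ++ (L 0).reverse

theorem zip_tail_fst56 {α : Type} (l : List α) : (l.zip l.tail).map Prod.fst = l.dropLast := by
  induction l with
  | nil => rfl
  | cons a l ih =>
    cases l with
    | nil => rfl
    | cons b l =>
      show a :: ((b :: l).zip l).map Prod.fst = a :: (b :: l).dropLast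
      rw [← ih]
      rfl

theorem stns_o56 (S : Sweep a U cm cp c s0 s1 N x L bo tp) :
    (stns U cm cp c N x μ ν L bo tp).map Stn.o = (cells56 N L bo tp).map c := by
  obtain ⟨n, rfl⟩ : ∃ n, N = n + 1 := ⟨N - 1, by have := S.hN; omega⟩
  have hb := S.hbo n (Nat.lt_succ_self n)
  have ht := S.htp 0 (Nat.succ_pos n)
  have hL1 : bo n :: (L n).tail = L n := by
    cases hL : L n with
    | nil => rw [hL] at hb; simp at hb
    | cons b B =>
      rw [hL] at hb
      simp at hb
      rw [hb]
      rfl
  have hL0 : tp 0 :: (L 0).dropLast.reverse = (L 0).reverse := by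
    rcases List.eq_nil_or_concat (L 0) with h | ⟨A', a', h⟩
    · rw [h] at ht; simp at ht
    · rw [List.concat_eq_append] at h
      rw [h] at ht ⊢
      simp at ht
      rw [ht]
      simp
  unfold stns cells56
  simp only [List.map_append, List.map_cons, List.map_map, Nat.add_sub_cancel]
  congr 1
  · congr 1
    · congr 1
      · rw [List.range_succ_eq_map, List.map_cons, List.map_map]
        rfl
      · rw [← hL1, List.map_cons, List.tail_cons]
        rfl
    · rw [List.range_succ, List.map_append, List.map_singleton, List.reverse_append,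
        List.reverse_singleton, List.singleton_append, List.map_cons, ← List.map_reverse,
        List.map_map]
      rfl
  · rw [← hL0, List.map_cons, ← zip_tail_fst56, ← List.map_reverse, List.map_map]
    rfl

theorem cyc_stns56 (S : Sweep a U cm cp c s0 s1 N x L bo tp) (g : ℝ × ℝ → ℝ × ℝ → ℝ)
    (hg : ∀ p, g p p = 0) :
    cyc (fun s s' => g s.o s'.o) (stns U cm cp c N x μ ν L bo tp) =
      (∑ j ∈ Finset.range (N - 1), g (c (bo j)) (c (bo (j + 1)))) +
      PS56 (fun i j => g (c i) (c j)) (L (N - 1)) +
      (∑ j ∈ Finset.range (N - 1), g (c (tp (j + 1))) (c (tp j))) +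
      PS56 (fun i j => g (c j) (c i)) (L 0) := by
  have h0 := stns_o56 (μ := μ) (ν := ν) S
  obtain ⟨n, rfl⟩ : ∃ n, N = n + 1 := ⟨N - 1, by have := S.hN; omega⟩
  obtain ⟨a1, l1, hl1⟩ : ∃ a1 l1, stns U cm cp c (n + 1) x μ ν L bo tp = a1 :: l1 :=
    ⟨_, _, rfl⟩
  have ha1 : a1.o = c (bo 0) := by
    have : (a1 :: l1).head? = (stns U cm cp c (n + 1) x μ ν L bo tp).head? := by rw [hl1]
    simp [stns] at this
    rw [this]
  have hmain : cyc (fun s s' => g s.o s'.o) (stns U cm cp c (n + 1) x μ ν L bo tp) =
      PS56 (fun i j => g (c i) (c j)) (cells56 (n + 1) L bo tp ++ [bo 0]) := by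
    rw [hl1, cyc_PS56]
    have e1 := PS56_map g Stn.o (a1 :: l1 ++ [a1])
    rw [← e1, List.map_append, ← hl1, h0, ← PS56_map g c, List.map_append]
    simp [ha1]
  rw [hmain]
  have hb0 := S.hbo 0 (Nat.succ_pos n)
  have hbn := S.hbo n (Nat.lt_succ_self n)
  have ht0 := S.htp 0 (Nat.succ_pos n)
  have htn := S.htp n (Nat.lt_succ_self n)
  unfold cells56
  simp only [Nat.add_sub_cancel]
  have hL0ne : L 0 ≠ [] := by
    intro h; rw [h] at hb0; simp at hb0
  rw [PS56_join _ _ [bo 0] (bo 0) (bo 0) _ (by simp) (hg _),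
    PS56_join _ _ (L 0).reverse (tp 0) (tp 0) _ _ (hg _),
    PS56_join _ _ ((List.range (n + 1)).map tp).reverse (tp n) (tp n) _ _ (hg _),
    PS56_join _ ((List.range (n + 1)).map bo) (L n) (bo n) (bo n) _ hbn (hg _),
    PS56_range, PS56_reverse, PS56_range, PS56_reverse]
  · simp [PS56]
  · simp [List.range_succ]
  · rw [List.getLast?_append]
    simp only [Option.mem_def] at htn ⊢
    rw [htn]
    rfl
  · simp [List.range_succ]
  · rw [List.getLast?_append, List.getLast?_reverse, List.range_succ_eq_map]
    simp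
  · rw [List.head?_reverse]
    exact ht0
  · rw [List.getLast?_append, List.getLast?_reverse]
    simp only [Option.mem_def] at hb0 ⊢
    rw [hb0]
    rfl

theorem PS56_neg {α : Type} (G : α → α → ℝ) (l : List α) (h : ∀ a b, G b a = - G a b) :
    PS56 (fun a b => G b a) l = - PS56 G l := by
  induction l with
  | nil => simp [PS56]
  | cons a l ih =>
    cases l with
    | nil => simp [PS56]
    | cons b l =>
      show G b a + PS56 (fun a b => G b a) (b :: l) = -(G a b + PS56 G (b :: l))
      rw [ih, h]
      ring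

theorem PS56_pth {k : ℕ} (c : Fin k → ℝ × ℝ) (l : List (Fin k)) :
    PS56 (fun i j => cr (c i) (c j)) l = pth c l := by
  induction l with
  | nil => simp [PS56, pth]
  | cons a l ih =>
    cases l with
    | nil => simp [PS56, pth]
    | cons b l =>
      show cr (c a) (c b) + PS56 (fun i j => cr (c i) (c j)) (b :: l) =
        cr (c a) (c b) + pth c (b :: l)
      rw [ih]

theorem PS56_nodup {α : Type} (G : α → α → ℝ) (l : List α) (hl : l.Nodup)
    (h : ∀ a b, a ≠ b → G a b = 1) : PS56 G l = ((l.length - 1 : ℕ) : ℝ) := by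
  induction l with
  | nil => simp [PS56]
  | cons a l ih =>
    cases l with
    | nil => simp [PS56]
    | cons b l =>
      have h1 := ih (List.nodup_cons.1 hl).2
      have h2 : G a b = 1 := h a b (by
        intro hab
        apply (List.nodup_cons.1 hl).1
        rw [hab]
        exact List.mem_cons_self)
      show G a b + PS56 G (b :: l) = _
      rw [h1, h2]
      simp only [List.length_cons, Nat.add_sub_cancel]
      push_cast
      ring

theorem stns_cr (S : Sweep a U cm cp c s0 s1 N x L bo tp) :
    cyc (fun s s' => cr s.o s'.o) (stns U cm cp c N x μ ν L bo tp) =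
      pth c (L (N - 1)) - pth c (L 0) + (∑ j ∈ Finset.range (N - 1),
        (cr (c (bo j)) (c (bo (j + 1))) + cr (c (tp (j + 1))) (c (tp j)))) := by
  rw [cyc_stns56 S cr (fun p => by unfold cr; ring), PS56_pth,
    PS56_neg (fun i j => cr (c i) (c j)) (L 0) (fun i j => by unfold cr; ring), PS56_pth,
    Finset.sum_add_distrib]
  ring

theorem stns_nb (S : Sweep a U cm cp c s0 s1 N x L bo tp) :
    cyc (fun s s' => if s.o = s'.o then 0 else 1) (stns U cm cp c N x μ ν L bo tp) =
      (nb N L bo tp : ℝ) := by
  rw [cyc_stns56 S (fun p q => if p = q then 0 else 1) (fun p => by simp)]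
  have hN := S.hN
  rw [PS56_nodup _ (L (N - 1)) (S.nodup _ (by omega)) (fun i j hij => by
      simp [S.inj.ne hij]),
    PS56_nodup _ (L 0) (S.nodup _ (by omega)) (fun i j hij => by
      simp [S.inj.ne hij.symm])]
  unfold nb
  have h1 : ∀ j, (if c (bo j) = c (bo (j + 1)) then (0 : ℝ) else 1) =
      if bo j ≠ bo (j + 1) then 1 else 0 := by
    intro j
    by_cases h : bo j = bo (j + 1)
    · simp [h]
    · simp [h, S.inj.ne h]
  have h2 : ∀ j, (if c (tp (j + 1)) = c (tp j) then (0 : ℝ) else 1) =
      if tp j ≠ tp (j + 1) then 1 else 0 := by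
    intro j
    by_cases h : tp j = tp (j + 1)
    · simp [h]
    · simp [h, S.inj.ne (Ne.symm h)]
  simp only [h1, h2, Finset.sum_boole]
  push_cast
  ring

end

end FT722.MP56

namespace FT722
alias stns_cr := MP56.stns_cr
alias stns_nb := MP56.stns_nb
end FT722
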