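import Mathlib
import Pool.Agent.FTfinal.FT722_PresentConn
set_option autoImplicit false
namespace FT722

/-- Every point of the chord lies in a present translate. -/
theorem present_cover {k : ℕ} {a : ℝ} {U cm cp : ℝ → ℝ} {c : Fin k → ℝ × ℝ}
    (hinj : Function.Injective c) {s y : ℝ} (hy1 : cm s ≤ y) (hy2 : y ≤ cp s)
    (hcov : ∃ i, dom a (c i) s ∧ lo U (c i) s ≤ y ∧ y ≤ hi U (c i) s) :
    ∃ i, Present a U cm cp c i s ∧ lo U (c i) s ≤ y ∧ y ≤ hi U (c i) s := by
  classical
  obtain ⟨i0, hd0, hl0, hh0⟩ := hcov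
  let S : Finset (Fin k) := Finset.univ.filter
    (fun j => dom a (c j) s ∧ lo U (c j) s ≤ lo U (c i0) s ∧ hi U (c i0) s ≤ hi U (c j) s)
  have hS : S.Nonempty := ⟨i0, by simp [S, hd0]⟩
  obtain ⟨j, hjS, hjmax⟩ := S.exists_max_image
    (fun j => toLex (hi U (c j) s - lo U (c j) s, (c j).1)) hS
  have hj : dom a (c j) s ∧ lo U (c j) s ≤ lo U (c i0) s ∧ hi U (c i0) s ≤ hi U (c j) s := by
    simpa [S] using hjS
  refine ⟨j, ⟨hj.1, by linarith [hj.2.1], by linarith [hj.2.2], ?_⟩, by linarith [hj.2.1],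
    by linarith [hj.2.2]⟩
  intro j' hne hd' hlo' hhi'
  have hj'S : j' ∈ S := by
    simp only [S, Finset.mem_filter, Finset.mem_univ, true_and]
    exact ⟨hd', by linarith [hj.2.1], by linarith [hj.2.2]⟩
  have hm := hjmax j' hj'S
  rw [Prod.Lex.toLex_le_toLex] at hm
  rcases hm with h | ⟨h1, h2⟩
  · simp only at h
    linarith
  · simp only at h1 h2
    have e1 : lo U (c j') s = lo U (c j) s := by linarith
    have e2 : hi U (c j') s = hi U (c j) s := by linarith
    refine ⟨lt_of_le_of_ne h2 ?_, e1, e2⟩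
    intro h3
    apply hne
    apply hinj
    apply Prod.ext h3
    unfold hi at e2
    rw [h3] at e2
    linarith

/-- Two different present translates are strictly ordered. -/
theorem present_strict {k : ℕ} {a : ℝ} {U cm cp : ℝ → ℝ} {c : Fin k → ℝ × ℝ}
    {s : ℝ} {i j : Fin k} (hij : i ≠ j)
    (hi' : Present a U cm cp c i s) (hj : Present a U cm cp c j s) :
    (lo U (c i) s < lo U (c j) s ∧ hi U (c i) s < hi U (c j) s) ∨
    (lo U (c j) s < lo U (c i) s ∧ hi U (c j) s < hi U (c i) s) := by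
  have A : ¬ (lo U (c i) s ≤ lo U (c j) s ∧ hi U (c j) s ≤ hi U (c i) s) := by
    rintro ⟨h1, h2⟩
    obtain ⟨h3, h4, h5⟩ := hj.2.2.2 i hij hi'.1 h1 h2
    obtain ⟨h6, -, -⟩ := hi'.2.2.2 j hij.symm hj.1 h4.ge h5.le
    linarith
  have B : ¬ (lo U (c j) s ≤ lo U (c i) s ∧ hi U (c i) s ≤ hi U (c j) s) := by
    rintro ⟨h1, h2⟩
    obtain ⟨h3, h4, h5⟩ := hi'.2.2.2 j hij.symm hj.1 h1 h2
    obtain ⟨h6, -, -⟩ := hj.2.2.2 i hij hi'.1 h4.ge h5.le
    linarith
  rcases lt_trichotomy (lo U (c i) s) (lo U (c j) s) with h | h | h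
  · left
    refine ⟨h, ?_⟩
    by_contra h'
    exact A ⟨h.le, not_lt.mp h'⟩
  · exfalso
    rcases le_total (hi U (c i) s) (hi U (c j) s) with h' | h'
    · exact B ⟨h.ge, h'⟩
    · exact A ⟨h.le, h'⟩
  · right
    refine ⟨h, ?_⟩
    by_contra h'
    exact B ⟨h.le, not_lt.mp h'⟩

lemma conc_incr {a : ℝ} {U : ℝ → ℝ} (hU : ConcaveOn ℝ (Set.Icc (-a) a) U) {x x' δ : ℝ}
    (hx : x ≤ x') (hδ : 0 ≤ δ) (h1 : x ∈ Set.Icc (-a) a) (h2 : x' + δ ∈ Set.Icc (-a) a) :
    U (x' + δ) + U x ≤ U (x + δ) + U x' := by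
  rcases eq_or_lt_of_le (show x ≤ x' + δ by linarith) with h | h
  · have e1 : x' = x := by linarith
    have e2 : δ = 0 := by linarith
    simp [e1, e2]
  · set L := x' + δ - x with hL
    have hLp : 0 < L := by linarith
    have ht0 : 0 ≤ δ / L := by positivity
    have ht1 : 0 ≤ 1 - δ / L := by
      have : δ / L ≤ 1 := by rw [div_le_one hLp]; linarith
      linarith
    have k1 := hU.2 h1 h2 ht1 ht0 (by ring)
    have k2 := hU.2 h1 h2 ht0 ht1 (by ring)
    have e1 : (1 - δ / L) • x + (δ / L) • (x' + δ) = x + δ := by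
      simp only [smul_eq_mul]
      have : (1 - δ / L) * x + δ / L * (x' + δ) = x + δ / L * L := by rw [hL]; ring
      rw [this, div_mul_cancel₀ _ hLp.ne']
    have e2 : (δ / L) • x + (1 - δ / L) • (x' + δ) = x' := by
      simp only [smul_eq_mul]
      have : δ / L * x + (1 - δ / L) * (x' + δ) = x' + δ - δ / L * L := by rw [hL]; ring
      rw [this, div_mul_cancel₀ _ hLp.ne']
      ring
    rw [e1] at k1
    rw [e2] at k2
    simp only [smul_eq_mul] at k1 k2
    nlinarith

/-- The order of two present translates does not depend on the abscissa. -/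
theorem present_order_const {k : ℕ} {a : ℝ} {U cm cp : ℝ → ℝ} {c : Fin k → ℝ × ℝ}
    (hU : ConcaveOn ℝ (Set.Icc (-a) a) U)
    {s s' : ℝ} {i j : Fin k}
    (hi1 : Present a U cm cp c i s) (hj1 : Present a U cm cp c j s)
    (hi2 : Present a U cm cp c i s') (hj2 : Present a U cm cp c j s')
    (h : lo U (c i) s < lo U (c j) s ∧ hi U (c i) s < hi U (c j) s) :
    lo U (c i) s' < lo U (c j) s' ∧ hi U (c i) s' < hi U (c j) s' := by
  have hij : i ≠ j := by
    rintro rfl
    exact lt_irrefl _ h.1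
  rcases present_strict hij hi2 hj2 with h' | h'
  · exact h'
  exfalso
  have d1 : |s - (c i).1| ≤ a := hi1.1
  have d2 : |s - (c j).1| ≤ a := hj1.1
  have d3 : |s' - (c i).1| ≤ a := hi2.1
  have d4 : |s' - (c j).1| ≤ a := hj2.1
  rw [abs_le] at d1 d2 d3 d4
  obtain ⟨h1, h2⟩ := h
  obtain ⟨h3, h4⟩ := h'
  unfold lo at h1 h3
  unfold hi at h2 h4
  rcases le_total (c i).1 (c j).1 with hc | hc
  · rcases le_total s s' with hs | hs
    · have := conc_incr hU (x := s - (c j).1) (x' := s' - (c j).1) (δ := (c j).1 - (c i).1)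
        (by linarith) (by linarith) ⟨by linarith, by linarith⟩ ⟨by linarith, by linarith⟩
      rw [show s' - (c j).1 + ((c j).1 - (c i).1) = s' - (c i).1 by ring,
        show s - (c j).1 + ((c j).1 - (c i).1) = s - (c i).1 by ring] at this
      linarith
    · have := conc_incr hU (x := (c i).1 - s) (x' := (c i).1 - s') (δ := (c j).1 - (c i).1)
        (by linarith) (by linarith) ⟨by linarith, by linarith⟩ ⟨by linarith, by linarith⟩
      rw [show (c i).1 - s' + ((c j).1 - (c i).1) = (c j).1 - s' by ring,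
        show (c i).1 - s + ((c j).1 - (c i).1) = (c j).1 - s by ring] at this
      linarith
  · rcases le_total s s' with hs | hs
    · have := conc_incr hU (x := (c j).1 - s') (x' := (c j).1 - s) (δ := (c i).1 - (c j).1)
        (by linarith) (by linarith) ⟨by linarith, by linarith⟩ ⟨by linarith, by linarith⟩
      rw [show (c j).1 - s + ((c i).1 - (c j).1) = (c i).1 - s by ring,
        show (c j).1 - s' + ((c i).1 - (c j).1) = (c i).1 - s' by ring] at this
      linarith
    · have := conc_incr hU (x := s' - (c i).1) (x' := s - (c i).1) (δ := (c i).1 - (c j).1)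
        (by linarith) (by linarith) ⟨by linarith, by linarith⟩ ⟨by linarith, by linarith⟩
      rw [show s - (c i).1 + ((c i).1 - (c j).1) = s - (c j).1 by ring,
        show s' - (c i).1 + ((c i).1 - (c j).1) = s' - (c j).1 by ring] at this
      linarith

end FT722
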