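import Mathlib
import Pool.Agent.FTfinal.FT722_PresentConn
set_option autoImplicit false
namespace FT722

/-- Every point of the chord lies in a present translate. -/
theorem evl_present_cover {k : ℕ} {a : ℝ} {U cm cp : ℝ → ℝ} {c : Fin k → ℝ × ℝ}
    (hinj : Function.Injective c) {s y : ℝ} (hy1 : cm s ≤ y) (hy2 : y ≤ cp s)
    (hcov : ∃ i, dom a (c i) s ∧ lo U (c i) s ≤ y ∧ y ≤ hi U (c i) s) :
    ∃ i, Present a U cm cp c i s ∧ lo U (c i) s ≤ y ∧ y ≤ hi U (c i) s := by
  classical
  obtain ⟨i0, hd0, hl0, hh0⟩ := hcov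
  let S : Finset (Fin k) := Finset.univ.filter
    (fun j => dom a (c j) s ∧ lo U (c j) s ≤ lo U (c i0) s ∧ hi U (c i0) s ≤ hi U (c j) s)
  have hS : S.Nonempty := ⟨i0, by simp [S, hd0]⟩
  obtain ⟨j, hjS, hjmax⟩ := S.exists_max_image
    (fun j => toLex (hi U (c j) s - lo U (c j) s, (c j).1)) hS
  have hj : dom a (c j) s ∧ lo U (c j) s ≤ lo U (c i0) s ∧ hi U (c i0) s ≤ hi U (c j) s := by
    simpa [S] using hjS
  refine ⟨j, ⟨hj.1, by linarith [hj.2.1], by linarith [hj.2.2], ?_⟩, by linarith [hj.2.1],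
    by linarith [hj.2.2]⟩
  intro j' hne hd' hlo' hhi'
  have hj'S : j' ∈ S := by
    simp only [S, Finset.mem_filter, Finset.mem_univ, true_and]
    exact ⟨hd', by linarith [hj.2.1], by linarith [hj.2.2]⟩
  have hm := hjmax j' hj'S
  rw [Prod.Lex.toLex_le_toLex] at hm
  rcases hm with h | ⟨h1, h2⟩
  · simp only at h
    linarith
  · simp only at h1 h2
    have e1 : lo U (c j') s = lo U (c j) s := by linarith
    have e2 : hi U (c j') s = hi U (c j) s := by linarith
    refine ⟨lt_of_le_of_ne h2 ?_, e1, e2⟩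
    intro h3
    apply hne
    apply hinj
    apply Prod.ext h3
    unfold hi at e2
    rw [h3] at e2
    linarith

/-- Two different present translates are strictly ordered. -/
theorem evl_present_strict {k : ℕ} {a : ℝ} {U cm cp : ℝ → ℝ} {c : Fin k → ℝ × ℝ}
    {s : ℝ} {i j : Fin k} (hij : i ≠ j)
    (hi' : Present a U cm cp c i s) (hj : Present a U cm cp c j s) :
    (lo U (c i) s < lo U (c j) s ∧ hi U (c i) s < hi U (c j) s) ∨
    (lo U (c j) s < lo U (c i) s ∧ hi U (c j) s < hi U (c i) s) := by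
  have A : ¬ (lo U (c i) s ≤ lo U (c j) s ∧ hi U (c j) s ≤ hi U (c i) s) := by
    rintro ⟨h1, h2⟩
    obtain ⟨h3, h4, h5⟩ := hj.2.2.2 i hij hi'.1 h1 h2
    obtain ⟨h6, -, -⟩ := hi'.2.2.2 j hij.symm hj.1 h4.ge h5.le
    linarith
  have B : ¬ (lo U (c j) s ≤ lo U (c i) s ∧ hi U (c i) s ≤ hi U (c j) s) := by
    rintro ⟨h1, h2⟩
    obtain ⟨h3, h4, h5⟩ := hi'.2.2.2 j hij.symm hj.1 h1 h2
    obtain ⟨h6, -, -⟩ := hj.2.2.2 i hij hi'.1 h4.ge h5.le
    linarith
  rcases lt_trichotomy (lo U (c i) s) (lo U (c j) s) with h | h | h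
  · left
    refine ⟨h, ?_⟩
    by_contra h'
    exact A ⟨h.le, not_lt.mp h'⟩
  · exfalso
    rcases le_total (hi U (c i) s) (hi U (c j) s) with h' | h'
    · exact B ⟨h.ge, h'⟩
    · exact A ⟨h.le, h'⟩
  · right
    refine ⟨h, ?_⟩
    by_contra h'
    exact B ⟨h.le, not_lt.mp h'⟩

lemma evl_conc_incr {a : ℝ} {U : ℝ → ℝ} (hU : ConcaveOn ℝ (Set.Icc (-a) a) U) {x x' δ : ℝ}
    (hx : x ≤ x') (hδ : 0 ≤ δ) (h1 : x ∈ Set.Icc (-a) a) (h2 : x' + δ ∈ Set.Icc (-a) a) :
    U (x' + δ) + U x ≤ U (x + δ) + U x' := by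
  rcases eq_or_lt_of_le (show x ≤ x' + δ by linarith) with h | h
  · have e1 : x' = x := by linarith
    have e2 : δ = 0 := by linarith
    simp [e1, e2]
  · set L := x' + δ - x with hL
    have hLp : 0 < L := by linarith
    have ht0 : 0 ≤ δ / L := by positivity
    have ht1 : 0 ≤ 1 - δ / L := by
      have : δ / L ≤ 1 := by rw [div_le_one hLp]; linarith
      linarith
    have k1 := hU.2 h1 h2 ht1 ht0 (by ring)
    have k2 := hU.2 h1 h2 ht0 ht1 (by ring)
    have e1 : (1 - δ / L) • x + (δ / L) • (x' + δ) = x + δ := by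
      simp only [smul_eq_mul]
      have : (1 - δ / L) * x + δ / L * (x' + δ) = x + δ / L * L := by rw [hL]; ring
      rw [this, div_mul_cancel₀ _ hLp.ne']
    have e2 : (δ / L) • x + (1 - δ / L) • (x' + δ) = x' := by
      simp only [smul_eq_mul]
      have : δ / L * x + (1 - δ / L) * (x' + δ) = x' + δ - δ / L * L := by rw [hL]; ring
      rw [this, div_mul_cancel₀ _ hLp.ne']
      ring
    rw [e1] at k1
    rw [e2] at k2
    simp only [smul_eq_mul] at k1 k2
    nlinarith

/-- The order of two present translates does not depend on the abscissa. -/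
theorem evl_present_order_const {k : ℕ} {a : ℝ} {U cm cp : ℝ → ℝ} {c : Fin k → ℝ × ℝ}
    (hU : ConcaveOn ℝ (Set.Icc (-a) a) U)
    {s s' : ℝ} {i j : Fin k}
    (hi1 : Present a U cm cp c i s) (hj1 : Present a U cm cp c j s)
    (hi2 : Present a U cm cp c i s') (hj2 : Present a U cm cp c j s')
    (h : lo U (c i) s < lo U (c j) s ∧ hi U (c i) s < hi U (c j) s) :
    lo U (c i) s' < lo U (c j) s' ∧ hi U (c i) s' < hi U (c j) s' := by
  have hij : i ≠ j := by
    rintro rfl
    exact lt_irrefl _ h.1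
  rcases evl_present_strict hij hi2 hj2 with h' | h'
  · exact h'
  exfalso
  have d1 : |s - (c i).1| ≤ a := hi1.1
  have d2 : |s - (c j).1| ≤ a := hj1.1
  have d3 : |s' - (c i).1| ≤ a := hi2.1
  have d4 : |s' - (c j).1| ≤ a := hj2.1
  rw [abs_le] at d1 d2 d3 d4
  obtain ⟨h1, h2⟩ := h
  obtain ⟨h3, h4⟩ := h'
  unfold lo at h1 h3
  unfold hi at h2 h4
  rcases le_total (c i).1 (c j).1 with hc | hc
  · rcases le_total s s' with hs | hs
    · have := evl_conc_incr hU (x := s - (c j).1) (x' := s' - (c j).1) (δ := (c j).1 - (c i).1)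
        (by linarith) (by linarith) ⟨by linarith, by linarith⟩ ⟨by linarith, by linarith⟩
      rw [show s' - (c j).1 + ((c j).1 - (c i).1) = s' - (c i).1 by ring,
        show s - (c j).1 + ((c j).1 - (c i).1) = s - (c i).1 by ring] at this
      linarith
    · have := evl_conc_incr hU (x := (c i).1 - s) (x' := (c i).1 - s') (δ := (c j).1 - (c i).1)
        (by linarith) (by linarith) ⟨by linarith, by linarith⟩ ⟨by linarith, by linarith⟩
      rw [show (c i).1 - s' + ((c j).1 - (c i).1) = (c j).1 - s' by ring,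
        show (c i).1 - s + ((c j).1 - (c i).1) = (c j).1 - s by ring] at this
      linarith
  · rcases le_total s s' with hs | hs
    · have := evl_conc_incr hU (x := (c j).1 - s') (x' := (c j).1 - s) (δ := (c i).1 - (c j).1)
        (by linarith) (by linarith) ⟨by linarith, by linarith⟩ ⟨by linarith, by linarith⟩
      rw [show (c j).1 - s + ((c i).1 - (c j).1) = (c i).1 - s by ring,
        show (c j).1 - s' + ((c i).1 - (c j).1) = (c i).1 - s' by ring] at this
      linarith
    · have := evl_conc_incr hU (x := s' - (c i).1) (x' := s - (c i).1) (δ := (c i).1 - (c j).1)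
        (by linarith) (by linarith) ⟨by linarith, by linarith⟩ ⟨by linarith, by linarith⟩
      rw [show s - (c i).1 + ((c i).1 - (c j).1) = s - (c j).1 by ring,
        show s' - (c i).1 + ((c i).1 - (c j).1) = s' - (c j).1 by ring] at this
      linarith


theorem evl_ext {p q : ℝ} (hpq : p < q) {f g : ℝ → ℝ} (hf : ContinuousOn f (Set.Icc p q))
    (hg : ContinuousOn g (Set.Icc p q)) (h : ∀ s ∈ Set.Ioo p q, f s ≤ g s) :
    ∀ s ∈ Set.Icc p q, f s ≤ g s := by
  intro s hs
  have e : closure (Set.Ioo p q) = Set.Icc p q := closure_Ioo hpq.ne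
  exact le_on_closure h (by rwa [e]) (by rwa [e]) (by rwa [e])

/-- On an interval on whose interior the set of present translates is constant there is a list of
all present translates, ordered from bottom to top, which is valid on the closed interval. -/
theorem exists_valid_list {k : ℕ} {a : ℝ} {U cm cp : ℝ → ℝ} {c : Fin k → ℝ × ℝ}
    (hU : ConcaveOn ℝ (Set.Icc (-a) a) U) (hUc : ContinuousOn U (Set.Icc (-a) a))
    (hU0 : ∀ x ∈ Set.Icc (-a) a, 0 ≤ U x + U (-x))
    {p q : ℝ} (hpq : p < q) (hcm : ContinuousOn cm (Set.Icc p q))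
    (hcp : ContinuousOn cp (Set.Icc p q)) (hle : ∀ s ∈ Set.Icc p q, cm s ≤ cp s)
    (hinj : Function.Injective c)
    (hcov : ∀ s ∈ Set.Icc p q, ∀ y, cm s ≤ y → y ≤ cp s →
      ∃ i, dom a (c i) s ∧ lo U (c i) s ≤ y ∧ y ≤ hi U (c i) s)
    (M : Finset (Fin k)) (hM : ∀ s ∈ Set.Ioo p q, ∀ i, i ∈ M ↔ Present a U cm cp c i s) :
    ∃ L : List (Fin k), L ≠ [] ∧ L.Nodup ∧ L.toFinset = M ∧
      L.Pairwise (fun i j => ∃ s, Present a U cm cp c i s ∧ Present a U cm cp c j s ∧
        lo U (c i) s < lo U (c j) s ∧ hi U (c i) s < hi U (c j) s) ∧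
      ∀ s ∈ Set.Icc p q, Valid a U cm cp c L s := by
  classical
  set s0 : ℝ := (p + q) / 2 with hs0
  have hs0m : s0 ∈ Set.Ioo p q := ⟨by linarith, by linarith⟩
  have hIoo : ∀ s ∈ Set.Ioo p q, s ∈ Set.Icc p q := fun s hs => Set.Ioo_subset_Icc_self hs
  let r : Fin k → Fin k → Prop := fun i j => lo U (c i) s0 ≤ lo U (c j) s0
  have hr : ∀ i j, r i j ↔ lo U (c i) s0 ≤ lo U (c j) s0 := fun _ _ => Iff.rfl
  have htot : Std.Total r := ⟨fun i j => le_total _ _⟩
  have htr : IsTrans (Fin k) r := ⟨fun i j l h1 h2 => le_trans h1 h2⟩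
  set L : List (Fin k) := M.toList.insertionSort r with hL
  have hperm : L.Perm M.toList := List.perm_insertionSort r _
  have hnodup : L.Nodup := hperm.nodup_iff.2 M.nodup_toList
  have hmem : ∀ i, i ∈ L ↔ i ∈ M := fun i => by rw [hperm.mem_iff, Finset.mem_toList]
  have hPr : ∀ s ∈ Set.Ioo p q, ∀ i ∈ L, Present a U cm cp c i s := fun s hs i hi =>
    (hM s hs i).1 ((hmem i).1 hi)
  have hpw0 : L.Pairwise (fun i j => lo U (c i) s0 < lo U (c j) s0 ∧
      hi U (c i) s0 < hi U (c j) s0) := by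
    have h1 : L.Pairwise r := List.pairwise_insertionSort r _
    refine (h1.and hnodup).imp_of_mem ?_
    rintro i j hi hj ⟨h2, h3⟩
    rcases evl_present_strict h3 (hPr s0 hs0m i hi) (hPr s0 hs0m j hj) with h4 | h4
    · exact h4
    · exact absurd h4.1 (not_lt.2 h2)
  have hpw : ∀ s ∈ Set.Ioo p q, L.Pairwise (fun i j => lo U (c i) s < lo U (c j) s ∧
      hi U (c i) s < hi U (c j) s) := by
    intro s hs
    refine hpw0.imp_of_mem ?_
    intro i j hi hj h
    exact evl_present_order_const hU (hPr s0 hs0m i hi) (hPr s0 hs0m j hj) (hPr s hs i hi)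
      (hPr s hs j hj) h
  have hcover : ∀ s ∈ Set.Ioo p q, ∀ y, cm s ≤ y → y ≤ cp s →
      ∃ i ∈ L, lo U (c i) s ≤ y ∧ y ≤ hi U (c i) s := by
    intro s hs y h1 h2
    obtain ⟨i, hi, h3⟩ := evl_present_cover hinj h1 h2 (hcov s (hIoo s hs) y h1 h2)
    exact ⟨i, (hmem i).2 ((hM s hs i).2 hi), h3⟩
  -- domains and continuity
  have hdom : ∀ i ∈ L, ∀ s ∈ Set.Icc p q, |s - (c i).1| ≤ a := by
    intro i hi
    exact evl_ext hpq (by fun_prop) continuousOn_const fun s hs => (hPr s hs i hi).1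
  have hhic : ∀ i ∈ L, ContinuousOn (hi U (c i)) (Set.Icc p q) := by
    intro i hi'
    have : ContinuousOn (fun s => (c i).2 + U (s - (c i).1)) (Set.Icc p q) := by
      refine continuousOn_const.add (hUc.comp (by fun_prop) fun s hs => ?_)
      have := abs_le.1 (hdom i hi' s hs)
      exact ⟨this.1, this.2⟩
    exact this
  have hloc : ∀ i ∈ L, ContinuousOn (lo U (c i)) (Set.Icc p q) := by
    intro i hi'
    have : ContinuousOn (fun s => (c i).2 - U ((c i).1 - s)) (Set.Icc p q) := by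
      refine continuousOn_const.sub (hUc.comp (by fun_prop) fun s hs => ?_)
      have := abs_le.1 (hdom i hi' s hs)
      exact ⟨by linarith, by linarith⟩
    exact this
  have hlocp : ∀ i ∈ L, ∀ s ∈ Set.Icc p q, lo U (c i) s ≤ cp s := fun i hi' =>
    evl_ext hpq (hloc i hi') hcp fun s hs => (hPr s hs i hi').2.1
  have hcmhi : ∀ i ∈ L, ∀ s ∈ Set.Icc p q, cm s ≤ hi U (c i) s := fun i hi' =>
    evl_ext hpq hcm (hhic i hi') fun s hs => (hPr s hs i hi').2.2.1
  have hlohi : ∀ i ∈ L, ∀ s ∈ Set.Icc p q, lo U (c i) s ≤ hi U (c i) s := by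
    intro i hi' s hs
    have h1 := abs_le.1 (hdom i hi' s hs)
    have h2 := hU0 (s - (c i).1) ⟨h1.1, h1.2⟩
    have e : -(s - (c i).1) = (c i).1 - s := by ring
    rw [e] at h2
    unfold lo hi
    linarith
  have hne : L ≠ [] := by
    obtain ⟨i, hi', -⟩ := hcover s0 hs0m (cm s0) le_rfl (hle s0 (hIoo s0 hs0m))
    exact List.ne_nil_of_mem hi'
  refine ⟨L, hne, hnodup, ?_, ?_, ?_⟩
  · ext i
    rw [List.mem_toFinset, hmem]
  · refine hpw0.imp_of_mem ?_
    intro i j hi' hj h
    exact ⟨s0, hPr s0 hs0m i hi', hPr s0 hs0m j hj, h⟩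
  · -- adjacent pairs
    have hadj : ∀ ⦃i j l₁ l₂⦄, L = l₁ ++ i :: j :: l₂ → ∀ s ∈ Set.Icc p q,
        lo U (c i) s ≤ lo U (c j) s ∧ hi U (c i) s ≤ hi U (c j) s ∧
        lo U (c j) s ≤ hi U (c i) s := by
      intro i j l₁ l₂ hLe
      have hi' : i ∈ L := by rw [hLe]; simp
      have hj' : j ∈ L := by rw [hLe]; simp
      have hall : ∀ s ∈ Set.Ioo p q,
          lo U (c i) s ≤ lo U (c j) s ∧ hi U (c i) s ≤ hi U (c j) s ∧
          lo U (c j) s ≤ hi U (c i) s := by
        intro s hs
        have h1 := hpw s hs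
        rw [hLe, List.pairwise_append] at h1
        obtain ⟨-, h2, h3⟩ := h1
        rw [List.pairwise_cons] at h2
        obtain ⟨h4, h5⟩ := h2
        rw [List.pairwise_cons] at h5
        have h6 := h4 j (List.mem_cons_self ..)
        refine ⟨h6.1.le, h6.2.le, ?_⟩
        by_contra hcon
        push Not at hcon
        have hcp' := hlocp j hj' s (hIoo s hs)
        have hcm' := hcmhi i hi' s (hIoo s hs)
        obtain ⟨m, hm, h7, h8⟩ := hcover s hs ((hi U (c i) s + lo U (c j) s) / 2)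
          (by linarith) (by linarith)
        rw [hLe] at hm
        simp only [List.mem_append, List.mem_cons] at hm
        rcases hm with hm | rfl | rfl | hm
        · have := h3 m hm i (List.mem_cons_self ..)
          linarith [this.2]
        · linarith
        · linarith
        · have := h5.1 m hm
          linarith [this.1]
      have e1 := evl_ext hpq (hloc i hi') (hloc j hj') fun s hs => (hall s hs).1
      have e2 := evl_ext hpq (hhic i hi') (hhic j hj') fun s hs => (hall s hs).2.1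
      have e3 := evl_ext hpq (hloc j hj') (hhic i hi') fun s hs => (hall s hs).2.2
      exact fun s hs => ⟨e1 s hs, e2 s hs, e3 s hs⟩
    intro s hs
    refine ⟨fun i hi' => ⟨hdom i hi' s hs, hlocp i hi' s hs, hcmhi i hi' s hs,
      hlohi i hi' s hs⟩, ?_, ?_, ?_⟩
    · rw [List.isChain_iff_forall_rel_of_append_cons_cons]
      intro i j l₁ l₂ hLe
      have hi' : i ∈ L := by rw [hLe]; simp
      have hj' : j ∈ L := by rw [hLe]; simp
      obtain ⟨h1, h2, h3⟩ := hadj hLe s hs
      refine ⟨max_le_max_right _ h1, min_le_min_right _ h2, ?_⟩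
      exact max_le (le_min h3 (hlocp j hj' s hs)) (le_min (hcmhi i hi' s hs) (hle s hs))
    · intro i hi'
      obtain ⟨l, hl⟩ : ∃ l, L = i :: l := by
        cases hLL : L with
        | nil => exact absurd hLL hne
        | cons x l =>
          rw [hLL] at hi'
          simp only [List.head?_cons, Option.mem_some_iff] at hi'
          exact ⟨l, by rw [hi']⟩
      have hiL : i ∈ L := by rw [hl]; simp
      refine evl_ext hpq (hloc i hiL) hcm (fun s hs => ?_) s hs
      obtain ⟨m, hm, h7, h8⟩ := hcover s hs (cm s) le_rfl (hle s (hIoo s hs))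
      have h1 := hpw s hs
      rw [hl, List.pairwise_cons] at h1
      rw [hl, List.mem_cons] at hm
      rcases hm with rfl | hm
      · exact h7
      · exact (h1.1 m hm).1.le.trans h7
    · intro i hi'
      obtain ⟨l, hl⟩ : ∃ l, L = l ++ [i] := by
        rw [Option.mem_def, List.getLast?_eq_some_iff] at hi'
        exact hi'
      have hiL : i ∈ L := by rw [hl]; simp
      refine evl_ext hpq hcp (hhic i hiL) (fun s hs => ?_) s hs
      obtain ⟨m, hm, h7, h8⟩ := hcover s hs (cp s) (hle s (hIoo s hs)) le_rfl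
      have h1 := hpw s hs
      rw [hl, List.pairwise_append] at h1
      rw [hl, List.mem_append, List.mem_singleton] at hm
      rcases hm with hm | rfl
      · exact h8.trans (h1.2.2 m hm i (List.mem_singleton_self i)).2.le
      · exact h8

end FT722
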