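import Mathlib
import Pool.Agent.FTfinal.FT934_CB
set_option autoImplicit false
namespace FT722

section zip
variable {ι : Type}

theorem tri_zero1 (c : ι → ℝ × ℝ) (p p' q : ι) (h : p = q ∨ p' = q) :
    cr (c p) (c p') + cr (c p') (c q) + cr (c q) (c p) = 0 := by
  rcases h with rfl | rfl <;> simp [cr] <;> ring

variable [DecidableEq ι]

theorem card1 (A B : Finset ι) (p : ι) (hA : p ∉ A) (hB : p ∉ B) :
    (symmDiff (insert p A) B).card = (symmDiff A B).card + 1 := by
  have e : symmDiff (insert p A) B = insert p (symmDiff A B) := by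
    ext x
    simp only [Finset.mem_symmDiff, Finset.mem_insert]
    by_cases hx : x = p
    · subst hx; simp [hB]
    · simp [hx]
  rw [e, Finset.card_insert_of_notMem]
  simp [Finset.mem_symmDiff, hA, hB]

theorem card2 (A B : Finset ι) (p : ι) (hA : p ∉ A) (hB : p ∈ B) :
    (symmDiff A B).card = (symmDiff (insert p A) B).card + 1 := by
  have e : symmDiff A B = insert p (symmDiff (insert p A) B) := by
    ext x
    simp only [Finset.mem_symmDiff, Finset.mem_insert]
    by_cases hx : x = p
    · subst hx; simp [hB, hA]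
    · simp [hx]
  rw [e, Finset.card_insert_of_notMem]
  simp [Finset.mem_symmDiff, hB]

structure Inv (lo up : ι → ℝ) (cp : ℝ) (P Q : List ι) : Prop where
  nP : P.Nodup
  nQ : Q.Nodup
  cP : P.IsChain (fun i j => lo i ≤ lo j ∧ up i ≤ up j ∧ lo j ≤ up i)
  cQ : Q.IsChain (fun i j => lo i ≤ lo j ∧ up i ≤ up j ∧ lo j ≤ up i)
  val : ∀ i, i ∈ P ∨ i ∈ Q → lo i ≤ up i ∧ up i ≤ cp
  lP : ∀ h, up (P.getLast h) = cp
  lQ : ∀ h, up (Q.getLast h) = cp
  noinv : ∀ p P' q Q', (p :: P') <:+ P → (q :: Q') <:+ Q → p ∈ Q' → q ∈ P' → False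
  meet : ∀ hP hQ, lo (P.head hP) ≤ up (Q.head hQ) ∧ lo (Q.head hQ) ≤ up (P.head hP)

theorem Inv.symm {lo up : ι → ℝ} {cp : ℝ} {P Q : List ι} (H : Inv lo up cp P Q) :
    Inv lo up cp Q P where
  nP := H.nQ
  nQ := H.nP
  cP := H.cQ
  cQ := H.cP
  val := fun i hi => H.val i hi.symm
  lP := H.lQ
  lQ := H.lP
  noinv := fun p P' q Q' h1 h2 h3 h4 => H.noinv q Q' p P' h2 h1 h4 h3
  meet := fun hP hQ => ⟨(H.meet hQ hP).2, (H.meet hQ hP).1⟩

/-- the closed sum -/
def clo (c : ι → ℝ × ℝ) (p : ι) (P' : List ι) (q : ι) (Q' : List ι) : ℝ :=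
  pth c (q :: Q') - pth c (p :: P') + cr (c p) (c q) +
    cr (c ((q :: Q').getLast (by simp))) (c ((p :: P').getLast (by simp)))

def cnt (p : ι) (P' : List ι) (q : ι) (Q' : List ι) : ℝ :=
  ((symmDiff (p :: P').toFinset (q :: Q').toFinset).card : ℝ)
        - (if p = q then 0 else 1)
        - (if (p :: P').getLast (by simp) = (q :: Q').getLast (by simp) then 0 else 1)

theorem clo_symm (c : ι → ℝ × ℝ) (p : ι) (P' : List ι) (q : ι) (Q' : List ι) :
    clo c q Q' p P' = - clo c p P' q Q' := by
  simp only [clo, cr]; ring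

theorem cnt_symm (p : ι) (P' : List ι) (q : ι) (Q' : List ι) :
    cnt q Q' p P' = cnt p P' q Q' := by
  simp only [cnt, symmDiff_comm (q :: Q').toFinset, eq_comm (a := q), 
    eq_comm (a := (q :: Q').getLast (by simp))]

theorem up_le_tail {lo up : ι → ℝ} {q : ι} {Q' : List ι}
    (h : (q :: Q').IsChain (fun i j => lo i ≤ lo j ∧ up i ≤ up j ∧ lo j ≤ up i)) :
    ∀ x ∈ Q', up q ≤ up x := by
  have h1 : (q :: Q').IsChain (fun i j => up i ≤ up j) := h.imp (fun _ _ h => h.2.1)
  have : IsTrans ι (fun i j => up i ≤ up j) := ⟨fun _ _ _ => le_trans⟩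
  exact (List.pairwise_cons.mp (List.isChain_iff_pairwise.mp h1)).1

theorem step (c : ι → ℝ × ℝ) (lo up : ι → ℝ) (cp h : ℝ) (hh : 0 ≤ h)
    (htri : ∀ p q r : ι, (∃ y, lo p ≤ y ∧ y ≤ up p ∧ lo q ≤ y ∧ y ≤ up q ∧ lo r ≤ y ∧ y ≤ up r) →
      |cr (c p) (c q) + cr (c q) (c r) + cr (c r) (c p)| ≤ h)
    (p p' : ι) (P'' : List ι) (q : ι) (Q' : List ι) (H : Inv lo up cp (p :: p' :: P'') (q :: Q'))
    (hup : up p ≤ up q) (hpQ : p ∉ Q')
    (IH : Inv lo up cp (p' :: P'') (q :: Q') → |clo c p' P'' q Q'| ≤ h * cnt p' P'' q Q') :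
    |clo c p (p' :: P'') q Q'| ≤ h * cnt p (p' :: P'') q Q' := by
  have hcc := List.isChain_cons_cons.mp H.cP
  have hmeet := H.meet (by simp) (by simp)
  simp only [List.head_cons] at hmeet
  have hp := H.val p (by simp)
  have hp' := H.val p' (by simp)
  have hq := H.val q (by simp)
  have hnp : p ∉ p' :: P'' := (List.nodup_cons.mp H.nP).1
  have hInv : Inv lo up cp (p' :: P'') (q :: Q') := by
    refine ⟨(List.nodup_cons.mp H.nP).2, H.nQ, hcc.2, H.cQ, ?_, ?_, H.lQ, ?_, ?_⟩
    · intro i hi
      refine H.val i ?_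
      rcases hi with hi | hi
      · left; exact List.mem_cons_of_mem _ hi
      · right; exact hi
    · intro h
      have := H.lP (by simp)
      rwa [List.getLast_cons (by simp)] at this
    · intro a A b B h1 h2 h3 h4
      exact H.noinv a A b B (h1.trans (List.suffix_cons _ _)) h2 h3 h4
    · intro _ _
      simp only [List.head_cons]
      exact ⟨by linarith [hcc.1.2.2], by linarith [hcc.1.2.1]⟩
  have hIH := IH hInv
  have e1 : clo c p (p' :: P'') q Q' = clo c p' P'' q Q' -
      (cr (c p) (c p') + cr (c p') (c q) + cr (c q) (c p)) := by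
    simp only [clo, pth]
    rw [List.getLast_cons (a := p) (l := p' :: P'') (by simp)]
    simp only [cr]; ring
  have hlast : (p :: p' :: P'').getLast (by simp) = (p' :: P'').getLast (by simp) :=
    List.getLast_cons (by simp)
  by_cases hpq : p = q
  · -- triangle zero
    rw [e1, tri_zero1 c p p' q (Or.inl hpq), sub_zero]
    have hp'q : p' ≠ q := by
      rintro rfl
      exact hnp (by simp [hpq])
    have e2 : cnt p (p' :: P'') q Q' = cnt p' P'' q Q' := by
      simp only [cnt]
      rw [hlast, if_pos hpq, if_neg hp'q, List.toFinset_cons (a := p)]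
      have := card2 (p' :: P'').toFinset (q :: Q').toFinset p (by simpa using hnp)
        (by simp [hpq])
      rw [this]
      push_cast
      ring
    rw [e2]
    exact hIH
  · have hpQ2 : p ∉ q :: Q' := by simp [hpq, hpQ]
    by_cases hp'q : p' = q
    · rw [e1, tri_zero1 c p p' q (Or.inr hp'q), sub_zero]
      have e2 : cnt p (p' :: P'') q Q' = cnt p' P'' q Q' := by
        simp only [cnt]
        rw [hlast, if_neg hpq, if_pos hp'q, List.toFinset_cons (a := p)]
        have := card1 (p' :: P'').toFinset (q :: Q').toFinset p (by simpa using hnp)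
          (by simpa using hpQ2)
        rw [this]
        push_cast
        ring
      rw [e2]
      exact hIH
    · have ht : |cr (c p) (c p') + cr (c p') (c q) + cr (c q) (c p)| ≤ h := by
        apply htri
        exact ⟨up p, hp.1, le_rfl, hcc.1.2.2, hcc.1.2.1, hmeet.2, hup⟩
      have e2 : cnt p (p' :: P'') q Q' = cnt p' P'' q Q' + 1 := by
        simp only [cnt]
        rw [hlast, if_neg hpq, if_neg hp'q, List.toFinset_cons (a := p)]
        have := card1 (p' :: P'').toFinset (q :: Q').toFinset p (by simpa using hnp)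
          (by simpa using hpQ2)
        rw [this]
        push_cast
        ring
      rw [e1, e2]
      calc _ ≤ |clo c p' P'' q Q'| + |cr (c p) (c p') + cr (c p') (c q) + cr (c q) (c p)| :=
            abs_sub _ _
        _ ≤ h * cnt p' P'' q Q' + h := by linarith
        _ = _ := by ring

theorem zmain (c : ι → ℝ × ℝ) (lo up : ι → ℝ) (cp h : ℝ) (hh : 0 ≤ h)
    (htri : ∀ p q r : ι, (∃ y, lo p ≤ y ∧ y ≤ up p ∧ lo q ≤ y ∧ y ≤ up q ∧ lo r ≤ y ∧ y ≤ up r) →
      |cr (c p) (c q) + cr (c q) (c r) + cr (c r) (c p)| ≤ h) (n : ℕ) :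
    ∀ (p : ι) (P' : List ι) (q : ι) (Q' : List ι), P'.length + Q'.length = n →
      Inv lo up cp (p :: P') (q :: Q') → |clo c p P' q Q'| ≤ h * cnt p P' q Q' := by
  induction n with
  | zero =>
    intro p P' q Q' hn H
    have h1 : P' = [] := List.length_eq_zero_iff.mp (by omega)
    have h2 : Q' = [] := List.length_eq_zero_iff.mp (by omega)
    subst h1 h2
    have e1 : clo c p [] q [] = 0 := by simp [clo, pth, cr]; ring
    have e2 : cnt p [] q [] = 0 := by
      simp only [cnt]
      by_cases hpq : p = q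
      · subst hpq; simp
      · have := card1 (∅ : Finset ι) {q} p (by simp) (by simpa using hpq)
        simp only [List.toFinset_cons, List.toFinset_nil, List.getLast_singleton, if_neg hpq]
        simp only [insert_empty_eq] at this ⊢
        rw [this]
        simp [hpq, symmDiff_def]
        norm_num
    rw [e1, e2]; simp
  | succ n ih =>
    intro p P' q Q' hn H
    -- advance p
    have advP : ∀ (p : ι) (P' : List ι) (q : ι) (Q' : List ι), P'.length + Q'.length = n + 1 →
        Inv lo up cp (p :: P') (q :: Q') → P' ≠ [] → up p ≤ up q → p ∉ Q' →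
        |clo c p P' q Q'| ≤ h * cnt p P' q Q' := by
      intro p P' q Q' hn H hP' hup hpQ
      obtain ⟨p', P'', rfl⟩ := List.exists_cons_of_ne_nil hP'
      exact step c lo up cp h hh htri p p' P'' q Q' H hup hpQ
        (ih p' P'' q Q' (by simp at hn; omega))
    have advQ : ∀ (p : ι) (P' : List ι) (q : ι) (Q' : List ι), P'.length + Q'.length = n + 1 →
        Inv lo up cp (p :: P') (q :: Q') → Q' ≠ [] → up q ≤ up p → q ∉ P' →
        |clo c p P' q Q'| ≤ h * cnt p P' q Q' := by
      intro p P' q Q' hn H hQ' hup hqP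
      have := advP q Q' p P' (by omega) H.symm hQ' hup hqP
      rwa [clo_symm, cnt_symm, abs_neg] at this
    by_cases hP' : P' = []
    · subst hP'
      have hQ' : Q' ≠ [] := by rintro rfl; simp at hn
      have h1 := H.lP (by simp)
      simp only [List.getLast_singleton] at h1
      exact advQ p [] q Q' hn H hQ' (by rw [h1]; exact (H.val q (by simp)).2) (by simp)
    by_cases hQ' : Q' = []
    · subst hQ'
      have h1 := H.lQ (by simp)
      simp only [List.getLast_singleton] at h1
      exact advP p P' q [] hn H hP' (by rw [h1]; exact (H.val p (by simp)).2) (by simp)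
    rcases lt_trichotomy (up p) (up q) with hlt | heq | hgt
    · refine advP p P' q Q' hn H hP' hlt.le ?_
      intro hmem
      have := up_le_tail H.cQ p hmem
      linarith
    · by_cases hpQ : p ∈ Q'
      · refine advQ p P' q Q' hn H hQ' heq.ge ?_
        intro hmem
        exact H.noinv p P' q Q' List.suffix_rfl List.suffix_rfl hpQ hmem
      · exact advP p P' q Q' hn H hP' heq.le hpQ
    · refine advQ p P' q Q' hn H hQ' hgt.le ?_
      intro hmem
      have := up_le_tail H.cP q hmem
      linarith

theorem no_swap (l : List ι) (hl : l.Nodup) (p q : ι) (h1 : [p, q].Sublist l)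
    (h2 : [q, p].Sublist l) : False := by
  induction l with
  | nil => simp at h1
  | cons x l ih =>
    have hx := (List.nodup_cons.mp hl).1
    have hl' := (List.nodup_cons.mp hl).2
    rcases List.sublist_cons_iff.mp h1 with a | ⟨r, hr, a⟩
    · rcases List.sublist_cons_iff.mp h2 with b | ⟨r', hr', b⟩
      · exact ih hl' a b
      · simp only [List.cons.injEq] at hr'
        obtain ⟨rfl, rfl⟩ := hr'
        exact hx (a.subset (by simp))
    · simp only [List.cons.injEq] at hr
      obtain ⟨rfl, rfl⟩ := hr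
      rcases List.sublist_cons_iff.mp h2 with b | ⟨r', hr', b⟩
      · exact hx (b.subset (by simp))
      · simp only [List.cons.injEq] at hr'
        obtain ⟨rfl, rfl⟩ := hr'
        exact hx (a.subset (by simp))

end zip

/-- Zipper lemma: the closed polygon of centres formed by two chains of intervals covering the same
chord `[cm, cp]` is a union of at most `|P Δ Q| - [heads differ] - [lasts differ]` nondegenerate
triangles, each coming from three intervals with a common point. -/
theorem zipper {ι : Type} [DecidableEq ι] (c : ι → ℝ × ℝ) (lo up : ι → ℝ) (cm cp h : ℝ) (hh : 0 ≤ h)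
    (htri : ∀ p q r : ι, (∃ y, lo p ≤ y ∧ y ≤ up p ∧ lo q ≤ y ∧ y ≤ up q ∧ lo r ≤ y ∧ y ≤ up r) →
      |cr (c p) (c q) + cr (c q) (c r) + cr (c r) (c p)| ≤ h)
    (P Q : List ι) (hP : P ≠ []) (hQ : Q ≠ []) (hPn : P.Nodup) (hQn : Q.Nodup)
    (hPc : P.IsChain (fun i j => lo i ≤ lo j ∧ up i ≤ up j ∧ lo j ≤ up i))
    (hQc : Q.IsChain (fun i j => lo i ≤ lo j ∧ up i ≤ up j ∧ lo j ≤ up i))
    (hint : ∀ i, i ∈ P ∨ i ∈ Q → cm ≤ lo i ∧ lo i ≤ up i ∧ up i ≤ cp)
    (hP0 : lo (P.head hP) = cm) (hQ0 : lo (Q.head hQ) = cm)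
    (hP1 : up (P.getLast hP) = cp) (hQ1 : up (Q.getLast hQ) = cp)
    (hord : P.filter (fun i => decide (i ∈ Q)) = Q.filter (fun i => decide (i ∈ P))) :
    pth c Q - pth c P + cr (c (P.head hP)) (c (Q.head hQ)) +
        cr (c (Q.getLast hQ)) (c (P.getLast hP)) ≤
      h * (((symmDiff P.toFinset Q.toFinset).card : ℝ)
        - (if P.head hP = Q.head hQ then 0 else 1)
        - (if P.getLast hP = Q.getLast hQ then 0 else 1)) := by
  obtain ⟨p, P', rfl⟩ := List.exists_cons_of_ne_nil hP
  obtain ⟨q, Q', rfl⟩ := List.exists_cons_of_ne_nil hQ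
  simp only [List.head_cons] at hP0 hQ0
  have hp := hint p (by simp)
  have hq := hint q (by simp)
  have H : Inv lo up cp (p :: P') (q :: Q') := by
    refine ⟨hPn, hQn, hPc, hQc, fun i hi => (hint i hi).2, fun _ => hP1, fun _ => hQ1, ?_, ?_⟩
    · intro a A b B h1 h2 h3 h4
      have haQ : a ∈ q :: Q' := h2.subset (List.mem_cons_of_mem _ h3)
      have hbP : b ∈ p :: P' := h1.subset (List.mem_cons_of_mem _ h4)
      have hbQ : b ∈ q :: Q' := h2.subset (by simp)
      have haP : a ∈ p :: P' := h1.subset (by simp)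
      have s1 : [a, b].Sublist (p :: P') := by
        refine List.Sublist.trans ?_ h1.sublist
        exact List.Sublist.cons_cons _ (List.singleton_sublist.mpr h4)
      have s2 : [b, a].Sublist (q :: Q') := by
        refine List.Sublist.trans ?_ h2.sublist
        exact List.Sublist.cons_cons _ (List.singleton_sublist.mpr h3)
      have t1 := s1.filter (fun i => decide (i ∈ q :: Q'))
      have t2 := s2.filter (fun i => decide (i ∈ p :: P'))
      have u1 : [a, b].filter (fun i => decide (i ∈ q :: Q')) = [a, b] := by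
        rw [List.filter_eq_self]
        intro x hx
        simp only [List.mem_cons, List.not_mem_nil, or_false] at hx
        rcases hx with rfl | rfl
        · exact decide_eq_true haQ
        · exact decide_eq_true hbQ
      have u2 : [b, a].filter (fun i => decide (i ∈ p :: P')) = [b, a] := by
        rw [List.filter_eq_self]
        intro x hx
        simp only [List.mem_cons, List.not_mem_nil, or_false] at hx
        rcases hx with rfl | rfl
        · exact decide_eq_true hbP
        · exact decide_eq_true haP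
      rw [u1] at t1
      rw [u2, ← hord] at t2
      exact no_swap _ (hPn.filter _) a b t1 t2
    · intro _ _
      simp only [List.head_cons]
      rw [hP0, hQ0]
      exact ⟨by linarith, by linarith⟩
  have key := zmain c lo up cp h hh htri _ p P' q Q' rfl H
  have := (abs_le.mp key).2
  simp only [clo, cnt] at this
  simp only [List.head_cons]
  exact this

end FT722
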