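import Mathlib
import Pool.Agent.FTfinal.FT722_SweepDefs
import Pool.Agent.FTfinal.FT722_Zipper
import Pool.Agent.FTfinal.FT722_PresentOrd
import Pool.Agent.FTfinal.FT722_Partition
import Pool.Agent.FTfinal.FT722_ValidList
set_option autoImplicit false
open MeasureTheory Set
namespace FT722.MP8

noncomputable section
variable {k : ℕ} {a : ℝ} {U cm cp : ℝ → ℝ} {c : Fin k → ℝ × ℝ} {h : ℝ} {s0 s1 : ℝ} {N : ℕ}
  {x μ ν : ℕ → ℝ} {L : ℕ → List (Fin k)} {bo tp : ℕ → Fin k}





theorem esw_two {P Q : List (Fin k)} {s g : ℝ} (hg : 0 ≤ g) (e : Fin k → ℝ × ℝ)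
    (htri : ∀ p q r : Fin k, (∃ y, (dom a (c p) s ∧ lo U (c p) s ≤ y ∧ y ≤ hi U (c p) s) ∧
      (dom a (c q) s ∧ lo U (c q) s ≤ y ∧ y ≤ hi U (c q) s) ∧
      (dom a (c r) s ∧ lo U (c r) s ≤ y ∧ y ≤ hi U (c r) s)) →
      |cr (e p) (e q) + cr (e q) (e r) + cr (e r) (e p)| ≤ g)
    (hle : cm s ≤ cp s) (hP : Valid a U cm cp c P s) (hQ : Valid a U cm cp c Q s)
    (hPn : P.Nodup) (hQn : Q.Nodup) {b b' t t' : Fin k} (hb : b ∈ P.head?) (hb' : b' ∈ Q.head?)
    (ht : t ∈ P.getLast?) (ht' : t' ∈ Q.getLast?)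
    (hord : P.filter (fun i => decide (i ∈ Q)) = Q.filter (fun i => decide (i ∈ P))) :
    pth e Q - pth e P + cr (e b) (e b') + cr (e t') (e t) ≤
      g * (((symmDiff P.toFinset Q.toFinset).card : ℝ)
        - (if b = b' then 0 else 1) - (if t = t' then 0 else 1)) := by
  classical
  have hP0 : P ≠ [] := by
    rintro rfl
    simp at hb
  have hQ0 : Q ≠ [] := by
    rintro rfl
    simp at hb'
  have eb : P.head hP0 = b := by
    rw [List.head?_eq_some_head hP0] at hb
    simpa using hb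
  have eb' : Q.head hQ0 = b' := by
    rw [List.head?_eq_some_head hQ0] at hb'
    simpa using hb'
  have et : P.getLast hP0 = t := by
    rw [List.getLast?_eq_some_getLast hP0] at ht
    simpa using ht
  have et' : Q.getLast hQ0 = t' := by
    rw [List.getLast?_eq_some_getLast hQ0] at ht'
    simpa using ht'
  set lo' : Fin k → ℝ := fun i => if i ∈ P ∨ i ∈ Q then max (lo U (c i) s) (cm s) else 1 with hlo'
  set up' : Fin k → ℝ := fun i => if i ∈ P ∨ i ∈ Q then min (hi U (c i) s) (cp s) else 0 with hup'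
  have lom : ∀ i, i ∈ P ∨ i ∈ Q → lo' i = max (lo U (c i) s) (cm s) := fun i hi' => by
    rw [hlo']; simp only [if_pos hi']
  have upm : ∀ i, i ∈ P ∨ i ∈ Q → up' i = min (hi U (c i) s) (cp s) := fun i hi' => by
    rw [hup']; simp only [if_pos hi']
  have hmem : ∀ i, i ∈ P ∨ i ∈ Q → dom a (c i) s ∧ lo U (c i) s ≤ cp s ∧ cm s ≤ hi U (c i) s ∧
      lo U (c i) s ≤ hi U (c i) s := by
    rintro i (hi' | hi')
    · exact hP.1 i hi'
    · exact hQ.1 i hi'
  have key : ∀ i y, lo' i ≤ y → y ≤ up' i →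
      dom a (c i) s ∧ lo U (c i) s ≤ y ∧ y ≤ hi U (c i) s := by
    intro i y h1 h2
    by_cases hi' : i ∈ P ∨ i ∈ Q
    · rw [lom i hi'] at h1
      rw [upm i hi'] at h2
      exact ⟨(hmem i hi').1, (le_max_left _ _).trans h1, h2.trans (min_le_left _ _)⟩
    · exfalso
      rw [hlo'] at h1
      rw [hup'] at h2
      simp only [if_neg hi'] at h1 h2
      linarith
  have Z := zipper e lo' up' (cm s) (cp s) g hg (by
      rintro p q r ⟨y, h1, h2, h3, h4, h5, h6⟩
      exact htri p q r ⟨y, key p y h1 h2, key q y h3 h4, key r y h5 h6⟩) P Q hP0 hQ0 hPn hQn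
    (by
      refine hP.2.1.imp_of_mem_imp ?_
      intro i j hi' hj' hij
      rw [lom i (Or.inl hi'), lom j (Or.inl hj'), upm i (Or.inl hi'), upm j (Or.inl hj')]
      exact hij)
    (by
      refine hQ.2.1.imp_of_mem_imp ?_
      intro i j hi' hj' hij
      rw [lom i (Or.inr hi'), lom j (Or.inr hj'), upm i (Or.inr hi'), upm j (Or.inr hj')]
      exact hij)
    (by
      intro i hi'
      rw [lom i hi', upm i hi']
      obtain ⟨h1, h2, h3, h4⟩ := hmem i hi'
      exact ⟨le_max_right _ _, max_le (le_min h4 h2) (le_min h3 hle), min_le_right _ _⟩)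
    (by
      rw [lom _ (Or.inl (List.head_mem hP0))]
      apply max_eq_right
      apply hP.2.2.1
      rw [List.head?_eq_some_head hP0]; rfl)
    (by
      rw [lom _ (Or.inr (List.head_mem hQ0))]
      apply max_eq_right
      apply hQ.2.2.1
      rw [List.head?_eq_some_head hQ0]; rfl)
    (by
      rw [upm _ (Or.inl (List.getLast_mem hP0))]
      apply min_eq_right
      apply hP.2.2.2
      rw [List.getLast?_eq_some_getLast hP0]; rfl)
    (by
      rw [upm _ (Or.inr (List.getLast_mem hQ0))]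
      apply min_eq_right
      apply hQ.2.2.2
      rw [List.getLast?_eq_some_getLast hQ0]; rfl)
    (by
      convert hord)
  rw [eb, eb', et, et'] at Z
  convert Z

theorem exists_sweep (hB : Body a U) (hh : 0 ≤ h)
    (htri : ∀ p ∈ KU a U, ∀ q ∈ KU a U, ∀ r ∈ KU a U, |cr p q + cr q r + cr r p| ≤ h)
    (hinj : Function.Injective c) (h01 : s0 < s1)
    (hcm : ConvexOn ℝ (Icc s0 s1) cm) (hcmc : ContinuousOn cm (Icc s0 s1))
    (hcp : ConcaveOn ℝ (Icc s0 s1) cp) (hcpc : ContinuousOn cp (Icc s0 s1))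
    (hle : ∀ s ∈ Icc s0 s1, cm s ≤ cp s)
    (hcov : ∀ s ∈ Icc s0 s1, ∀ y, cm s ≤ y → y ≤ cp s →
      ∃ i, dom a (c i) s ∧ lo U (c i) s ≤ y ∧ y ≤ hi U (c i) s) :
    ∃ (N : ℕ) (x : ℕ → ℝ) (L : ℕ → List (Fin k)) (bo tp : ℕ → Fin k),
      Sweep a U cm cp c s0 s1 N x L bo tp ∧
      pth c (L (N - 1)) - pth c (L 0) +
        (∑ j ∈ Finset.range (N - 1),
          (cr (c (bo j)) (c (bo (j + 1))) + cr (c (tp (j + 1))) (c (tp j)))) ≤
        h * (2 * k - 2 - nb N L bo tp) ∧ nb N L bo tp + 2 ≤ 2 * k := by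
  classical
  set J : Fin k → Set ℝ := fun i => {s : ℝ | s ∈ Icc s0 s1 ∧ Present a U cm cp c i s} with hJdef
  have hJ : ∀ i, (J i).OrdConnected := fun i =>
    present_ordConnected hB.conc hcm hcp hinj i
  obtain ⟨N, x, hN, hx0, hxN, hx, hpart⟩ := finite_partition h01 J hJ
  -- monotonicity
  have hmono : ∀ i j, i ≤ j → j ≤ N → x i ≤ x j := by
    intro i j hij
    induction j, hij using Nat.le_induction with
    | base => intro _; exact le_rfl
    | succ j _ ih => intro hj; exact (ih (by omega)).trans (hx j (by omega)).le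
  have hxin : ∀ j ≤ N, x j ∈ Icc s0 s1 := fun j hj =>
    ⟨by rw [← hx0]; exact hmono 0 j (Nat.zero_le _) hj, by rw [← hxN]; exact hmono j N hj le_rfl⟩
  have hsub : ∀ j < N, Icc (x j) (x (j + 1)) ⊆ Icc s0 s1 := fun j hj =>
    Icc_subset_Icc (hxin j hj.le).1 (hxin (j + 1) hj).2
  set mid : ℕ → ℝ := fun j => (x j + x (j + 1)) / 2 with hmid
  have hmidm : ∀ j < N, mid j ∈ Ioo (x j) (x (j + 1)) := fun j hj => by
    have := hx j hj
    rw [hmid]
    constructor
    · show x j < (x j + x (j + 1)) / 2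
      linarith
    · show (x j + x (j + 1)) / 2 < x (j + 1)
      linarith
  set M : ℕ → Finset (Fin k) := fun j => Finset.univ.filter
    (fun i => Present a U cm cp c i (mid j)) with hM
  have hMmem : ∀ j i, i ∈ M j ↔ Present a U cm cp c i (mid j) := fun j i => by
    rw [hM]; simp
  have hMc : ∀ j < N, ∀ s ∈ Ioo (x j) (x (j + 1)), ∀ i, i ∈ M j ↔ Present a U cm cp c i s := by
    intro j hj s hs i
    rw [hMmem]
    rcases hpart j hj i with h1 | h1
    · exact ⟨fun _ => (h1 hs).2, fun _ => (h1 (hmidm j hj)).2⟩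
    · constructor
      · intro h2
        exfalso
        exact Set.disjoint_left.1 h1 (hmidm j hj)
          ⟨hsub j hj (Ioo_subset_Icc_self (hmidm j hj)), h2⟩
      · intro h2
        exfalso
        exact Set.disjoint_left.1 h1 hs ⟨hsub j hj (Ioo_subset_Icc_self hs), h2⟩
  have hLex : ∀ j, ∃ L : List (Fin k), j < N → (L ≠ [] ∧ L.Nodup ∧ L.toFinset = M j ∧
      L.Pairwise (fun i j => ∃ s, Present a U cm cp c i s ∧ Present a U cm cp c j s ∧
        lo U (c i) s < lo U (c j) s ∧ hi U (c i) s < hi U (c j) s) ∧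
      ∀ s ∈ Set.Icc (x j) (x (j + 1)), Valid a U cm cp c L s) := by
    intro j
    by_cases hj : j < N
    · obtain ⟨L, hL⟩ := exists_valid_list hB.conc hB.cont hB.nn (hx j hj)
        (hcmc.mono (hsub j hj)) (hcpc.mono (hsub j hj)) (fun s hs => hle s (hsub j hj hs)) hinj
        (fun s hs => hcov s (hsub j hj hs)) (M j) (hMc j hj)
      exact ⟨L, fun _ => hL⟩
    · exact ⟨[], fun h => absurd h hj⟩
  choose L hL using hLex
  have i0 : Fin k := (L 0).head (hL 0 (by omega)).1
  set bo : ℕ → Fin k := fun j => ((L j).head?).getD i0 with hbo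
  set tp : ℕ → Fin k := fun j => ((L j).getLast?).getD i0 with htp
  have hbo' : ∀ j < N, bo j ∈ (L j).head? := by
    intro j hj
    have h1 := (hL j hj).1
    simp only [hbo]
    rw [List.head?_eq_some_head h1]
    rfl
  have htp' : ∀ j < N, tp j ∈ (L j).getLast? := by
    intro j hj
    have h1 := (hL j hj).1
    simp only [htp]
    rw [List.getLast?_eq_some_getLast h1]
    rfl
  have hcount := count_changes N hN M (by
    intro i j1 j2 j3 h12 h23 h3 hi1 hi3
    rw [hMmem] at hi1 hi3 ⊢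
    have e1 : mid j1 ∈ J i := ⟨hsub j1 (by omega) (Ioo_subset_Icc_self (hmidm j1 (by omega))), hi1⟩
    have e3 : mid j3 ∈ J i := ⟨hsub j3 (by omega) (Ioo_subset_Icc_self (hmidm j3 (by omega))), hi3⟩
    have e2 := (hJ i).out e1 e3 (show mid j2 ∈ Icc (mid j1) (mid j3) from by
      have a1 := hmono j1 j2 h12 (by omega)
      have a2 := hmono (j1 + 1) (j2 + 1) (by omega) (by omega)
      have a3 := hmono j2 j3 h23 (by omega)
      have a4 := hmono (j2 + 1) (j3 + 1) (by omega) (by omega)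
      constructor
      · show (x j1 + x (j1 + 1)) / 2 ≤ (x j2 + x (j2 + 1)) / 2
        linarith
      · show (x j2 + x (j2 + 1)) / 2 ≤ (x j3 + x (j3 + 1)) / 2
        linarith)
    exact e2.2)
  have hstep : ∀ (g : ℝ) (_ : 0 ≤ g) (e : Fin k → ℝ × ℝ)
      (_ : ∀ s, ∀ p q r : Fin k, (∃ y, (dom a (c p) s ∧ lo U (c p) s ≤ y ∧ y ≤ hi U (c p) s) ∧
      (dom a (c q) s ∧ lo U (c q) s ≤ y ∧ y ≤ hi U (c q) s) ∧
      (dom a (c r) s ∧ lo U (c r) s ≤ y ∧ y ≤ hi U (c r) s)) →
      |cr (e p) (e q) + cr (e q) (e r) + cr (e r) (e p)| ≤ g), ∀ j < N - 1,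
      pth e (L (j + 1)) - pth e (L j) + (cr (e (bo j)) (e (bo (j + 1))) +
        cr (e (tp (j + 1))) (e (tp j))) ≤
      g * (((symmDiff (M j) (M (j + 1))).card : ℝ)
        - (if bo j ≠ bo (j + 1) then 1 else 0) - (if tp j ≠ tp (j + 1) then 1 else 0)) := by
    intro g hg e he j hj
    obtain ⟨l1, l2, l3, l4, l5⟩ := hL j (by omega)
    obtain ⟨m1, m2, m3, m4, m5⟩ := hL (j + 1) (by omega)
    have hxj := hxin (j + 1) (by omega)
    have Z := esw_two (a := a) (U := U) (cm := cm) (cp := cp) (c := c) (P := L j) (Q := L (j + 1))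
      (s := x (j + 1)) hg e (he _) (hle _ hxj) (l5 _ ⟨(hx j (by omega)).le, le_rfl⟩)
      (m5 _ ⟨le_rfl, (hx (j + 1) (by omega)).le⟩) l2 m2 (hbo' j (by omega))
      (hbo' (j + 1) (by omega)) (htp' j (by omega)) (htp' (j + 1) (by omega)) (by
        let r : Fin k → Fin k → Prop := fun i j => ∃ s, Present a U cm cp c i s ∧
          Present a U cm cp c j s ∧ lo U (c i) s < lo U (c j) s ∧ hi U (c i) s < hi U (c j) s
        have hasym : ∀ i j, r i j → r j i → False := by
          rintro i j ⟨s, a1, a2, a3⟩ ⟨s', b1, b2, b3⟩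
          have := present_order_const hB.conc b1 b2 a2 a1 b3
          linarith [a3.1, this.1]
        have : Std.Irrefl r := ⟨fun i hi' => hasym i i hi' hi'⟩
        have : Std.Antisymm r := ⟨fun i j h1 h2 => (hasym i j h1 h2).elim⟩
        refine List.Pairwise.eq_of_mem_iff (r := r) (l4.filter _) (m4.filter _) ?_
        intro i
        simp only [List.mem_filter, decide_eq_true_eq]
        exact and_comm)
    rw [l3, m3] at Z
    refine le_trans (le_of_eq (by ring)) (le_trans Z (le_of_eq ?_))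
    congr 1
    by_cases c1 : bo j = bo (j + 1) <;> by_cases c2 : tp j = tp (j + 1) <;> simp [c1, c2]
  -- summation
  have hsum : ∀ (g : ℝ) (_ : 0 ≤ g) (e : Fin k → ℝ × ℝ)
      (_ : ∀ s, ∀ p q r : Fin k, (∃ y, (dom a (c p) s ∧ lo U (c p) s ≤ y ∧ y ≤ hi U (c p) s) ∧
      (dom a (c q) s ∧ lo U (c q) s ≤ y ∧ y ≤ hi U (c q) s) ∧
      (dom a (c r) s ∧ lo U (c r) s ≤ y ∧ y ≤ hi U (c r) s)) →
      |cr (e p) (e q) + cr (e q) (e r) + cr (e r) (e p)| ≤ g),
      pth e (L (N - 1)) - pth e (L 0) + ∑ j ∈ Finset.range (N - 1),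
        (cr (e (bo j)) (e (bo (j + 1))) + cr (e (tp (j + 1))) (e (tp j))) ≤
      g * (((∑ j ∈ Finset.range (N - 1), (symmDiff (M j) (M (j + 1))).card : ℕ) : ℝ)
        - (((Finset.range (N - 1)).filter (fun j => bo j ≠ bo (j + 1))).card : ℝ)
        - (((Finset.range (N - 1)).filter (fun j => tp j ≠ tp (j + 1))).card : ℝ)) := by
    intro g hg e he
    have h1 := Finset.sum_le_sum (fun j (hj : j ∈ Finset.range (N - 1)) =>
      hstep g hg e he j (Finset.mem_range.1 hj))
    rw [Finset.sum_add_distrib, Finset.sum_range_sub (fun j => pth e (L j)) (N - 1),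
      ← Finset.mul_sum, Finset.sum_sub_distrib, Finset.sum_sub_distrib] at h1
    rw [Finset.card_filter, Finset.card_filter]
    push_cast
    exact h1
  have hlen : ∀ j < N, (M j).card = (L j).length := by
    intro j hj
    obtain ⟨l1, l2, l3, l4, l5⟩ := hL j hj
    rw [← l3, List.toFinset_card_of_nodup l2]
  have hlen0 : 1 ≤ (L 0).length := List.length_pos_iff.2 (hL 0 (by omega)).1
  have hlenN : 1 ≤ (L (N - 1)).length := List.length_pos_iff.2 (hL (N - 1) (by omega)).1
  have hcnt : (∑ j ∈ Finset.range (N - 1), (symmDiff (M j) (M (j + 1))).card)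
      + (L 0).length + (L (N - 1)).length ≤ 2 * k := by
    rw [hlen 0 (by omega), hlen (N - 1) (by omega)] at hcount
    convert hcount
  refine ⟨N, x, L, bo, tp, ⟨hB, hinj, h01, hcm, hcmc, hcp, hcpc, hle, hN, hx0, hxN, hx,
    fun j hj => (hL j hj).2.2.2.2, fun j hj => (hL j hj).2.1, hbo', htp'⟩, ?_, ?_⟩
  · have h1 := hsum h hh c (by
      rintro s p q r ⟨y, ⟨p1, p2, p3⟩, ⟨q1, q2, q3⟩, ⟨r1, r2, r3⟩⟩
      have := htri _ (mem_cell p1 p2 p3) _ (mem_cell q1 q2 q3) _ (mem_cell r1 r2 r3)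
      convert this using 2
      simp only [cr, Prod.fst_sub, Prod.snd_sub]
      ring)
    refine h1.trans (mul_le_mul_of_nonneg_left ?_ hh)
    have h2 : ((((∑ j ∈ Finset.range (N - 1), (symmDiff (M j) (M (j + 1))).card)
      + (L 0).length + (L (N - 1)).length : ℕ)) : ℝ) ≤ ((2 * k : ℕ) : ℝ) := by
      exact_mod_cast hcnt
    have h3 : (nb N L bo tp : ℝ) =
        (((Finset.range (N - 1)).filter (fun j => bo j ≠ bo (j + 1))).card : ℝ) +
        (((Finset.range (N - 1)).filter (fun j => tp j ≠ tp (j + 1))).card : ℝ) +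
        (((L 0).length : ℝ) - 1) + (((L (N - 1)).length : ℝ) - 1) := by
      unfold nb
      push_cast [Nat.cast_sub hlen0, Nat.cast_sub hlenN]
      ring
    rw [h3]
    push_cast at h2 ⊢
    linarith
  · have h1 := hsum 1 zero_le_one (fun _ => 0) (by
      intro s p q r _
      simp [cr])
    have h2 : ∀ l : List (Fin k), pth (fun _ => (0 : ℝ × ℝ)) l = 0 := by
      intro l
      induction l with
      | nil => rfl
      | cons p l ih =>
        cases l with
        | nil => rfl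
        | cons q l =>
          simp only [pth]
          rw [ih]
          simp [cr]
    simp only [h2] at h1
    simp only [cr, Prod.fst_zero, Prod.snd_zero, mul_zero, sub_zero, add_zero,
      Finset.sum_const_zero, one_mul] at h1
    have h4 : ((((Finset.range (N - 1)).filter (fun j => bo j ≠ bo (j + 1))).card +
        ((Finset.range (N - 1)).filter (fun j => tp j ≠ tp (j + 1))).card : ℕ) : ℝ) ≤
        ((∑ j ∈ Finset.range (N - 1), (symmDiff (M j) (M (j + 1))).card : ℕ) : ℝ) := by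
      push_cast at h1 ⊢
      linarith
    have h5 := (Nat.cast_le (α := ℝ)).1 h4
    unfold nb
    omega

end

end FT722.MP8

namespace FT722
alias exists_sweep := MP8.exists_sweep
end FT722
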