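import Mathlib
import Pool.Agent.FTfinal.FT722x_P7b
import Pool.Agent.FTfinal.FT179_Jv
set_option autoImplicit false
open MeasureTheory intervalIntegral Set
namespace FT722
noncomputable section

variable {a : ℝ} {U : ℝ → ℝ}

/-- potential of a relative position and a direction -/
def pot (a : ℝ) (U : ℝ → ℝ) (z u : ℝ × ℝ) : ℝ :=
  if u.1 = 0 then Phmin a U z else Phi a U z (u.2 / u.1)

theorem UUP_ii (h : Body a U) {p q : ℝ} (hp : p ∈ Icc (-a) a) (hq : q ∈ Icc (-a) a) :
    IntervalIntegrable (fun s => U s + U (-s)) volume p q :=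
  ii_of_cont (h.cont.add (cont_neg h)) hp hq

theorem capf_kf (h : Body a U) (z : ℝ × ℝ) {u : ℝ × ℝ} (hu : u.1 ≠ 0) :
    capf (KU a U) z u = kf a U z (u.2 / u.1) := by
  have hV := ar_KUP h
  have e : (∫ s in (-a)..a, (cl U z (u.2 / u.1) s + U (-s))) = Vol a U - kA a U z (u.2 / u.1) := by
    unfold Vol kA
    have i2 : IntervalIntegrable (fun s => U s - cl U z (u.2 / u.1) s) volume (-a) a :=
      ii_of_cont (h.cont.sub (cl_cont h _ _)) (mem_na h) (mem_a h)
    rw [← intervalIntegral.integral_sub (UUP_ii h (mem_na h) (mem_a h)) i2]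
    congr 1; funext s; ring
  unfold capf kf
  change min _ (ar (KU a U) - _) = _
  rw [hV]
  rcases lt_or_gt_of_ne hu with h1 | h1
  · rw [capP_above h z h1]; rfl
  · rw [capP_below h z h1, e, min_comm]
    congr 1
    change Vol a U - _ = _
    ring

theorem capf_kv (h : Body a U) {z : ℝ × ℝ} (hz : z ∈ KU a U) {u : ℝ × ℝ} (hu : u.1 = 0)
    (hu2 : u.2 ≠ 0) : capf (KU a U) z u = kv a U z := by
  have hV := ar_KUP h
  have e : (∫ s in (-a)..z.1, (U s + U (-s))) = Vol a U - kAR a U z := by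
    unfold Vol kAR
    rw [← intervalIntegral.integral_add_adjacent_intervals (UUP_ii h (mem_na h) (KU_Icc hz))
      (UUP_ii h (KU_Icc hz) (mem_a h))]
    ring
  unfold capf kv
  change min _ (ar (KU a U) - _) = _
  rw [hV]
  rcases lt_or_gt_of_ne hu2 with h1 | h1
  · rw [capP_left h hz hu h1, e, min_comm]
    congr 1
    change Vol a U - _ = _
    ring
  · rw [capP_right h hz hu h1]; rfl

theorem jump_pot (h : Body a U) {hh : ℝ}
    (hhex : ∀ p ∈ KU a U, ∀ q ∈ KU a U, ∀ r ∈ KU a U, cr p q + cr q r + cr p r ≤ hh)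
    (hV : ar (KU a U) ≤ 2 * hh) {o o' v u : ℝ × ℝ} (hu : u ≠ 0) (hz : v - o ∈ KU a U)
    (hz' : v - o' ∈ KU a U) :
    pot a U (v - o) u + cr o v ≤ pot a U (v - o') u + cr o' v + cr o o' +
      (if o = o' then 0 else hh - kap (KU a U) (ar (KU a U) - hh) o o' v u) := by
  have hV' : Vol a U ≤ 2 * hh := by
    rw [ar_KUP h] at hV; exact hV
  split_ifs with ho
  · subst ho
    have : cr o o = 0 := by unfold cr; ring
    rw [this]; linarith
  · have hal : cr (v - o') (v - o) = cr o v - cr o' v - cr o o' := by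
      unfold cr; simp only [Prod.fst_sub, Prod.snd_sub]; ring
    have key : cr (v - o') (v - o) + pot a U (v - o) u - pot a U (v - o') u ≤
        hh - kap (KU a U) (ar (KU a U) - hh) o o' v u := by
      have hVe : ar (KU a U) = Vol a U := ar_KUP h
      unfold kap sig
      by_cases hu1 : u.1 = 0
      · have hu2 : u.2 ≠ 0 := fun h2 => hu (Prod.ext hu1 h2)
        have g1 := J1v h hhex hV' hz hz'
        have g2 := J2v h hhex hV' hz hz'
        rw [capf_kv h hz hu1 hu2, capf_kv h hz' hu1 hu2, hVe]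
        unfold pot
        rw [if_pos hu1, if_pos hu1]
        rcases max_cases ((kv a U (v - o) + kv a U (v - o')) / 2)
          (Vol a U - hh - (kv a U (v - o) + kv a U (v - o'))) with ⟨g3, _⟩ | ⟨g3, _⟩ <;>
          rw [g3] <;> linarith
      · have g1 := J1 h hhex hV' (u.2 / u.1) hz hz'
        have g2 := J2 h hhex hV' (u.2 / u.1) hz hz'
        rw [capf_kf h _ hu1, capf_kf h _ hu1, hVe]
        unfold pot
        rw [if_neg hu1, if_neg hu1]
        rcases max_cases ((kf a U (v - o) (u.2 / u.1) + kf a U (v - o') (u.2 / u.1)) / 2)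
          (Vol a U - hh - (kf a U (v - o) (u.2 / u.1) + kf a U (v - o') (u.2 / u.1)))
          with ⟨g3, _⟩ | ⟨g3, _⟩ <;>
          rw [g3] <;> linarith
    rw [hal] at key
    linarith

theorem pot_neg (h : Body a U) {z : ℝ × ℝ} (hz : z ∈ KU a U) (u : ℝ × ℝ) :
    pot a U (-z) (-u) = pot a U z u := by
  unfold pot
  simp only [Prod.fst_neg, Prod.snd_neg, neg_eq_zero, neg_div_neg_eq]
  rw [Phmin_even h hz, Phi_even h hz]

theorem HsP_neg (z u : ℝ × ℝ) : Hs (-z) (-u) = -(Hs z u) := by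
  ext p
  have : cr (-u) (p - -z) = cr u (-p - z) := by
    unfold cr; simp only [Prod.fst_neg, Prod.snd_neg, Prod.fst_sub, Prod.snd_sub]; ring
  simp only [Hs, Set.mem_ofPred_eq, Set.mem_neg, this]

theorem gamP_neg (z u z' u' : ℝ × ℝ) :
    gam (KU a U) (-z) (-u) (-z') (-u') = gam (KU a U) z u z' u' := by
  unfold gam
  have hK : -(KU a U) = KU a U := by
    ext p
    rw [Set.mem_neg]
    exact ⟨fun hp => by simpa using KU_neg hp, fun hp => KU_neg hp⟩
  have : KU a U ∩ symmDiff (Hs (-z) (-u)) (Hs (-z') (-u')) =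
      -(KU a U ∩ symmDiff (Hs z u) (Hs z' u')) := by
    rw [HsP_neg, HsP_neg, Set.inter_neg, hK]
    congr 1
  rw [this, Measure.measure_neg]

theorem capP_neg (z u : ℝ × ℝ) : cap (KU a U) (-z) (-u) = cap (KU a U) z u := by
  unfold cap
  have hK : -(KU a U) = KU a U := by
    ext p
    rw [Set.mem_neg]
    exact ⟨fun hp => by simpa using KU_neg hp, fun hp => KU_neg hp⟩
  have : KU a U ∩ Hs (-z) (-u) = -(KU a U ∩ Hs z u) := by
    rw [HsP_neg, Set.inter_neg, hK]
  rw [this, Measure.measure_neg]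

end
end FT722
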