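import Mathlib
import Pool.Agent.FTfinal.FT722_Core
import Pool.Agent.FTfinal.FT722_M_P1
import Pool.Agent.FTfinal.FT722_M_P2
import Pool.Agent.FTfinal.FT722_M_P3
import Pool.Agent.FTfinal.FT722_M_P4
import Pool.Agent.FTfinal.FT722_M_P56
import Pool.Agent.FTfinal.FT722x_P7
import Pool.Agent.FTfinal.FT722_M_P8
import Pool.Agent.FTfinal.FT722_BodyFun
set_option autoImplicit false
open MeasureTheory Set
namespace FT722
noncomputable section
variable {K C : Set (ℝ × ℝ)} {h : ℝ}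

theorem htri_of_hex (H : Hyp K C h) : ∀ p ∈ K, ∀ q ∈ K, ∀ r ∈ K,
    |cr p q + cr q r + cr r p| ≤ h := by
  intro p hp q hq r hr
  rw [abs_le]
  constructor
  · have := H.hex q hq (-r) (H.Ksym r hr) p hp
    unfold cr at *
    simp only [Prod.fst_neg, Prod.snd_neg] at this
    linarith
  · have := H.hex p hp (-r) (H.Ksym r hr) q hq
    unfold cr at *
    simp only [Prod.fst_neg, Prod.snd_neg] at this
    linarith

/-- an injective family containing a given one -/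
theorem exists_inj {k : ℕ} (c : Fin k → ℝ × ℝ) :
    ∃ c' : Fin k → ℝ × ℝ, Function.Injective c' ∧ ∀ i, ∃ j, c' j = c i := by
  classical
  obtain ⟨t, ht1, ht2⟩ := Infinite.exists_superset_card_eq (Finset.univ.image c) k (by
    have := Finset.card_image_le (s := (Finset.univ : Finset (Fin k))) (f := c)
    simpa using this)
  have e : Fin k ≃ t := (finCongr ht2.symm).trans t.equivFin.symm
  refine ⟨fun i => (e i : ℝ × ℝ), fun i j hij => e.injective (Subtype.ext hij), ?_⟩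
  intro i
  have hi : c i ∈ t := ht1 (Finset.mem_image_of_mem c (Finset.mem_univ i))
  exact ⟨e.symm ⟨c i, hi⟩, by simp⟩

theorem mem_stns {k : ℕ} {U cm cp : ℝ → ℝ} {c : Fin k → ℝ × ℝ} {N : ℕ} {x μ ν : ℕ → ℝ}
    {L : ℕ → List (Fin k)} {bo tp : ℕ → Fin k} {s : Stn}
    (hs : s ∈ stns U cm cp c N x μ ν L bo tp) : ∃ i, s.o = c i := by
  unfold stns at hs
  simp only [List.mem_append, List.mem_cons, List.mem_map] at hs
  rcases hs with ((((rfl | ⟨j, _, rfl⟩) | (rfl | ⟨j, _, rfl⟩)) | (rfl | ⟨j, _, rfl⟩)) |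
    (rfl | ⟨j, _, rfl⟩))
  all_goals exact ⟨_, rfl⟩

theorem stns_v {k : ℕ} {U cm cp : ℝ → ℝ} {c : Fin k → ℝ × ℝ} {N : ℕ} {x μ ν : ℕ → ℝ}
    {L : ℕ → List (Fin k)} {bo tp : ℕ → Fin k} (h01 : x 0 ≠ x N) :
    ∃ s ∈ stns U cm cp c N x μ ν L bo tp, ∃ s' ∈ stns U cm cp c N x μ ν L bo tp, s.v ≠ s'.v := by
  refine ⟨⟨c (bo 0), (x 0, cm (x 0)), (0, -1), -(Real.pi / 2)⟩, ?_,
    ⟨c (bo (N - 1)), (x N, cm (x N)), (0, 1), Real.pi / 2⟩, ?_, ?_⟩
  · unfold stns
    simp only [List.mem_append, List.mem_cons, true_or]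
  · unfold stns
    simp only [List.mem_append, List.mem_cons, true_or, or_true]
  · intro he
    exact h01 (congrArg Prod.fst he)

theorem core_reg {k : ℕ} {a s0 s1 : ℝ} {U cm cp : ℝ → ℝ} {c : Fin k → ℝ × ℝ} (hB : Body a U)
    (H : Hyp (KU a U) (reg s0 s1 cm cp) h) (hinj : Function.Injective c) (h01 : s0 < s1)
    (hcm : ConvexOn ℝ (Icc s0 s1) cm) (hcmc : ContinuousOn cm (Icc s0 s1))
    (hcp : ConcaveOn ℝ (Icc s0 s1) cp) (hcpc : ContinuousOn cp (Icc s0 s1))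
    (hle : ∀ s ∈ Icc s0 s1, cm s ≤ cp s)
    (hcov : ∀ p ∈ reg s0 s1 cm cp, ∃ i, p - c i ∈ KU a U) (hk : 2 ≤ k)
    (IH : k = 3 → ∀ C' : Set (ℝ × ℝ), IsCompact C' → Convex ℝ C' → (interior C').Nonempty →
      ∀ o o' : ℝ × ℝ, (∀ p ∈ C', p - o ∈ KU a U ∨ p - o' ∈ KU a U) → ar C' ≤ 2 * h) :
    ar (reg s0 s1 cm cp) ≤ k * h := by
  have hk2 : (2 : ℝ) ≤ k := by exact_mod_cast hk
  have hh := H.hpos
  have hV := vol_le_four_thirds H
  obtain ⟨N, x, L, bo, tp, S, hF, hnb⟩ := exists_sweep (c := c) (h := h) hB hh.le (htri_of_hex H) hinj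
    h01 hcm hcmc hcp hcpc hle (by
      intro s hs y hy1 hy2
      obtain ⟨i, hi⟩ := hcov (s, y) ⟨hs, hy1, hy2⟩
      obtain ⟨h1, h2, h3⟩ := hi
      simp only [Prod.fst_sub, Prod.snd_sub] at h1 h2 h3
      refine ⟨i, h1, ?_, ?_⟩
      · unfold lo
        have : -(s - (c i).1) = (c i).1 - s := by ring
        rw [this] at h2
        linarith
      · unfold hi
        linarith)
  obtain ⟨μ, ν, hsl⟩ := exists_slopes S
  have hRI := stns_RI S hsl H.hex (by linarith)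
  have hx : x 0 ≠ x N := by rw [S.hx0, S.hxN]; exact h01.ne
  rcases compress H _ (stns_arc S hsl) (stns_angs S hsl) (stns_v hx) with h1 | ⟨l, hsub, hA, hang, hne, hv, hRIl, hcr, hlen⟩
  · nlinarith
  · have hlen' : l.length = nb N L bo tp := by
      have := stns_nb (μ := μ) (ν := ν) S
      rw [this] at hlen
      exact_mod_cast hlen
    refine cases_len hA hne hang hv H hk (by omega) (hRIl hRI) ?_ c ?_ IH
    · rw [hcr, stns_cr S, hlen']
      exact hF
    · intro s hs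
      exact mem_stns (hsub.subset hs)

/-- the body as a region `KU` -/
theorem exists_KU (Kc : IsCompact K) (Kconv : Convex ℝ K) (Ksym : ∀ p ∈ K, -p ∈ K)
    (Kint : (interior K).Nonempty) : ∃ (a : ℝ) (U : ℝ → ℝ), Body a U ∧ K = KU a U := by
  obtain ⟨z, hz⟩ := Kint
  have h0 : (0 : ℝ × ℝ) ∈ interior K := by
    have hz' : -z ∈ K := Ksym z (interior_subset hz)
    have := Kconv.combo_interior_self_mem_interior hz hz' (a := 1 / 2) (b := 1 / 2) (by norm_num)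
      (by norm_num) (by norm_num)
    simpa using this
  obtain ⟨r, hr, hball⟩ := Metric.isOpen_iff.mp isOpen_interior 0 h0
  have hbox : ∀ p : ℝ × ℝ, |p.1| ≤ r / 2 → |p.2| ≤ r / 2 → p ∈ K := by
    intro p h1 h2
    apply interior_subset
    apply hball
    rw [Metric.mem_ball, dist_zero_right, Prod.norm_def, max_lt_iff, Real.norm_eq_abs,
      Real.norm_eq_abs]
    constructor <;> linarith
  obtain ⟨a', b', f, g, hab, hf, hg, hfc, hgc, hfg, hK⟩ := body_functions Kc Kconv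
    ⟨z, interior_subset hz⟩
  have hmem : ∀ p : ℝ × ℝ, p ∈ K ↔ p.1 ∈ Icc a' b' ∧ f p.1 ≤ p.2 ∧ p.2 ≤ g p.1 := by
    intro p; rw [hK]; rfl
  have ha' : a' = -b' := by
    have h1 : (a', f a') ∈ K := (hmem _).mpr ⟨⟨le_rfl, hab⟩, le_rfl, hfg _ ⟨le_rfl, hab⟩⟩
    have h2 : (b', f b') ∈ K := (hmem _).mpr ⟨⟨hab, le_rfl⟩, le_rfl, hfg _ ⟨hab, le_rfl⟩⟩
    have h3 := ((hmem _).mp (Ksym _ h1)).1.2
    have h4 := ((hmem _).mp (Ksym _ h2)).1.1
    simp only [Prod.fst_neg] at h3 h4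
    linarith
  subst ha'
  have hneg : ∀ x ∈ Icc (-b') b', -x ∈ Icc (-b') b' := fun x hx => ⟨by linarith [hx.2], by linarith [hx.1]⟩
  have hfU : ∀ x ∈ Icc (-b') b', f x = -g (-x) := by
    intro x hx
    have h1 : (x, f x) ∈ K := (hmem _).mpr ⟨hx, le_rfl, hfg _ hx⟩
    have h2 : (-x, g (-x)) ∈ K := (hmem _).mpr ⟨hneg x hx, hfg _ (hneg x hx), le_rfl⟩
    have h3 := ((hmem _).mp (Ksym _ h1)).2.2
    have h4 := ((hmem _).mp (Ksym _ h2)).2.1
    simp only [Prod.fst_neg, Prod.snd_neg, neg_neg] at h3 h4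
    linarith
  have hpos : 0 < b' := by
    have h1 : (r / 2, 0) ∈ K := hbox _ (by
      show |r / 2| ≤ r / 2
      rw [abs_of_pos (by positivity)]) (by
      show |(0 : ℝ)| ≤ r / 2
      rw [abs_zero]; positivity)
    have := ((hmem _).mp h1).1.2
    simp only at this
    linarith
  have hKU : K = KU b' g := by
    ext p
    rw [hmem]
    constructor
    · rintro ⟨h1, h2, h3⟩
      refine ⟨abs_le.mpr h1, ?_, h3⟩
      rw [← hfU _ h1]; exact h2
    · rintro ⟨h1, h2, h3⟩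
      have h1' := abs_le.mp h1
      refine ⟨h1', ?_, h3⟩
      rw [hfU _ h1']; exact h2
  refine ⟨b', g, ⟨hpos, hg, hgc, ?_, r / 2, by positivity, ?_⟩, hKU⟩
  · intro x hx
    have h1 := hfg x hx
    rw [hfU x hx] at h1
    linarith
  · intro p h1 h2
    rw [← hKU]
    exact hbox p h1 h2

theorem planar_aux {k : ℕ} (hk : 2 ≤ k) (H : Hyp K C h) (c : Fin k → ℝ × ℝ)
    (hcov : ∀ p ∈ C, ∃ i, p - c i ∈ K)
    (IH : k = 3 → ∀ C' : Set (ℝ × ℝ), IsCompact C' → Convex ℝ C' → (interior C').Nonempty →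
      ∀ o o' : ℝ × ℝ, (∀ p ∈ C', p - o ∈ K ∨ p - o' ∈ K) → ar C' ≤ 2 * h) :
    ar C ≤ k * h := by
  obtain ⟨a, U, hB, hKU⟩ := exists_KU H.Kc H.Kconv H.Ksym H.Kint
  subst hKU
  obtain ⟨c', hinj, hc'⟩ := exists_inj c
  obtain ⟨w, hw⟩ := H.Cint
  obtain ⟨s0, s1, f, g, hab, hf, hg, hfc, hgc, hfg, hC⟩ := body_functions H.Cc H.Cconv
    ⟨w, interior_subset hw⟩
  have hCr : C = reg s0 s1 f g := hC
  have h01 : s0 < s1 := by
    obtain ⟨r, hr, hball⟩ := Metric.isOpen_iff.mp isOpen_interior w hw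
    have h1 : (w.1 + r / 2, w.2) ∈ C := by
      apply interior_subset
      apply hball
      rw [Metric.mem_ball, Prod.dist_eq, max_lt_iff, Real.dist_eq, Real.dist_eq]
      constructor
      · simp only [add_sub_cancel_left]; rw [abs_of_pos (by positivity)]; linarith
      · simp; exact hr
    have h2 : w ∈ C := interior_subset hw
    rw [hCr] at h1 h2
    have e1 := h1.1.2
    have e2 := h2.1.1
    simp only at e1
    linarith
  subst hCr
  refine core_reg hB H hinj h01 hf hfc hg hgc hfg ?_ hk IH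
  intro p hp
  obtain ⟨i, hi⟩ := hcov p hp
  obtain ⟨j, hj⟩ := hc' i
  exact ⟨j, by rw [hj]; exact hi⟩

/-- **the planar theorem**: `V(C) ≤ k h(K)` -/
theorem planar {k : ℕ} (hk : 2 ≤ k) (H : Hyp K C h) (c : Fin k → ℝ × ℝ)
    (hcov : ∀ p ∈ C, ∃ i, p - c i ∈ K) : ar C ≤ k * h := by
  refine planar_aux hk H c hcov ?_
  intro _ C' h1 h2 h3 o o' hc'
  have H' : Hyp K C' h := ⟨H.Kc, H.Kconv, H.Ksym, H.Kint, h1, h2, h3, H.hpos, H.hex⟩
  have := planar_aux (k := 2) le_rfl H' ![o, o'] (by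
    intro p hp
    rcases hc' p hp with h | h
    · exact ⟨0, h⟩
    · exact ⟨1, h⟩) (by intro h; omega)
  exact_mod_cast this

end
end FT722
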