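import Mathlib
import Pool.Agent.FTfinal.FT722_Planar
import Pool.Agent.FTfinal.FT722_MaxHex
import Pool.Agent.FTfinal.FT722_LatticeCover
import Pool.Agent.FTfinal.FT722_LatticeDensity
set_option autoImplicit false
open MeasureTheory Set
namespace FT722
noncomputable section

abbrev E2 := EuclideanSpace ℝ (Fin 2)

/-- coordinates -/
def phi : E2 ≃L[ℝ] ℝ × ℝ :=
  (EuclideanSpace.equiv (Fin 2) ℝ).trans (ContinuousLinearEquiv.finTwoArrow ℝ ℝ)

theorem phi_apply (x : E2) : phi x = (x 0, x 1) := rfl

theorem phi_mp : MeasurePreserving (phi : E2 → ℝ × ℝ) volume volume := by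
  have h1 := EuclideanSpace.volume_preserving_symm_measurableEquiv_toLp (Fin 2)
  have h2 := volume_preserving_finTwoArrow ℝ
  exact h2.comp h1

theorem vol_image (S : Set E2) : volume (phi '' S) = volume S := by
  have h := phi_mp.measure_preimage_equiv (f := phi.toHomeomorph.toMeasurableEquiv) (phi '' S)
  rw [← h]
  congr 1
  exact (Set.preimage_image_eq S phi.injective)

theorem vol_sub (S : Set E2) (c : E2) : volume ((fun x => x - c) '' S) = volume S := by
  have : (fun x : E2 => x - c) '' S = (fun x => x + c) ⁻¹' S := by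
    ext y
    constructor
    · rintro ⟨x, hx, rfl⟩; simpa using hx
    · intro hy; exact ⟨y + c, hy, by simp⟩
  rw [this, measure_preimage_add_right]

/-- the reduction of the frozen statement to the planar area inequality -/
theorem reduction (K : Set E2) (hK : IsCompact K) (hKc : Convex ℝ K) (hKi : (interior K).Nonempty)
    (hs : ∃ c : E2, ∀ x ∈ K, (2 : ℝ) • c - x ∈ K) (k : ℕ) (hk : 1 ≤ k) (C : Set E2)
    (hC : IsCompact C) (hCc : Convex ℝ C) (hCi : (interior C).Nonempty) (t : Fin k → E2)
    (hcov : C ⊆ ⋃ i, (fun x => t i + x) '' K)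
    (hmain : ∀ (K' C' : Set (ℝ × ℝ)) (h : ℝ), Hyp K' C' h →
      (∃ u ∈ K', ∃ v ∈ K', ∃ w ∈ K', cr u v + cr v w + cr u w = h) →
      ∀ c : Fin k → ℝ × ℝ, (∀ p ∈ C', ∃ i, p - c i ∈ K') → ar C' ≤ k * h) :
    (⨅ T : Set (EuclideanSpace ℝ (Fin 2)),
            ⨅ (_ : (⋃ s ∈ T, (fun x => s + x) '' K) = Set.univ),
              Filter.liminf
                (fun r : ℝ =>
                  ((T ∩ Metric.ball (0 : EuclideanSpace ℝ (Fin 2)) r).encard : ENNReal)
                    * MeasureTheory.volume K
                    / MeasureTheory.volume (Metric.ball (0 : EuclideanSpace ℝ (Fin 2)) r))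
                Filter.atTop)
          ≤ (k : ENNReal) * MeasureTheory.volume K / MeasureTheory.volume C := by
  obtain ⟨c0, hc0⟩ := hs
  set K' : Set (ℝ × ℝ) := phi '' ((fun x => x - c0) '' K) with hK'
  set C' : Set (ℝ × ℝ) := phi '' C with hC'
  have hmem : ∀ p : ℝ × ℝ, p ∈ K' ↔ phi.symm p + c0 ∈ K := by
    intro p
    constructor
    · rintro ⟨y, ⟨x, hx, rfl⟩, rfl⟩
      simpa using hx
    · intro hp
      exact ⟨phi.symm p, ⟨phi.symm p + c0, hp, by simp⟩, by simp⟩
  have k1 : IsCompact K' := (hK.image (by fun_prop)).image phi.continuous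
  have k2 : Convex ℝ K' := by
    have : Convex ℝ ((fun x => x - c0) '' K) := by
      have h1 := hKc.translate (-c0)
      have h2 : (fun x : E2 => x - c0) '' K = (fun x => -c0 + x) '' K := by
        apply Set.image_congr
        intro x _
        rw [sub_eq_add_neg, add_comm]
      rw [h2]
      exact h1
    exact this.linear_image phi.toLinearEquiv.toLinearMap
  have k3 : ∀ p ∈ K', -p ∈ K' := by
    intro p hp
    rw [hmem] at hp ⊢
    have h1 := hc0 _ hp
    have h2 : phi.symm (-p) + c0 = (2 : ℝ) • c0 - (phi.symm p + c0) := by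
      rw [map_neg, two_smul]
      abel
    rw [h2]
    exact h1
  have k4 : (interior K').Nonempty := by
    have h1 : interior K' = phi '' (interior ((fun x => x - c0) '' K)) := by
      rw [hK']; exact (phi.toHomeomorph.image_interior _).symm
    have h2 : interior ((fun x => x - c0) '' K) = (fun x => x - c0) '' interior K := by
      exact ((Homeomorph.subRight c0).image_interior K).symm
    rw [h1, h2]
    exact (hKi.image _).image _
  have c1 : IsCompact C' := hC.image phi.continuous
  have c2 : Convex ℝ C' := hCc.linear_image phi.toLinearEquiv.toLinearMap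
  have c3 : (interior C').Nonempty := by
    have h1 : interior C' = phi '' (interior C) := (phi.toHomeomorph.image_interior _).symm
    rw [h1]
    exact hCi.image _
  obtain ⟨u, hu, v, hv, w, hw, h1, h2, h3, hpos, hmax⟩ := exists_max_hex k1 k2 k3 k4
  set h := cr u v + cr v w + cr u w with hh
  have hcov' : ∀ p ∈ C', ∃ i, p - phi (t i + c0) ∈ K' := by
    rintro p ⟨x, hx, rfl⟩
    obtain ⟨i, y, hy, hyx⟩ := mem_iUnion.mp (hcov hx)
    refine ⟨i, ?_⟩
    rw [hmem, ← map_sub, ContinuousLinearEquiv.symm_apply_apply]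
    simp only at hyx
    rw [← hyx]
    convert hy using 1
    abel
  have hArea : ar C' ≤ k * h := hmain K' C' h
    ⟨k1, k2, k3, k4, c1, c2, c3, hpos, fun p hp q hq r hr => hmax p hp q hq r hr⟩
    ⟨u, hu, v, hv, w, hw, rfl⟩ (fun i => phi (t i + c0)) hcov'
  have hvolC : volume C = ENNReal.ofReal (ar C') := by
    rw [← vol_image C]
    exact (ENNReal.ofReal_toReal c1.measure_lt_top.ne).symm
  have hvolC' : volume C ≤ k * ENNReal.ofReal h := by
    rw [hvolC, ← ENNReal.ofReal_natCast, ← ENNReal.ofReal_mul (by positivity)]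
    exact ENNReal.ofReal_le_ofReal hArea
  -- the lattice
  set a : E2 := phi.symm (u + v) with ha
  set b : E2 := phi.symm (v + w) with hb
  have ha0 : a 0 = (u + v).1 ∧ a 1 = (u + v).2 := by
    have : phi a = u + v := by rw [ha]; simp
    rw [phi_apply] at this
    exact ⟨congrArg Prod.fst this, congrArg Prod.snd this⟩
  have hb0 : b 0 = (v + w).1 ∧ b 1 = (v + w).2 := by
    have : phi b = v + w := by rw [hb]; simp
    rw [phi_apply] at this
    exact ⟨congrArg Prod.fst this, congrArg Prod.snd this⟩
  have hdet : a 0 * b 1 - a 1 * b 0 = h := by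
    rw [ha0.1, ha0.2, hb0.1, hb0.2, hh]
    unfold cr
    simp only [Prod.fst_add, Prod.snd_add]
    ring
  refine le_trans (iInf₂_le {p : E2 | ∃ m n : ℤ, p = (m : ℝ) • a + (n : ℝ) • b} ?_) ?_
  · rw [eq_univ_iff_forall]
    intro x
    obtain ⟨m, n, hmn⟩ := lattice_cover k2 k3 hu hv hw h1 h2 h3 hpos (phi (x - c0))
    rw [hmem] at hmn
    simp only [mem_iUnion]
    refine ⟨(m : ℝ) • a + (n : ℝ) • b, ⟨m, n, rfl⟩, _, hmn, ?_⟩
    simp only [map_sub, map_add, map_smul, ContinuousLinearEquiv.symm_apply_apply, ha, hb]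
    abel
  · refine le_trans (LD.lattice_density a b h hpos hdet (volume K) hK.measure_lt_top.ne) ?_
    have hk0 : (k : ENNReal) ≠ 0 := by
      rw [Nat.cast_ne_zero]; omega
    calc volume K / ENNReal.ofReal h = (k * volume K) / (k * ENNReal.ofReal h) :=
          (ENNReal.mul_div_mul_left _ _ hk0 (ENNReal.natCast_ne_top k)).symm
      _ ≤ k * volume K / volume C := ENNReal.div_le_div_left hvolC' _

end
end FT722
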